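import Mathlib
import Pool.Agent.Helper602.PNT

open Filter Topology Finset

namespace Pool.Agent.Helper602.Est

/-- Chebyshev upper bound from the PNT -/
lemma cheb : ∃ C : ℝ, 0 < C ∧ ∀ x : ℕ, 2 ≤ x → (Nat.primeCounting x : ℝ) ≤ C * x / Real.log x := by
  have h1 : Tendsto (fun n : ℕ => (Nat.primeCounting n : ℝ) * Real.log n / n) atTop (𝓝 1) := by
    have := PNT.pi_tendsto.comp tendsto_natCast_atTop_atTop (α := ℕ)
    refine this.congr fun n => ?_
    simp
  have h2 := h1.eventually (gt_mem_nhds (show (1:ℝ) < 2 by norm_num))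
  obtain ⟨N, hN⟩ := eventually_atTop.mp h2
  have hNl : 0 ≤ Real.log ((N:ℝ) + 2) := Real.log_nonneg (by
    have : (0:ℝ) ≤ N := Nat.cast_nonneg _
    linarith)
  refine ⟨2 + N * (Real.log (N + 2)), by positivity, ?_⟩
  intro x hx
  have hx0 : (0:ℝ) < x := by
    have : 0 < x := by omega
    exact_mod_cast this
  have hl : 0 < Real.log x := Real.log_pos (by
    have : 1 < x := by omega
    exact_mod_cast this)
  rw [le_div_iff₀ hl]
  rcases le_or_gt N x with h | h
  · have h3 := hN x h
    rw [div_lt_iff₀ hx0] at h3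
    have : 0 ≤ N * Real.log (N + 2) * x := by positivity
    nlinarith
  · have h3 : (Nat.primeCounting x : ℝ) ≤ x := by
      have : Nat.primeCounting x ≤ x := by
        rw [Nat.primeCounting, Nat.primeCounting', Nat.count_succ]
        have h1 : Nat.count Nat.Prime x ≤ x := Nat.count_le _
        have h2 : Nat.count Nat.Prime x ≤ x - 1 := by
          obtain ⟨y, rfl⟩ : ∃ y, x = y + 1 := ⟨x - 1, by omega⟩
          rw [Nat.count_succ']
          have h3 : Nat.count (fun k => Nat.Prime (k + 1)) y ≤ y := Nat.count_le _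
          simpa [Nat.not_prime_zero] using h3
        split <;> omega
      exact_mod_cast this
    have h4 : Real.log x ≤ Real.log (N + 2) := by
      apply Real.log_le_log hx0
      have : (x:ℝ) ≤ N := by exact_mod_cast h.le
      linarith
    have h5 : (1:ℝ) ≤ N := by
      have : 1 ≤ N := by omega
      exact_mod_cast this
    calc (Nat.primeCounting x : ℝ) * Real.log x ≤ x * Real.log (N + 2) := by gcongr
      _ ≤ N * (x * Real.log (N + 2)) := by
          have : 0 ≤ x * Real.log (N + 2) := by positivity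
          nlinarith
      _ ≤ (2 + N * Real.log (N + 2)) * x := by nlinarith

/-- primes up to `x` -/
def Pr (x : ℕ) : Finset ℕ := (range (x + 1)).filter Nat.Prime

lemma mem_Pr {x p : ℕ} : p ∈ Pr x ↔ p.Prime ∧ p ≤ x := by
  simp only [Pr, mem_filter, mem_range, Nat.lt_succ_iff]; tauto

lemma card_Pr (x : ℕ) : (Pr x).card = Nat.primeCounting x := by
  rw [Pr, Nat.primeCounting, Nat.primeCounting', Nat.count_eq_card_filter_range]

lemma sum_geom (I : ℕ) : ∑ i ∈ range I, ((i:ℝ) + 3) / 2 ^ (i + 1) = 4 - (I + 4) / 2 ^ I := by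
  induction I with
  | zero => norm_num
  | succ I ih =>
    rw [sum_range_succ, ih]
    push_cast
    field_simp
    ring

/-- `∑_{p ≤ x} ⌊log₂(x/p)⌋ ≪ x / log x` -/
lemma sumlog0 : ∃ C : ℝ, 0 < C ∧ ∀ x : ℕ, 2 ≤ x →
    ((∑ p ∈ Pr x, Nat.log 2 (x / p) : ℕ) : ℝ) ≤ C * x / Real.log x := by
  obtain ⟨C, hC, hc⟩ := cheb
  refine ⟨4 * C, by positivity, ?_⟩
  intro x hx
  have hx0 : (0:ℝ) < x := by
    have : 0 < x := by omega
    exact_mod_cast this
  have hl : 0 < Real.log x := Real.log_pos (by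
    have : 1 < x := by omega
    exact_mod_cast this)
  have h1 : ∑ p ∈ Pr x, Nat.log 2 (x / p) = ∑ i ∈ range (Nat.log 2 x), Nat.primeCounting (x / 2 ^ (i + 1)) := by
    have h2 : ∀ p ∈ Pr x, Nat.log 2 (x / p) = ∑ i ∈ range (Nat.log 2 x), if 2 ^ (i + 1) * p ≤ x then 1 else 0 := by
      intro p hp
      obtain ⟨hp1, hp2⟩ := mem_Pr.mp hp
      rw [← card_filter]
      have h3 : (range (Nat.log 2 x)).filter (fun i => 2 ^ (i + 1) * p ≤ x) = range (Nat.log 2 (x / p)) := by
        ext i
        rw [mem_filter, mem_range, mem_range]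
        have h4 : 1 ≤ x / p := (Nat.one_le_div_iff hp1.pos).mpr hp2
        constructor
        · rintro ⟨_, h5⟩
          have h6 : 2 ^ (i + 1) ≤ x / p := by
            rw [Nat.le_div_iff_mul_le hp1.pos]; exact h5
          have := Nat.le_log_of_pow_le (by norm_num) h6
          omega
        · intro h5
          have h6 : 2 ^ (i + 1) ≤ x / p := Nat.pow_le_of_le_log (by omega) (by omega)
          refine ⟨?_, (Nat.le_div_iff_mul_le hp1.pos).mp h6⟩
          exact lt_of_lt_of_le h5 (Nat.log_mono_right (Nat.div_le_self _ _))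
      rw [h3, card_range]
    rw [sum_congr rfl h2, sum_comm]
    refine sum_congr rfl fun i _ => ?_
    rw [← card_filter, ← card_Pr]
    congr 1
    ext p
    rw [mem_filter, mem_Pr, mem_Pr]
    constructor
    · rintro ⟨⟨h3, h4⟩, h5⟩
      refine ⟨h3, ?_⟩
      rw [Nat.le_div_iff_mul_le (by positivity), mul_comm]
      exact h5
    · rintro ⟨h3, h4⟩
      rw [Nat.le_div_iff_mul_le (by positivity), mul_comm] at h4
      refine ⟨⟨h3, ?_⟩, h4⟩
      exact le_trans (Nat.le_mul_of_pos_left _ (by positivity)) h4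
  rw [h1]
  push_cast
  have h2 : ∀ i ∈ range (Nat.log 2 x), (Nat.primeCounting (x / 2 ^ (i + 1)) : ℝ)
      ≤ C * x / Real.log x * (((i:ℝ) + 3) / 2 ^ (i + 1)) := by
    intro i hi
    rw [mem_range] at hi
    have hRHS : 0 ≤ C * x / Real.log x * (((i:ℝ) + 3) / 2 ^ (i + 1)) := by positivity
    rcases Nat.lt_or_ge (x / 2 ^ (i + 1)) 2 with h | h
    · have h3 : Nat.primeCounting (x / 2 ^ (i + 1)) = 0 := by
        rw [Nat.primeCounting_eq_zero_iff]
        omega
      rw [h3]
      exact_mod_cast hRHS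
    · have h3 := hc _ h
      have hlog : Real.log 2 ≤ Real.log ((x / 2 ^ (i + 1) : ℕ) : ℝ) :=
        Real.log_le_log (by norm_num) (by exact_mod_cast h)
      have hl2 : 0 < Real.log 2 := Real.log_pos (by norm_num)
      -- use the monotonicity: t / log t evaluated at floor
      set y : ℕ := x / 2 ^ (i + 1) with hy
      have hy0 : (0:ℝ) < y := by
        have : 0 < y := by omega
        exact_mod_cast this
      have hyx : (y:ℝ) ≤ x / 2 ^ (i + 1) := by
        have := @Nat.cast_div_le ℝ _ _ _ x (2 ^ (i + 1))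
        push_cast at this
        exact this
      have hyx2 : (x:ℝ) / 2 ^ (i + 2) ≤ y := by
        have h4 : x < 2 ^ (i + 1) * (y + 1) := Nat.lt_mul_div_succ _ (by positivity)
        have h5 : x ≤ 2 ^ (i + 2) * y := by
          have : 2 ^ (i + 1) * (y + 1) ≤ 2 ^ (i + 1) * (2 * y) := Nat.mul_le_mul_left _ (by omega)
          have e : 2 ^ (i + 2) * y = 2 ^ (i + 1) * (2 * y) := by ring
          omega
        rw [div_le_iff₀ (by positivity), mul_comm]
        exact_mod_cast h5
      have hly : 0 < Real.log y := by linarith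
      have hlx : Real.log x ≤ ((i:ℝ) + 3) * Real.log y := by
        have h5 : (x:ℝ) ≤ 2 ^ (i + 2) * y := by
          rw [div_le_iff₀ (by positivity)] at hyx2
          linarith
        have h6 := Real.log_le_log hx0 h5
        rw [Real.log_mul (by positivity) hy0.ne', Real.log_pow] at h6
        push_cast at h6
        have h7 : ((i:ℝ) + 2) * Real.log 2 ≤ ((i:ℝ) + 2) * Real.log y := by gcongr
        linarith
      refine h3.trans ?_
      rw [div_le_iff₀ hly]
      have e : C * x / Real.log x * (((i:ℝ) + 3) / 2 ^ (i + 1)) * Real.log y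
          = (C * (x / 2 ^ (i + 1))) * (((i + 3) * Real.log y) / Real.log x) := by ring
      rw [e]
      have h8 : 1 ≤ (((i:ℝ) + 3) * Real.log y) / Real.log x := by
        rw [le_div_iff₀ hl]; linarith
      calc C * (y:ℝ) ≤ C * (x / 2 ^ (i + 1)) := by gcongr
        _ = (C * (x / 2 ^ (i + 1))) * 1 := by ring
        _ ≤ _ := by
          refine mul_le_mul_of_nonneg_left h8 (by positivity)
  refine (sum_le_sum h2).trans ?_
  rw [← mul_sum, sum_geom]
  have h3 : (4:ℝ) - (((Nat.log 2 x : ℕ):ℝ) + 4) / 2 ^ (Nat.log 2 x) ≤ 4 := by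
    have : (0:ℝ) ≤ (((Nat.log 2 x : ℕ):ℝ) + 4) / 2 ^ (Nat.log 2 x) := by positivity
    linarith
  calc C * x / Real.log x * (4 - (((Nat.log 2 x : ℕ):ℝ) + 4) / 2 ^ (Nat.log 2 x))
      ≤ C * x / Real.log x * 4 := mul_le_mul_of_nonneg_left h3 (by positivity)
    _ = 4 * C * x / Real.log x := by ring

/-- `∑_{p ≤ x} (⌊log₂(y/p)⌋ + 1) ≪ x / log x * (1 + log (y/x))` -/
lemma sumlog : ∃ C : ℝ, 0 < C ∧ ∀ x y : ℕ, 2 ≤ x → x ≤ y →
    ∑ p ∈ Pr x, ((Nat.log 2 (y / p) : ℝ) + 1) ≤ C * (x / Real.log x) * (1 + Real.log (y / x)) := by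
  obtain ⟨C, hC, hc⟩ := cheb
  obtain ⟨C', hC', hc'⟩ := sumlog0
  have hl2 : 0 < Real.log 2 := Real.log_pos (by norm_num)
  refine ⟨2 * C + C / Real.log 2 + C', by positivity, ?_⟩
  intro x y hx hxy
  have hx0 : (0:ℝ) < x := by
    have : 0 < x := by omega
    exact_mod_cast this
  have hl : 0 < Real.log x := Real.log_pos (by
    have : 1 < x := by omega
    exact_mod_cast this)
  have hyx : (1:ℝ) ≤ (y:ℝ) / x := by
    rw [le_div_iff₀ hx0, one_mul]; exact_mod_cast hxy
  have hlyx : 0 ≤ Real.log ((y:ℝ) / x) := Real.log_nonneg hyx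
  have h1 : ∀ p ∈ Pr x, ((Nat.log 2 (y / p) : ℝ) + 1)
      ≤ (Nat.log 2 (x / p) : ℝ) + (2 + Real.log (y / x) / Real.log 2) := by
    intro p hp
    obtain ⟨hp1, hp2⟩ := mem_Pr.mp hp
    have hp0 : (0:ℝ) < p := by exact_mod_cast hp1.pos
    have hy1 : 1 ≤ y / p := (Nat.one_le_div_iff hp1.pos).mpr (hp2.trans hxy)
    have hx1 : 1 ≤ x / p := (Nat.one_le_div_iff hp1.pos).mpr hp2
    have h2 : (2:ℝ) ^ Nat.log 2 (y / p) ≤ y / p := by
      have h3 : 2 ^ Nat.log 2 (y / p) ≤ y / p := Nat.pow_log_le_self 2 (by omega)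
      calc (2:ℝ) ^ Nat.log 2 (y / p) ≤ ((y / p : ℕ) : ℝ) := by exact_mod_cast h3
        _ ≤ y / p := Nat.cast_div_le
    have h3 : (x:ℝ) / p ≤ 2 ^ (Nat.log 2 (x / p) + 1) := by
      have h4 : x / p + 1 ≤ 2 ^ (Nat.log 2 (x / p) + 1) := Nat.lt_pow_succ_log_self (by norm_num) _
      have h5 : x < p * (x / p + 1) := Nat.lt_mul_div_succ _ hp1.pos
      have h6 : x ≤ p * 2 ^ (Nat.log 2 (x / p) + 1) := h5.le.trans (Nat.mul_le_mul_left _ h4)
      rw [div_le_iff₀ hp0, mul_comm]
      exact_mod_cast h6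
    have h4 : (2:ℝ) ^ Nat.log 2 (y / p) ≤ (y / x) * 2 ^ (Nat.log 2 (x / p) + 1) := by
      calc (2:ℝ) ^ Nat.log 2 (y / p) ≤ y / p := h2
        _ = (y / x) * (x / p) := by field_simp
        _ ≤ _ := by
          refine mul_le_mul_of_nonneg_left h3 (by positivity)
    have h5 := Real.log_le_log (by positivity) h4
    rw [Real.log_mul (by positivity) (by positivity), Real.log_pow, Real.log_pow] at h5
    push_cast at h5
    have h6 : (Nat.log 2 (y / p) : ℝ) ≤ Real.log (y / x) / Real.log 2 + (Nat.log 2 (x / p) + 1) := by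
      have h7 : Real.log (y / x) / Real.log 2 + ((Nat.log 2 (x / p) : ℝ) + 1)
          = (Real.log (y / x) + ((Nat.log 2 (x / p) : ℝ) + 1) * Real.log 2) / Real.log 2 := by
        field_simp
      rw [h7, le_div_iff₀ hl2]
      linarith
    linarith
  refine (sum_le_sum h1).trans ?_
  rw [sum_add_distrib, sum_const, card_Pr, nsmul_eq_mul]
  have h2 := hc x hx
  have h3 := hc' x hx
  push_cast at h3
  have h4 : 0 ≤ x / Real.log x := by positivity
  have e1 : C * x / Real.log x = C * (x / Real.log x) := by ring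
  have e2 : C' * x / Real.log x = C' * (x / Real.log x) := by ring
  rw [e1] at h2
  rw [e2] at h3
  have h5 : (Nat.primeCounting x : ℝ) * (2 + Real.log (y / x) / Real.log 2)
      ≤ C * (x / Real.log x) * (2 + Real.log (y / x) / Real.log 2) := by
    refine mul_le_mul_of_nonneg_right h2 ?_
    positivity
  have h6 : C * (x / Real.log x) * (2 + Real.log (y / x) / Real.log 2)
      = (2 * C) * (x / Real.log x) + (C / Real.log 2) * (x / Real.log x) * Real.log (y / x) := by
    ring
  have h7 : 0 ≤ (2 * C) * (x / Real.log x) * Real.log (y / x) := by positivity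
  have h8 : 0 ≤ (C / Real.log 2) * (x / Real.log x) := by positivity
  have h9 : 0 ≤ C' * (x / Real.log x) * Real.log (y / x) := by positivity
  nlinarith

/-- few elements of a short interval have a big prime factor -/
lemma bad_card {x h y : ℕ} (hh : 0 < h) (hhy : h ≤ y) (S : Finset ℕ)
    (hS : ∀ s ∈ S, x < s ∧ s ≤ x + h ∧ ∃ p, p.Prime ∧ y < p ∧ p ∣ s) :
    (S.card : ℝ) * Real.log y ≤ h * (1 + Real.log (((x:ℝ) + h) / h)) := by
  classical
  have hh0 : (0:ℝ) < h := by exact_mod_cast hh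
  have hex : ∀ s ∈ S, ∃ p, p.Prime ∧ y < p ∧ p ∣ s := fun s hs => (hS s hs).2.2
  choose! f hf using hex
  have hinj : Set.InjOn f S := by
    intro s hs s' hs' h
    rw [mem_coe] at hs hs'
    obtain ⟨h1, h2, h3⟩ := hf s hs
    obtain ⟨h1', h2', h3'⟩ := hf s' hs'
    rw [← h] at h3'
    have a := hS s hs
    have a' := hS s' hs'
    rcases le_total s s' with hle | hle
    · have h4 : f s ∣ s' - s := Nat.dvd_sub h3' h3
      rcases Nat.eq_zero_or_pos (s' - s) with h5 | h5
      · omega
      · have := Nat.le_of_dvd h5 h4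
        omega
    · have h4 : f s ∣ s - s' := Nat.dvd_sub h3 h3'
      rcases Nat.eq_zero_or_pos (s - s') with h5 | h5
      · omega
      · have := Nat.le_of_dvd h5 h4
        omega
  have hdvd : ∀ p ∈ S.image f, p ∣ (x + h).choose h := by
    intro p hp
    rw [mem_image] at hp
    obtain ⟨s, hs, rfl⟩ := hp
    obtain ⟨h1, h2, h3⟩ := hf s hs
    have a := hS s hs
    have h4 : f s ∣ (x + 1).ascFactorial h := by
      rw [Nat.ascFactorial_eq_prod_range]
      refine h3.trans ?_
      have : s = x + 1 + (s - (x + 1)) := by omega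
      rw [this]
      exact Finset.dvd_prod_of_mem (fun i => x + 1 + i) (mem_range.mpr (by omega))
    rw [Nat.ascFactorial_eq_factorial_mul_choose] at h4
    rcases (Nat.Prime.dvd_mul h1).mp h4 with h5 | h5
    · rw [Nat.Prime.dvd_factorial h1] at h5
      omega
    · exact h5
  have hprod : ∏ p ∈ S.image f, p ∣ (x + h).choose h := by
    refine Finset.prod_primes_dvd _ ?_ hdvd
    intro p hp
    rw [mem_image] at hp
    obtain ⟨s, hs, rfl⟩ := hp
    exact (hf s hs).1.prime
  have hle := Nat.le_of_dvd (Nat.choose_pos (by omega)) hprod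
  have hge : y ^ S.card ≤ ∏ p ∈ S.image f, p := by
    rw [← card_image_of_injOn hinj, ← prod_const]
    refine prod_le_prod' fun p hp => ?_
    rw [mem_image] at hp
    obtain ⟨s, hs, rfl⟩ := hp
    exact (hf s hs).2.1.le
  have h1 : ((y ^ S.card : ℕ) : ℝ) ≤ ((x + h).choose h : ℕ) := by exact_mod_cast hge.trans hle
  have h2 : (((x + h).choose h : ℕ) : ℝ) ≤ ((x + h : ℕ) : ℝ) ^ h / (h.factorial : ℝ) :=
    Nat.choose_le_pow_div h (x + h)
  have h3 : (h:ℝ) ^ h / (h.factorial : ℝ) ≤ Real.exp h := Real.pow_div_factorial_le_exp h (Nat.cast_nonneg _) h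
  have h4 : ((x + h : ℕ) : ℝ) ^ h / (h.factorial : ℝ) ≤ (((x:ℝ) + h) / h) ^ h * Real.exp h := by
    rw [div_pow]
    push_cast
    have hf0 : (0:ℝ) < h.factorial := by exact_mod_cast Nat.factorial_pos h
    have hhh : (0:ℝ) < (h:ℝ) ^ h := by positivity
    calc ((x:ℝ) + h) ^ h / (h.factorial : ℝ) = ((x:ℝ) + h) ^ h / (h:ℝ) ^ h * ((h:ℝ) ^ h / (h.factorial : ℝ)) := by
          field_simp
      _ ≤ ((x:ℝ) + h) ^ h / (h:ℝ) ^ h * Real.exp h := by
          refine mul_le_mul_of_nonneg_left h3 (by positivity)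
  rcases Nat.eq_zero_or_pos y with hy | hy
  · rw [hy]; simp
    have : 0 ≤ Real.log (((x:ℝ) + h) / h) := Real.log_nonneg (by
      rw [le_div_iff₀ hh0]
      have : (0:ℝ) ≤ x := Nat.cast_nonneg _
      linarith)
    positivity
  have hy0 : (0:ℝ) < y := by exact_mod_cast hy
  have hxh : 0 < ((x:ℝ) + h) / h := by positivity
  have h5 := Real.log_le_log (by positivity) (h1.trans (h2.trans h4))
  push_cast at h5
  rw [Real.log_pow, Real.log_mul (by positivity) (Real.exp_pos _).ne', Real.log_pow, Real.log_exp] at h5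
  linarith

/-- the same for longer intervals -/
lemma bad_card' {x L y : ℕ} (hy : 0 < y) (S : Finset ℕ)
    (hS : ∀ s ∈ S, x < s ∧ s ≤ x + L ∧ ∃ p, p.Prime ∧ y < p ∧ p ∣ s) :
    (S.card : ℝ) * Real.log y ≤ ((L:ℝ) + y) * (1 + Real.log (((x:ℝ) + L + y) / y)) := by
  classical
  have hy0 : (0:ℝ) < y := by exact_mod_cast hy
  set I := L / y + 1 with hI
  have hmap : ∀ s ∈ S, (s - x - 1) / y ∈ range I := by
    intro s hs
    obtain ⟨h1, h2, h3⟩ := hS s hs
    rw [mem_range, hI, Nat.lt_succ_iff]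
    exact Nat.div_le_div_right (by omega)
  rw [card_eq_sum_card_fiberwise (f := fun s => (s - x - 1) / y) (t := range I) hmap]
  push_cast
  rw [sum_mul]
  have hpiece : ∀ i ∈ range I, (((S.filter (fun s => (s - x - 1) / y = i)).card : ℕ) : ℝ) * Real.log y
      ≤ y * (1 + Real.log (((x:ℝ) + L + y) / y)) := by
    intro i hi
    rw [mem_range] at hi
    have h1 := bad_card (x := x + i * y) (h := y) (y := y) hy le_rfl
      (S.filter (fun s => (s - x - 1) / y = i)) (by
        intro s hs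
        rw [mem_filter] at hs
        obtain ⟨h1, h2, h3⟩ := hS s hs.1
        have h4 := Nat.div_mul_le_self (s - x - 1) y
        have h5 : s - x - 1 < y * ((s - x - 1) / y + 1) := Nat.lt_mul_div_succ _ hy
        rw [hs.2] at h4 h5
        rw [mul_comm y (i + 1), add_mul, one_mul] at h5
        exact ⟨by omega, by omega, h3⟩)
    refine h1.trans ?_
    refine mul_le_mul_of_nonneg_left ?_ hy0.le
    have h2 : Real.log ((((x + i * y : ℕ) : ℝ) + y) / y) ≤ Real.log (((x:ℝ) + L + y) / y) := by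
      apply Real.log_le_log
      · positivity
      · gcongr
        push_cast
        have h6 : i * y ≤ L := by
          calc i * y ≤ (L / y) * y := Nat.mul_le_mul_right _ (by omega)
            _ ≤ L := Nat.div_mul_le_self _ _
        have : (i:ℝ) * y ≤ L := by exact_mod_cast h6
        linarith
    linarith
  refine (sum_le_sum hpiece).trans ?_
  rw [sum_const, card_range, nsmul_eq_mul, ← mul_assoc]
  have hlog : 0 ≤ 1 + Real.log (((x:ℝ) + L + y) / y) := by
    have : 0 ≤ Real.log (((x:ℝ) + L + y) / y) := Real.log_nonneg (by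
      rw [le_div_iff₀ hy0]
      have : (0:ℝ) ≤ x := Nat.cast_nonneg _
      have : (0:ℝ) ≤ L := Nat.cast_nonneg _
      linarith)
    linarith
  refine mul_le_mul_of_nonneg_right ?_ hlog
  have h1 : I * y ≤ L + y := by
    rw [hI, add_mul, one_mul]
    have := Nat.div_mul_le_self L y
    omega
  exact_mod_cast h1

end Pool.Agent.Helper602.Est
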