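import Mathlib
import Pool.Agent.Helper602.Est

open Filter Topology Finset

namespace Pool.Agent.Helper602.Asym

/-- `√(log n)` -/
noncomputable def ss (n : ℕ) : ℝ := Real.sqrt (Real.log n)

lemma ss_tendsto : Tendsto ss atTop atTop :=
  Real.tendsto_sqrt_atTop.comp (Real.tendsto_log_atTop.comp tendsto_natCast_atTop_atTop)

lemma base (K : ℝ) : ∀ᶠ n : ℕ in atTop, 0 < n ∧ 1 ≤ ss n ∧ ss n ^ 2 = Real.log n ∧ K ≤ ss n ∧
    K * (1 + Real.log (ss n)) ^ 2 ≤ ss n ∧ K * ss n ^ 8 ≤ Real.sqrt n := by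
  have h1 : ∀ᶠ x : ℝ in atTop, K * (1 + Real.log x) ^ 2 ≤ x := by
    have h2 := (Real.isLittleO_pow_log_id_atTop (n := 2)).bound (show (0:ℝ) < 1 / (4 * (|K| + 1)) by positivity)
    filter_upwards [h2, eventually_ge_atTop (Real.exp 1)] with x hx1 hx2
    have hlog : 1 ≤ Real.log x := by
      rw [Real.le_log_iff_exp_le (lt_of_lt_of_le (Real.exp_pos 1) hx2)]; exact hx2
    have hx0 : 0 < x := lt_of_lt_of_le (Real.exp_pos 1) hx2
    simp only [Real.norm_eq_abs, id] at hx1
    rw [abs_of_nonneg (by positivity), abs_of_pos hx0] at hx1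
    have h3 : (1 + Real.log x) ^ 2 ≤ 4 * Real.log x ^ 2 := by nlinarith
    have h4 : K ≤ |K| + 1 := by have := le_abs_self K; linarith
    have h5 : 0 < |K| + 1 := by positivity
    calc K * (1 + Real.log x) ^ 2 ≤ (|K| + 1) * (4 * Real.log x ^ 2) := by
          refine mul_le_mul h4 h3 (by positivity) h5.le
      _ ≤ (|K| + 1) * (4 * (1 / (4 * (|K| + 1)) * x)) := by gcongr
      _ = x := by field_simp
  have h2 : ∀ᶠ x : ℝ in atTop, K ^ 2 * Real.log x ^ 8 ≤ x := by
    have h2 := (Real.isLittleO_pow_log_id_atTop (n := 8)).bound (show (0:ℝ) < 1 / (K ^ 2 + 1) by positivity)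
    filter_upwards [h2, eventually_ge_atTop 1] with x hx1 hx2
    have hlog : 0 ≤ Real.log x := Real.log_nonneg hx2
    simp only [Real.norm_eq_abs, id] at hx1
    rw [abs_of_nonneg (by positivity), abs_of_nonneg (by linarith)] at hx1
    calc K ^ 2 * Real.log x ^ 8 ≤ (K ^ 2 + 1) * (1 / (K ^ 2 + 1) * x) := by
          refine mul_le_mul (by linarith) hx1 (by positivity) (by positivity)
      _ = x := by field_simp
  filter_upwards [eventually_gt_atTop 0, ss_tendsto.eventually (eventually_ge_atTop 1),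
    ss_tendsto.eventually (eventually_ge_atTop K), ss_tendsto.eventually h1,
    tendsto_natCast_atTop_atTop.eventually h2] with n a1 a2 a3 a4 a5
  have hlog : 0 ≤ Real.log n := Real.log_nonneg (by exact_mod_cast a1)
  have hsq : ss n ^ 2 = Real.log n := Real.sq_sqrt hlog
  refine ⟨a1, a2, hsq, a3, a4, ?_⟩
  apply Real.le_sqrt_of_sq_le
  calc (K * ss n ^ 8) ^ 2 = K ^ 2 * (ss n ^ 2) ^ 8 := by ring
    _ ≤ (n:ℝ) := by rw [hsq]; exact a5

/-- all the consequences of `n` being large which are used -/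
lemma small (η ε : ℝ) (hη : 0 < η) (hε : 0 < ε) : ∀ᶠ n : ℕ in atTop, ∀ δ : ℕ,
    η * n / Real.log n ≤ δ → (δ:ℝ) ≤ n / Real.log n →
    (∑ p ∈ Est.Pr δ, ((Nat.log 2 ((2 * n + δ) / p) : ℝ) + 1) ≤ ε * (n / ss n ^ 3)) ∧
    ((δ * (1 + Real.log (3 * n / δ)) / Real.log δ) * (1 + Real.log (3 * n / δ)) ≤ ε * (n / ss n ^ 3)) ∧
    (Real.sqrt n * (1 + Real.log (3 * n)) ≤ ε * (n / ss n ^ 3)) ∧
    ((n:ℝ) / ss n ^ 3 * (1 + Real.log (ss n)) ≤ ε * δ) ∧
    (Real.sqrt n ≤ δ) := by
  obtain ⟨C, hC, hc⟩ := Est.sumlog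
  set K1 : ℝ := 1 + |Real.log (3 / η)| + 2 with hK1
  have hK1pos : 0 < K1 := by positivity
  set K : ℝ := 2 + 1 / η + 2 * C * K1 / ε + 2 * K1 ^ 2 / ε + 3 / ε + 1 / (ε * η) with hK
  have hKpos : 0 < K := by positivity
  filter_upwards [base K] with n hn δ hδ1 hδ2
  obtain ⟨hn0, hs1, hs2, hsK, hslog, hs8⟩ := hn
  set s := ss n with hs
  have hnR : (0:ℝ) < n := by exact_mod_cast hn0
  have hs0 : 0 < s := by linarith
  have hlogs : 0 ≤ Real.log s := Real.log_nonneg hs1
  rw [← hs2] at hδ1 hδ2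
  have hsqn : 0 < Real.sqrt n := Real.sqrt_pos.mpr hnR
  have hsqn2 : Real.sqrt n ^ 2 = n := Real.sq_sqrt hnR.le
  -- powers of s
  have hp3 : 0 < s ^ 3 := by positivity
  have hp2 : 0 < s ^ 2 := by positivity
  have hs3le : s ^ 2 ≤ s ^ 8 := pow_le_pow_right₀ hs1 (by norm_num)
  have hδsq : Real.sqrt n ≤ δ := by
    refine le_trans ?_ hδ1
    rw [le_div_iff₀ hp2]
    have h1 : s ^ 2 / η ≤ Real.sqrt n := by
      calc s ^ 2 / η = (1 / η) * s ^ 2 := by ring
        _ ≤ K * s ^ 8 := by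
          refine mul_le_mul ?_ hs3le (by positivity) hKpos.le
          have : 0 ≤ 2 + 2 * C * K1 / ε + 2 * K1 ^ 2 / ε + 3 / ε + 1 / (ε * η) := by positivity
          linarith
        _ ≤ _ := hs8
    rw [div_le_iff₀ hη] at h1
    calc Real.sqrt n * s ^ 2 ≤ Real.sqrt n * (Real.sqrt n * η) := by gcongr
      _ = η * Real.sqrt n ^ 2 := by ring
      _ = η * n := by rw [hsqn2]
  have hδ0 : (0:ℝ) < δ := lt_of_lt_of_le hsqn hδsq
  have hlogn : s ^ 2 = Real.log n := hs2
  have hlogδ : s ^ 2 / 2 ≤ Real.log δ := by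
    have h1 := Real.log_le_log hsqn hδsq
    rw [Real.log_sqrt hnR.le, ← hlogn] at h1
    exact h1
  have hlogδ0 : 0 < Real.log δ := lt_of_lt_of_le (by positivity) hlogδ
  have hδn : (δ:ℝ) ≤ n := by
    refine hδ2.trans ?_
    rw [div_le_iff₀ hp2]
    exact le_mul_of_one_le_right hnR.le (one_le_pow₀ hs1)
  -- log(3n/δ)
  have hl3 : Real.log (3 * n / δ) ≤ Real.log (3 / η) + 2 * Real.log s := by
    have h1 : 3 * (n:ℝ) / δ ≤ (3 / η) * s ^ 2 := by
      rw [div_le_iff₀ hδ0]
      have h2 : η * n ≤ δ * s ^ 2 := by rwa [div_le_iff₀ hp2] at hδ1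
      have h3 : (3 / η) * s ^ 2 * δ = (3 / η) * (δ * s ^ 2) := by ring
      rw [h3]
      calc 3 * (n:ℝ) = (3 / η) * (η * n) := by field_simp
        _ ≤ _ := by gcongr
    have h2 := Real.log_le_log (by positivity) h1
    rw [Real.log_mul (by positivity) (by positivity), Real.log_pow] at h2
    push_cast at h2
    exact h2
  have hl3' : 1 + Real.log (3 * n / δ) ≤ K1 * (1 + Real.log s) := by
    have h1 := le_abs_self (Real.log (3 / η))
    have h2 : 0 ≤ |Real.log (3 / η)| := abs_nonneg _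
    have h4 : K1 * (1 + Real.log s) = 3 + |Real.log (3 / η)| + 3 * Real.log s
        + |Real.log (3 / η)| * Real.log s := by rw [hK1]; ring
    have h5 : 0 ≤ |Real.log (3 / η)| * Real.log s := mul_nonneg h2 hlogs
    rw [h4]
    linarith
  have hl3pos : 0 ≤ Real.log (3 * n / δ) := by
    apply Real.log_nonneg
    rw [le_div_iff₀ hδ0]
    linarith
  have hone : 1 + Real.log s ≤ (1 + Real.log s) ^ 2 := by
    rw [sq]; exact le_mul_of_one_le_left (by linarith) (by linarith)
  have hδlog : (δ:ℝ) / Real.log δ ≤ 2 * n / s ^ 4 := by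
    rw [div_le_div_iff₀ hlogδ0 (by positivity)]
    calc (δ:ℝ) * s ^ 4 ≤ (n / s ^ 2) * s ^ 4 := by gcongr
      _ = 2 * n * (s ^ 2 / 2) := by field_simp
      _ ≤ 2 * n * Real.log δ := by gcongr
  have hδlog0 : 0 ≤ (δ:ℝ) / Real.log δ := by positivity
  refine ⟨?_, ?_, ?_, ?_, hδsq⟩
  · -- f1
    have hδ2' : 2 ≤ δ := by
      have h1 : (2:ℝ) ≤ δ := by
        refine le_trans ?_ hδsq
        refine le_trans ?_ hs8
        have h2 : 2 ≤ K := by
          have : 0 ≤ 1 / η + 2 * C * K1 / ε + 2 * K1 ^ 2 / ε + 3 / ε + 1 / (ε * η) := by positivity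
          linarith
        exact h2.trans (le_mul_of_one_le_right hKpos.le (one_le_pow₀ hs1))
      exact_mod_cast h1
    have h1 := hc δ (2 * n + δ) hδ2' (by omega)
    refine h1.trans ?_
    have h2 : Real.log (((2 * n + δ : ℕ) : ℝ) / δ) ≤ Real.log (3 * n / δ) := by
      apply Real.log_le_log (by positivity)
      gcongr
      push_cast
      linarith
    have h2' : 0 ≤ Real.log (((2 * n + δ : ℕ) : ℝ) / δ) := by
      apply Real.log_nonneg
      rw [le_div_iff₀ hδ0]
      push_cast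
      linarith
    calc C * (δ / Real.log δ) * (1 + Real.log (((2 * n + δ : ℕ) : ℝ) / δ))
        ≤ C * (2 * n / s ^ 4) * (K1 * (1 + Real.log s)) := by
          refine mul_le_mul ?_ (by linarith) (by linarith) (by positivity)
          exact mul_le_mul_of_nonneg_left hδlog hC.le
      _ = (2 * C * K1) * (1 + Real.log s) * (n / s ^ 4) := by ring
      _ ≤ (ε * s) * (n / s ^ 4) := by
          refine mul_le_mul_of_nonneg_right ?_ (by positivity)
          have h3 : (2 * C * K1 / ε) * (1 + Real.log s) ≤ s := by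
            refine le_trans ?_ hslog
            refine mul_le_mul ?_ hone (by positivity) hKpos.le
            have : 0 ≤ 2 + 1 / η + 2 * K1 ^ 2 / ε + 3 / ε + 1 / (ε * η) := by positivity
            linarith
          have h4 : (2 * C * K1) * (1 + Real.log s) = ε * ((2 * C * K1 / ε) * (1 + Real.log s)) := by
            field_simp
          rw [h4]
          gcongr
      _ = ε * (n / s ^ 3) := by field_simp
  · -- f2
    calc (δ * (1 + Real.log (3 * n / δ)) / Real.log δ) * (1 + Real.log (3 * n / δ))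
        = (δ / Real.log δ) * (1 + Real.log (3 * n / δ)) ^ 2 := by ring
      _ ≤ (2 * n / s ^ 4) * (K1 * (1 + Real.log s)) ^ 2 := by
          refine mul_le_mul hδlog ?_ (by positivity) (by positivity)
          exact pow_le_pow_left₀ (by linarith) hl3' 2
      _ = (2 * K1 ^ 2) * (1 + Real.log s) ^ 2 * (n / s ^ 4) := by ring
      _ ≤ (ε * s) * (n / s ^ 4) := by
          refine mul_le_mul_of_nonneg_right ?_ (by positivity)
          have h3 : (2 * K1 ^ 2 / ε) * (1 + Real.log s) ^ 2 ≤ s := by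
            refine le_trans ?_ hslog
            refine mul_le_mul_of_nonneg_right ?_ (by positivity)
            have : 0 ≤ 2 + 1 / η + 2 * C * K1 / ε + 3 / ε + 1 / (ε * η) := by positivity
            linarith
          have h4 : (2 * K1 ^ 2) * (1 + Real.log s) ^ 2 = ε * ((2 * K1 ^ 2 / ε) * (1 + Real.log s) ^ 2) := by
            field_simp
          rw [h4]
          gcongr
      _ = ε * (n / s ^ 3) := by field_simp
  · -- f3
    have h1 : Real.log (3 * n) ≤ 2 + s ^ 2 := by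
      rw [Real.log_mul (by norm_num) hnR.ne', ← hlogn]
      have : Real.log 3 ≤ 2 := by
        have := Real.log_le_sub_one_of_pos (show (0:ℝ) < 3 by norm_num)
        linarith
      linarith
    have h2 : 1 + Real.log (3 * n) ≤ 4 * s ^ 2 := by
      have : 1 ≤ s ^ 2 := one_le_pow₀ hs1
      linarith
    have h3 : (3 / ε) * s ^ 8 ≤ Real.sqrt n := by
      refine le_trans ?_ hs8
      refine mul_le_mul_of_nonneg_right ?_ (by positivity)
      have : 0 ≤ 2 + 1 / η + 2 * C * K1 / ε + 2 * K1 ^ 2 / ε + 1 / (ε * η) := by positivity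
      linarith
    have h4 : 3 * s ^ 8 ≤ ε * Real.sqrt n := by
      have h5 : 3 * s ^ 8 = ε * ((3 / ε) * s ^ 8) := by field_simp
      rw [h5]; gcongr
    have h5 : 4 * s ^ 5 ≤ 3 * s ^ 8 ∨ s ^ 3 < 2 := by
      rcases le_or_gt 2 (s ^ 3) with h | h
      · left
        have : s ^ 8 = s ^ 5 * s ^ 3 := by ring
        rw [this]
        have h7 : 0 < s ^ 5 := by positivity
        calc 4 * s ^ 5 ≤ 3 * (s ^ 5 * 2) := by linarith
          _ ≤ 3 * (s ^ 5 * s ^ 3) := by gcongr
      · right; exact h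
    have hs2K : 2 ≤ s := by
      refine le_trans ?_ hsK
      have : 0 ≤ 1 / η + 2 * C * K1 / ε + 2 * K1 ^ 2 / ε + 3 / ε + 1 / (ε * η) := by positivity
      linarith
    have h6 : 4 * s ^ 5 ≤ 3 * s ^ 8 := by
      rcases h5 with h | h
      · exact h
      · have : (2:ℝ) ^ 3 ≤ s ^ 3 := by gcongr
        norm_num at this
        linarith
    calc Real.sqrt n * (1 + Real.log (3 * n)) ≤ Real.sqrt n * (4 * s ^ 2) := by gcongr
      _ = Real.sqrt n * (4 * s ^ 5) / s ^ 3 := by field_simp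
      _ ≤ Real.sqrt n * (ε * Real.sqrt n) / s ^ 3 := by
          have h7 : 4 * s ^ 5 ≤ ε * Real.sqrt n := h6.trans h4
          exact div_le_div_of_nonneg_right (mul_le_mul_of_nonneg_left h7 hsqn.le) hp3.le
      _ = ε * (Real.sqrt n ^ 2 / s ^ 3) := by ring
      _ = ε * (n / s ^ 3) := by rw [hsqn2]
  · -- f4
    have h3 : (1 / (ε * η)) * (1 + Real.log s) ≤ s := by
      refine le_trans ?_ hslog
      refine mul_le_mul ?_ hone (by positivity) hKpos.le
      have : 0 ≤ 2 + 1 / η + 2 * C * K1 / ε + 2 * K1 ^ 2 / ε + 3 / ε := by positivity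
      linarith
    have h4 : 1 + Real.log s ≤ ε * η * s := by
      have h5 : 1 + Real.log s = (ε * η) * ((1 / (ε * η)) * (1 + Real.log s)) := by field_simp
      rw [h5]
      gcongr
    calc (n:ℝ) / s ^ 3 * (1 + Real.log s) ≤ n / s ^ 3 * (ε * η * s) := by gcongr
      _ = ε * (η * n / s ^ 2) := by field_simp
      _ ≤ ε * δ := by gcongr

end Pool.Agent.Helper602.Asym
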