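import Mathlib

namespace Pool.Agent.Helper602.Greedy

/-- greedy selection -/
lemma greedy {W : Finset ℕ} (D : ℕ → ℕ) (O : ℕ → Finset ℕ) (e : ℕ → ℕ → ℕ) (tag : ℕ → ℕ)
    (S : Finset ℕ)
    (hO : ∀ q ∈ S, O q ⊆ W)
    (he : ∀ q ∈ S, Set.InjOn (e q) (O q))
    (hconf : ∀ q ∈ S, ∀ q' ∈ S, q ≠ q' → ∀ w ∈ O q, ∀ w' ∈ O q', e q w = e q' w' → q ∣ w')
    (hdisj : ∀ q ∈ S, ∀ q' ∈ S, tag q ≠ tag q' → Disjoint (O q) (O q'))
    (hcard : ∀ q ∈ S, (∑ q' ∈ S with tag q' = tag q, D q') + (W.filter (q ∣ ·)).card ≤ (O q).card) :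
    ∃ Z : ℕ → Finset ℕ, (∀ q ∈ S, Z q ⊆ O q ∧ (Z q).card = D q) ∧
      (∀ q ∈ S, ∀ q' ∈ S, q ≠ q' → Disjoint (Z q) (Z q')) ∧
      (∀ q ∈ S, ∀ q' ∈ S, ∀ w ∈ Z q, ∀ w' ∈ Z q', e q w = e q' w' → q = q' ∧ w = w') := by
  classical
  induction S using Finset.induction_on with
  | empty => exact ⟨fun _ => ∅, by simp, by simp, by simp⟩
  | insert q₀ s hq₀ ih =>
    have hs : s ⊆ insert q₀ s := Finset.subset_insert _ _
    obtain ⟨Z, hZ1, hZ2, hZ3⟩ := ih (fun q hq => hO q (hs hq)) (fun q hq => he q (hs hq))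
      (fun q hq q' hq' => hconf q (hs hq) q' (hs hq'))
      (fun q hq q' hq' => hdisj q (hs hq) q' (hs hq'))
      (fun q hq => by
        refine le_trans ?_ (hcard q (hs hq))
        refine Nat.add_le_add_right ?_ _
        exact Finset.sum_le_sum_of_subset (Finset.filter_subset_filter _ hs))
    have hm0 : q₀ ∈ insert q₀ s := Finset.mem_insert_self _ _
    -- used elements
    set U : Finset ℕ := (s.filter (fun q' => tag q' = tag q₀)).biUnion Z with hU
    set C : Finset ℕ := s.biUnion (fun q' => (Z q').image (e q')) with hC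
    set bad : Finset ℕ := (O q₀).filter (fun w => e q₀ w ∈ C) with hbad
    have hUcard : U.card ≤ ∑ q' ∈ s with tag q' = tag q₀, D q' := by
      refine Finset.card_biUnion_le.trans ?_
      refine Finset.sum_le_sum fun q' hq' => ?_
      rw [(hZ1 q' (Finset.mem_filter.mp hq').1).2]
    have hbadcard : bad.card ≤ (W.filter (q₀ ∣ ·)).card := by
      have hex : ∀ w ∈ bad, ∃ q', q' ∈ s ∧ ∃ w', w' ∈ Z q' ∧ e q' w' = e q₀ w := by
        intro w hw
        rw [hbad, Finset.mem_filter, hC, Finset.mem_biUnion] at hw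
        obtain ⟨_, q', hq', hw'⟩ := hw
        rw [Finset.mem_image] at hw'
        obtain ⟨w', hw'1, hw'2⟩ := hw'
        exact ⟨q', hq', w', hw'1, hw'2⟩
      choose! qf hqf wf hwf1 hwf2 using hex
      refine Finset.card_le_card_of_injOn wf ?_ ?_
      · intro w hw
        rw [Finset.mem_coe] at hw
        rw [Finset.mem_coe, Finset.mem_filter]
        have h1 := hqf w hw
        have h2 := hwf1 w hw
        have h3 := (hZ1 _ h1).1 h2
        refine ⟨hO _ (hs h1) h3, ?_⟩
        have hne : q₀ ≠ qf w := by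
          rintro h
          exact hq₀ (h ▸ h1)
        exact hconf q₀ hm0 (qf w) (hs h1) hne w (Finset.mem_filter.mp hw).1 (wf w) h3
          (hwf2 w hw).symm
      · intro w hw w' hw' hww
        rw [Finset.mem_coe] at hw hw'
        have hqq : qf w = qf w' := by
          by_contra hne
          have := hZ2 _ (hqf w hw) _ (hqf w' hw') hne
          rw [Finset.disjoint_left] at this
          exact this (hwf1 w hw) (hww ▸ hwf1 w' hw')
        have h1 := hwf2 w hw
        have h2 := hwf2 w' hw'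
        rw [hqq, hww] at h1
        rw [h1] at h2
        exact he q₀ hm0 (Finset.mem_filter.mp hw).1 (Finset.mem_filter.mp hw').1 h2
    have hav : D q₀ ≤ ((O q₀ \ U) \ bad).card := by
      have h1 := hcard q₀ hm0
      have h2 : (∑ q' ∈ insert q₀ s with tag q' = tag q₀, D q')
          = D q₀ + ∑ q' ∈ s with tag q' = tag q₀, D q' := by
        rw [Finset.filter_insert, if_pos rfl, Finset.sum_insert]
        intro h
        exact hq₀ (Finset.mem_filter.mp h).1
      have h3 := Finset.le_card_sdiff U (O q₀)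
      have h4 := Finset.le_card_sdiff bad (O q₀ \ U)
      omega
    obtain ⟨Z₀, hZ₀1, hZ₀2⟩ := Finset.exists_subset_card_eq hav
    have hZ₀O : Z₀ ⊆ O q₀ := fun w hw =>
      (Finset.mem_sdiff.mp (Finset.mem_sdiff.mp (hZ₀1 hw)).1).1
    have hdis0 : ∀ q ∈ s, Disjoint (Z q) Z₀ := by
      intro q hq
      by_cases ht : tag q = tag q₀
      · rw [Finset.disjoint_left]
        intro w hw hw0
        have h1 := (Finset.mem_sdiff.mp (Finset.mem_sdiff.mp (hZ₀1 hw0)).1).2
        apply h1
        rw [hU, Finset.mem_biUnion]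
        exact ⟨q, Finset.mem_filter.mpr ⟨hq, ht⟩, hw⟩
      · exact Disjoint.mono (hZ1 q hq).1 hZ₀O (hdisj q (hs hq) q₀ hm0 ht)
    have hnc : ∀ q ∈ s, ∀ w ∈ Z q, ∀ w' ∈ Z₀, e q w ≠ e q₀ w' := by
      intro q hq w hw w' hw' h
      have h1 := (Finset.mem_sdiff.mp (hZ₀1 hw')).2
      apply h1
      rw [hbad, Finset.mem_filter]
      refine ⟨hZ₀O hw', ?_⟩
      rw [hC, Finset.mem_biUnion]
      exact ⟨q, hq, Finset.mem_image.mpr ⟨w, hw, h⟩⟩
    have hne : ∀ q ∈ s, q ≠ q₀ := fun q hq h => hq₀ (h ▸ hq)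
    refine ⟨Function.update Z q₀ Z₀, ?_, ?_, ?_⟩
    · intro q hq
      rcases Finset.mem_insert.mp hq with h1 | h1
      · rw [h1, Function.update_self]
        exact ⟨hZ₀O, hZ₀2⟩
      · rw [Function.update_of_ne (hne q h1)]
        exact hZ1 q h1
    · intro q hq q' hq' hqq
      rcases Finset.mem_insert.mp hq with h1 | h1
      · rcases Finset.mem_insert.mp hq' with h2 | h2
        · exact absurd (h1.trans h2.symm) hqq
        · rw [h1, Function.update_self, Function.update_of_ne (hne q' h2)]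
          exact (hdis0 q' h2).symm
      · rcases Finset.mem_insert.mp hq' with h2 | h2
        · rw [h2, Function.update_self, Function.update_of_ne (hne q h1)]
          exact hdis0 q h1
        · rw [Function.update_of_ne (hne q h1), Function.update_of_ne (hne q' h2)]
          exact hZ2 q h1 q' h2 hqq
    · intro q hq q' hq' w hw w' hw' h
      rcases Finset.mem_insert.mp hq with h1 | h1
      · rw [h1, Function.update_self] at hw
        rcases Finset.mem_insert.mp hq' with h2 | h2
        · rw [h2, Function.update_self] at hw'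
          rw [h1, h2] at h
          exact ⟨h1.trans h2.symm, he _ hm0 (hZ₀O hw) (hZ₀O hw') h⟩
        · rw [Function.update_of_ne (hne q' h2)] at hw'
          rw [h1] at h
          exact absurd h.symm (hnc q' h2 w' hw' w hw)
      · rw [Function.update_of_ne (hne q h1)] at hw
        rcases Finset.mem_insert.mp hq' with h2 | h2
        · rw [h2, Function.update_self] at hw'
          rw [h2] at h
          exact absurd h (hnc q h1 w hw w' hw')
        · rw [Function.update_of_ne (hne q' h2)] at hw'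
          exact hZ3 q h1 q' h2 w hw w' hw' h

end Pool.Agent.Helper602.Greedy
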