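import Mathlib
import Pool.Agent.Helper602.Greedy

namespace Pool.Agent.Helper602.Fam

open Finset

/-- total exponent of `p` in a finite set -/
def prof (S : Finset ℕ) (p : ℕ) : ℕ := ∑ r ∈ S, r.factorization p

lemma prof_image {ι : Type*} [DecidableEq ι] (I : Finset ι) (f : ι → ℕ) (hf : Set.InjOn f I) (p : ℕ) :
    prof (I.image f) p = ∑ i ∈ I, (f i).factorization p := by
  unfold prof
  rw [Finset.sum_image]
  exact fun a ha b hb h => hf ha hb h

lemma prof_union {S T : Finset ℕ} (h : Disjoint S T) (p : ℕ) :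
    prof (S ∪ T) p = prof S p + prof T p := by
  unfold prof
  rw [Finset.sum_union h]

/-- power of two scaling into `(n, 2n]` -/
lemma scale {n k : ℕ} (hk : 0 < k) (h : k ≤ 2 * n) :
    n < k * 2 ^ (Nat.log 2 (2 * n / k)) ∧ k * 2 ^ (Nat.log 2 (2 * n / k)) ≤ 2 * n := by
  have h1 : 1 ≤ 2 * n / k := (Nat.one_le_div_iff hk).mpr h
  have h2 := Nat.pow_log_le_self 2 (x := 2 * n / k) (by omega)
  have h3 := Nat.lt_pow_succ_log_self (b := 2) (by norm_num) (2 * n / k)
  constructor
  · have h4 : 2 * n / k + 1 ≤ 2 ^ (Nat.log 2 (2 * n / k) + 1) := h3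
    have h5 : 2 * n < k * (2 * n / k + 1) := Nat.lt_mul_div_succ _ hk
    have h6 := Nat.mul_le_mul_left k h4
    rw [pow_succ] at h6
    nlinarith
  · calc k * 2 ^ (Nat.log 2 (2 * n / k)) ≤ k * (2 * n / k) := Nat.mul_le_mul_left _ h2
      _ ≤ 2 * n := Nat.mul_div_le _ _

/-- family of added elements `p * 3^(3+i) * 2^b`. -/
lemma fam_adds (n C : ℕ) (U : Finset ℕ) (D : ℕ → ℕ)
    (hU : ∀ p ∈ U, p.Prime ∧ 3 < p ∧ 3 ^ (3 + C) * p ≤ 2 * n ∧ D p ≤ C) :
    ∃ F : Finset ℕ, (∀ r ∈ F, n < r ∧ r ≤ 2 * n ∧ (∀ p, p.Prime → p ∣ r → p ≤ 3 ∨ p ∈ U) ∧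
      3 ≤ r.factorization 3 ∧ r.factorization 3 < 3 + C) ∧
      (∀ p ∈ U, prof F p = D p) ∧ (∀ p, 3 < p → p ∉ U → prof F p = 0) ∧
      prof F 3 ≤ (3 + C) * ∑ p ∈ U, D p ∧
      prof F 2 ≤ ∑ p ∈ U, D p * Nat.log 2 (2 * n / p) := by
  classical
  set I : Finset (ℕ × ℕ) := U.biUnion (fun p => (range (D p)).image (fun i => (p, i))) with hI
  have hmem : ∀ x : ℕ × ℕ, x ∈ I ↔ x.1 ∈ U ∧ x.2 < D x.1 := by
    rintro ⟨p, i⟩
    simp only [hI, mem_biUnion, mem_image, mem_range, Prod.mk.injEq]
    constructor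
    · rintro ⟨p', hp', i', hi', rfl, rfl⟩
      exact ⟨hp', hi'⟩
    · rintro ⟨h1, h2⟩
      exact ⟨p, h1, i, h2, rfl, rfl⟩
  have hsumI : ∀ g : ℕ × ℕ → ℕ, ∑ x ∈ I, g x = ∑ p ∈ U, ∑ i ∈ range (D p), g (p, i) := by
    intro g
    rw [hI, sum_biUnion]
    · refine sum_congr rfl fun p _ => ?_
      rw [sum_image]
      intro a _ b _ h
      simpa using h
    · intro p _ p' _ hpp
      simp only [Function.onFun]
      rw [Finset.disjoint_left]
      rintro x hx hx'
      simp only [mem_image] at hx hx'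
      obtain ⟨i, _, rfl⟩ := hx
      obtain ⟨i', _, h⟩ := hx'
      simp only [Prod.mk.injEq] at h
      exact hpp h.1.symm
  set k : ℕ × ℕ → ℕ := fun x => 3 ^ (3 + x.2) * x.1 with hk
  set f : ℕ × ℕ → ℕ := fun x => k x * 2 ^ (Nat.log 2 (2 * n / k x)) with hf
  have hk0 : ∀ x ∈ I, 0 < k x := by
    intro x hx
    have := (hU x.1 ((hmem x).mp hx).1).1.pos
    simp only [hk]
    positivity
  have hkle : ∀ x ∈ I, k x ≤ 2 * n := by
    intro x hx
    obtain ⟨h1, h2⟩ := (hmem x).mp hx
    obtain ⟨a1, a2, a3, a4⟩ := hU _ h1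
    refine le_trans ?_ a3
    simp only [hk]
    exact Nat.mul_le_mul_right _ (Nat.pow_le_pow_right (by norm_num) (by omega))
  have hfac : ∀ x ∈ I, ∀ q, (f x).factorization q = (if q = 3 then 3 + x.2 else 0) +
      (if q = x.1 then 1 else 0) + (if q = 2 then Nat.log 2 (2 * n / k x) else 0) := by
    intro x hx q
    have hp := (hU x.1 ((hmem x).mp hx).1).1
    have h3 : (3 ^ (3 + x.2)) ≠ 0 := by positivity
    simp only [hf]
    rw [Nat.factorization_mul (hk0 x hx).ne' (by positivity)]
    simp only [hk]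
    rw [Nat.factorization_mul h3 hp.ne_zero, Nat.Prime.factorization_pow Nat.prime_three,
      Nat.Prime.factorization hp, Nat.Prime.factorization_pow Nat.prime_two]
    simp only [Finsupp.coe_add, Pi.add_apply, Finsupp.single_apply]
    congr 1
    · congr 1
      · by_cases h : q = 3
        · rw [if_pos h.symm, if_pos h]
        · rw [if_neg (Ne.symm h), if_neg h]
      · by_cases h : q = x.1
        · rw [if_pos h.symm, if_pos h]
        · rw [if_neg (Ne.symm h), if_neg h]
    · by_cases h : q = 2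
      · rw [if_pos h.symm, if_pos h]
      · rw [if_neg (Ne.symm h), if_neg h]
  have hinj : Set.InjOn f I := by
    intro x hx y hy hxy
    rw [mem_coe] at hx hy
    have hx3 := (hU x.1 ((hmem x).mp hx).1).2.1
    have hy3 := (hU y.1 ((hmem y).mp hy).1).2.1
    have e3x := hfac x hx 3
    have e3y := hfac y hy 3
    rw [if_pos rfl, if_neg (by omega), if_neg (by norm_num)] at e3x e3y
    rw [hxy] at e3x
    have h2 : x.2 = y.2 := by omega
    have e1x := hfac x hx x.1
    have e1y := hfac y hy x.1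
    rw [if_neg (by omega), if_pos rfl, if_neg (by omega)] at e1x
    rw [← hxy, e1x, if_neg (by omega), if_neg (show ¬ x.1 = 2 by omega)] at e1y
    have h1 : x.1 = y.1 := by
      by_contra h
      rw [if_neg h] at e1y
      omega
    exact Prod.ext h1 h2
  refine ⟨I.image f, ?_, ?_, ?_, ?_, ?_⟩
  · intro r hr
    rw [mem_image] at hr
    obtain ⟨x, hx, rfl⟩ := hr
    obtain ⟨s1, s2⟩ := scale (hk0 x hx) (hkle x hx)
    have hxU := ((hmem x).mp hx).1
    obtain ⟨a1, a2, a3, a4⟩ := hU _ hxU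
    refine ⟨s1, s2, ?_, ?_, ?_⟩
    · intro p hp hpd
      have h0 : f x ≠ 0 := by
        have : 0 < f x := by simp only [hf]; exact Nat.mul_pos (hk0 x hx) (by positivity)
        omega
      have h1 := (hp.dvd_iff_one_le_factorization h0).mp hpd
      rw [hfac x hx p] at h1
      by_cases c1 : p = 3
      · left; omega
      by_cases c2 : p = x.1
      · right; rw [c2]; exact hxU
      by_cases c3 : p = 2
      · left; omega
      rw [if_neg c1, if_neg c2, if_neg c3] at h1
      omega
    · rw [hfac x hx 3, if_pos rfl]; omega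
    · rw [hfac x hx 3, if_pos rfl, if_neg (by omega), if_neg (by norm_num)]
      have := ((hmem x).mp hx).2
      omega
  · intro p hp
    obtain ⟨a1, a2, a3, a4⟩ := hU _ hp
    rw [prof_image I f hinj, hsumI]
    have : ∀ p' ∈ U, ∑ i ∈ range (D p'), (f (p', i)).factorization p = if p = p' then D p' else 0 := by
      intro p' hp'
      have h1 : ∀ i ∈ range (D p'), (f (p', i)).factorization p = if p = p' then 1 else 0 := by
        intro i hi
        rw [hfac (p', i) ((hmem _).mpr ⟨hp', mem_range.mp hi⟩) p, if_neg (by omega), if_neg (show ¬ p = 2 by omega)]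
        simp
      rw [sum_congr rfl h1]
      by_cases h : p = p'
      · simp [h]
      · simp [h]
    rw [sum_congr rfl this, sum_ite_eq U p, if_pos hp]
  · intro p hp3 hpU
    rw [prof_image I f hinj]
    refine sum_eq_zero fun x hx => ?_
    have hne : ¬ p = x.1 := by
      rintro rfl
      exact hpU ((hmem x).mp hx).1
    rw [hfac x hx p, if_neg (by omega), if_neg hne, if_neg (by omega)]
    rfl
  · rw [prof_image I f hinj, hsumI, mul_sum]
    refine sum_le_sum fun p hp => ?_
    obtain ⟨a1, a2, a3, a4⟩ := hU _ hp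
    have h1 : ∀ i ∈ range (D p), (f (p, i)).factorization 3 ≤ 3 + C := by
      intro i hi
      rw [hfac (p, i) ((hmem _).mpr ⟨hp, mem_range.mp hi⟩) 3, if_pos rfl, if_neg (by simp only; omega),
        if_neg (by norm_num)]
      have := mem_range.mp hi
      simp only
      omega
    refine (sum_le_sum h1).trans ?_
    rw [sum_const, card_range, smul_eq_mul, mul_comm]
  · rw [prof_image I f hinj, hsumI]
    refine sum_le_sum fun p hp => ?_
    obtain ⟨a1, a2, a3, a4⟩ := hU _ hp
    have h1 : ∀ i ∈ range (D p), (f (p, i)).factorization 2 ≤ Nat.log 2 (2 * n / p) := by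
      intro i hi
      rw [hfac (p, i) ((hmem _).mpr ⟨hp, mem_range.mp hi⟩) 2, if_neg (by norm_num),
        if_neg (by simp only; omega), if_pos rfl]
      simp only [zero_add]
      refine Nat.log_mono_right (Nat.div_le_div_left ?_ a1.pos)
      simp only [hk]
      exact Nat.le_mul_of_pos_left _ (by positivity)
    refine (sum_le_sum h1).trans ?_
    rw [sum_const, card_range, smul_eq_mul]

end Pool.Agent.Helper602.Fam
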