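import Mathlib
import Pool.Agent.Helper602.Fam

namespace Pool.Agent.Helper602.Sel

open Finset Fam

/-- upper primes -/
def Up (m δ : ℕ) : Finset ℕ := (range (δ + 1)).filter (fun p => p.Prime ∧ m < p ^ 2)

lemma mem_Up {m δ p : ℕ} : p ∈ Up m δ ↔ p.Prime ∧ m < p ^ 2 ∧ p ≤ δ := by
  simp only [Up, mem_filter, mem_range, Nat.lt_succ_iff]; tauto

/-- few prime factors from `T` in a number divisible by a big prime `p` -/
lemma sum_fac_le {m r p A : ℕ} (hA : 1 < A) (hp : p.Prime) (hr : 0 < r) (hrm : r ≤ m)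
    (hpr : p ∣ r) (T : Finset ℕ) (hT : ∀ q ∈ T, q.Prime ∧ A ≤ q) (hpT : p ∉ T) :
    ∑ q ∈ T, r.factorization q ≤ Nat.log A (m / p) := by
  refine Nat.le_log_of_pow_le hA ?_
  obtain ⟨s, rfl⟩ := hpr
  have hs : 0 < s := Nat.pos_of_mul_pos_left hr |> fun h => by
    rcases Nat.eq_zero_or_pos s with h0 | h0
    · rw [h0, mul_zero] at hr; omega
    · exact h0
  have h1 : ∀ q ∈ T, (p * s).factorization q = s.factorization q := by
    intro q hq
    rw [Nat.factorization_mul hp.ne_zero hs.ne', Nat.Prime.factorization hp]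
    simp only [Finsupp.coe_add, Pi.add_apply, Finsupp.single_apply]
    rw [if_neg, zero_add]
    rintro rfl
    exact hpT hq
  rw [sum_congr rfl h1]
  have h2 : A ^ (∑ q ∈ T, s.factorization q) ≤ ∏ q ∈ T, q ^ s.factorization q := by
    rw [← prod_pow_eq_pow_sum]
    exact prod_le_prod' fun q hq => Nat.pow_le_pow_left (hT q hq).2 _
  have h3 : ∏ q ∈ T, q ^ s.factorization q ∣ s := by
    refine Finset.prod_dvd_of_isRelPrime ?_ fun q _ => Nat.ordProj_dvd s q
    intro q hq q' hq' hne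
    rw [mem_coe] at hq hq'
    simp only [Function.onFun]
    rw [← Nat.coprime_iff_isRelPrime]
    exact Nat.Coprime.pow _ _ ((Nat.coprime_primes (hT q hq).1 (hT q' hq').1).mpr hne)
  refine h2.trans ((Nat.le_of_dvd hs h3).trans ?_)
  rw [Nat.le_div_iff_mul_le hp.pos, mul_comm]
  exact hrm

lemma prof_eq_card {m p : ℕ} {S : Finset ℕ} (hp : p.Prime) (hpm : m < p ^ 2)
    (hS : ∀ r ∈ S, 0 < r ∧ r ≤ m) : prof S p = (S.filter (p ∣ ·)).card := by
  unfold prof
  rw [card_filter]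
  refine sum_congr rfl fun r hr => ?_
  obtain ⟨h1, h2⟩ := hS r hr
  by_cases h : p ∣ r
  · rw [if_pos h]
    have h3 := (hp.dvd_iff_one_le_factorization h1.ne').mp h
    have h4 : ¬ 2 ≤ r.factorization p := by
      intro h5
      have h6 := (hp.pow_dvd_iff_le_factorization h1.ne').mpr h5
      have := Nat.le_of_dvd h1 h6
      omega
    omega
  · rw [if_neg h]
    exact Nat.factorization_eq_zero_of_not_dvd h

lemma prof_mono {S T : Finset ℕ} (h : S ⊆ T) (p : ℕ) : prof S p ≤ prof T p :=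
  sum_le_sum_of_subset h

lemma prof_sdiff {S T : Finset ℕ} (h : S ⊆ T) (p : ℕ) : prof (T \ S) p + prof S p = prof T p := by
  rw [← prof_union sdiff_disjoint, sdiff_union_of_subset h]

open Classical in
lemma select {m δ z C β : ℕ} (R0 W : Finset ℕ) (E : ℕ → ℕ)
    (hδ : m < δ ^ 2)
    (hR0 : ∀ r ∈ R0, 0 < r ∧ r ≤ m)
    (hMd : ∀ q, q.Prime → z < q → q ^ 2 ≤ m → prof R0 q + prof W q ≤ E q)
    (hUp : ∀ p, p.Prime → m < p ^ 2 → p ≤ δ → prof W p ≤ E p ∧ prof R0 p + prof W p ≤ E p + C)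
    (hβ : (R0.filter (fun r => ∃ p, p.Prime ∧ δ < p ∧ p ∣ r)).card ≤ β) :
    ∃ X ⊆ R0, ∃ D : ℕ → ℕ,
      (∀ r ∈ R0 \ X, ∀ p, p.Prime → p ∣ r → p ≤ δ) ∧
      (∀ q, q.Prime → z < q → q ≤ δ → prof (R0 \ X) q + prof W q + D q = E q) ∧
      (∀ p, p.Prime → m < p ^ 2 → p ≤ δ → D p ≤ E p - (prof R0 p + prof W p)) ∧
      X.card ≤ β + C * (Up m δ).card ∧
      (∀ A : ℕ, 1 < A → ∀ T : Finset ℕ, (∀ q ∈ T, q.Prime ∧ z < q ∧ q ^ 2 ≤ m ∧ A ≤ q) →
        ∑ q ∈ T, D q ≤ ∑ q ∈ T, (E q - (prof R0 q + prof W q)) + β * Nat.log A (m / δ)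
          + C * ∑ p ∈ Up m δ, Nat.log A (m / p)) := by
  classical
  set XT := R0.filter (fun r => ∃ p, p.Prime ∧ δ < p ∧ p ∣ r) with hXT
  set σ : ℕ → ℕ := fun p => (prof R0 p + prof W p) - E p with hσ
  have hσ1 : ∀ p ∈ Up m δ, σ p ≤ (R0.filter (p ∣ ·)).card := by
    intro p hp
    obtain ⟨h1, h2, h3⟩ := mem_Up.mp hp
    rw [← prof_eq_card h1 h2 hR0]
    have := (hUp p h1 h2 h3).1
    simp only [hσ]; omega
  have hσ2 : ∀ p ∈ Up m δ, σ p ≤ C := by
    intro p hp
    obtain ⟨h1, h2, h3⟩ := mem_Up.mp hp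
    have := (hUp p h1 h2 h3).2
    simp only [hσ]; omega
  have hex : ∀ p ∈ Up m δ, ∃ Y, Y ⊆ R0.filter (p ∣ ·) ∧ Y.card = σ p := fun p hp =>
    exists_subset_card_eq (hσ1 p hp)
  choose! Y hY1 hY2 using hex
  set XP := (Up m δ).biUnion Y with hXP
  have hYR : ∀ p ∈ Up m δ, ∀ r ∈ Y p, r ∈ R0 ∧ p ∣ r := fun p hp r hr =>
    mem_filter.mp (hY1 p hp hr)
  -- two big primes cannot divide the same element
  have htwo : ∀ r ∈ R0, ∀ p p', p.Prime → p'.Prime → m < p ^ 2 → m < p' ^ 2 → p ∣ r → p' ∣ r →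
      p = p' := by
    intro r hr p p' hp hp' h1 h2 h3 h4
    by_contra hne
    have h5 : p * p' ∣ r := Nat.Coprime.mul_dvd_of_dvd_of_dvd ((Nat.coprime_primes hp hp').mpr hne) h3 h4
    have h6 := Nat.le_of_dvd (hR0 r hr).1 h5
    have h7 := (hR0 r hr).2
    rcases le_total p p' with h | h
    · have : p ^ 2 ≤ p * p' := by rw [sq]; exact Nat.mul_le_mul_left _ h
      omega
    · have : p' ^ 2 ≤ p * p' := by rw [sq]; exact Nat.mul_le_mul_right _ h
      omega
  have hXTp : ∀ p ∈ Up m δ, ∀ r ∈ XT, ¬ p ∣ r := by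
    intro p hp r hr hpr
    obtain ⟨h1, h2, h3⟩ := mem_Up.mp hp
    rw [hXT, mem_filter] at hr
    obtain ⟨hr0, p', hp', h4, h5⟩ := hr
    have : m < p' ^ 2 := lt_of_lt_of_le hδ (Nat.pow_le_pow_left h4.le 2)
    have := htwo r hr0 p p' h1 hp' h2 this hpr h5
    omega
  have hdisjY : ∀ p ∈ Up m δ, ∀ p' ∈ Up m δ, p ≠ p' → Disjoint (Y p) (Y p') := by
    intro p hp p' hp' hne
    rw [Finset.disjoint_left]
    intro r hr hr'
    obtain ⟨h1, h2, h3⟩ := mem_Up.mp hp
    obtain ⟨h1', h2', h3'⟩ := mem_Up.mp hp'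
    exact hne (htwo r (hYR p hp r hr).1 p p' h1 h1' h2 h2' (hYR p hp r hr).2 (hYR p' hp' r hr').2)
  have hXTR : XT ⊆ R0 := filter_subset _ _
  have hXPR : XP ⊆ R0 := by
    intro r hr
    rw [hXP, mem_biUnion] at hr
    obtain ⟨p, hp, hr⟩ := hr
    exact (hYR p hp r hr).1
  have hdisj : Disjoint XT XP := by
    rw [Finset.disjoint_left]
    intro r hr hr'
    rw [hXP, mem_biUnion] at hr'
    obtain ⟨p, hp, hr'⟩ := hr'
    exact hXTp p hp r hr (hYR p hp r hr').2
  set X := XT ∪ XP with hX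
  have hXR : X ⊆ R0 := union_subset hXTR hXPR
  have hprofX : ∀ q, prof X q = prof XT q + ∑ p ∈ Up m δ, prof (Y p) q := by
    intro q
    rw [hX, prof_union hdisj, hXP]
    congr 1
    unfold prof
    rw [sum_biUnion]
    intro p hp p' hp' hne
    exact hdisjY p hp p' hp' hne
  -- profile of X at an upper prime
  have hprofXp : ∀ p ∈ Up m δ, prof X p = σ p := by
    intro p hp
    obtain ⟨h1, h2, h3⟩ := mem_Up.mp hp
    rw [prof_eq_card h1 h2 (fun r hr => hR0 r (hXR hr)), ← hY2 p hp]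
    congr 1
    ext r
    rw [mem_filter, hX, mem_union, hXP, mem_biUnion]
    constructor
    · rintro ⟨h4 | ⟨p', hp', h4⟩, h5⟩
      · exact absurd h5 (hXTp p hp r h4)
      · obtain ⟨h1', h2', h3'⟩ := mem_Up.mp hp'
        have := htwo r (hYR p' hp' r h4).1 p p' h1 h1' h2 h2' h5 (hYR p' hp' r h4).2
        rw [this]; exact h4
    · intro h4
      exact ⟨Or.inr ⟨p, hp, h4⟩, (hYR p hp r h4).2⟩
  refine ⟨X, hXR, fun q => E q - (prof (R0 \ X) q + prof W q), ?_, ?_, ?_, ?_, ?_⟩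
  · intro r hr p hp hpr
    rw [mem_sdiff] at hr
    by_contra hcon
    push Not at hcon
    exact hr.2 (mem_union_left _ (mem_filter.mpr ⟨hr.1, p, hp, hcon, hpr⟩))
  · intro q hq hqz hqδ
    simp only
    have h1 : prof (R0 \ X) q + prof W q ≤ E q := by
      rcases le_or_gt (q ^ 2) m with h | h
      · have := hMd q hq hqz h
        have := prof_mono (S := R0 \ X) (T := R0) sdiff_subset q
        omega
      · have h2 := hprofXp q (mem_Up.mpr ⟨hq, h, hqδ⟩)
        have h3 := prof_sdiff hXR q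
        have h4 := (hUp q hq h hqδ).1
        simp only [hσ] at h2
        omega
    omega
  · intro p hp hpm hpδ
    have h2 := hprofXp p (mem_Up.mpr ⟨hp, hpm, hpδ⟩)
    have h3 := prof_sdiff hXR p
    have h4 := (hUp p hp hpm hpδ).1
    simp only [hσ] at h2
    simp only
    omega
  · rw [hX, card_union_of_disjoint hdisj]
    refine Nat.add_le_add hβ ?_
    rw [hXP]
    refine card_biUnion_le.trans ?_
    calc ∑ p ∈ Up m δ, (Y p).card ≤ ∑ p ∈ Up m δ, C := sum_le_sum fun p hp => by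
          rw [hY2 p hp]; exact hσ2 p hp
      _ = C * (Up m δ).card := by rw [sum_const, smul_eq_mul, mul_comm]
  · intro A hA T hT
    have h1 : ∀ q ∈ T, E q - (prof (R0 \ X) q + prof W q)
        = (E q - (prof R0 q + prof W q)) + (prof XT q + ∑ p ∈ Up m δ, prof (Y p) q) := by
      intro q hq
      obtain ⟨a1, a2, a3, a4⟩ := hT q hq
      have h3 := prof_sdiff hXR q
      have h4 := hMd q a1 a2 a3
      have h5 := hprofX q
      omega
    rw [sum_congr rfl h1, sum_add_distrib, sum_add_distrib, add_assoc]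
    refine Nat.add_le_add_left ?_ _
    refine Nat.add_le_add ?_ ?_
    · unfold prof
      rw [sum_comm]
      have h6 : ∀ r ∈ XT, ∑ q ∈ T, r.factorization q ≤ Nat.log A (m / δ) := by
        intro r hr
        have hrR := hR0 r (hXTR hr)
        rw [hXT, mem_filter] at hr
        obtain ⟨hr0, p, hp, h4, h5⟩ := hr
        refine (sum_fac_le hA hp hrR.1 hrR.2 h5 T (fun q hq => ⟨(hT q hq).1, (hT q hq).2.2.2⟩) ?_).trans ?_
        · intro hpT
          have h7 := (hT p hpT).2.2.1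
          have : δ ^ 2 ≤ p ^ 2 := Nat.pow_le_pow_left h4.le 2
          omega
        · refine Nat.log_mono_right (Nat.div_le_div_left h4.le ?_)
          rcases Nat.eq_zero_or_pos δ with h0 | h0
          · rw [h0] at hδ; omega
          · exact h0
      calc ∑ r ∈ XT, ∑ q ∈ T, r.factorization q ≤ ∑ r ∈ XT, Nat.log A (m / δ) := sum_le_sum h6
        _ = XT.card * Nat.log A (m / δ) := by rw [sum_const, smul_eq_mul]
        _ ≤ β * Nat.log A (m / δ) := Nat.mul_le_mul_right _ hβ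
    · rw [sum_comm, mul_sum]
      refine sum_le_sum fun p hp => ?_
      obtain ⟨h1, h2, h3⟩ := mem_Up.mp hp
      unfold prof
      rw [sum_comm]
      have h6 : ∀ r ∈ Y p, ∑ q ∈ T, r.factorization q ≤ Nat.log A (m / p) := by
        intro r hr
        obtain ⟨hr1, hr2⟩ := hYR p hp r hr
        refine sum_fac_le hA h1 (hR0 r hr1).1 (hR0 r hr1).2 hr2 T
          (fun q hq => ⟨(hT q hq).1, (hT q hq).2.2.2⟩) ?_
        intro hpT
        have h7 := (hT p hpT).2.2.1
        omega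
      calc ∑ r ∈ Y p, ∑ q ∈ T, r.factorization q ≤ ∑ r ∈ Y p, Nat.log A (m / p) := sum_le_sum h6
        _ = (Y p).card * Nat.log A (m / p) := by rw [sum_const, smul_eq_mul]
        _ ≤ C * Nat.log A (m / p) := Nat.mul_le_mul_right _ (by rw [hY2 p hp]; exact hσ2 p hp)

end Pool.Agent.Helper602.Sel
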