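import Mathlib
import Pool.Agent.Helper602.Asym
import Pool.Agent.Helper602.Sel

open Filter Topology Finset

namespace Pool.Agent.Helper602.Asym

/-- estimates for the dyadic classes -/
lemma small2 (η ε K' : ℝ) (hη : 0 < η) (hε : 0 < ε) : ∀ᶠ n : ℕ in atTop, ∀ δ : ℕ,
    η * n / Real.log n ≤ δ → (δ:ℝ) ≤ n / Real.log n → ∀ a : ℕ, ss n ^ 3 ≤ (2:ℝ) ^ a →
    (2:ℝ) ^ a ≤ 12 * Real.sqrt ((2 * n + δ : ℕ) : ℝ) →
    (1 < 2 ^ a / 12) ∧ ((2 * n + δ) / δ < 2 ^ a / 12) ∧
    (((∑ p ∈ Sel.Up (2 * n + δ) δ, Nat.log (2 ^ a / 12) ((2 * n + δ) / p) : ℕ) : ℝ) ≤ ε * (n / 2 ^ a)) ∧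
    (Real.sqrt n * Nat.primeCounting (2 ^ a) ≤ ε * n) ∧
    K' ≤ n / 2 ^ a := by
  obtain ⟨C, hC, hc⟩ := Est.sumlog
  obtain ⟨C', hC', hc'⟩ := Est.cheb
  set K : ℝ := 100 + 100 / η + 864 * C / ε + Real.exp (24 * C' / ε) + 24 * |K'| with hK
  have hKpos : 0 < K := by positivity
  filter_upwards [base K, small η ε hη hε] with n hn hsm δ hδ1 hδ2 a ha1 ha2
  obtain ⟨-, -, -, -, hδsq⟩ := hsm δ hδ1 hδ2
  obtain ⟨hn0, hs1, hs2, hsK, hslog, hs8⟩ := hn
  set s := ss n with hs
  have hnR : (0:ℝ) < n := by exact_mod_cast hn0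
  have hs0 : 0 < s := by linarith
  have hlogs : 0 ≤ Real.log s := Real.log_nonneg hs1
  rw [← hs2] at hδ1 hδ2
  have hsqn : 0 < Real.sqrt n := Real.sqrt_pos.mpr hnR
  have hsqn2 : Real.sqrt n ^ 2 = n := Real.sq_sqrt hnR.le
  have hp3 : 0 < s ^ 3 := by positivity
  have hp2 : 0 < s ^ 2 := by positivity
  have hδ0 : (0:ℝ) < δ := lt_of_lt_of_le hsqn hδsq
  have hδ0' : 0 < δ := by exact_mod_cast hδ0
  have hδn : (δ:ℝ) ≤ n := by
    refine hδ2.trans ?_
    rw [div_le_iff₀ hp2]
    exact le_mul_of_one_le_right hnR.le (one_le_pow₀ hs1)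
  have hsK100 : 100 ≤ s := by
    refine le_trans ?_ hsK
    have : 0 ≤ 100 / η + 864 * C / ε + Real.exp (24 * C' / ε) + 24 * |K'| := by positivity
    linarith
  have hsKη : 100 / η ≤ s := by
    refine le_trans ?_ hsK
    have : 0 ≤ 100 + 864 * C / ε + Real.exp (24 * C' / ε) + 24 * |K'| := by positivity
    linarith
  have hsKC : 864 * C / ε ≤ s := by
    refine le_trans ?_ hsK
    have : 0 ≤ 100 + 100 / η + Real.exp (24 * C' / ε) + 24 * |K'| := by positivity
    linarith
  have hsKe : Real.exp (24 * C' / ε) ≤ s := by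
    refine le_trans ?_ hsK
    have : 0 ≤ 100 + 100 / η + 864 * C / ε + 24 * |K'| := by positivity
    linarith
  have hKK : 24 * |K'| ≤ K := by
    have : 0 ≤ 100 + 100 / η + 864 * C / ε + Real.exp (24 * C' / ε) := by positivity
    linarith
  have hK100 : 100 ≤ K := by
    have : 0 ≤ 100 / η + 864 * C / ε + Real.exp (24 * C' / ε) + 24 * |K'| := by positivity
    linarith
  set m := 2 * n + δ with hm
  have hm0 : (0:ℝ) < m := by
    have : 0 < m := by omega
    exact_mod_cast this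
  have hm3 : (m:ℝ) ≤ 3 * n := by rw [hm]; push_cast; linarith
  have hm2 : 2 * (n:ℝ) ≤ m := by rw [hm]; push_cast; linarith
  have hsm3 : Real.sqrt m ≤ 2 * Real.sqrt n := by
    rw [Real.sqrt_le_left (by positivity), mul_pow, hsqn2]
    linarith
  have hsqm : 0 < Real.sqrt m := Real.sqrt_pos.mpr hm0
  have hsqm2 : Real.sqrt m ^ 2 = m := Real.sq_sqrt hm0.le
  have hsnm : Real.sqrt n ≤ Real.sqrt m := Real.sqrt_le_sqrt (by linarith)
  -- size of 2^a
  have h2a : (s:ℝ) ≤ 2 ^ a := by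
    refine le_trans ?_ ha1
    calc s = s ^ 1 := (pow_one s).symm
      _ ≤ s ^ 3 := pow_le_pow_right₀ hs1 (by norm_num)
  have h2a0 : (0:ℝ) < 2 ^ a := by positivity
  have h2aN : 100 ≤ 2 ^ a := by
    have : (100:ℝ) ≤ 2 ^ a := hsK100.trans h2a
    exact_mod_cast this
  set A := 2 ^ a / 12 with hA
  have hA24 : 2 ^ a ≤ 24 * A := by omega
  have hA12 : 12 * A ≤ 2 ^ a := by omega
  have hA8 : 8 ≤ A := by omega
  have hA24R : (2:ℝ) ^ a ≤ 24 * A := by exact_mod_cast hA24
  have hA12R : 12 * (A:ℝ) ≤ 2 ^ a := by exact_mod_cast hA12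
  have hA8R : (8:ℝ) ≤ A := by exact_mod_cast hA8
  have hA0 : (0:ℝ) < A := by linarith
  have hAsm : (A:ℝ) ≤ Real.sqrt m := by linarith
  have hlogA : 1 ≤ Real.log A := by
    rw [Real.le_log_iff_exp_le hA0]
    have := Real.exp_one_lt_d9
    linarith
  refine ⟨by omega, ?_, ?_, ?_, ?_⟩
  · -- m / δ < A
    rw [Nat.div_lt_iff_lt_mul hδ0']
    have h1 : (m:ℝ) < A * δ := by
      have h2 : η * n ≤ δ * s ^ 2 := by rwa [div_le_iff₀ hp2] at hδ1
      have h3 : s ^ 3 ≤ 24 * A := ha1.trans hA24R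
      have h4 : 100 ≤ η * s := by
        rw [div_le_iff₀ hη] at hsKη; linarith
      have h5 : η * n * s ≤ δ * s ^ 3 := by
        calc η * n * s ≤ (δ * s ^ 2) * s := by gcongr
          _ = δ * s ^ 3 := by ring
      have h6 : 100 * n ≤ η * n * s := by
        calc 100 * (n:ℝ) ≤ (η * s) * n := by gcongr
          _ = η * n * s := by ring
      have h7 : δ * s ^ 3 ≤ δ * (24 * A) := by gcongr
      have h8 : (δ:ℝ) * (24 * A) = 24 * (A * δ) := by ring
      rw [h8] at h7
      linarith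
    exact_mod_cast h1
  · -- P part
    set x := m / A with hx
    have hAm : A ≤ m := by
      have h1 : (A:ℝ) ≤ m := by
        have : Real.sqrt m ≤ m := by
          have h2 : 1 ≤ Real.sqrt m := by linarith
          calc Real.sqrt m = Real.sqrt m * 1 := (mul_one _).symm
            _ ≤ Real.sqrt m * Real.sqrt m := mul_le_mul_of_nonneg_left h2 hsqm.le
            _ = m := by rw [← sq, hsqm2]
        linarith
      exact_mod_cast h1
    have hx1 : 1 ≤ x := (Nat.one_le_div_iff (by omega)).mpr hAm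
    have hxR : (x:ℝ) ≤ m / A := Nat.cast_div_le
    have hxlo : (m:ℝ) ≤ 2 * A * x := by
      have h1 : m < A * (x + 1) := Nat.lt_mul_div_succ _ (by omega)
      have h2 : m ≤ A * (2 * x) := h1.le.trans (Nat.mul_le_mul_left _ (by omega))
      have h3 : (m:ℝ) ≤ A * (2 * x) := by exact_mod_cast h2
      linarith
    have hxsq : Real.sqrt m / 2 ≤ x := by
      have h1 : Real.sqrt m * Real.sqrt m ≤ 2 * Real.sqrt m * x := by
        calc Real.sqrt m * Real.sqrt m = m := by rw [← sq, hsqm2]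
          _ ≤ 2 * A * x := hxlo
          _ ≤ 2 * Real.sqrt m * x := by gcongr
      have h2 : Real.sqrt m * Real.sqrt m ≤ Real.sqrt m * (2 * x) := by linarith
      have := le_of_mul_le_mul_left h2 hsqm
      linarith
    have hsn : 100 ≤ Real.sqrt n := by
      exact le_trans (hK100.trans (le_mul_of_one_le_right hKpos.le (one_le_pow₀ hs1))) hs8
    have hx0 : (0:ℝ) < x := by linarith
    have hx2 : 2 ≤ x := by
      have : (2:ℝ) ≤ x := by linarith
      exact_mod_cast this
    have hlogx : s ^ 2 / 4 ≤ Real.log x := by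
      have h1 : Real.sqrt n / 2 ≤ x := by linarith
      have h2 := Real.log_le_log (by positivity) h1
      rw [Real.log_div hsqn.ne' (by norm_num), Real.log_sqrt hnR.le, ← hs2] at h2
      have h3 : Real.log 2 ≤ 1 := by
        have := Real.log_le_sub_one_of_pos (show (0:ℝ) < 2 by norm_num)
        linarith
      have h4 : 4 ≤ s ^ 2 := by
        calc (4:ℝ) ≤ 100 ^ 2 := by norm_num
          _ ≤ s ^ 2 := pow_le_pow_left₀ (by norm_num) hsK100 2
      linarith
    have hlogx0 : 0 < Real.log x := lt_of_lt_of_le (by positivity) hlogx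
    have hxm : x ≤ m := Nat.div_le_self _ _
    have h1 : ∑ p ∈ Sel.Up m δ, Nat.log A (m / p) ≤ ∑ p ∈ Est.Pr x, Nat.log A (m / p) := by
      have h2 : ∑ p ∈ Sel.Up m δ, Nat.log A (m / p)
          = ∑ p ∈ (Sel.Up m δ).filter (· ≤ x), Nat.log A (m / p) := by
        rw [sum_filter]
        refine sum_congr rfl fun p hp => ?_
        split
        · rfl
        · rename_i h
          push Not at h
          obtain ⟨hpp, _, _⟩ := Sel.mem_Up.mp hp
          rw [Nat.log_eq_zero_iff]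
          left
          rw [Nat.div_lt_iff_lt_mul hpp.pos]
          rw [hx, Nat.div_lt_iff_lt_mul (by omega)] at h
          rw [mul_comm]; exact h
      rw [h2]
      refine sum_le_sum_of_subset ?_
      intro p hp
      rw [mem_filter] at hp
      exact Est.mem_Pr.mpr ⟨(Sel.mem_Up.mp hp.1).1, hp.2⟩
    have h2 : ∀ p ∈ Est.Pr x, ((Nat.log A (m / p) : ℕ) : ℝ) ≤ ((Nat.log 2 (m / p) : ℝ) + 1) / Real.log A := by
      intro p hp
      obtain ⟨hpp, hpx⟩ := Est.mem_Pr.mp hp
      rw [le_div_iff₀ (by linarith)]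
      have hmp : 1 ≤ m / p := (Nat.one_le_div_iff hpp.pos).mpr (hpx.trans hxm)
      have h3 : A ^ Nat.log A (m / p) ≤ m / p := Nat.pow_log_le_self A (by omega)
      have h4 : m / p < 2 ^ (Nat.log 2 (m / p) + 1) := Nat.lt_pow_succ_log_self (by norm_num) _
      have h5 : ((A ^ Nat.log A (m / p) : ℕ) : ℝ) ≤ ((2 ^ (Nat.log 2 (m / p) + 1) : ℕ) : ℝ) := by
        exact_mod_cast h3.trans h4.le
      push_cast at h5
      have h6 := Real.log_le_log (by positivity) h5
      rw [Real.log_pow, Real.log_pow] at h6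
      push_cast at h6
      have h7 : Real.log 2 ≤ 1 := by
        have := Real.log_le_sub_one_of_pos (show (0:ℝ) < 2 by norm_num)
        linarith
      have h8 : ((Nat.log 2 (m / p) : ℝ) + 1) * Real.log 2 ≤ ((Nat.log 2 (m / p) : ℝ) + 1) * 1 := by
        gcongr
      linarith
    have h3 := hc x m hx2 hxm
    have h4 : Real.log ((m:ℝ) / x) ≤ Real.log (2 * A) := by
      apply Real.log_le_log (by positivity)
      rw [div_le_iff₀ hx0]; exact hxlo
    have h5 : 1 + Real.log ((m:ℝ) / x) ≤ 3 * Real.log A := by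
      rw [Real.log_mul (by norm_num) hA0.ne'] at h4
      have h7 : Real.log 2 ≤ 1 := by
        have := Real.log_le_sub_one_of_pos (show (0:ℝ) < 2 by norm_num)
        linarith
      linarith
    have h5' : 0 ≤ 1 + Real.log ((m:ℝ) / x) := by
      have : 0 ≤ Real.log ((m:ℝ) / x) := Real.log_nonneg (by
        rw [le_div_iff₀ hx0, one_mul]; exact_mod_cast hxm)
      linarith
    have h6 : ((∑ p ∈ Sel.Up m δ, Nat.log A (m / p) : ℕ) : ℝ)
        ≤ (∑ p ∈ Est.Pr x, ((Nat.log 2 (m / p) : ℝ) + 1)) / Real.log A := by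
      calc ((∑ p ∈ Sel.Up m δ, Nat.log A (m / p) : ℕ) : ℝ)
          ≤ ((∑ p ∈ Est.Pr x, Nat.log A (m / p) : ℕ) : ℝ) := by exact_mod_cast h1
        _ = ∑ p ∈ Est.Pr x, ((Nat.log A (m / p) : ℕ) : ℝ) := by push_cast; rfl
        _ ≤ ∑ p ∈ Est.Pr x, ((Nat.log 2 (m / p) : ℝ) + 1) / Real.log A := sum_le_sum h2
        _ = _ := by rw [sum_div]
    refine h6.trans ?_
    rw [div_le_iff₀ (by linarith)]
    have h7 : (x:ℝ) / Real.log x ≤ (72 * n / 2 ^ a) / (s ^ 2 / 4) := by
      have h8 : (x:ℝ) ≤ 72 * n / 2 ^ a := by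
        rw [le_div_iff₀ h2a0]
        calc (x:ℝ) * 2 ^ a ≤ (m / A) * (24 * A) := by gcongr
          _ = 24 * m := by field_simp
          _ ≤ 72 * n := by linarith
      exact div_le_div₀ (by positivity) h8 (by positivity) hlogx
    calc ∑ p ∈ Est.Pr x, ((Nat.log 2 (m / p) : ℝ) + 1)
        ≤ C * (x / Real.log x) * (1 + Real.log ((m:ℝ) / x)) := h3
      _ ≤ C * ((72 * n / 2 ^ a) / (s ^ 2 / 4)) * (3 * Real.log A) := by
          refine mul_le_mul ?_ h5 h5' (by positivity)
          exact mul_le_mul_of_nonneg_left h7 hC.le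
      _ = (864 * C / s ^ 2) * (n / 2 ^ a) * Real.log A := by field_simp; ring
      _ ≤ ε * (n / 2 ^ a) * Real.log A := by
          refine mul_le_mul_of_nonneg_right ?_ (by linarith)
          refine mul_le_mul_of_nonneg_right ?_ (by positivity)
          rw [div_le_iff₀ hp2]
          rw [div_le_iff₀ hε] at hsKC
          have h9 : s ≤ s ^ 2 := by
            calc s = s ^ 1 := (pow_one s).symm
              _ ≤ s ^ 2 := pow_le_pow_right₀ hs1 (by norm_num)
          calc 864 * C ≤ s * ε := hsKC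
            _ = ε * s := mul_comm _ _
            _ ≤ ε * s ^ 2 := mul_le_mul_of_nonneg_left h9 hε.le
  · -- class size
    have h2aR : (2:ℝ) ≤ ((2 ^ a : ℕ) : ℝ) := by push_cast; linarith
    have h1 := hc' (2 ^ a) (by omega)
    have hlog2a : 24 * C' / ε ≤ Real.log ((2 ^ a : ℕ) : ℝ) := by
      rw [Real.le_log_iff_exp_le (by positivity)]
      push_cast
      exact hsKe.trans h2a
    have hpos : 0 < 24 * C' / ε := by positivity
    have h3 : (Nat.primeCounting (2 ^ a) : ℝ) ≤ C' * (24 * Real.sqrt n) / (24 * C' / ε) := by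
      refine h1.trans ?_
      refine div_le_div₀ (by positivity) ?_ hpos hlog2a
      push_cast
      refine mul_le_mul_of_nonneg_left ?_ hC'.le
      linarith
    calc Real.sqrt n * Nat.primeCounting (2 ^ a)
        ≤ Real.sqrt n * (C' * (24 * Real.sqrt n) / (24 * C' / ε)) := by gcongr
      _ = ε * Real.sqrt n ^ 2 := by field_simp
      _ = ε * n := by rw [hsqn2]
  · -- n / 2^a large
    rw [le_div_iff₀ h2a0]
    have h1 : K' * 2 ^ a ≤ |K'| * (24 * Real.sqrt n) := by
      calc K' * 2 ^ a ≤ |K'| * 2 ^ a := by gcongr; exact le_abs_self _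
        _ ≤ |K'| * (24 * Real.sqrt n) := by gcongr; linarith
    have h2 : 24 * |K'| ≤ Real.sqrt n := by
      exact hKK.trans (le_trans (le_mul_of_one_le_right hKpos.le (one_le_pow₀ hs1)) hs8)
    calc K' * 2 ^ a ≤ (24 * |K'|) * Real.sqrt n := by linarith
      _ ≤ Real.sqrt n * Real.sqrt n := by gcongr
      _ = n := by rw [← sq, hsqn2]

end Pool.Agent.Helper602.Asym
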