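import Mathlib

namespace Pool.Agent.Helper602.Cop

/-- numbers in `(x, x+L]` coprime to `Q` -/
def cop (Q x L : ℕ) : Finset ℕ := (Finset.Ioc x (x + L)).filter (fun r => Nat.Coprime r Q)

/-- density -/
noncomputable def rho (Q : ℕ) : ℝ := (Nat.totient Q : ℝ) / Q

lemma mem_cop {Q x L r : ℕ} : r ∈ cop Q x L ↔ (x < r ∧ r ≤ x + L) ∧ Nat.Coprime r Q := by
  simp [cop]

lemma rho_pos {Q : ℕ} (hQ : 0 < Q) : 0 < rho Q := by
  unfold rho
  have := Nat.totient_pos.mpr hQ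
  positivity

lemma rho_le_one {Q : ℕ} (hQ : 0 < Q) : rho Q ≤ 1 := by
  unfold rho
  rw [div_le_one (by exact_mod_cast hQ)]
  exact_mod_cast Nat.totient_le Q

lemma cop_period (Q : ℕ) (x j : ℕ) : (cop Q x (Q * j)).card = Nat.totient Q * j := by
  induction j with
  | zero => simp [cop]
  | succ j ih =>
    have h1 : cop Q x (Q * (j + 1)) = cop Q x (Q * j) ∪ cop Q (x + Q * j) Q := by
      ext r
      simp only [Finset.mem_union, mem_cop]
      have : Q * (j + 1) = Q * j + Q := by ring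
      rw [this]
      constructor
      · rintro ⟨⟨h1, h2⟩, h3⟩
        rcases le_or_gt r (x + Q * j) with h | h
        · exact Or.inl ⟨⟨h1, h⟩, h3⟩
        · exact Or.inr ⟨⟨h, by omega⟩, h3⟩
      · rintro (⟨⟨h1, h2⟩, h3⟩ | ⟨⟨h1, h2⟩, h3⟩)
        · exact ⟨⟨h1, by omega⟩, h3⟩
        · exact ⟨⟨by omega, by omega⟩, h3⟩
    have h2 : Disjoint (cop Q x (Q * j)) (cop Q (x + Q * j) Q) := by
      rw [Finset.disjoint_left]
      intro r hr hr'
      rw [mem_cop] at hr hr'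
      omega
    rw [h1, Finset.card_union_of_disjoint h2, ih]
    have h3 : (cop Q (x + Q * j) Q).card = Nat.totient Q := by
      rw [← Nat.filter_coprime_Ico_eq_totient Q (x + Q * j + 1)]
      congr 1
      ext r
      simp only [mem_cop, Finset.mem_filter, Finset.mem_Ico]
      rw [Nat.coprime_comm]
      constructor
      · rintro ⟨⟨a1, a2⟩, a3⟩
        exact ⟨⟨by omega, by omega⟩, a3⟩
      · rintro ⟨⟨a1, a2⟩, a3⟩
        exact ⟨⟨by omega, by omega⟩, a3⟩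
    rw [h3]
    ring

lemma cop_mono (Q x : ℕ) {L L' : ℕ} (h : L ≤ L') : cop Q x L ⊆ cop Q x L' := by
  intro r hr
  rw [mem_cop] at hr ⊢
  exact ⟨⟨hr.1.1, by omega⟩, hr.2⟩

lemma cop_card {Q : ℕ} (hQ : 0 < Q) (x L : ℕ) :
    |((cop Q x L).card : ℝ) - rho Q * L| ≤ Q := by
  have hQ' : (0:ℝ) < Q := by exact_mod_cast hQ
  have hd := Nat.div_add_mod L Q
  have hm := Nat.mod_lt L hQ
  have h1 : (cop Q x (Q * (L / Q))).card ≤ (cop Q x L).card :=
    Finset.card_le_card (cop_mono Q x (by omega))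
  have h2 : (cop Q x L).card ≤ (cop Q x (Q * (L / Q + 1))).card :=
    Finset.card_le_card (cop_mono Q x (by rw [mul_add]; omega))
  rw [cop_period] at h1 h2
  have h1' : (Nat.totient Q : ℝ) * (L / Q : ℕ) ≤ (cop Q x L).card := by exact_mod_cast h1
  have h2' : ((cop Q x L).card : ℝ) ≤ (Nat.totient Q : ℝ) * ((L / Q : ℕ) + 1) := by exact_mod_cast h2
  have hphi : (Nat.totient Q : ℝ) ≤ Q := by exact_mod_cast Nat.totient_le Q
  have hphi0 : (0:ℝ) ≤ (Nat.totient Q : ℝ) := Nat.cast_nonneg _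
  have hL1 : (Q:ℝ) * (L / Q : ℕ) ≤ L := by
    have : Q * (L / Q) ≤ L := by omega
    exact_mod_cast this
  have hL2 : (L:ℝ) ≤ (Q:ℝ) * ((L / Q : ℕ) + 1) := by
    have : L ≤ Q * (L / Q + 1) := by rw [mul_add]; omega
    exact_mod_cast this
  have e : rho Q * L = (Nat.totient Q : ℝ) * (L / Q) := by unfold rho; ring
  rw [e]
  have hA : ((L / Q : ℕ) : ℝ) ≤ (L:ℝ) / Q := by rw [le_div_iff₀ hQ']; linarith
  have hB : (L:ℝ) / Q ≤ ((L / Q : ℕ) : ℝ) + 1 := by rw [div_le_iff₀ hQ']; linarith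
  rw [abs_le]
  constructor
  · have := mul_le_mul_of_nonneg_left hB hphi0
    nlinarith
  · have := mul_le_mul_of_nonneg_left hA hphi0
    nlinarith

lemma cop_filter_card {Q k : ℕ} (hk : 0 < k) (hkQ : Nat.Coprime k Q) (x L : ℕ) :
    ((cop Q x L).filter (k ∣ ·)).card = (cop Q (x / k) ((x + L) / k - x / k)).card := by
  have hle : x / k ≤ (x + L) / k := Nat.div_le_div_right (by omega)
  symm
  refine Finset.card_bij (fun j _ => k * j) ?_ ?_ ?_
  · intro j hj
    rw [mem_cop] at hj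
    rw [Finset.mem_filter, mem_cop]
    refine ⟨⟨⟨?_, ?_⟩, ?_⟩, Dvd.intro _ rfl⟩
    · have := (Nat.div_lt_iff_lt_mul hk).mp hj.1.1
      rw [mul_comm]; exact this
    · have h2 : j ≤ (x + L) / k := by omega
      have := (Nat.le_div_iff_mul_le hk).mp h2
      rw [mul_comm]; exact this
    · exact Nat.Coprime.mul_left hkQ hj.2
  · intro j _ j' _ h
    exact Nat.eq_of_mul_eq_mul_left hk h
  · intro r hr
    rw [Finset.mem_filter, mem_cop] at hr
    obtain ⟨⟨⟨h1, h2⟩, h3⟩, ⟨j, rfl⟩⟩ := hr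
    refine ⟨j, ?_, rfl⟩
    rw [mem_cop]
    refine ⟨⟨?_, ?_⟩, Nat.Coprime.coprime_mul_left h3⟩
    · rw [Nat.div_lt_iff_lt_mul hk, mul_comm]; exact h1
    · have : j ≤ (x + L) / k := by
        rw [Nat.le_div_iff_mul_le hk, mul_comm]; exact h2
      omega

lemma cop_filter_bound {Q k : ℕ} (hQ : 0 < Q) (hk : 0 < k) (hkQ : Nat.Coprime k Q) (x L : ℕ) :
    |(((cop Q x L).filter (k ∣ ·)).card : ℝ) - rho Q * L / k| ≤ Q + 1 := by
  rw [cop_filter_card hk hkQ]
  have hk' : (0:ℝ) < k := by exact_mod_cast hk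
  have h1 := cop_card hQ (x / k) ((x + L) / k - x / k)
  have hle : x / k ≤ (x + L) / k := Nat.div_le_div_right (by omega)
  rw [Nat.cast_sub hle] at h1
  have hr0 := rho_pos hQ
  have hr1 := rho_le_one hQ
  have a1 : ((x / k : ℕ) : ℝ) ≤ (x:ℝ) / k := Nat.cast_div_le
  have a2 : (x:ℝ) / k < ((x / k : ℕ) : ℝ) + 1 := Nat.lt_succ_floor _ |>.trans_eq (by
    rw [Nat.floor_div_eq_div]; push_cast; ring)
  have a3 : (((x + L) / k : ℕ) : ℝ) ≤ ((x:ℝ) + L) / k := by
    have := @Nat.cast_div_le ℝ _ _ _ (x + L) k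
    push_cast at this
    exact this
  have a4 : ((x:ℝ) + L) / k < (((x + L) / k : ℕ) : ℝ) + 1 := by
    have := Nat.lt_succ_floor (((x + L : ℕ) : ℝ) / k)
    rw [Nat.floor_div_eq_div] at this
    push_cast at this
    exact this
  have a5 : ((x:ℝ) + L) / k = x / k + L / k := by ring
  have e : rho Q * L / k = rho Q * (L / k) := by ring
  rw [e]
  rw [abs_le] at h1 ⊢
  constructor
  · nlinarith [h1.1]
  · nlinarith [h1.2]

end Pool.Agent.Helper602.Cop
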