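import Mathlib
import Pool.Agent.Helper602.Fam

namespace Pool.Agent.Helper602.Fam

open Finset

/-- doubling some elements of a set of odd numbers -/
lemma fam_double (n δ : ℕ) (S : Finset ℕ) (g : ℕ)
    (hS : ∀ r ∈ S, n < r ∧ r ≤ 2 * n + δ ∧ ¬ 2 ∣ r ∧ ¬ 3 ∣ r)
    (hg : g ≤ (S.filter (fun r => 2 * r ≤ 2 * n + δ)).card) :
    ∃ F : Finset ℕ, (∀ r ∈ F, n < r ∧ r ≤ 2 * n + δ ∧ r.factorization 3 = 0 ∧
      r.factorization 2 ≤ 1 ∧ ∀ p, p.Prime → p ∣ r → p = 2 ∨ ∃ s ∈ S, p ∣ s) ∧
      prof F 2 = g ∧ ∀ p, p ≠ 2 → prof F p = prof S p := by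
  classical
  obtain ⟨Y, hY1, hY2⟩ := Finset.exists_subset_card_eq hg
  have hYS : Y ⊆ S := hY1.trans (filter_subset _ _)
  set f : ℕ → ℕ := fun r => if r ∈ Y then 2 * r else r with hf
  have hfac : ∀ r ∈ S, ∀ p, (f r).factorization p = r.factorization p +
      if p = 2 ∧ r ∈ Y then 1 else 0 := by
    intro r hr p
    simp only [hf]
    by_cases h : r ∈ Y
    · rw [if_pos h, Nat.factorization_mul (by norm_num) (by have := (hS r hr).1; omega),
        Nat.Prime.factorization Nat.prime_two]
      simp only [Finsupp.coe_add, Pi.add_apply, Finsupp.single_apply, h, and_true]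
      rw [add_comm]
      congr 1
      by_cases h : p = 2
      · rw [if_pos h, if_pos h.symm]
      · rw [if_neg h, if_neg (Ne.symm h)]
    · rw [if_neg h, if_neg (by tauto), add_zero]
  have h20 : ∀ r ∈ S, r.factorization 2 = 0 := fun r hr =>
    Nat.factorization_eq_zero_of_not_dvd (hS r hr).2.2.1
  have h30 : ∀ r ∈ S, r.factorization 3 = 0 := fun r hr =>
    Nat.factorization_eq_zero_of_not_dvd (hS r hr).2.2.2
  have hinj : Set.InjOn f S := by
    intro r hr r' hr' h
    rw [mem_coe] at hr hr'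
    have a1 := (hS r hr).2.2.1
    have a2 := (hS r' hr').2.2.1
    simp only [hf] at h
    split at h <;> split at h <;> omega
  refine ⟨S.image f, ?_, ?_, ?_⟩
  · intro x hx
    rw [mem_image] at hx
    obtain ⟨r, hr, rfl⟩ := hx
    obtain ⟨a1, a2, a3, a4⟩ := hS r hr
    refine ⟨?_, ?_, ?_, ?_, ?_⟩
    · simp only [hf]; split <;> omega
    · simp only [hf]
      split
      · rename_i h
        exact (mem_filter.mp (hY1 h)).2
      · exact a2
    · rw [hfac r hr, h30 r hr, if_neg (by omega)]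
    · rw [hfac r hr, h20 r hr]; split <;> omega
    · intro p hp hpd
      by_cases h2 : p = 2
      · exact Or.inl h2
      right
      refine ⟨r, hr, ?_⟩
      have h0 : f r ≠ 0 := by simp only [hf]; split <;> omega
      have := (hp.dvd_iff_one_le_factorization h0).mp hpd
      rw [hfac r hr, if_neg (by tauto), add_zero] at this
      exact (hp.dvd_iff_one_le_factorization (by omega)).mpr this
  · rw [prof_image S f hinj]
    have : ∀ r ∈ S, (f r).factorization 2 = if r ∈ Y then 1 else 0 := by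
      intro r hr
      rw [hfac r hr, h20 r hr]
      simp
    rw [sum_congr rfl this, sum_ite_mem, inter_eq_right.mpr hYS, sum_const, hY2]
    simp
  · intro p hp
    rw [prof_image S f hinj]
    refine sum_congr rfl fun r hr => ?_
    rw [hfac r hr, if_neg (by tauto), add_zero]

lemma exists_idx (B : Finset ℕ) : ∃ idx : ℕ → ℕ, Set.InjOn idx B ∧ B.image idx = range B.card := by
  classical
  refine ⟨fun s => if h : s ∈ B then (B.equivFin ⟨s, h⟩).val else 0, ?_, ?_⟩
  · intro s hs s' hs' h
    rw [mem_coe] at hs hs'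
    simp only [hs, hs', dif_pos] at h
    have := B.equivFin.injective (Fin.ext h)
    simpa using this
  · ext i
    simp only [mem_image, mem_range]
    constructor
    · rintro ⟨s, hs, rfl⟩
      simp only [hs, dif_pos]
      exact Fin.is_lt _
    · intro hi
      refine ⟨(B.equivFin.symm ⟨i, hi⟩).val, (B.equivFin.symm ⟨i, hi⟩).prop, ?_⟩
      simp

lemma sum_spread {N t : ℕ} (hN : 0 < N) :
    ∑ i ∈ range N, (t / N + if i < t % N then 1 else 0) = t := by
  rw [sum_add_distrib, sum_const, card_range, smul_eq_mul, sum_boole]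
  have h1 : (range N).filter (fun i => i < t % N) = range (t % N) := by
    ext i
    simp only [mem_filter, mem_range]
    have := Nat.mod_lt t hN
    constructor
    · exact fun h => h.2
    · exact fun h => ⟨by omega, h⟩
  rw [h1, card_range]
  simp only [Nat.cast_id]
  exact Nat.div_add_mod t N

/-- odd primes up to `z` -/
def Od (z : ℕ) : Finset ℕ := (Icc 3 z).filter Nat.Prime

lemma mem_Od {z q : ℕ} : q ∈ Od z ↔ q.Prime ∧ 3 ≤ q ∧ q ≤ z := by
  simp only [Od, mem_filter, mem_Icc]; tauto

/-- distribute odd small primes over a family `2^b * s`. -/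
lemma fam_B (n z b : ℕ) (hz : 3 ≤ z) (B : Finset ℕ) (t : ℕ → ℕ) (hBc : 0 < B.card)
    (hB : ∀ s ∈ B, n < 2 ^ b * s ∧ (2 ^ (b + 1) - 1) * s ≤ 2 * n ∧
      ∀ p, p.Prime → p ≤ z → ¬ p ∣ s)
    (hb : ∏ q ∈ Od z, q ^ (t q / B.card + 1) < 2 ^ (b + 1)) :
    ∃ F : Finset ℕ, (∀ r ∈ F, n < r ∧ r ≤ 2 * n ∧ t 3 / B.card ≤ r.factorization 3 ∧
      ∀ p, p.Prime → p ∣ r → p ≤ z ∨ ∃ s ∈ B, p ∣ s) ∧
      (∀ q, q.Prime → 3 ≤ q → q ≤ z → prof F q = t q) ∧
      (∀ p, z < p → prof F p = prof B p) ∧
      (b:ℝ) * B.card - ∑ q ∈ Od z, (t q : ℝ) * Real.logb 2 q ≤ prof F 2 ∧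
      (prof F 2 : ℝ) ≤ (b:ℝ) * B.card - ∑ q ∈ Od z, (t q : ℝ) * Real.logb 2 q + B.card := by
  classical
  obtain ⟨idx, hidx1, hidx2⟩ := exists_idx B
  set N := B.card with hN
  set e : ℕ → ℕ → ℕ := fun i q => t q / N + if i < t q % N then 1 else 0 with he
  set y : ℕ → ℕ := fun i => ∏ q ∈ Od z, q ^ e i q with hy
  have hOdp : ∀ q ∈ Od z, q.Prime := fun q hq => (mem_Od.mp hq).1
  have hypos : ∀ i, 0 < y i := fun i => by
    simp only [hy]
    exact prod_pos fun q hq => pow_pos (hOdp q hq).pos _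
  have hylt : ∀ i, y i < 2 ^ (b + 1) := by
    intro i
    refine lt_of_le_of_lt ?_ hb
    simp only [hy]
    refine prod_le_prod' fun q hq => ?_
    refine Nat.pow_le_pow_right (hOdp q hq).pos ?_
    simp only [he]
    split <;> omega
  have hl : ∀ i, Nat.log 2 (y i) ≤ b := by
    intro i
    exact Nat.lt_succ_iff.mp (Nat.log_lt_of_lt_pow (hypos i).ne' (hylt i))
  have hyfac : ∀ i q, (y i).factorization q = if q ∈ Od z then e i q else 0 := by
    intro i q
    simp only [hy]
    rw [Nat.factorization_prod (fun q hq => (pow_pos (hOdp q hq).pos _).ne')]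
    simp only [Finsupp.coe_finsetSum, Finset.sum_apply]
    have : ∀ x ∈ Od z, (x ^ e i x).factorization q = if q = x then e i x else 0 := by
      intro x hx
      rw [Nat.Prime.factorization_pow (hOdp x hx), Finsupp.single_apply]
      by_cases h : q = x
      · rw [if_pos h, if_pos h.symm]
      · rw [if_neg h, if_neg (Ne.symm h)]
    rw [sum_congr rfl this, sum_ite_eq]
  set f : ℕ → ℕ := fun s => y (idx s) * 2 ^ (b - Nat.log 2 (y (idx s))) * s with hf
  have hs0 : ∀ s ∈ B, 0 < s := by
    intro s hs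
    rcases Nat.eq_zero_or_pos s with h | h
    · have := (hB s hs).1
      rw [h, mul_zero] at this
      omega
    · exact h
  have hfac : ∀ s ∈ B, ∀ p, (f s).factorization p = (if p ∈ Od z then e (idx s) p else 0) +
      (if p = 2 then b - Nat.log 2 (y (idx s)) else 0) + s.factorization p := by
    intro s hs p
    simp only [hf]
    rw [Nat.factorization_mul (mul_pos (hypos _) (by positivity)).ne' (hs0 s hs).ne',
      Nat.factorization_mul (hypos _).ne' (by positivity), Nat.Prime.factorization_pow Nat.prime_two]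
    simp only [Finsupp.coe_add, Pi.add_apply, Finsupp.single_apply]
    rw [hyfac]
    congr 2
    by_cases h : p = 2
    · rw [if_pos h, if_pos h.symm]
    · rw [if_neg h, if_neg (Ne.symm h)]
  have hfpos : ∀ s ∈ B, 0 < f s := by
    intro s hs
    simp only [hf]
    have := hypos (idx s)
    have := hs0 s hs
    positivity
  have hsmall : ∀ s ∈ B, ∀ p, p ≤ z → s.factorization p = 0 := by
    intro s hs p hp
    by_cases h : p.Prime
    · exact Nat.factorization_eq_zero_of_not_dvd ((hB s hs).2.2 p h hp)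
    · exact Nat.factorization_eq_zero_of_not_prime _ h
  have h2Od : (2:ℕ) ∉ Od z := by
    rw [mem_Od]; omega
  have hinj : Set.InjOn f B := by
    intro s hs s' hs' h
    rw [mem_coe] at hs hs'
    refine Nat.eq_of_factorization_eq (hs0 s hs).ne' (hs0 s' hs').ne' fun p => ?_
    rcases le_or_gt p z with hp | hp
    · rw [hsmall s hs p hp, hsmall s' hs' p hp]
    · have h1 := hfac s hs p
      have h2 := hfac s' hs' p
      have h3 : p ∉ Od z := by rw [mem_Od]; omega
      rw [if_neg h3, if_neg (by omega)] at h1 h2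
      rw [h] at h1
      omega
  have hsumidx : ∀ g : ℕ → ℕ, ∑ s ∈ B, g (idx s) = ∑ i ∈ range N, g i := by
    intro g
    rw [← hidx2, sum_image]
    exact fun a ha b hb h => hidx1 ha hb h
  refine ⟨B.image f, ?_, ?_, ?_, ?_⟩
  · intro r hr
    rw [mem_image] at hr
    obtain ⟨s, hs, rfl⟩ := hr
    obtain ⟨a1, a2, a3⟩ := hB s hs
    have h1 := Nat.pow_log_le_self 2 (hypos (idx s)).ne'
    have h2 := Nat.lt_pow_succ_log_self (b := 2) (by norm_num) (y (idx s))
    have h3 := hl (idx s)
    have h4 : 2 ^ Nat.log 2 (y (idx s)) * 2 ^ (b - Nat.log 2 (y (idx s))) = 2 ^ b := by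
      rw [← pow_add]; congr 1; omega
    have h5 : 2 ^ b ≤ y (idx s) * 2 ^ (b - Nat.log 2 (y (idx s))) := by
      rw [← h4]; exact Nat.mul_le_mul_right _ h1
    have h6 : y (idx s) * 2 ^ (b - Nat.log 2 (y (idx s))) ≤ 2 ^ (b + 1) - 1 := by
      have h7 : (y (idx s) + 1) * 2 ^ (b - Nat.log 2 (y (idx s))) ≤ 2 ^ (b + 1) := by
        calc (y (idx s) + 1) * 2 ^ (b - Nat.log 2 (y (idx s)))
            ≤ 2 ^ (Nat.log 2 (y (idx s)) + 1) * 2 ^ (b - Nat.log 2 (y (idx s))) :=
              Nat.mul_le_mul_right _ h2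
          _ = 2 ^ (b + 1) := by rw [pow_succ, pow_succ, ← h4]; ring
      have h8 : 0 < 2 ^ (b - Nat.log 2 (y (idx s))) := by positivity
      rw [add_mul, one_mul] at h7
      omega
    refine ⟨?_, ?_, ?_, ?_⟩
    · exact lt_of_lt_of_le a1 (Nat.mul_le_mul_right _ h5)
    · exact (Nat.mul_le_mul_right _ h6).trans a2
    · rw [hfac s hs 3, if_pos (mem_Od.mpr ⟨Nat.prime_three, le_rfl, hz⟩)]
      simp only [he]
      omega
    · intro p hp hpd
      by_cases hpz : p ≤ z
      · exact Or.inl hpz
      right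
      refine ⟨s, hs, ?_⟩
      have h9 := (hp.dvd_iff_one_le_factorization (hfpos s hs).ne').mp hpd
      have h10 : p ∉ Od z := by rw [mem_Od]; omega
      rw [hfac s hs p, if_neg h10, if_neg (by omega)] at h9
      exact (hp.dvd_iff_one_le_factorization (hs0 s hs).ne').mpr (by omega)
  · intro q hq hq3 hqz
    rw [prof_image B f hinj]
    have : ∀ s ∈ B, (f s).factorization q = e (idx s) q := by
      intro s hs
      rw [hfac s hs q, if_pos (mem_Od.mpr ⟨hq, hq3, hqz⟩), if_neg (by omega), hsmall s hs q hqz]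
      rfl
    rw [sum_congr rfl this, hsumidx (fun i => e i q)]
    exact sum_spread hBc
  · intro p hp
    rw [prof_image B f hinj]
    refine sum_congr rfl fun s hs => ?_
    have h10 : p ∉ Od z := by rw [mem_Od]; omega
    rw [hfac s hs p, if_neg h10, if_neg (by omega)]
    omega
  · have h1 : prof (B.image f) 2 + ∑ i ∈ range N, Nat.log 2 (y i) = b * N := by
      rw [prof_image B f hinj, ← hsumidx (fun i => Nat.log 2 (y i)), ← sum_add_distrib]
      have : ∀ s ∈ B, (f s).factorization 2 + Nat.log 2 (y (idx s)) = b := by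
        intro s hs
        rw [hfac s hs 2, if_neg h2Od, if_pos rfl, hsmall s hs 2 (by omega)]
        have := hl (idx s)
        omega
      rw [sum_congr rfl this, sum_const, smul_eq_mul, mul_comm]
    have h2 : ∑ i ∈ range N, Real.logb 2 (y i) = ∑ q ∈ Od z, (t q : ℝ) * Real.logb 2 q := by
      have h3 : ∀ i ∈ range N, Real.logb 2 (y i) = ∑ q ∈ Od z, (e i q : ℝ) * Real.logb 2 q := by
        intro i _
        simp only [hy]
        push_cast
        rw [Real.logb_prod]
        · refine sum_congr rfl fun q hq => ?_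
          rw [Real.logb_pow]
        · intro q hq
          have := (hOdp q hq).pos
          positivity
      rw [sum_congr rfl h3, sum_comm]
      refine sum_congr rfl fun q hq => ?_
      rw [← sum_mul]
      congr 1
      exact_mod_cast sum_spread (t := t q) hBc
    have h4 : ∀ i ∈ range N, ((Nat.log 2 (y i) : ℕ) : ℝ) ≤ Real.logb 2 (y i) := by
      intro i _
      rw [Real.le_logb_iff_rpow_le (by norm_num) (by exact_mod_cast hypos i)]
      rw [Real.rpow_natCast]
      exact_mod_cast Nat.pow_log_le_self 2 (hypos i).ne'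
    have h5 : ∀ i ∈ range N, Real.logb 2 (y i) - 1 ≤ ((Nat.log 2 (y i) : ℕ) : ℝ) := by
      intro i _
      rw [sub_le_iff_le_add]
      rw [Real.logb_le_iff_le_rpow (by norm_num) (by exact_mod_cast hypos i)]
      rw [show ((Nat.log 2 (y i) : ℕ) : ℝ) + 1 = ((Nat.log 2 (y i) + 1 : ℕ) : ℝ) by push_cast; ring,
        Real.rpow_natCast]
      exact_mod_cast (Nat.lt_pow_succ_log_self (b := 2) (by norm_num) (y i)).le
    have h6 := sum_le_sum h4
    have h7 := sum_le_sum h5
    rw [h2] at h6
    rw [sum_sub_distrib, h2, sum_const, card_range, nsmul_eq_mul, mul_one] at h7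
    have h8 : (prof (B.image f) 2 : ℝ) + ∑ i ∈ range N, ((Nat.log 2 (y i) : ℕ) : ℝ) = b * N := by
      exact_mod_cast h1
    constructor
    · linarith
    · linarith

end Pool.Agent.Helper602.Fam
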