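import Mathlib
import Pool.Agent.Helper602.Greedy
import Pool.Agent.Helper602.Fam

namespace Pool.Agent.Helper602.Fam

open Finset

/-- exponent of the two power removed in a swap -/
def bq (q : ℕ) : ℕ :=
  if 27 * q ≤ 16 * 2 ^ Nat.log 2 (3 * q) then Nat.log 2 (3 * q) else Nat.log 2 (3 * q) + 2

/-- power of three inserted in a swap -/
def vq (q : ℕ) : ℕ := if 27 * q ≤ 16 * 2 ^ Nat.log 2 (3 * q) then 3 else 9

lemma vq_cases (q : ℕ) : vq q = 3 ∨ vq q = 9 := by
  unfold vq; split <;> simp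

lemma bv (q : ℕ) (hq : 0 < q) : 2 ^ bq q < vq q * q ∧ 9 * (vq q * q) ≤ 16 * 2 ^ bq q ∧
    2 ^ bq q ≤ 12 * q ∧ q < 2 ^ bq q := by
  have h1 := Nat.pow_log_le_self 2 (x := 3 * q) (by omega)
  have h2 := Nat.lt_pow_succ_log_self (b := 2) (by norm_num) (3 * q)
  have h3 : 2 ^ Nat.log 2 (3 * q) ≠ 3 * q := by
    intro h
    have h4 : 3 ∣ 2 ^ Nat.log 2 (3 * q) := by rw [h]; exact Dvd.intro _ rfl
    have := Nat.Prime.dvd_of_dvd_pow Nat.prime_three h4
    omega
  rw [pow_succ] at h2
  unfold bq vq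
  generalize Nat.log 2 (3 * q) = b at *
  by_cases h : 27 * q ≤ 16 * 2 ^ b
  · rw [if_pos h, if_pos h]
    refine ⟨by omega, by omega, by omega, by omega⟩
  · rw [if_neg h, if_neg h, pow_add]
    refine ⟨by omega, by omega, by omega, by omega⟩

lemma fac_vq (q p : ℕ) (hp : 3 < p) : (vq q).factorization p = 0 := by
  rcases vq_cases q with h | h <;> rw [h]
  · exact Nat.factorization_eq_zero_of_lt hp
  · by_cases hp' : p.Prime
    · refine Nat.factorization_eq_zero_of_not_dvd ?_
      intro hd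
      have : (9:ℕ) = 3 ^ 2 := by norm_num
      rw [this] at hd
      have := (Nat.prime_dvd_prime_iff_eq hp' Nat.prime_three).mp (hp'.dvd_of_dvd_pow hd)
      omega
    · exact Nat.factorization_eq_zero_of_not_prime _ hp'

lemma fac_vq3 (q : ℕ) : (vq q).factorization 3 = 1 ∨ (vq q).factorization 3 = 2 := by
  rcases vq_cases q with h | h <;> rw [h]
  · left; exact Nat.Prime.factorization_self Nat.prime_three
  · right
    have : (9:ℕ) = 3 ^ 2 := by norm_num
    rw [this, Nat.Prime.factorization_pow Nat.prime_three]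
    simp

lemma fac_vq2 (q : ℕ) : (vq q).factorization 2 = 0 := by
  refine Nat.factorization_eq_zero_of_not_dvd ?_
  rcases vq_cases q with h | h <;> rw [h] <;> norm_num

lemma prof_biUnion_pair (Md : Finset ℕ) (Z : ℕ → Finset ℕ) (g : ℕ × ℕ → ℕ) :
    ∑ x ∈ Md.biUnion (fun q => (Z q).image (fun w => (q, w))), g x
      = ∑ q ∈ Md, ∑ w ∈ Z q, g (q, w) := by
  rw [sum_biUnion]
  · refine sum_congr rfl fun p _ => ?_
    rw [sum_image]
    intro a _ b _ h
    simpa using h
  · intro p _ p' _ hpp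
    simp only [Function.onFun]
    rw [Finset.disjoint_left]
    rintro x hx hx'
    simp only [mem_image] at hx hx'
    obtain ⟨i, _, rfl⟩ := hx
    obtain ⟨i', _, h⟩ := hx'
    simp only [Prod.mk.injEq] at h
    exact hpp h.1.symm

lemma fam_swap (n : ℕ) (W : Finset ℕ) (Md : Finset ℕ) (D : ℕ → ℕ) (a : ℕ → ℕ)
    (hW : ∀ w ∈ W, n < w ∧ 8 * w ≤ 9 * n ∧ ¬ 3 ∣ w)
    (hMd : ∀ q ∈ Md, q.Prime ∧ 3 < q ∧ bq q ≤ a q)
    (hcard : ∀ q ∈ Md, (∑ q' ∈ Md with a q' = a q, D q') + (W.filter (q ∣ ·)).card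
      ≤ (W.filter (fun w => w.factorization 2 = a q)).card) :
    ∃ W₁ F : Finset ℕ, W₁ ⊆ W ∧
      (∀ r ∈ F, n < r ∧ r ≤ 2 * n ∧ (r.factorization 3 = 1 ∨ r.factorization 3 = 2) ∧
        (∀ p, p.Prime → p ∣ r → p ≤ 3 ∨ p ∈ Md ∨ ∃ w ∈ W, p ∣ w)) ∧
      (∀ p, 3 < p → prof W₁ p + prof F p = prof W p + if p ∈ Md then D p else 0) ∧
      prof W₁ 2 + prof F 2 ≤ prof W 2 ∧
      prof F 3 ≤ 2 * ∑ q ∈ Md, D q := by
  classical
  set e : ℕ → ℕ → ℕ := fun q w => w / 2 ^ bq q * (vq q * q) with he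
  set O : ℕ → Finset ℕ := fun q => W.filter (fun w => w.factorization 2 = a q) with hO
  have hdvd : ∀ q ∈ Md, ∀ w ∈ O q, 2 ^ bq q ∣ w := by
    intro q hq w hw
    rw [hO, mem_filter] at hw
    refine (pow_dvd_pow 2 (hMd q hq).2.2).trans ?_
    rw [← hw.2]
    exact Nat.ordProj_dvd w 2
  obtain ⟨Z, hZ1, hZ2, hZ3⟩ := Greedy.greedy (W := W) D O e a Md
    (fun q _ => filter_subset _ _)
    (by
      intro q hq w hw w' hw' h
      rw [mem_coe] at hw hw'
      obtain ⟨c, rfl⟩ := hdvd q hq w hw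
      obtain ⟨c', rfl⟩ := hdvd q hq w' hw'
      simp only [he] at h
      have h2 : 0 < 2 ^ bq q := by positivity
      rw [Nat.mul_div_cancel_left _ h2, Nat.mul_div_cancel_left _ h2] at h
      have h3 : 0 < vq q * q := by
        have := (hMd q hq).1.pos
        have : 0 < vq q := by rcases vq_cases q with h | h <;> omega
        positivity
      rw [Nat.eq_of_mul_eq_mul_right h3 h])
    (by
      intro q hq q' hq' hne w hw w' hw' h
      simp only [he] at h
      have hd : q ∣ w' / 2 ^ bq q' * (vq q' * q') := by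
        rw [← h]
        exact (dvd_mul_left q (vq q)).mul_left _
      have hqp := (hMd q hq).1
      rcases (Nat.Prime.dvd_mul hqp).mp hd with h1 | h1
      · exact h1.trans (Nat.div_dvd_of_dvd (hdvd q' hq' w' hw'))
      · exfalso
        rcases (Nat.Prime.dvd_mul hqp).mp h1 with h2 | h2
        · have h5 : 1 ≤ (vq q').factorization q := by
            refine (hqp.dvd_iff_one_le_factorization ?_).mp h2
            rcases vq_cases q' with h | h <;> omega
          rw [fac_vq q' q (hMd q hq).2.1] at h5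
          omega
        · exact hne ((Nat.prime_dvd_prime_iff_eq hqp (hMd q' hq').1).mp h2))
    (by
      intro q _ q' _ hne
      rw [Finset.disjoint_left]
      intro w hw hw'
      rw [hO, mem_filter] at hw hw'
      exact hne (hw.2.symm.trans hw'.2))
    (fun q hq => hcard q hq)
  set I : Finset (ℕ × ℕ) := Md.biUnion (fun q => (Z q).image (fun w => (q, w))) with hI
  have hmem : ∀ x : ℕ × ℕ, x ∈ I ↔ x.1 ∈ Md ∧ x.2 ∈ Z x.1 := by
    rintro ⟨p, i⟩
    simp only [hI, mem_biUnion, mem_image, Prod.mk.injEq]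
    constructor
    · rintro ⟨p', hp', i', hi', rfl, rfl⟩
      exact ⟨hp', hi'⟩
    · rintro ⟨h1, h2⟩
      exact ⟨p, h1, i, h2, rfl, rfl⟩
  set f : ℕ × ℕ → ℕ := fun x => e x.1 x.2 with hf
  set g : ℕ × ℕ → ℕ := fun x => x.2 with hg
  have hfinj : Set.InjOn f I := by
    intro x hx y hy hxy
    rw [mem_coe] at hx hy
    obtain ⟨x1, x2⟩ := (hmem x).mp hx
    obtain ⟨y1, y2⟩ := (hmem y).mp hy
    obtain ⟨h1, h2⟩ := hZ3 x.1 x1 y.1 y1 x.2 x2 y.2 y2 hxy
    exact Prod.ext h1 h2
  have hginj : Set.InjOn g I := by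
    intro x hx y hy hxy
    rw [mem_coe] at hx hy
    obtain ⟨x1, x2⟩ := (hmem x).mp hx
    obtain ⟨y1, y2⟩ := (hmem y).mp hy
    refine Prod.ext ?_ hxy
    by_contra hne
    have := hZ2 x.1 x1 y.1 y1 hne
    rw [Finset.disjoint_left] at this
    simp only [hg] at hxy
    exact this x2 (hxy ▸ y2)
  have hgW : ∀ x ∈ I, x.2 ∈ O x.1 := fun x hx =>
    (hZ1 x.1 ((hmem x).mp hx).1).1 ((hmem x).mp hx).2
  have hgW' : ∀ x ∈ I, x.2 ∈ W := fun x hx => (mem_filter.mp (hgW x hx)).1
  -- relation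
  have hrel : ∀ x ∈ I, f x * 2 ^ bq x.1 = x.2 * (vq x.1 * x.1) := by
    intro x hx
    have h1 := hdvd x.1 ((hmem x).mp hx).1 x.2 (hgW x hx)
    simp only [hf, he]
    obtain ⟨c, hc⟩ := h1
    rw [hc, Nat.mul_div_cancel_left _ (by positivity)]
    ring
  have hpos : ∀ x ∈ I, 0 < x.2 ∧ 0 < x.1 ∧ 0 < vq x.1 ∧ 0 < f x := by
    intro x hx
    have h1 := (hMd x.1 ((hmem x).mp hx).1).1.pos
    have h2 : 0 < x.2 := by
      have := (hW x.2 (hgW' x hx)).1
      omega
    have h3 : 0 < vq x.1 := by rcases vq_cases x.1 with h | h <;> omega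
    refine ⟨h2, h1, h3, ?_⟩
    have := hrel x hx
    rcases Nat.eq_zero_or_pos (f x) with h | h
    · rw [h, zero_mul] at this
      have : 0 < x.2 * (vq x.1 * x.1) := by positivity
      omega
    · exact h
  have hfac : ∀ x ∈ I, ∀ p, (f x).factorization p + (if p = 2 then bq x.1 else 0)
      = x.2.factorization p + ((vq x.1).factorization p + if p = x.1 then 1 else 0) := by
    intro x hx p
    obtain ⟨p1, p2, p3, p4⟩ := hpos x hx
    have h := congrArg (fun k => Nat.factorization k p) (hrel x hx)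
    rw [Nat.factorization_mul p4.ne' (by positivity), Nat.factorization_mul p1.ne' (by positivity),
      Nat.factorization_mul p3.ne' p2.ne', Nat.Prime.factorization_pow Nat.prime_two,
      Nat.Prime.factorization (hMd x.1 ((hmem x).mp hx).1).1] at h
    simp only [Finsupp.coe_add, Pi.add_apply, Finsupp.single_apply] at h
    rw [show (if 2 = p then bq x.1 else 0) = (if p = 2 then bq x.1 else 0) by
        by_cases h : p = 2
        · rw [if_pos h, if_pos h.symm]
        · rw [if_neg h, if_neg (Ne.symm h)],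
      show (if x.1 = p then 1 else 0) = (if p = x.1 then 1 else 0) by
        by_cases h : p = x.1
        · rw [if_pos h, if_pos h.symm]
        · rw [if_neg h, if_neg (Ne.symm h)]] at h
    exact h
  have hprofF : ∀ p, prof (I.image f) p = ∑ x ∈ I, (f x).factorization p := fun p =>
    prof_image I f hfinj p
  have hprofU : ∀ p, prof (I.image g) p = ∑ x ∈ I, x.2.factorization p := fun p =>
    prof_image I g hginj p
  have hUW : I.image g ⊆ W := by
    intro w hw
    rw [mem_image] at hw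
    obtain ⟨x, hx, rfl⟩ := hw
    exact hgW' x hx
  have hsplit : ∀ p, prof (W \ I.image g) p + prof (I.image g) p = prof W p := by
    intro p
    rw [← prof_union (Finset.sdiff_disjoint), Finset.sdiff_union_of_subset hUW]
  refine ⟨W \ I.image g, I.image f, sdiff_subset, ?_, ?_, ?_, ?_⟩
  · intro r hr
    rw [mem_image] at hr
    obtain ⟨x, hx, rfl⟩ := hr
    obtain ⟨p1, p2, p3, p4⟩ := hpos x hx
    obtain ⟨w1, w2, w3⟩ := hW x.2 (hgW' x hx)
    obtain ⟨b1, b2, b3, b4⟩ := bv x.1 p2
    have hr := hrel x hx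
    have h2 : 0 < 2 ^ bq x.1 := by positivity
    refine ⟨?_, ?_, ?_, ?_⟩
    · by_contra hcon
      push Not at hcon
      have h3 : f x * 2 ^ bq x.1 < x.2 * (vq x.1 * x.1) := by
        calc f x * 2 ^ bq x.1 ≤ n * 2 ^ bq x.1 := Nat.mul_le_mul_right _ hcon
          _ ≤ x.2 * 2 ^ bq x.1 := Nat.mul_le_mul_right _ w1.le
          _ < x.2 * (vq x.1 * x.1) := Nat.mul_lt_mul_of_pos_left b1 p1
      omega
    · have h3 : 9 * (f x * 2 ^ bq x.1) ≤ 18 * n * 2 ^ bq x.1 := by
        rw [hr]
        calc 9 * (x.2 * (vq x.1 * x.1)) = x.2 * (9 * (vq x.1 * x.1)) := by ring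
          _ ≤ x.2 * (16 * 2 ^ bq x.1) := Nat.mul_le_mul_left _ b2
          _ = 2 * (8 * x.2) * 2 ^ bq x.1 := by ring
          _ ≤ 2 * (9 * n) * 2 ^ bq x.1 := Nat.mul_le_mul_right _ (Nat.mul_le_mul_left _ w2)
          _ = 18 * n * 2 ^ bq x.1 := by ring
      have h4 : (9 * f x) * 2 ^ bq x.1 ≤ (18 * n) * 2 ^ bq x.1 := by
        calc (9 * f x) * 2 ^ bq x.1 = 9 * (f x * 2 ^ bq x.1) := by ring
          _ ≤ _ := h3
      have h5 := Nat.le_of_mul_le_mul_right h4 h2
      omega
    · have h3 := hfac x hx 3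
      have h4 : x.2.factorization 3 = 0 := Nat.factorization_eq_zero_of_not_dvd w3
      have h5 : ¬ 3 = x.1 := by
        have := (hMd x.1 ((hmem x).mp hx).1).2.1
        omega
      rw [if_neg (by norm_num), if_neg h5, h4] at h3
      rcases fac_vq3 x.1 with h | h
      · left; omega
      · right; omega
    · intro p hp hpd
      by_cases hp3 : p ≤ 3
      · exact Or.inl hp3
      right
      have h3 := hfac x hx p
      have h4 := (hp.dvd_iff_one_le_factorization p4.ne').mp hpd
      rw [if_neg (by omega), fac_vq x.1 p (by omega)] at h3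
      by_cases h5 : p = x.1
      · left; rw [h5]; exact ((hmem x).mp hx).1
      · right
        rw [if_neg h5] at h3
        refine ⟨x.2, hgW' x hx, ?_⟩
        exact (hp.dvd_iff_one_le_factorization p1.ne').mpr (by omega)
  · intro p hp
    have h1 : ∑ x ∈ I, (f x).factorization p
        = ∑ x ∈ I, x.2.factorization p + ∑ x ∈ I, (if p = x.1 then 1 else 0) := by
      rw [← sum_add_distrib]
      refine sum_congr rfl fun x hx => ?_
      have h3 := hfac x hx p
      rw [if_neg (by omega), fac_vq x.1 p (by omega)] at h3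
      omega
    have h2 : ∑ x ∈ I, (if p = x.1 then 1 else 0) = if p ∈ Md then D p else 0 := by
      rw [hI, prof_biUnion_pair Md Z (fun x => if p = x.1 then 1 else 0)]
      have : ∀ q ∈ Md, ∑ w ∈ Z q, (if p = ((q, w) : ℕ × ℕ).1 then 1 else 0)
          = if p = q then D q else 0 := by
        intro q hq
        by_cases h : p = q
        · simp [h, (hZ1 q hq).2]
        · simp [h]
      rw [sum_congr rfl this, sum_ite_eq]
    have h3 := hsplit p
    rw [hprofU] at h3
    rw [hprofF, h1, h2]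
    omega
  · have h3 := hsplit 2
    rw [hprofU] at h3
    rw [hprofF]
    have h1 : ∑ x ∈ I, (f x).factorization 2 ≤ ∑ x ∈ I, x.2.factorization 2 := by
      refine sum_le_sum fun x hx => ?_
      have h3 := hfac x hx 2
      have h5 : ¬ 2 = x.1 := by
        have := (hMd x.1 ((hmem x).mp hx).1).2.1
        omega
      rw [if_pos rfl, fac_vq2, if_neg h5] at h3
      omega
    omega
  · rw [hprofF, hI, prof_biUnion_pair, mul_sum]
    refine sum_le_sum fun q hq => ?_
    have h1 : ∀ w ∈ Z q, (f (q, w)).factorization 3 ≤ 2 := by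
      intro w hw
      have hx : ((q, w) : ℕ × ℕ) ∈ I := (hmem _).mpr ⟨hq, hw⟩
      obtain ⟨w1, w2, w3⟩ := hW w (hgW' _ hx)
      have h3 := hfac _ hx 3
      simp only at h3
      have h4 : w.factorization 3 = 0 := Nat.factorization_eq_zero_of_not_dvd w3
      have h5 : ¬ 3 = q := by
        have := (hMd q hq).2.1
        omega
      rw [if_neg (by norm_num), if_neg h5, h4] at h3
      rcases fac_vq3 q with h | h
      · omega
      · omega
    refine (sum_le_sum h1).trans ?_
    rw [sum_const, (hZ1 q hq).2, smul_eq_mul, mul_comm]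

end Pool.Agent.Helper602.Fam
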