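import Mathlib
import Pool.Agent.Helper602.Swap
import Pool.Agent.Helper602.FamB
import Pool.Agent.Helper602.Sel

namespace Pool.Agent.Helper602.Core

open Finset Fam Sel

/-- medium primes -/
def Md (m z : ℕ) : Finset ℕ := (range (m + 1)).filter (fun q => q.Prime ∧ z < q ∧ q ^ 2 ≤ m)

lemma mem_Md {m z q : ℕ} : q ∈ Md m z ↔ q.Prime ∧ z < q ∧ q ^ 2 ≤ m := by
  simp only [Md, mem_filter, mem_range]
  constructor
  · exact fun h => h.2
  · intro h
    refine ⟨?_, h⟩
    have : q ≤ q ^ 2 := Nat.le_self_pow (by norm_num) q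
    omega

/-- swap class -/
def aq (a1 q : ℕ) : ℕ := max a1 (bq q)

lemma prof_zero_of {S : Finset ℕ} {p : ℕ} (h : ∀ r ∈ S, ¬ p ∣ r) : prof S p = 0 :=
  sum_eq_zero fun r hr => Nat.factorization_eq_zero_of_not_dvd (h r hr)

open Classical in
lemma coreG {n δ z b C C2 β U2 U3 a1 : ℕ} (S1 Bs W : Finset ℕ) (t E : ℕ → ℕ)
    (hz : 5 ≤ z)
    (hS1 : ∀ r ∈ S1, n < r ∧ r ≤ 2 * n + δ ∧ ∀ p, p.Prime → p ≤ z → ¬ p ∣ r)
    (hBs : ∀ s ∈ Bs, n < 2 ^ b * s ∧ (2 ^ (b + 1) - 1) * s ≤ 2 * n ∧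
      ∀ p, p.Prime → p ≤ z → ¬ p ∣ s)
    (hdisj : Disjoint S1 Bs)
    (hW : ∀ w ∈ W, n < w ∧ 8 * w ≤ 9 * n ∧ a1 ≤ w.factorization 2 ∧
      (∀ p, p.Prime → 3 ≤ p → p ≤ z → ¬ p ∣ w) ∧ ∀ p, p.Prime → p ∣ w → p ≤ δ)
    (ha1 : 2 ≤ a1)
    (hδ : 2 * n + δ < δ ^ 2)
    (hMd : ∀ q ∈ Md (2 * n + δ) z, prof S1 q + prof Bs q + prof W q ≤ E q)
    (hUp : ∀ p ∈ Up (2 * n + δ) δ, prof W p ≤ E p ∧
      prof S1 p + prof Bs p + prof W p ≤ E p + C ∧
      E p ≤ prof S1 p + prof Bs p + prof W p + C2)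
    (hzm : (z + 1) ^ 2 ≤ 2 * n + δ)
    (hC2 : 3 ^ (3 + C2) * δ ≤ 2 * n)
    (hβ : ((S1 ∪ Bs).filter (fun r => ∃ p, p.Prime ∧ δ < p ∧ p ∣ r)).card ≤ β)
    (hgreedy : ∀ q ∈ Md (2 * n + δ) z, ∃ A, 1 < A ∧
      (∀ q' ∈ Md (2 * n + δ) z, aq a1 q' = aq a1 q → A ≤ q') ∧
      (∑ q' ∈ Md (2 * n + δ) z with aq a1 q' = aq a1 q, (E q' - (prof S1 q' + prof Bs q' + prof W q')))
        + β * Nat.log A ((2 * n + δ) / δ)
        + C * ∑ p ∈ Up (2 * n + δ) δ, Nat.log A ((2 * n + δ) / p)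
        + (W.filter (q ∣ ·)).card ≤ (W.filter (fun w => w.factorization 2 = aq a1 q)).card)
    (hU3 : 2 * ((∑ q ∈ Md (2 * n + δ) z, (E q - (prof S1 q + prof Bs q + prof W q)))
        + β * Nat.log 2 ((2 * n + δ) / δ)
        + C * ∑ p ∈ Up (2 * n + δ) δ, Nat.log 2 ((2 * n + δ) / p))
        + (3 + C2) * (C2 * (Up (2 * n + δ) δ).card) ≤ U3)
    (hU2 : prof W 2 + C2 * ∑ p ∈ Up (2 * n + δ) δ, Nat.log 2 (2 * n / p) ≤ U2)
    (hX : β + C * (Up (2 * n + δ) δ).card < Bs.card)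
    (hprod : ∏ q ∈ Od z, q ^ (t q / (Bs.card - (β + C * (Up (2 * n + δ) δ).card)) + 1) < 2 ^ (b + 1))
    (ht3 : (3 + C2) * Bs.card + U3 ≤ t 3)
    (ht2lo : (b:ℝ) * Bs.card + Bs.card - ∑ q ∈ Od z, (t q : ℝ) * Real.logb 2 q + 2 * U3 + U2 ≤ t 2)
    (ht2hi : (t 2 : ℝ) - b * Bs.card + b * (β + C * (Up (2 * n + δ) δ).card : ℕ)
        + ∑ q ∈ Od z, (t q : ℝ) * Real.logb 2 q + (β + C * (Up (2 * n + δ) δ).card : ℕ)
        ≤ (S1.filter (fun r => 2 * r ≤ 2 * n + δ)).card) :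
    ∃ G : Finset ℕ, (∀ r ∈ G, n < r ∧ r ≤ 2 * n + δ ∧ ∀ p, p.Prime → p ∣ r → p ≤ δ) ∧
      (∀ q, q.Prime → q ≤ z → prof G q = t q) ∧
      (∀ p, p.Prime → z < p → p ≤ δ → prof G p = E p) := by
  set m := 2 * n + δ with hm
  have hδ0 : 0 < δ := by
    rcases Nat.eq_zero_or_pos δ with h | h
    · rw [h] at hδ; simp at hδ
    · exact h
  set R0 := S1 ∪ Bs with hR0def
  have hprofR0 : ∀ p, prof R0 p = prof S1 p + prof Bs p := fun p => prof_union hdisj p
  have hR0 : ∀ r ∈ R0, 0 < r ∧ r ≤ m := by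
    intro r hr
    rw [hR0def, mem_union] at hr
    rcases hr with hr | hr
    · have := hS1 r hr; omega
    · obtain ⟨h1, h2, h3⟩ := hBs r hr
      have h4 : 1 ≤ 2 ^ (b + 1) - 1 := by
        have : 2 ≤ 2 ^ (b + 1) := by rw [pow_succ]; have := Nat.one_le_two_pow (n := b); omega
        omega
      have h5 : r ≤ (2 ^ (b + 1) - 1) * r := Nat.le_mul_of_pos_left _ h4
      refine ⟨?_, by omega⟩
      rcases Nat.eq_zero_or_pos r with h | h
      · rw [h, mul_zero] at h1; omega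
      · exact h
  have hMdm : ∀ q, q.Prime → z < q → q ^ 2 ≤ m → q ∈ Md m z := fun q h1 h2 h3 =>
    mem_Md.mpr ⟨h1, h2, h3⟩
  obtain ⟨X, hXR, D, hD1, hD2, hD3, hD4, hD5⟩ := select (m := m) (δ := δ) (z := z) (C := C) (β := β)
    R0 W E hδ hR0
    (fun q h1 h2 h3 => by rw [hprofR0]; exact hMd q (hMdm q h1 h2 h3))
    (fun p h1 h2 h3 => by
      have := hUp p (mem_Up.mpr ⟨h1, h2, h3⟩)
      rw [hprofR0]; exact ⟨this.1, this.2.1⟩)
    hβ
  set xX := β + C * (Up m δ).card with hxX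
  -- upper prime deficits
  have hDup : ∀ p ∈ Up m δ, D p ≤ C2 := by
    intro p hp
    obtain ⟨h1, h2, h3⟩ := mem_Up.mp hp
    have h4 := hD3 p h1 h2 h3
    have h5 := (hUp p hp).2.2
    rw [hprofR0] at h4
    omega
  have hUpp : ∀ p ∈ Up m δ, p.Prime ∧ z < p ∧ p ≤ δ ∧ m < p ^ 2 := by
    intro p hp
    obtain ⟨h1, h2, h3⟩ := mem_Up.mp hp
    refine ⟨h1, ?_, h3, h2⟩
    by_contra hcon
    push Not at hcon
    have : p ^ 2 ≤ (z + 1) ^ 2 := Nat.pow_le_pow_left (by omega) 2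
    omega
  -- swap
  obtain ⟨W1, FS, hW1, hFS1, hFS2, hFS3, hFS4⟩ := fam_swap n W (Md m z) D (aq a1)
    (fun w hw => ⟨(hW w hw).1, (hW w hw).2.1, (hW w hw).2.2.2.1 3 Nat.prime_three le_rfl (by omega)⟩)
    (fun q hq => by
      obtain ⟨h1, h2, h3⟩ := mem_Md.mp hq
      exact ⟨h1, by omega, le_max_right _ _⟩)
    (by
      intro q hq
      obtain ⟨A, hA1, hA2, hA3⟩ := hgreedy q hq
      have h1 := hD5 A hA1 ((Md m z).filter (fun q' => aq a1 q' = aq a1 q)) (by
        intro q' hq'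
        rw [mem_filter] at hq'
        obtain ⟨b1, b2, b3⟩ := mem_Md.mp hq'.1
        exact ⟨b1, b2, b3, hA2 q' hq'.1 hq'.2⟩)
      simp only [hprofR0] at h1
      omega)
  -- adds
  obtain ⟨FA, hFA1, hFA2, hFA3, hFA4, hFA5⟩ := fam_adds n C2 (Up m δ) D
    (fun p hp => by
      obtain ⟨h1, h2, h3, h4⟩ := hUpp p hp
      exact ⟨h1, by omega, (Nat.mul_le_mul_left _ h3).trans hC2, hDup p hp⟩)
  -- bounds
  have hSup : ∑ p ∈ Up m δ, D p ≤ C2 * (Up m δ).card := by
    calc ∑ p ∈ Up m δ, D p ≤ ∑ p ∈ Up m δ, C2 := sum_le_sum hDup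
      _ = C2 * (Up m δ).card := by rw [sum_const, smul_eq_mul, mul_comm]
  have hSmd := hD5 2 (by norm_num) (Md m z) (by
    intro q hq
    obtain ⟨b1, b2, b3⟩ := mem_Md.mp hq
    exact ⟨b1, b2, b3, b1.two_le⟩)
  simp only [hprofR0] at hSmd
  set u3 := prof FS 3 + prof FA 3 with hu3
  have hu3U : u3 ≤ U3 := by
    have h1 := Nat.mul_le_mul_left (3 + C2) hSup
    omega
  have hu2U : prof W1 2 + prof FS 2 + prof FA 2 ≤ U2 := by
    have h1 : ∑ p ∈ Up m δ, D p * Nat.log 2 (2 * n / p) ≤ C2 * ∑ p ∈ Up m δ, Nat.log 2 (2 * n / p) := by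
      rw [mul_sum]
      exact sum_le_sum fun p hp => Nat.mul_le_mul_right _ (hDup p hp)
    omega
  -- B family
  set B' := Bs \ X with hB'
  set S' := S1 \ X with hS'
  have hXcard : X.card ≤ xX := hD4
  have hB'card1 : B'.card ≤ Bs.card := card_le_card sdiff_subset
  have hB'card2 : Bs.card - xX ≤ B'.card := by
    have h1 : Bs.card - X.card ≤ B'.card := le_card_sdiff X Bs
    omega
  have hS'card : (S1.filter (fun r => 2 * r ≤ m)).card - xX ≤ (S'.filter (fun r => 2 * r ≤ m)).card := by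
    have h1 := le_card_sdiff X (S1.filter (fun r => 2 * r ≤ m))
    have h2 : (S1.filter (fun r => 2 * r ≤ m)) \ X ⊆ S'.filter (fun r => 2 * r ≤ m) := by
      intro r hr
      rw [mem_sdiff, mem_filter] at hr
      rw [mem_filter, hS', mem_sdiff]
      tauto
    have h3 := card_le_card h2
    omega
  set t' : ℕ → ℕ := fun q => if q = 3 then t 3 - u3 else t q with ht'
  have ht'le : ∀ q, t' q ≤ t q := by
    intro q
    simp only [ht']
    split
    · rename_i h; rw [h]; omega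
    · exact le_rfl
  have hN'pos : 0 < B'.card := by omega
  obtain ⟨FB, hFB1, hFB2, hFB3, hFB4, hFB5⟩ := fam_B n z b (by omega) B' t' hN'pos
    (fun s hs => hBs s (mem_sdiff.mp hs).1)
    (by
      refine lt_of_le_of_lt ?_ hprod
      refine prod_le_prod' fun q hq => ?_
      refine Nat.pow_le_pow_right (mem_Od.mp hq).1.pos ?_
      have h1 : t' q / B'.card ≤ t q / (Bs.card - xX) := by
        refine (Nat.div_le_div_right (ht'le q)).trans (Nat.div_le_div_left hB'card2 (by omega))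
      omega)
  -- theta
  have hθ : ∑ q ∈ Od z, (t' q : ℝ) * Real.logb 2 q
      = ∑ q ∈ Od z, (t q : ℝ) * Real.logb 2 q - u3 * Real.logb 2 3 := by
    have h3 : (3:ℕ) ∈ Od z := mem_Od.mpr ⟨Nat.prime_three, le_rfl, by omega⟩
    rw [← Finset.add_sum_erase _ _ h3, ← Finset.add_sum_erase (Od z) (fun q => (t q : ℝ) * Real.logb 2 q) h3]
    have h4 : ∑ x ∈ (Od z).erase 3, (t' x : ℝ) * Real.logb 2 x
        = ∑ x ∈ (Od z).erase 3, (t x : ℝ) * Real.logb 2 x := by
      refine sum_congr rfl fun q hq => ?_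
      simp only [ht']
      rw [if_neg (Finset.ne_of_mem_erase hq)]
    rw [h4]
    have h5 : (t' 3 : ℝ) = t 3 - u3 := by
      simp only [ht', if_true]
      rw [Nat.cast_sub (by omega)]
    rw [h5]
    push_cast
    ring
  have hlog3 : Real.logb 2 3 ≤ 2 := by
    rw [Real.logb_le_iff_le_rpow (by norm_num) (by norm_num)]
    norm_num
  have hlog3' : 0 ≤ Real.logb 2 3 := Real.logb_nonneg (by norm_num) (by norm_num)
  rw [hθ] at hFB4 hFB5
  have hu3R : (u3 : ℝ) ≤ U3 := by exact_mod_cast hu3U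
  have hu2R : (prof W1 2 : ℝ) + prof FS 2 + prof FA 2 ≤ U2 := by exact_mod_cast hu2U
  have hu3L : (u3 : ℝ) * Real.logb 2 3 ≤ 2 * U3 := by
    have : (0:ℝ) ≤ u3 := Nat.cast_nonneg _
    nlinarith
  have hu3L0 : 0 ≤ (u3 : ℝ) * Real.logb 2 3 := by positivity
  have hB1R : (B'.card : ℝ) ≤ Bs.card := by exact_mod_cast hB'card1
  have hB2R : (Bs.card : ℝ) - (xX : ℕ) ≤ B'.card := by
    rw [sub_le_iff_le_add]
    have : Bs.card ≤ B'.card + xX := by omega
    exact_mod_cast this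
  have hb0 : (0:ℝ) ≤ b := Nat.cast_nonneg _
  -- leftover twos
  have hg1 : prof FB 2 + (prof W1 2 + prof FS 2 + prof FA 2) ≤ t 2 := by
    have : (prof FB 2 : ℝ) + (prof W1 2 + prof FS 2 + prof FA 2) ≤ t 2 := by
      have := mul_le_mul_of_nonneg_left hB1R hb0
      linarith
    exact_mod_cast this
  set g := t 2 - (prof FB 2 + (prof W1 2 + prof FS 2 + prof FA 2)) with hg
  have hg2 : g ≤ (S'.filter (fun r => 2 * r ≤ m)).card := by
    have h1 : (t 2 : ℝ) - prof FB 2 + (xX : ℕ) ≤ (S1.filter (fun r => 2 * r ≤ m)).card := by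
      have := mul_le_mul_of_nonneg_left hB2R hb0
      rw [mul_sub] at this
      linarith
    have h2 : (t 2 : ℝ) + (xX : ℕ) ≤ (S1.filter (fun r => 2 * r ≤ m)).card + prof FB 2 := by linarith
    have h3 : t 2 + xX ≤ (S1.filter (fun r => 2 * r ≤ m)).card + prof FB 2 := by exact_mod_cast h2
    omega
  obtain ⟨FD, hFD1, hFD2, hFD3⟩ := fam_double n δ S' g
    (fun r hr => by
      obtain ⟨h1, h2, h3⟩ := hS1 r (mem_sdiff.mp hr).1
      exact ⟨h1, h2, h3 2 Nat.prime_two (by omega), h3 3 Nat.prime_three (by omega)⟩) hg2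
  -- class labels
  have lFD : ∀ r ∈ FD, r.factorization 3 = 0 ∧ r.factorization 2 ≤ 1 := fun r hr =>
    ⟨(hFD1 r hr).2.2.1, (hFD1 r hr).2.2.2.1⟩
  have lW1 : ∀ r ∈ W1, r.factorization 3 = 0 ∧ 2 ≤ r.factorization 2 := fun r hr =>
    ⟨Nat.factorization_eq_zero_of_not_dvd ((hW r (hW1 hr)).2.2.2.1 3 Nat.prime_three le_rfl (by omega)),
      ha1.trans (hW r (hW1 hr)).2.2.1⟩
  have lFS : ∀ r ∈ FS, 1 ≤ r.factorization 3 ∧ r.factorization 3 ≤ 2 := fun r hr => by
    rcases (hFS1 r hr).2.2.1 with h | h <;> omega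
  have lFA : ∀ r ∈ FA, 3 ≤ r.factorization 3 ∧ r.factorization 3 < 3 + C2 := fun r hr =>
    ⟨(hFA1 r hr).2.2.2.1, (hFA1 r hr).2.2.2.2⟩
  have h3B : 3 + C2 ≤ t' 3 / B'.card := by
    rw [Nat.le_div_iff_mul_le hN'pos]
    have h1 : (3 + C2) * B'.card ≤ (3 + C2) * Bs.card := Nat.mul_le_mul_left _ hB'card1
    simp only [ht', if_true]
    omega
  have lFB : ∀ r ∈ FB, 3 + C2 ≤ r.factorization 3 := fun r hr =>
    h3B.trans (hFB1 r hr).2.2.1
  have d1 : Disjoint FD W1 := by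
    rw [Finset.disjoint_left]; intro r h1 h2
    have := lFD r h1; have := lW1 r h2; omega
  have d2 : Disjoint (FD ∪ W1) FS := by
    rw [Finset.disjoint_left]; intro r h1 h2
    have := lFS r h2
    rcases mem_union.mp h1 with h | h
    · have := lFD r h; omega
    · have := lW1 r h; omega
  have d3 : Disjoint (FD ∪ W1 ∪ FS) FA := by
    rw [Finset.disjoint_left]; intro r h1 h2
    have := lFA r h2
    rcases mem_union.mp h1 with h | h
    · rcases mem_union.mp h with h | h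
      · have := lFD r h; omega
      · have := lW1 r h; omega
    · have := lFS r h; omega
  have d4 : Disjoint (FD ∪ W1 ∪ FS ∪ FA) FB := by
    rw [Finset.disjoint_left]; intro r h1 h2
    have := lFB r h2
    rcases mem_union.mp h1 with h | h
    · rcases mem_union.mp h with h | h
      · rcases mem_union.mp h with h | h
        · have := lFD r h; omega
        · have := lW1 r h; omega
      · have := lFS r h; omega
    · have := lFA r h; omega
  have hprofG : ∀ p, prof (FD ∪ W1 ∪ FS ∪ FA ∪ FB) p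
      = prof FD p + prof W1 p + prof FS p + prof FA p + prof FB p := by
    intro p
    rw [prof_union d4, prof_union d3, prof_union d2, prof_union d1]
  have hMdδ : ∀ q ∈ Md m z, q ≤ δ := by
    intro q hq
    obtain ⟨h1, h2, h3⟩ := mem_Md.mp hq
    by_contra hcon
    push Not at hcon
    have : δ ^ 2 ≤ q ^ 2 := Nat.pow_le_pow_left hcon.le 2
    omega
  have hzδ : z < δ := by
    by_contra hcon
    push Not at hcon
    have : δ ^ 2 ≤ (z + 1) ^ 2 := Nat.pow_le_pow_left (by omega) 2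
    omega
  have hS'W : ∀ s, s ∈ S' ∨ s ∈ B' → ∀ p, p.Prime → p ∣ s → p ≤ δ := by
    intro s hs p hp hps
    refine hD1 s ?_ p hp hps
    rw [hR0def]
    rcases hs with hs | hs
    · rw [hS', mem_sdiff] at hs
      rw [mem_sdiff, mem_union]; tauto
    · rw [hB', mem_sdiff] at hs
      rw [mem_sdiff, mem_union]; tauto
  refine ⟨FD ∪ W1 ∪ FS ∪ FA ∪ FB, ?_, ?_, ?_⟩
  · intro r hr
    rcases mem_union.mp hr with hr | hr
    · rcases mem_union.mp hr with hr | hr
      · rcases mem_union.mp hr with hr | hr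
        · rcases mem_union.mp hr with hr | hr
          · obtain ⟨h1, h2, h3, h4, h5⟩ := hFD1 r hr
            refine ⟨h1, h2, fun p hp hpr => ?_⟩
            rcases h5 p hp hpr with h | ⟨s, hs, hps⟩
            · omega
            · exact hS'W s (Or.inl hs) p hp hps
          · obtain ⟨h1, h2, h3, h4, h5⟩ := hW r (hW1 hr)
            exact ⟨h1, by omega, h5⟩
        · obtain ⟨h1, h2, h3, h4⟩ := hFS1 r hr
          refine ⟨h1, by omega, fun p hp hpr => ?_⟩
          rcases h4 p hp hpr with h | h | ⟨w, hw, hpw⟩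
          · omega
          · exact hMdδ p h
          · exact (hW w hw).2.2.2.2 p hp hpw
      · obtain ⟨h1, h2, h3, h4, h5⟩ := hFA1 r hr
        refine ⟨h1, by omega, fun p hp hpr => ?_⟩
        rcases h3 p hp hpr with h | h
        · omega
        · exact (hUpp p h).2.2.1
    · obtain ⟨h1, h2, h3, h4⟩ := hFB1 r hr
      refine ⟨h1, by omega, fun p hp hpr => ?_⟩
      rcases h4 p hp hpr with h | ⟨s, hs, hps⟩
      · omega
      · exact hS'W s (Or.inr hs) p hp hps
  · intro q hq hqz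
    rw [hprofG]
    have hMdq : q ∉ Md m z := by
      intro h
      have := (mem_Md.mp h).2.1
      omega
    have hUpq : q ∉ Up m δ := by
      intro h
      have := (hUpp q h).2.1
      omega
    rcases Nat.lt_or_ge q 3 with h3 | h3
    · have hq2 : q = 2 := by have := hq.two_le; omega
      subst hq2
      rw [hFD2]
      omega
    · have e1 : prof FD q = 0 := by
        rw [hFD3 q (by omega)]
        exact prof_zero_of fun r hr => (hS1 r (mem_sdiff.mp hr).1).2.2 q hq hqz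
      have e2 : prof W q = 0 :=
        prof_zero_of fun r hr => (hW r hr).2.2.2.1 q hq h3 hqz
      have e3 : prof W1 q = 0 :=
        prof_zero_of fun r hr => (hW r (hW1 hr)).2.2.2.1 q hq h3 hqz
      rcases Nat.lt_or_ge 3 q with h4 | h4
      · have e4 := hFS2 q h4
        rw [if_neg hMdq] at e4
        have e5 := hFA3 q h4 hUpq
        have e6 := hFB2 q hq h3 hqz
        simp only [ht'] at e6
        rw [if_neg (by omega)] at e6
        omega
      · have hq3 : q = 3 := by omega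
        subst hq3
        have e6 := hFB2 3 hq le_rfl hqz
        simp only [ht', if_true] at e6
        omega
  · intro p hp hpz hpδ
    rw [hprofG, hFD3 p (by omega), hFB3 p hpz]
    have h1 := hFS2 p (by omega)
    have h2 := hD2 p hp hpz hpδ
    have h3 : prof (R0 \ X) p = prof S' p + prof B' p := by
      have h4 : R0 \ X = S' ∪ B' := by rw [hR0def, hS', hB', union_sdiff_distrib]
      rw [h4, prof_union]
      exact Disjoint.mono sdiff_subset sdiff_subset hdisj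
    rcases le_or_gt (p ^ 2) m with h | h
    · have h5 : p ∈ Md m z := hMdm p hp hpz h
      have h6 : p ∉ Up m δ := by
        intro h6
        have := (hUpp p h6).2.2.2
        omega
      rw [if_pos h5] at h1
      have h7 := hFA3 p (by omega) h6
      omega
    · have h5 : p ∉ Md m z := by
        intro h6
        have := (mem_Md.mp h6).2.2
        omega
      have h6 : p ∈ Up m δ := mem_Up.mpr ⟨hp, h, hpδ⟩
      rw [if_neg h5] at h1
      have h7 := hFA2 p h6
      omega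

end Pool.Agent.Helper602.Core
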