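import Mathlib
import Pool.Agent.Helper602.Cop
import Pool.Agent.Helper602.Sel

namespace Pool.Agent.Helper602.Val

open Finset Fam Sel Cop

/-- exponent of `p` in `(2n+δ)! / (n!)^2` -/
def E (n δ p : ℕ) : ℕ := (2 * n + δ).factorial.factorization p - 2 * n.factorial.factorization p

/-- `∑_{j ≤ log_p m} p^{-j}` -/
noncomputable def Gs (m p : ℕ) : ℝ := ∑ j ∈ Ico 1 (Nat.log p m + 1), 1 / (p:ℝ) ^ j

lemma fac_lb {n δ p : ℕ} : 2 * n.factorial.factorization p ≤ (2 * n + δ).factorial.factorization p := by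
  have h1 : n.factorial * n.factorial ∣ (n + n).factorial := Nat.factorial_mul_factorial_dvd_factorial_add n n
  have h2 : (n + n).factorial ∣ (2 * n + δ).factorial := Nat.factorial_dvd_factorial (by omega)
  have h3 := h1.trans h2
  have h4 := (Nat.factorization_le_iff_dvd (mul_ne_zero (Nat.factorial_ne_zero n) (Nat.factorial_ne_zero n))
    (Nat.factorial_ne_zero _)).mpr h3
  have h5 := h4 p
  rw [Nat.factorization_mul (Nat.factorial_ne_zero n) (Nat.factorial_ne_zero n)] at h5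
  simp only [Finsupp.coe_add, Pi.add_apply] at h5
  omega

lemma E_add (n δ p : ℕ) : E n δ p + 2 * n.factorial.factorization p
    = (2 * n + δ).factorial.factorization p := by
  unfold E
  have := fac_lb (n := n) (δ := δ) (p := p)
  omega

lemma E_eq (n δ p : ℕ) (hp : p.Prime) : (E n δ p : ℝ) =
    ∑ j ∈ Ico 1 (Nat.log p (2 * n + δ) + 1), ((((2 * n + δ) / p ^ j : ℕ) : ℝ) - 2 * ((n / p ^ j : ℕ) : ℝ)) := by
  have h1 := E_add n δ p
  have h0 : Nat.log p n ≤ Nat.log p (2 * n + δ) := Nat.log_mono_right (by omega)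
  rw [Nat.factorization_factorial hp (b := Nat.log p (2 * n + δ) + 1) (show Nat.log p (2 * n + δ) < _ by omega),
    Nat.factorization_factorial hp (b := Nat.log p (2 * n + δ) + 1) (show Nat.log p n < _ by omega)] at h1
  have h2 : (E n δ p : ℝ) + 2 * ∑ j ∈ Ico 1 (Nat.log p (2 * n + δ) + 1), ((n / p ^ j : ℕ) : ℝ)
      = ∑ j ∈ Ico 1 (Nat.log p (2 * n + δ) + 1), (((2 * n + δ) / p ^ j : ℕ) : ℝ) := by
    exact_mod_cast h1
  rw [sum_sub_distrib, ← mul_sum]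
  linarith

lemma floor_bounds (a k : ℕ) (hk : 0 < k) : (a:ℝ) / k - 1 ≤ ((a / k : ℕ) : ℝ) ∧
    ((a / k : ℕ) : ℝ) ≤ (a:ℝ) / k := by
  refine ⟨?_, Nat.cast_div_le⟩
  have h1 : a < k * (a / k + 1) := Nat.lt_mul_div_succ _ hk
  have hk0 : (0:ℝ) < k := by exact_mod_cast hk
  rw [sub_le_iff_le_add, div_le_iff₀ hk0]
  have h2 : (a:ℝ) ≤ k * (((a / k : ℕ) : ℝ) + 1) := by exact_mod_cast h1.le
  linarith

lemma E_lo (n δ p : ℕ) (hp : p.Prime) :
    δ * Gs (2 * n + δ) p - Nat.log p (2 * n + δ) ≤ E n δ p := by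
  rw [E_eq n δ p hp, Gs, mul_sum]
  have h1 : ((Nat.log p (2 * n + δ) : ℕ) : ℝ) = ∑ j ∈ Ico 1 (Nat.log p (2 * n + δ) + 1), (1:ℝ) := by
    simp
  rw [h1, ← sum_sub_distrib]
  refine sum_le_sum fun j _ => ?_
  have hpj : 0 < p ^ j := pow_pos hp.pos j
  obtain ⟨a1, a2⟩ := floor_bounds (2 * n + δ) (p ^ j) hpj
  obtain ⟨b1, b2⟩ := floor_bounds n (p ^ j) hpj
  push_cast at a1 a2 b1 b2 ⊢
  have : ((2:ℝ) * n + δ) / p ^ j = 2 * (n / p ^ j) + δ * (1 / p ^ j) := by ring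
  rw [this] at a1
  linarith

lemma E_hi (n δ p : ℕ) (hp : p.Prime) :
    (E n δ p : ℝ) ≤ δ * Gs (2 * n + δ) p + 2 * Nat.log p (2 * n + δ) := by
  rw [E_eq n δ p hp, Gs, mul_sum]
  have h1 : 2 * ((Nat.log p (2 * n + δ) : ℕ) : ℝ) = ∑ j ∈ Ico 1 (Nat.log p (2 * n + δ) + 1), (2:ℝ) := by
    simp [mul_comm]
  rw [h1, ← sum_add_distrib]
  refine sum_le_sum fun j _ => ?_
  have hpj : 0 < p ^ j := pow_pos hp.pos j
  obtain ⟨a1, a2⟩ := floor_bounds (2 * n + δ) (p ^ j) hpj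
  obtain ⟨b1, b2⟩ := floor_bounds n (p ^ j) hpj
  push_cast at a1 a2 b1 b2 ⊢
  have : ((2:ℝ) * n + δ) / p ^ j = 2 * (n / p ^ j) + δ * (1 / p ^ j) := by ring
  rw [this] at a2
  linarith

lemma prof_count {S : Finset ℕ} {p m : ℕ} (hp : p.Prime) (hS : ∀ r ∈ S, 0 < r ∧ r ≤ m) :
    prof S p = ∑ j ∈ Ico 1 (Nat.log p m + 1), (S.filter (p ^ j ∣ ·)).card := by
  unfold prof
  have h1 : ∀ r ∈ S, r.factorization p = ∑ j ∈ Ico 1 (Nat.log p m + 1), if p ^ j ∣ r then 1 else 0 := by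
    intro r hr
    obtain ⟨h1, h2⟩ := hS r hr
    rw [← card_filter]
    exact Nat.factorization_eq_card_pow_dvd_of_lt hp h1
      (lt_of_le_of_lt h2 (Nat.lt_pow_succ_log_self hp.one_lt m))
  rw [sum_congr rfl h1, sum_comm]
  refine sum_congr rfl fun j _ => ?_
  rw [← card_filter]

lemma Gs_lo {m p : ℕ} (hp : p.Prime) (hpm : p ≤ m) : 1 / (p:ℝ) ≤ Gs m p := by
  unfold Gs
  have h1 : 1 ∈ Ico 1 (Nat.log p m + 1) := by
    rw [mem_Ico]
    have : 1 ≤ Nat.log p m := Nat.le_log_of_pow_le hp.one_lt (by simpa using hpm)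
    omega
  have h2 := single_le_sum (f := fun j => 1 / (p:ℝ) ^ j) (fun j _ => by positivity) h1
  simpa using h2

lemma Gs_hi {m p : ℕ} (hp : p.Prime) : Gs m p ≤ 2 / (p:ℝ) := by
  unfold Gs
  have hp0 : (2:ℝ) ≤ p := by exact_mod_cast hp.two_le
  have h1 : ∀ J : ℕ, ∑ j ∈ Ico 1 (J + 1), 1 / (p:ℝ) ^ j ≤ 2 / p - (2 / p) / p ^ J := by
    intro J
    induction J with
    | zero => simp
    | succ J ih =>
      rw [sum_Ico_succ_top (by omega)]
      have h2 : 1 / (p:ℝ) ^ (J + 1) ≤ (2 / p) / p ^ J - (2 / p) / p ^ (J + 1) := by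
        rw [pow_succ]
        have h3 : (2 / (p:ℝ)) / p ^ J - (2 / p) / (p ^ J * p) = (2 * (p - 1) / p) * (1 / (p ^ J * p)) := by
          field_simp
        rw [h3]
        have h4 : 1 ≤ 2 * ((p:ℝ) - 1) / p := by
          rw [le_div_iff₀ (by linarith)]
          linarith
        have h5 : 0 ≤ 1 / ((p:ℝ) ^ J * p) := by positivity
        nlinarith
      linarith
  refine (h1 _).trans ?_
  have : (0:ℝ) ≤ (2 / p) / p ^ (Nat.log p m) := by positivity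
  linarith

/-- regularly distributed set -/
def Reg (Q : ℕ) (S : Finset ℕ) (μ C : ℝ) : Prop :=
  ∀ k, 0 < k → Nat.Coprime k Q → |((S.filter (k ∣ ·)).card : ℝ) - μ / k| ≤ C

lemma Reg.prof {Q : ℕ} {S : Finset ℕ} {μ C : ℝ} (h : Reg Q S μ C) {m p : ℕ} (hp : p.Prime)
    (hpQ : Nat.Coprime p Q) (hS : ∀ r ∈ S, 0 < r ∧ r ≤ m) :
    |(prof S p : ℝ) - μ * Gs m p| ≤ C * Nat.log p m := by
  rw [prof_count hp hS, Gs, mul_sum]
  push_cast
  rw [← sum_sub_distrib]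
  refine (abs_sum_le_sum_abs _ _).trans ?_
  have h1 : ∀ j ∈ Ico 1 (Nat.log p m + 1),
      |((S.filter (p ^ j ∣ ·)).card : ℝ) - μ * (1 / (p:ℝ) ^ j)| ≤ C := by
    intro j _
    have := h (p ^ j) (pow_pos hp.pos j) (Nat.Coprime.pow_left j hpQ)
    push_cast at this
    rw [mul_one_div]
    exact this
  refine (sum_le_sum h1).trans ?_
  rw [sum_const, Nat.card_Ico, nsmul_eq_mul]
  simp [mul_comm]

lemma reg_cop {Q : ℕ} (hQ : 0 < Q) (x L : ℕ) : Reg Q (cop Q x L) (rho Q * L) (Q + 1) := by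
  intro k hk hkQ
  exact cop_filter_bound hQ hk hkQ x L

lemma reg_W {Q a : ℕ} (hQ : 0 < Q) (hodd : Nat.Coprime 2 Q) (x L : ℕ) :
    Reg (2 * Q) ((cop Q x L).filter (2 ^ a ∣ ·)) (rho Q * L / 2 ^ a) (Q + 1) := by
  intro k hk hkQ
  have h1 : Nat.Coprime k Q := Nat.Coprime.coprime_mul_left_right hkQ
  have h2 : Nat.Coprime k 2 := Nat.Coprime.coprime_mul_right_right hkQ
  have h3 : ((cop Q x L).filter (2 ^ a ∣ ·)).filter (k ∣ ·) = (cop Q x L).filter (2 ^ a * k ∣ ·) := by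
    ext r
    simp only [mem_filter]
    constructor
    · rintro ⟨⟨h4, h5⟩, h6⟩
      exact ⟨h4, Nat.Coprime.mul_dvd_of_dvd_of_dvd (Nat.Coprime.pow_left a h2.symm) h5 h6⟩
    · rintro ⟨h4, h5⟩
      exact ⟨⟨h4, dvd_of_mul_right_dvd h5⟩, dvd_of_mul_left_dvd h5⟩
  rw [h3]
  have h4 := cop_filter_bound hQ (k := 2 ^ a * k) (by positivity)
    (Nat.Coprime.mul_left (Nat.Coprime.pow_left a hodd) h1) x L
  push_cast at h4
  rw [div_div]
  exact h4

end Pool.Agent.Helper602.Val
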