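import Mathlib
import Pool.Agent.Helper602.Core
import Pool.Agent.Helper602.Val
import Pool.Agent.Helper602.Asym2

open Filter Topology Finset

namespace Pool.Agent.Helper602.GL

open Fam Sel Cop Val Helper602.Core Asym

/-- product of the odd primes up to `z` -/
def Qo (z : ℕ) : ℕ := ∏ p ∈ Od z, p

/-- product of the primes up to `z` -/
def Qz (z : ℕ) : ℕ := 2 * Qo z

lemma Qo_pos (z : ℕ) : 0 < Qo z := prod_pos fun p hp => (mem_Od.mp hp).1.pos

lemma Qz_pos (z : ℕ) : 0 < Qz z := Nat.mul_pos (by norm_num) (Qo_pos z)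

lemma coprime_Qo {z r : ℕ} : Nat.Coprime r (Qo z) ↔ ∀ p, p.Prime → 3 ≤ p → p ≤ z → ¬ p ∣ r := by
  unfold Qo
  rw [Nat.coprime_prod_right_iff]
  constructor
  · intro h p hp h3 hz hpr
    have := h p (mem_Od.mpr ⟨hp, h3, hz⟩)
    exact (Nat.Prime.coprime_iff_not_dvd hp).mp this.symm hpr
  · intro h p hp
    obtain ⟨h1, h2, h3⟩ := mem_Od.mp hp
    exact ((Nat.Prime.coprime_iff_not_dvd h1).mpr (h p h1 h2 h3)).symm

lemma coprime_Qz {z r : ℕ} (hz : 2 ≤ z) :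
    Nat.Coprime r (Qz z) ↔ ∀ p, p.Prime → p ≤ z → ¬ p ∣ r := by
  unfold Qz
  rw [Nat.coprime_mul_iff_right, coprime_Qo]
  constructor
  · rintro ⟨h1, h2⟩ p hp hpz
    rcases Nat.lt_or_ge p 3 with h | h
    · have : p = 2 := by have := hp.two_le; omega
      subst this
      exact (Nat.Prime.coprime_iff_not_dvd Nat.prime_two).mp h1.symm
    · exact h2 p hp h hpz
  · intro h
    refine ⟨((Nat.Prime.coprime_iff_not_dvd Nat.prime_two).mpr (h 2 Nat.prime_two hz)).symm, ?_⟩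
    intro p hp _ hpz
    exact h p hp hpz

lemma two_coprime_Qo (z : ℕ) : Nat.Coprime 2 (Qo z) := by
  rw [coprime_Qo]
  intro p hp h3 _ hd
  have := Nat.le_of_dvd (by norm_num) hd
  omega

/-- the discretization constant -/
def K0 (z : ℕ) : ℕ := 3 * Qz z + 5

/-- the components -/
def W (z n a1 : ℕ) : Finset ℕ := (cop (Qo z) n (n / 8)).filter (2 ^ a1 ∣ ·)

/-- total mass -/
noncomputable def mass (z n a1 L1 Lb : ℕ) : ℝ :=
  rho (Qz z) * L1 + rho (Qz z) * Lb + rho (Qo z) * ((n / 8 : ℕ) : ℝ) / 2 ^ a1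

lemma mem_W {z n a1 w : ℕ} : w ∈ W z n a1 ↔ ((n < w ∧ w ≤ n + n / 8) ∧ Nat.Coprime w (Qo z)) ∧ 2 ^ a1 ∣ w := by
  rw [W, mem_filter, mem_cop]

/-- two sided estimate for `E - V` -/
lemma EV {z n δ x a1 L1 Lb p : ℕ} (hz : 2 ≤ z) (hp : p.Prime) (hpz : z < p)
    (hpm : p ≤ 2 * n + δ)
    (hL1 : n + L1 ≤ 2 * n + δ) (hLb : x + Lb ≤ 2 * n + δ) {κ : ℝ}
    (hκ0 : 0 ≤ κ)
    (h1 : κ ≤ δ - mass z n a1 L1 Lb) (h2 : δ - mass z n a1 L1 Lb ≤ κ + 1) :
    κ / p - K0 z * Nat.log p (2 * n + δ) ≤ (E n δ p : ℝ) -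
      (prof (cop (Qz z) n L1) p + prof (cop (Qz z) x Lb) p + prof (W z n a1) p) ∧
    (E n δ p : ℝ) - (prof (cop (Qz z) n L1) p + prof (cop (Qz z) x Lb) p + prof (W z n a1) p)
      ≤ 2 * (κ + 1) / p + K0 z * Nat.log p (2 * n + δ) := by
  set m := 2 * n + δ with hm
  have hpQ : Nat.Coprime p (Qz z) := by
    rw [coprime_Qz hz]
    intro q hq hqz hqp
    have := (Nat.prime_dvd_prime_iff_eq hq hp).mp hqp
    omega
  have e1 := (reg_cop (Qz_pos z) n L1).prof (m := m) hp hpQ (by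
    intro r hr; rw [mem_cop] at hr; omega)
  have e2 := (reg_cop (Qz_pos z) x Lb).prof (m := m) hp hpQ (by
    intro r hr; rw [mem_cop] at hr; omega)
  have e3 := (reg_W (a := a1) (Qo_pos z) (two_coprime_Qo z) n (n / 8)).prof (m := m) hp hpQ (by
    intro r hr; rw [mem_filter, mem_cop] at hr; omega)
  have eW : ((cop (Qo z) n (n / 8)).filter (2 ^ a1 ∣ ·)) = W z n a1 := rfl
  rw [eW] at e3
  have hElo := E_lo n δ p hp
  have hEhi := E_hi n δ p hp
  have hG1 := Gs_lo hp hpm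
  have hG2 := Gs_hi (m := m) hp
  set G := Gs m p with hG
  set J : ℝ := ((Nat.log p m : ℕ) : ℝ) with hJ
  have hJ0 : 0 ≤ J := Nat.cast_nonneg _
  have hp0 : (0:ℝ) < p := by exact_mod_cast hp.pos
  have hG0 : 0 ≤ G := le_trans (by positivity) hG1
  rw [abs_le] at e1 e2 e3
  have hQo : ((Qo z : ℕ) : ℝ) ≤ (Qz z : ℝ) := by
    have : Qo z ≤ Qz z := by unfold Qz; omega
    exact_mod_cast this
  have hmass : mass z n a1 L1 Lb = rho (Qz z) * L1 + rho (Qz z) * Lb + rho (Qo z) * ((n / 8 : ℕ) : ℝ) / 2 ^ a1 := rfl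
  have hK0 : (K0 z : ℝ) = 3 * (Qz z : ℝ) + 5 := by unfold K0; push_cast; ring
  have hVμ : mass z n a1 L1 Lb * G = rho (Qz z) * L1 * G + rho (Qz z) * Lb * G
      + rho (Qo z) * ((n / 8 : ℕ) : ℝ) / 2 ^ a1 * G := by rw [hmass]; ring
  have hJQ : ((Qo z : ℕ) : ℝ) * J ≤ (Qz z : ℝ) * J := mul_le_mul_of_nonneg_right hQo hJ0
  have hA : κ * G ≤ (δ - mass z n a1 L1 Lb) * G := mul_le_mul_of_nonneg_right h1 hG0
  have hB : (δ - mass z n a1 L1 Lb) * G ≤ (κ + 1) * G := mul_le_mul_of_nonneg_right h2 hG0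
  have hA' : κ / p ≤ κ * G := by
    calc κ / p = κ * (1 / p) := by ring
      _ ≤ κ * G := mul_le_mul_of_nonneg_left hG1 hκ0
  have hB' : (κ + 1) * G ≤ 2 * (κ + 1) / p := by
    calc (κ + 1) * G ≤ (κ + 1) * (2 / p) := mul_le_mul_of_nonneg_left hG2 (by linarith)
      _ = 2 * (κ + 1) / p := by ring
  have hdis : (δ - mass z n a1 L1 Lb) * G = δ * G - mass z n a1 L1 Lb * G := by ring
  rw [hdis] at hA hB
  rw [hK0]
  have hsum : ((Qz z : ℝ) + 1) * J + ((Qz z : ℝ) + 1) * J + ((Qo z : ℝ) + 1) * J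
      = 2 * ((Qz z : ℝ) * J) + (Qo z : ℝ) * J + 3 * J := by ring
  have hsum2 : (3 * (Qz z : ℝ) + 5) * J = 3 * ((Qz z : ℝ) * J) + 5 * J := by ring
  rw [hsum2]
  constructor
  · linarith [e1.2, e2.2, e3.2]
  · linarith [e1.1, e2.1, e3.1]

/-- few multiples of a small power -/
lemma logq_le : ∀ᶠ n : ℕ in atTop, ∀ δ : ℕ, ∀ q : ℕ, q.Prime → q ^ 2 ≤ 2 * n + δ →
    Nat.log q (2 * n + δ) * q ≤ 2 * (Nat.sqrt (2 * n + δ) + 1) := by
  have h0 : ∀ᶠ m : ℕ in atTop, (Nat.log 2 m) ^ 6 ≤ m := by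
    have h2 := (Real.isLittleO_pow_log_id_atTop (n := 6)).bound
      (show (0:ℝ) < Real.log 2 ^ 6 by have := Real.log_pos (show (1:ℝ) < 2 by norm_num); positivity)
    filter_upwards [tendsto_natCast_atTop_atTop.eventually h2, eventually_ge_atTop 1] with m h1 hm
    have hlog : 0 ≤ Real.log m := Real.log_nonneg (by exact_mod_cast hm)
    simp only [Real.norm_eq_abs, id] at h1
    rw [abs_of_nonneg (by positivity), abs_of_nonneg (by positivity)] at h1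
    have hl2 : 0 < Real.log 2 := Real.log_pos (by norm_num)
    have h3 : ((Nat.log 2 m : ℕ) : ℝ) * Real.log 2 ≤ Real.log m := by
      rw [← Real.log_pow]
      apply Real.log_le_log (by positivity)
      exact_mod_cast Nat.pow_log_le_self 2 (by omega)
    have h4 : (((Nat.log 2 m : ℕ) : ℝ) * Real.log 2) ^ 6 ≤ Real.log 2 ^ 6 * m :=
      (pow_le_pow_left₀ (by positivity) h3 6).trans h1
    rw [mul_pow, mul_comm] at h4
    have h5 := le_of_mul_le_mul_left h4 (by positivity)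
    exact_mod_cast h5
  obtain ⟨N, hN⟩ := eventually_atTop.mp h0
  filter_upwards [eventually_ge_atTop N, eventually_ge_atTop 1] with n hn hn1 δ q hq hqm
  set m := 2 * n + δ with hm
  have hm6 := hN m (by omega)
  rcases le_or_gt (q ^ 3) m with h | h
  · have h1 : Nat.log q m ≤ Nat.log 2 m := Nat.log_anti_left (by norm_num) hq.two_le
    have h2 : (Nat.log q m * q) ^ 6 ≤ m ^ 3 := by
      calc (Nat.log q m * q) ^ 6 = (Nat.log q m) ^ 6 * (q ^ 3) ^ 2 := by ring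
        _ ≤ (Nat.log 2 m) ^ 6 * m ^ 2 := Nat.mul_le_mul (Nat.pow_le_pow_left h1 6) (Nat.pow_le_pow_left h 2)
        _ ≤ m * m ^ 2 := Nat.mul_le_mul_right _ hm6
        _ = m ^ 3 := by ring
    have h3 : (Nat.log q m * q) ^ 2 ≤ m := by
      by_contra hcon
      push Not at hcon
      have : m ^ 3 < ((Nat.log q m * q) ^ 2) ^ 3 := Nat.pow_lt_pow_left hcon (by norm_num)
      have e : ((Nat.log q m * q) ^ 2) ^ 3 = (Nat.log q m * q) ^ 6 := by ring
      rw [e] at this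
      omega
    have h4 : Nat.log q m * q ≤ Nat.sqrt m := by
      rw [Nat.le_sqrt, ← sq]; exact h3
    omega
  · have h1 : Nat.log q m < 3 := Nat.log_lt_of_lt_pow (by omega) h
    have h2 : q ≤ Nat.sqrt m := by rw [Nat.le_sqrt, ← sq]; exact hqm
    calc Nat.log q m * q ≤ 2 * q := Nat.mul_le_mul_right _ (by omega)
      _ ≤ 2 * (Nat.sqrt m + 1) := by omega

/-- number of sources of exact two-adic order `a` -/
lemma O_card {z n a1 a : ℕ} (ha : a1 ≤ a) :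
    rho (Qo z) * ((n / 8 : ℕ) : ℝ) / 2 ^ (a + 1) - 2 * (Qo z + 1) ≤
      (((W z n a1).filter (fun w => w.factorization 2 = a)).card : ℝ) := by
  have h1 := cop_filter_bound (k := 2 ^ a) (Qo_pos z) (by positivity)
    (Nat.Coprime.pow_left a (two_coprime_Qo z)) n (n / 8)
  have h2 := cop_filter_bound (k := 2 ^ (a + 1)) (Qo_pos z) (by positivity)
    (Nat.Coprime.pow_left (a + 1) (two_coprime_Qo z)) n (n / 8)
  have h3 : ((cop (Qo z) n (n / 8)).filter (2 ^ a ∣ ·)) \ ((cop (Qo z) n (n / 8)).filter (2 ^ (a + 1) ∣ ·))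
      ⊆ (W z n a1).filter (fun w => w.factorization 2 = a) := by
    intro w hw
    rw [Finset.mem_sdiff, mem_filter, mem_filter] at hw
    obtain ⟨⟨h4, h5⟩, h6⟩ := hw
    have h7 : ¬ 2 ^ (a + 1) ∣ w := fun h => h6 ⟨h4, h⟩
    have hw0 : w ≠ 0 := by rw [mem_cop] at h4; omega
    rw [mem_filter, W, mem_filter]
    refine ⟨⟨h4, (pow_dvd_pow 2 ha).trans h5⟩, ?_⟩
    rw [Nat.prime_two.pow_dvd_iff_le_factorization hw0] at h5 h7
    omega
  have h4 : ((cop (Qo z) n (n / 8)).filter (2 ^ (a + 1) ∣ ·)) ⊆ ((cop (Qo z) n (n / 8)).filter (2 ^ a ∣ ·)) := by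
    intro w hw
    rw [mem_filter] at hw ⊢
    exact ⟨hw.1, (pow_dvd_pow 2 (by omega)).trans hw.2⟩
  have h5 := card_le_card h3
  rw [card_sdiff_of_subset h4] at h5
  have h6 : (((cop (Qo z) n (n / 8)).filter (2 ^ a ∣ ·)).card : ℝ)
      - ((cop (Qo z) n (n / 8)).filter (2 ^ (a + 1) ∣ ·)).card
      ≤ (((W z n a1).filter (fun w => w.factorization 2 = a)).card : ℝ) := by
    rw [← Nat.cast_sub (card_le_card h4)]
    exact_mod_cast h5
  push_cast at h1 h2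
  rw [abs_le] at h1 h2
  have e : rho (Qo z) * ((n / 8 : ℕ) : ℝ) / 2 ^ a = 2 * (rho (Qo z) * ((n / 8 : ℕ) : ℝ) / 2 ^ (a + 1)) := by
    rw [pow_succ]; field_simp
  linarith [h1.1, h2.2]

lemma Wq_card {z n a1 q : ℕ} (hq : q.Prime) (hz : 2 ≤ z) (hqz : z < q) :
    (((W z n a1).filter (q ∣ ·)).card : ℝ) ≤ rho (Qo z) * ((n / 8 : ℕ) : ℝ) / 2 ^ a1 / q + (Qo z + 1) := by
  have hqQ : Nat.Coprime q (2 * Qo z) := by
    have := (coprime_Qz (z := z) (r := q) hz).mpr (by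
      intro p hp hpz hpq
      have := (Nat.prime_dvd_prime_iff_eq hp hq).mp hpq
      omega)
    exact this
  have h1 := reg_W (a := a1) (Qo_pos z) (two_coprime_Qo z) n (n / 8) q hq.pos hqQ
  rw [abs_le] at h1
  have h2 := h1.2
  have eW : ((cop (Qo z) n (n / 8)).filter (2 ^ a1 ∣ ·)) = W z n a1 := rfl
  rw [eW] at h2
  linarith

/-- two-cost of the reservoir -/
lemma W_two {z n a1 δ : ℕ} :
    (prof (W z n a1) 2 : ℝ) ≤ (a1 + 1) * (((n / 8 : ℕ) : ℝ) / 2 ^ a1) + 2 * Nat.log 2 (2 * n + δ) := by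
  set m := 2 * n + δ with hm
  rw [prof_count (m := m) Nat.prime_two (by
    intro r hr; rw [mem_W] at hr; omega)]
  push_cast
  have h1 : ∀ j ∈ Ico 1 (Nat.log 2 m + 1), (((W z n a1).filter (2 ^ j ∣ ·)).card : ℝ)
      ≤ ((n / 8 : ℕ) : ℝ) / 2 ^ (max j a1) + 2 := by
    intro j _
    have h2 : (W z n a1).filter (2 ^ j ∣ ·) ⊆ (cop 1 n (n / 8)).filter (2 ^ (max j a1) ∣ ·) := by
      intro w hw
      rw [mem_filter, mem_W] at hw
      rw [mem_filter, mem_cop]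
      refine ⟨⟨hw.1.1.1, Nat.coprime_one_right w⟩, ?_⟩
      rcases le_total j a1 with h | h
      · rw [max_eq_right h]; exact hw.1.2
      · rw [max_eq_left h]; exact hw.2
    have h3 := cop_filter_bound (Q := 1) (k := 2 ^ (max j a1)) (by norm_num) (by positivity)
      (Nat.coprime_one_right _) n (n / 8)
    rw [abs_le] at h3
    have h4 : (((W z n a1).filter (2 ^ j ∣ ·)).card : ℝ) ≤ (((cop 1 n (n / 8)).filter (2 ^ (max j a1) ∣ ·)).card : ℝ) := by
      exact_mod_cast card_le_card h2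
    have h5 : rho 1 = 1 := by simp [rho]
    rw [h5] at h3
    have h6 := h3.2
    push_cast at h6
    rw [one_mul] at h6
    linarith
  refine (sum_le_sum h1).trans ?_
  rw [sum_add_distrib, sum_const, Nat.card_Ico, nsmul_eq_mul]
  have h2 : ∀ J : ℕ, ∑ j ∈ Ico 1 (J + 1), ((n / 8 : ℕ) : ℝ) / 2 ^ (max j a1)
      ≤ ((min J a1 : ℕ) : ℝ) * (((n / 8 : ℕ) : ℝ) / 2 ^ a1)
        + (((n / 8 : ℕ) : ℝ) / 2 ^ a1 - ((n / 8 : ℕ) : ℝ) / 2 ^ (max J a1)) := by
    intro J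
    induction J with
    | zero => simp
    | succ J ih =>
      rw [sum_Ico_succ_top (by omega)]
      rcases Nat.lt_or_ge J a1 with h | h
      · rw [min_eq_left h.le, max_eq_right h.le] at ih
        rw [min_eq_left (by omega : J + 1 ≤ a1), max_eq_right (by omega : J + 1 ≤ a1)]
        push_cast
        linarith
      · rw [min_eq_right h, max_eq_left h] at ih
        rw [min_eq_right (by omega : a1 ≤ J + 1), max_eq_left (by omega : a1 ≤ J + 1)]
        have e : ((n / 8 : ℕ) : ℝ) / 2 ^ J = 2 * (((n / 8 : ℕ) : ℝ) / 2 ^ (J + 1)) := by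
          rw [pow_succ]; field_simp
        linarith
  have h3 := h2 (Nat.log 2 m)
  have h4 : ((min (Nat.log 2 m) a1 : ℕ) : ℝ) ≤ a1 := by exact_mod_cast min_le_right _ _
  have h5 : (0:ℝ) ≤ ((n / 8 : ℕ) : ℝ) / 2 ^ a1 := by positivity
  have h6 : (0:ℝ) ≤ ((n / 8 : ℕ) : ℝ) / 2 ^ (max (Nat.log 2 m) a1) := by positivity
  have h7 := mul_le_mul_of_nonneg_right h4 h5
  have h8 : ((Nat.log 2 m + 1 - 1 : ℕ) : ℝ) = Nat.log 2 m := by simp
  rw [h8]
  linarith

/-- harmonic sum over the medium primes -/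
lemma Md_sum {z n δ : ℕ} {κ : ℝ} (hκ : 0 ≤ κ) (hn : 0 < n) (hz : 1 ≤ z) :
    ∑ q ∈ Md (2 * n + δ) z, κ / q ≤ κ * (1 + Real.log (2 * n + δ)) := by
  have h1 : ∑ q ∈ Md (2 * n + δ) z, κ / (q:ℝ) ≤ ∑ q ∈ Icc 1 (2 * n + δ), κ / (q:ℝ) := by
    refine sum_le_sum_of_subset_of_nonneg ?_ ?_
    · intro q hq
      obtain ⟨h1, h2, h3⟩ := mem_Md.mp hq
      rw [mem_Icc]
      have : q ≤ q ^ 2 := Nat.le_self_pow (by norm_num) q
      omega
    · intro q _ _
      positivity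
  refine h1.trans ?_
  have h2 : ∑ q ∈ Icc 1 (2 * n + δ), κ / (q:ℝ) = κ * ((harmonic (2 * n + δ) : ℚ) : ℝ) := by
    rw [harmonic_eq_sum_Icc]
    push_cast
    rw [mul_sum]
    refine sum_congr rfl fun q _ => ?_
    rw [div_eq_mul_inv]
  rw [h2]
  refine mul_le_mul_of_nonneg_left ?_ hκ
  have := harmonic_le_one_add_log (2 * n + δ)
  push_cast at this
  exact this

end Pool.Agent.Helper602.GL
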