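import Mathlib
import Pool.Agent.Helper602.GL1

open Filter Topology Finset

namespace Pool.Agent.Helper602.GL

open Fam Sel Cop Val Helper602.Core Asym

/-- consequences of `EV` on medium and upper primes -/
lemma num1 {z n δ x a1 L1 Lb κ : ℕ} (hz : 2 ≤ z) (hδ : 2 * n + δ < δ ^ 2)
    (hL1 : n + L1 ≤ 2 * n + δ) (hLb : x + Lb ≤ 2 * n + δ)
    (hκ : κ = 2 * K0 z * (Nat.sqrt (2 * n + δ) + 1))
    (h1 : (κ:ℝ) ≤ δ - mass z n a1 L1 Lb) (h2 : δ - mass z n a1 L1 Lb ≤ (κ:ℝ) + 1)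
    (hlog : ∀ q : ℕ, q.Prime → q ^ 2 ≤ 2 * n + δ →
      Nat.log q (2 * n + δ) * q ≤ 2 * (Nat.sqrt (2 * n + δ) + 1))
    (hzm : (z + 1) ^ 2 ≤ 2 * n + δ) :
    (∀ q ∈ Md (2 * n + δ) z,
      prof (cop (Qz z) n L1) q + prof (cop (Qz z) x Lb) q + prof (W z n a1) q ≤ E n δ q ∧
      ((E n δ q - (prof (cop (Qz z) n L1) q + prof (cop (Qz z) x Lb) q + prof (W z n a1) q) : ℕ) : ℝ)
        ≤ 5 * κ / q) ∧
    (∀ p ∈ Up (2 * n + δ) δ,
      prof (cop (Qz z) n L1) p + prof (cop (Qz z) x Lb) p + prof (W z n a1) p ≤ E n δ p + K0 z ∧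
      E n δ p ≤ prof (cop (Qz z) n L1) p + prof (cop (Qz z) x Lb) p + prof (W z n a1) p
        + (5 * K0 z + 2)) := by
  set m := 2 * n + δ with hm
  set V : ℕ → ℕ := fun p => prof (cop (Qz z) n L1) p + prof (cop (Qz z) x Lb) p + prof (W z n a1) p with hV
  have hκ1 : 1 ≤ κ := by
    rw [hκ]
    have : 1 ≤ K0 z := by unfold K0; omega
    calc 1 = 1 * 1 * 1 := by norm_num
      _ ≤ 2 * K0 z * (Nat.sqrt m + 1) := by gcongr <;> omega
  have hκR : (1:ℝ) ≤ κ := by exact_mod_cast hκ1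
  have hδm : δ ≤ m := by omega
  constructor
  · intro q hq
    obtain ⟨hqp, hqz, hqm⟩ := mem_Md.mp hq
    have hq0 : (0:ℝ) < q := by exact_mod_cast hqp.pos
    have hqle : q ≤ m := (Nat.le_self_pow (by norm_num) q).trans hqm
    obtain ⟨e1, e2⟩ := EV (x := x) (a1 := a1) (κ := κ) hz hqp hqz hqle hL1 hLb (by linarith) h1 h2
    have h3 : K0 z * Nat.log q m * q ≤ κ := by
      rw [hκ]
      calc K0 z * Nat.log q m * q = K0 z * (Nat.log q m * q) := by ring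
        _ ≤ K0 z * (2 * (Nat.sqrt m + 1)) := Nat.mul_le_mul_left _ (hlog q hqp hqm)
        _ = 2 * K0 z * (Nat.sqrt m + 1) := by ring
    have h4 : (K0 z : ℝ) * Nat.log q m ≤ κ / q := by
      rw [le_div_iff₀ hq0]; exact_mod_cast h3
    have h5 : ((V q : ℕ) : ℝ) ≤ E n δ q := by
      simp only [hV]; push_cast; linarith
    have h6 : V q ≤ E n δ q := by exact_mod_cast h5
    refine ⟨h6, ?_⟩
    change ((E n δ q - V q : ℕ) : ℝ) ≤ _
    rw [Nat.cast_sub h6]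
    have h7 : 2 * ((κ:ℝ) + 1) / q + κ / q ≤ 5 * κ / q := by
      rw [← add_div]
      refine div_le_div_of_nonneg_right ?_ hq0.le
      linarith
    simp only [hV]; push_cast
    linarith
  · intro p hp
    obtain ⟨hpp, hpm, hpδ⟩ := mem_Up.mp hp
    have hp0 : (0:ℝ) < p := by exact_mod_cast hpp.pos
    have hpz : z < p := by
      by_contra hcon
      push Not at hcon
      have : p ^ 2 ≤ (z + 1) ^ 2 := Nat.pow_le_pow_left (by omega) 2
      omega
    have hple : p ≤ m := by omega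
    obtain ⟨e1, e2⟩ := EV (x := x) (a1 := a1) (κ := κ) hz hpp hpz hple hL1 hLb (by linarith) h1 h2
    have hJ : Nat.log p m = 1 := by
      rw [Nat.log_eq_iff (Or.inl one_ne_zero)]
      exact ⟨by simpa using hple, by simpa using hpm⟩
    rw [hJ] at e1 e2
    have hps : Nat.sqrt m + 1 ≤ p := by
      have : Nat.sqrt m < p := by rw [Nat.sqrt_lt, ← sq]; exact hpm
      omega
    have hκp : (κ:ℝ) ≤ 2 * K0 z * p := by
      have : κ ≤ 2 * K0 z * p := by rw [hκ]; exact Nat.mul_le_mul_left _ hps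
      exact_mod_cast this
    have h3 : 2 * ((κ:ℝ) + 1) / p ≤ 4 * K0 z + 2 := by
      rw [div_le_iff₀ hp0]
      have : (1:ℝ) ≤ p := by exact_mod_cast hpp.one_lt.le
      linarith
    have h4 : 0 ≤ (κ:ℝ) / p := by positivity
    constructor
    · have : ((V p : ℕ) : ℝ) ≤ E n δ p + K0 z := by
        simp only [hV]; push_cast at e1 ⊢; linarith
      exact_mod_cast this
    · have : ((E n δ p : ℕ) : ℝ) ≤ (V p : ℕ) + (5 * K0 z + 2) := by
        simp only [hV]; push_cast at e2 ⊢; linarith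
      exact_mod_cast this

/-- the reservoir alone never exceeds the demand -/
lemma W_le_E {z n δ a1 : ℕ} (hz : 2 ≤ z) (hzm : (z + 1) ^ 2 ≤ 2 * n + δ) (hδ : 2 * n + δ < δ ^ 2)
    (h1 : 4 * (((n / 8 : ℕ) : ℝ) / 2 ^ a1) ≤ δ)
    (h2 : 4 * (n:ℝ) * (Qo z + 2) ≤ δ * 2 ^ a1) :
    ∀ p ∈ Up (2 * n + δ) δ, prof (W z n a1) p ≤ E n δ p := by
  intro p hp
  obtain ⟨hpp, hpm, hpδ⟩ := mem_Up.mp hp
  set m := 2 * n + δ with hm
  have hp0 : (0:ℝ) < p := by exact_mod_cast hpp.pos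
  have hpz : z < p := by
    by_contra hcon
    push Not at hcon
    have : p ^ 2 ≤ (z + 1) ^ 2 := Nat.pow_le_pow_left (by omega) 2
    omega
  by_cases hex : ∃ w ∈ W z n a1, p ∣ w
  · obtain ⟨w, hw, hpw⟩ := hex
    rw [mem_W] at hw
    have hple : p ≤ m := by omega
    have h3 : 2 ^ a1 * p ∣ w := Nat.Coprime.mul_dvd_of_dvd_of_dvd
      (Nat.Coprime.pow_left a1 ((Nat.coprime_primes Nat.prime_two hpp).mpr (by omega))) hw.2 hpw
    have h4 : 2 ^ a1 * p ≤ 2 * n := (Nat.le_of_dvd (by omega) h3).trans (by omega)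
    have h4R : (2:ℝ) ^ a1 * p ≤ 2 * n := by exact_mod_cast h4
    have hpQ : Nat.Coprime p (Qz z) := by
      rw [coprime_Qz hz]
      intro q hq hqz hqp
      have := (Nat.prime_dvd_prime_iff_eq hq hpp).mp hqp
      omega
    have hJ : Nat.log p m = 1 := by
      rw [Nat.log_eq_iff (Or.inl one_ne_zero)]
      exact ⟨by simpa using hple, by simpa using hpm⟩
    have e3 := (reg_W (a := a1) (Qo_pos z) (two_coprime_Qo z) n (n / 8)).prof (m := m) hpp hpQ (by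
      intro r hr; rw [mem_filter, mem_cop] at hr; omega)
    have eW : ((cop (Qo z) n (n / 8)).filter (2 ^ a1 ∣ ·)) = W z n a1 := rfl
    rw [eW, hJ, abs_le] at e3
    have e4 := E_lo n δ p hpp
    rw [hJ] at e4
    have hG1 := Gs_lo hpp hple
    have hG2 := Gs_hi (m := m) hpp
    have hμ : rho (Qo z) * ((n / 8 : ℕ) : ℝ) / 2 ^ a1 ≤ ((n / 8 : ℕ) : ℝ) / 2 ^ a1 := by
      refine div_le_div_of_nonneg_right ?_ (by positivity)
      exact mul_le_of_le_one_left (Nat.cast_nonneg _) (rho_le_one (Qo_pos z))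
    have hμ0 : 0 ≤ rho (Qo z) * ((n / 8 : ℕ) : ℝ) / 2 ^ a1 := by
      have := rho_pos (Qo_pos z)
      positivity
    set μ := rho (Qo z) * ((n / 8 : ℕ) : ℝ) / 2 ^ a1 with hμd
    have h5 : μ * Gs m p ≤ μ * (2 / p) := mul_le_mul_of_nonneg_left hG2 hμ0
    have h6 : δ * (1 / (p:ℝ)) ≤ δ * Gs m p := mul_le_mul_of_nonneg_left hG1 (Nat.cast_nonneg _)
    have h7 : (Qo z : ℝ) + 2 ≤ (δ / 2) / p := by
      rw [le_div_iff₀ hp0]
      have h8 : 0 < (2:ℝ) ^ a1 := by positivity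
      have h9 : ((Qo z : ℝ) + 2) * p * 2 ^ a1 ≤ (δ / 2) * 2 ^ a1 := by
        calc ((Qo z : ℝ) + 2) * p * 2 ^ a1 = ((Qo z : ℝ) + 2) * (2 ^ a1 * p) := by ring
          _ ≤ ((Qo z : ℝ) + 2) * (2 * n) := mul_le_mul_of_nonneg_left h4R (by positivity)
          _ ≤ (δ / 2) * 2 ^ a1 := by linarith
      exact le_of_mul_le_mul_right h9 h8
    have h8 : μ * (2 / p) ≤ (δ / 2) / p := by
      calc μ * (2 / p) = (2 * μ) / p := by ring
        _ ≤ (δ / 2) / p := div_le_div_of_nonneg_right (by linarith) hp0.le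
    have h9 : (δ:ℝ) * (1 / p) = (δ / 2) / p + (δ / 2) / p := by ring
    have h10 : (prof (W z n a1) p : ℝ) ≤ E n δ p := by
      push_cast at e3 e4
      linarith [e3.2]
    exact_mod_cast h10
  · push Not at hex
    have : prof (W z n a1) p = 0 := prof_zero_of hex
    omega

/-- the greedy condition -/
lemma greedy_num {z n δ a1 β κ : ℕ} (hz : 8 ≤ z) (V EE : ℕ → ℕ)
    (hEV : ∀ q ∈ Md (2 * n + δ) z, ((EE q - V q : ℕ) : ℝ) ≤ 5 * κ / q)
    (hI : ((∑ q ∈ Md (2 * n + δ) z, (EE q - V q) + β * Nat.log 2 ((2 * n + δ) / δ)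
        + K0 z * ∑ p ∈ Up (2 * n + δ) δ, Nat.log 2 ((2 * n + δ) / p) : ℕ) : ℝ)
        ≤ (rho (Qo z) * ((n / 8 : ℕ) : ℝ) / 2 ^ a1) / 8)
    (hI2 : 3 * ((Qo z : ℝ) + 1) ≤ (rho (Qo z) * ((n / 8 : ℕ) : ℝ) / 2 ^ a1) / 4)
    (ha1 : 96 ≤ 2 ^ a1)
    (hII : ∀ a : ℕ, a1 < a → (2:ℝ) ^ a ≤ 12 * Real.sqrt ((2 * n + δ : ℕ) : ℝ) →
      1 < 2 ^ a / 12 ∧ (2 * n + δ) / δ < 2 ^ a / 12 ∧
      (Nat.primeCounting (2 ^ a) : ℝ) * (60 * κ / 2 ^ a)
        + K0 z * ((∑ p ∈ Up (2 * n + δ) δ, Nat.log (2 ^ a / 12) ((2 * n + δ) / p) : ℕ) : ℝ)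
        ≤ (rho (Qo z) * ((n / 8 : ℕ) : ℝ) / 2 ^ a) / 8 ∧
      3 * ((Qo z : ℝ) + 1) ≤ (rho (Qo z) * ((n / 8 : ℕ) : ℝ) / 2 ^ a) / 4) :
    ∀ q ∈ Md (2 * n + δ) z, ∃ A, 1 < A ∧
      (∀ q' ∈ Md (2 * n + δ) z, aq a1 q' = aq a1 q → A ≤ q') ∧
      (∑ q' ∈ Md (2 * n + δ) z with aq a1 q' = aq a1 q, (EE q' - V q'))
        + β * Nat.log A ((2 * n + δ) / δ)
        + K0 z * ∑ p ∈ Up (2 * n + δ) δ, Nat.log A ((2 * n + δ) / p)
        + ((W z n a1).filter (q ∣ ·)).card ≤ ((W z n a1).filter (fun w => w.factorization 2 = aq a1 q)).card := by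
  intro q hq
  obtain ⟨hqp, hqz, hqm⟩ := mem_Md.mp hq
  set m := 2 * n + δ with hm
  have hq0 : (0:ℝ) < q := by exact_mod_cast hqp.pos
  have hWq := Wq_card (z := z) (n := n) (a1 := a1) hqp (by omega) hqz
  have hρ := rho_pos (Qo_pos z)
  rcases Nat.lt_or_ge a1 (bq q) with hb | hb
  · -- class II
    have haq : aq a1 q = bq q := max_eq_right hb.le
    rw [haq]
    obtain ⟨b1, b2, b3, b4⟩ := bv q hqp.pos
    have hqs : (q:ℝ) ≤ Real.sqrt m := by
      apply Real.le_sqrt_of_sq_le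
      exact_mod_cast hqm
    have h2a : (2:ℝ) ^ bq q ≤ 12 * Real.sqrt m := by
      have : (2:ℝ) ^ bq q ≤ 12 * q := by exact_mod_cast b3
      linarith
    obtain ⟨c1, c2, c3, c4⟩ := hII (bq q) hb h2a
    set a := bq q with ha
    refine ⟨2 ^ a / 12, c1, ?_, ?_⟩
    · intro q' hq' hcl
      have hb' : bq q' = a := by
        unfold aq at hcl
        rcases Nat.lt_or_ge a1 (bq q') with h | h
        · rw [max_eq_right h.le] at hcl; exact hcl
        · rw [max_eq_left h] at hcl; omega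
      have := (bv q' (mem_Md.mp hq').1.pos).2.2.1
      rw [hb'] at this
      omega
    · have hlog0 : Nat.log (2 ^ a / 12) (m / δ) = 0 := by
        rw [Nat.log_eq_zero_iff]; left; exact c2
      rw [hlog0, mul_zero, add_zero]
      have hcl : ∀ q' ∈ (Md m z).filter (fun q' => aq a1 q' = a), q' ∈ Est.Pr (2 ^ a) ∧
          ((EE q' - V q' : ℕ) : ℝ) ≤ 60 * κ / 2 ^ a := by
        intro q' hq'
        rw [mem_filter] at hq'
        have hb' : bq q' = a := by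
          have h := hq'.2
          unfold aq at h
          rcases Nat.lt_or_ge a1 (bq q') with h' | h'
          · rw [max_eq_right h'.le] at h; exact h
          · rw [max_eq_left h'] at h; omega
        obtain ⟨d1, d2, d3⟩ := mem_Md.mp hq'.1
        obtain ⟨f1, f2, f3, f4⟩ := bv q' d1.pos
        rw [hb'] at f3 f4
        refine ⟨Est.mem_Pr.mpr ⟨d1, f4.le⟩, (hEV q' hq'.1).trans ?_⟩
        have hq'0 : (0:ℝ) < q' := by exact_mod_cast d1.pos
        rw [div_le_div_iff₀ hq'0 (by positivity)]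
        have f3R : (2:ℝ) ^ a ≤ 12 * q' := by exact_mod_cast f3
        have hκ0 : (0:ℝ) ≤ κ := Nat.cast_nonneg _
        calc 5 * (κ:ℝ) * 2 ^ a ≤ 5 * κ * (12 * q') := mul_le_mul_of_nonneg_left f3R (by positivity)
          _ = 60 * κ * q' := by ring
      have h1 : ((∑ q' ∈ Md m z with aq a1 q' = a, (EE q' - V q') : ℕ) : ℝ)
          ≤ (Nat.primeCounting (2 ^ a) : ℝ) * (60 * κ / 2 ^ a) := by
        push_cast
        refine (sum_le_sum fun q' hq' => (hcl q' hq').2).trans ?_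
        rw [sum_const, nsmul_eq_mul]
        refine mul_le_mul_of_nonneg_right ?_ (by positivity)
        rw [← Est.card_Pr]
        have : (Md m z).filter (fun q' => aq a1 q' = a) ⊆ Est.Pr (2 ^ a) := fun q' hq' => (hcl q' hq').1
        exact_mod_cast card_le_card this
      have h2 := O_card (z := z) (n := n) (a1 := a1) (a := a) hb.le
      have h3 : rho (Qo z) * ((n / 8 : ℕ) : ℝ) / 2 ^ a1 / q
          ≤ (rho (Qo z) * ((n / 8 : ℕ) : ℝ) / 2 ^ a) / 8 := by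
        have f3R : (2:ℝ) ^ a ≤ 12 * q := by exact_mod_cast b3
        have ha1R : (96:ℝ) ≤ 2 ^ a1 := by exact_mod_cast ha1
        rw [div_div, div_div]
        refine div_le_div_of_nonneg_left (by positivity) (by positivity) ?_
        calc (2:ℝ) ^ a * 8 ≤ (12 * q) * 8 := mul_le_mul_of_nonneg_right f3R (by norm_num)
          _ = 96 * q := by ring
          _ ≤ 2 ^ a1 * q := mul_le_mul_of_nonneg_right ha1R hq0.le
      have e : rho (Qo z) * ((n / 8 : ℕ) : ℝ) / 2 ^ (a + 1)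
          = (rho (Qo z) * ((n / 8 : ℕ) : ℝ) / 2 ^ a) / 2 := by
        rw [pow_succ, div_div]
      rw [e] at h2
      have h4 : ((∑ q' ∈ Md m z with aq a1 q' = a, (EE q' - V q') : ℕ) : ℝ)
          + K0 z * ((∑ p ∈ Up m δ, Nat.log (2 ^ a / 12) (m / p) : ℕ) : ℝ)
          + (((W z n a1).filter (q ∣ ·)).card : ℝ)
          ≤ (((W z n a1).filter (fun w => w.factorization 2 = a)).card : ℝ) := by
        linarith
      exact_mod_cast h4
  · -- class I
    have haq : aq a1 q = a1 := max_eq_left hb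
    rw [haq]
    refine ⟨2, by norm_num, fun q' hq' _ => (mem_Md.mp hq').1.two_le, ?_⟩
    have h2 := O_card (z := z) (n := n) (a1 := a1) (a := a1) le_rfl
    have e : rho (Qo z) * ((n / 8 : ℕ) : ℝ) / 2 ^ (a1 + 1)
        = (rho (Qo z) * ((n / 8 : ℕ) : ℝ) / 2 ^ a1) / 2 := by
      rw [pow_succ, div_div]
    rw [e] at h2
    have h3 : rho (Qo z) * ((n / 8 : ℕ) : ℝ) / 2 ^ a1 / q
        ≤ (rho (Qo z) * ((n / 8 : ℕ) : ℝ) / 2 ^ a1) / 8 := by
      refine div_le_div_of_nonneg_left (by positivity) (by norm_num) ?_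
      have : 8 ≤ q := by omega
      exact_mod_cast this
    have h1 : ∑ q' ∈ Md m z with aq a1 q' = a1, (EE q' - V q') ≤ ∑ q' ∈ Md m z, (EE q' - V q') :=
      sum_le_sum_of_subset (filter_subset _ _)
    have h4 : ((∑ q' ∈ Md m z with aq a1 q' = a1, (EE q' - V q') + β * Nat.log 2 (m / δ)
        + K0 z * ∑ p ∈ Up m δ, Nat.log 2 (m / p) : ℕ) : ℝ)
        ≤ (rho (Qo z) * ((n / 8 : ℕ) : ℝ) / 2 ^ a1) / 8 := by
      refine le_trans ?_ hI
      exact_mod_cast (by omega)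
    have h5 : ((∑ q' ∈ Md m z with aq a1 q' = a1, (EE q' - V q') + β * Nat.log 2 (m / δ)
        + K0 z * ∑ p ∈ Up m δ, Nat.log 2 (m / p) : ℕ) : ℝ)
        + (((W z n a1).filter (q ∣ ·)).card : ℝ)
        ≤ (((W z n a1).filter (fun w => w.factorization 2 = a1)).card : ℝ) := by
      linarith
    exact_mod_cast h5

end Pool.Agent.Helper602.GL
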