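import Mathlib
import Pool.Agent.Helper602.GL2

open Filter Topology Finset

namespace Pool.Agent.Helper602.GL

open Fam Sel Cop Val Helper602.Core Asym

lemma prod_lt {z b D : ℕ} (hD : 0 < D) (t : ℕ → ℕ)
    (h : (∑ q ∈ Od z, (t q : ℝ) * Real.logb 2 q) / D + ∑ q ∈ Od z, Real.logb 2 q < b + 1) :
    ∏ q ∈ Od z, q ^ (t q / D + 1) < 2 ^ (b + 1) := by
  have hD0 : (0:ℝ) < D := by exact_mod_cast hD
  have hpos : (0:ℝ) < ∏ q ∈ Od z, (q:ℝ) ^ (t q / D + 1) := by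
    refine prod_pos fun q hq => ?_
    have := (mem_Od.mp hq).1.pos
    positivity
  have h1 : Real.logb 2 (∏ q ∈ Od z, (q:ℝ) ^ (t q / D + 1)) < b + 1 := by
    refine lt_of_le_of_lt ?_ h
    rw [Real.logb_prod]
    · have h2 : ∀ q ∈ Od z, Real.logb 2 ((q:ℝ) ^ (t q / D + 1))
          ≤ ((t q : ℝ) * Real.logb 2 q) / D + Real.logb 2 q := by
        intro q hq
        have hq1 : (1:ℝ) < q := by exact_mod_cast (mem_Od.mp hq).1.one_lt
        have hl : 0 ≤ Real.logb 2 q := Real.logb_nonneg (by norm_num) hq1.le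
        rw [Real.logb_pow]
        have h3 : ((t q / D : ℕ) : ℝ) ≤ (t q : ℝ) / D := Nat.cast_div_le
        push_cast
        calc (((t q / D : ℕ) : ℝ) + 1) * Real.logb 2 q ≤ ((t q : ℝ) / D + 1) * Real.logb 2 q := by
              refine mul_le_mul_of_nonneg_right ?_ hl
              linarith
          _ = _ := by ring
      refine (sum_le_sum h2).trans ?_
      rw [sum_add_distrib, sum_div]
    · intro q hq
      have := (mem_Od.mp hq).1.pos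
      positivity
  have h3 : (∏ q ∈ Od z, (q:ℝ) ^ (t q / D + 1)) < 2 ^ ((b:ℝ) + 1) := by
    rwa [Real.logb_lt_iff_lt_rpow (by norm_num) hpos] at h1
  have h4 : (2:ℝ) ^ ((b:ℝ) + 1) = 2 ^ (b + 1) := by
    rw [← Real.rpow_natCast]
    push_cast
    rfl
  rw [h4] at h3
  exact_mod_cast h3

open Classical in
lemma bad_union {Q n δ x L1 Lb : ℕ} {ρ : ℝ} (hρ : 0 < ρ) (hρ1 : ρ ≤ 1)
    (hδ : 1 < δ) (hL1 : (L1:ℝ) ≤ δ / ρ) (hLb : (Lb:ℝ) ≤ δ / ρ) (hx : x ≤ n)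
    (h3 : (n:ℝ) + δ / ρ + δ ≤ 3 * n) :
    (((cop Q n L1 ∪ cop Q x Lb).filter (fun r => ∃ p, p.Prime ∧ δ < p ∧ p ∣ r)).card : ℝ) ≤
      (4 / ρ) * (δ * (1 + Real.log (3 * n / δ)) / Real.log δ) := by
  have hδ0 : (0:ℝ) < δ := by
    have : 0 < δ := by omega
    exact_mod_cast this
  have hlog : 0 < Real.log δ := Real.log_pos (by exact_mod_cast hδ)
  have hgen : ∀ y L : ℕ, y ≤ n → (L:ℝ) ≤ δ / ρ →
      (((cop Q y L).filter (fun r => ∃ p, p.Prime ∧ δ < p ∧ p ∣ r)).card : ℝ) ≤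
      (2 / ρ) * (δ * (1 + Real.log (3 * n / δ)) / Real.log δ) := by
    intro y L hy hL
    have h1 := Est.bad_card' (x := y) (L := L) (y := δ) (by omega)
      ((cop Q y L).filter (fun r => ∃ p, p.Prime ∧ δ < p ∧ p ∣ r)) (by
        intro r hr
        rw [mem_filter, mem_cop] at hr
        exact ⟨hr.1.1.1, hr.1.1.2, hr.2⟩)
    have hyn : (y:ℝ) ≤ n := by exact_mod_cast hy
    have hy0 : (0:ℝ) ≤ y := Nat.cast_nonneg _
    have hL0 : (0:ℝ) ≤ L := Nat.cast_nonneg _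
    have h2 : Real.log (((y:ℝ) + L + δ) / δ) ≤ Real.log (3 * n / δ) := by
      apply Real.log_le_log (by positivity)
      exact div_le_div_of_nonneg_right (by linarith) hδ0.le
    have h2' : 0 ≤ Real.log (((y:ℝ) + L + δ) / δ) := Real.log_nonneg (by
      rw [le_div_iff₀ hδ0]; linarith)
    have h4 : (L:ℝ) + δ ≤ 2 / ρ * δ := by
      have : (δ:ℝ) ≤ δ / ρ := by rw [le_div_iff₀ hρ]; exact mul_le_of_le_one_right hδ0.le hρ1
      calc (L:ℝ) + δ ≤ δ / ρ + δ / ρ := by linarith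
        _ = 2 / ρ * δ := by ring
    have h5 : (((cop Q y L).filter (fun r => ∃ p, p.Prime ∧ δ < p ∧ p ∣ r)).card : ℝ) * Real.log δ
        ≤ (2 / ρ * δ) * (1 + Real.log (3 * n / δ)) := by
      refine h1.trans ?_
      refine mul_le_mul h4 (by linarith) (by linarith) (by positivity)
    calc (((cop Q y L).filter (fun r => ∃ p, p.Prime ∧ δ < p ∧ p ∣ r)).card : ℝ)
        = (((cop Q y L).filter (fun r => ∃ p, p.Prime ∧ δ < p ∧ p ∣ r)).card : ℝ) * Real.log δ / Real.log δ := by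
          field_simp
      _ ≤ (2 / ρ * δ) * (1 + Real.log (3 * n / δ)) / Real.log δ := div_le_div_of_nonneg_right h5 hlog.le
      _ = _ := by ring
  have h1 := hgen n L1 le_rfl hL1
  have h2 := hgen x Lb hx hLb
  rw [filter_union]
  have h4 : ((((cop Q n L1).filter (fun r => ∃ p, p.Prime ∧ δ < p ∧ p ∣ r)) ∪
      ((cop Q x Lb).filter (fun r => ∃ p, p.Prime ∧ δ < p ∧ p ∣ r))).card : ℝ) ≤
      (((cop Q n L1).filter (fun r => ∃ p, p.Prime ∧ δ < p ∧ p ∣ r)).card : ℝ) +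
      (((cop Q x Lb).filter (fun r => ∃ p, p.Prime ∧ δ < p ∧ p ∣ r)).card : ℝ) := by
    exact_mod_cast card_union_le _ _
  refine h4.trans ?_
  have e : (4 / ρ) * (δ * (1 + Real.log (3 * n / δ)) / Real.log δ)
      = (2 / ρ) * (δ * (1 + Real.log (3 * n / δ)) / Real.log δ)
        + (2 / ρ) * (δ * (1 + Real.log (3 * n / δ)) / Real.log δ) := by ring
  rw [e]
  exact add_le_add h1 h2

/-- the exponent `a1` -/
noncomputable def a1f (s : ℝ) : ℕ := Nat.log 2 ⌈s ^ 3⌉₊ + 1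

lemma a1_facts {s : ℝ} (hs : 1 ≤ s) : s ^ 3 ≤ (2:ℝ) ^ (a1f s) ∧ (2:ℝ) ^ (a1f s) ≤ 4 * s ^ 3 ∧
    ((a1f s : ℕ) : ℝ) + 1 ≤ 5 * (1 + Real.log s) := by
  have hs3 : 1 ≤ s ^ 3 := one_le_pow₀ hs
  have hc : 1 ≤ ⌈s ^ 3⌉₊ := Nat.one_le_ceil_iff.mpr (by linarith)
  have h1 : ⌈s ^ 3⌉₊ < 2 ^ (Nat.log 2 ⌈s ^ 3⌉₊ + 1) := Nat.lt_pow_succ_log_self (by norm_num) _
  have h2 : 2 ^ (Nat.log 2 ⌈s ^ 3⌉₊) ≤ ⌈s ^ 3⌉₊ := Nat.pow_log_le_self 2 (by omega)
  have h3 : (⌈s ^ 3⌉₊ : ℝ) < s ^ 3 + 1 := Nat.ceil_lt_add_one (by linarith)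
  have h4 : s ^ 3 ≤ ⌈s ^ 3⌉₊ := Nat.le_ceil _
  have A : s ^ 3 ≤ (2:ℝ) ^ (a1f s) := by
    have : ((⌈s ^ 3⌉₊ : ℕ) : ℝ) ≤ ((2 ^ (Nat.log 2 ⌈s ^ 3⌉₊ + 1) : ℕ) : ℝ) := by exact_mod_cast h1.le
    push_cast at this
    unfold a1f
    linarith
  have B : (2:ℝ) ^ (a1f s) ≤ 4 * s ^ 3 := by
    have : ((2 ^ (Nat.log 2 ⌈s ^ 3⌉₊) : ℕ) : ℝ) ≤ ((⌈s ^ 3⌉₊ : ℕ) : ℝ) := by exact_mod_cast h2
    push_cast at this
    unfold a1f
    rw [pow_succ]
    linarith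
  refine ⟨A, B, ?_⟩
  have hlogs : 0 ≤ Real.log s := Real.log_nonneg hs
  have h5 := Real.log_le_log (by positivity) B
  rw [Real.log_pow, Real.log_mul (by norm_num) (by positivity), Real.log_pow,
    show (4:ℝ) = 2 ^ 2 by norm_num, Real.log_pow] at h5
  push_cast at h5
  have hl2 : 0.6931471803 < Real.log 2 := Real.log_two_gt_d9
  have h6 : ((a1f s : ℕ) : ℝ) * Real.log 2 ≤ (2 + 5 * Real.log s) * Real.log 2 := by
    have : 3 * Real.log s ≤ 5 * Real.log s * Real.log 2 := by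
      have : 3 * Real.log s ≤ 5 * Real.log s * 0.6931471803 := by linarith
      refine this.trans ?_
      exact mul_le_mul_of_nonneg_left hl2.le (by positivity)
    linarith
  have h7 := le_of_mul_le_mul_right h6 (by linarith)
  linarith

end Pool.Agent.Helper602.GL
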