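import Mathlib
import Pool.Agent.Helper602.GL3

open Filter Topology Finset

namespace Pool.Agent.Helper602.GL

open Fam Sel Cop Val Helper602.Core Asym

/-- choice of constants -/
lemma consts {η ρ ρ' k lQ c2 : ℝ} (hη : 0 < η) (hη1 : η ≤ 1) (hρ0 : 0 < ρ) (hρ1 : ρ ≤ 1)
    (hρ'0 : 0 < ρ') (hρ'1 : ρ' ≤ 1) (hlQ0 : 0 ≤ lQ) (hk0 : 5 ≤ k) (hc20 : 0 < c2) :
    ∃ M bm e1 e2 cc ε : ℝ, 24 ≤ M ∧ 24 / ρ ≤ M ∧ lQ + 8 ≤ η * M ∧ 8 * (3 + c2) ≤ η * M ∧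
      bm = (2 + 2 * lQ) * M ∧ 0 < bm ∧ 0 < e1 ∧ e1 * (M ^ 2 * (1 + lQ)) ≤ 1 / 1000 ∧
      e1 * (M * (1 + bm)) ≤ 1 / 1000 ∧ e1 * M ≤ 1 / 1000 ∧ e1 ≤ ρ' / 1000 ∧ e1 ≤ η / 1000 ∧
      cc = 400 * k + 20 / ρ + (3 + c2) * c2 + 5 + c2 ∧ 1 ≤ cc ∧ 0 < ε ∧ ε ≤ 1 ∧ cc * ε = e1 ∧
      e2 = 1 / (4 * (lQ + 1) * M) ∧ 0 < e2 := by
  have h24 : 0 < 24 / ρ := by positivity
  have hl8 : 0 < (lQ + 8) / η := by positivity
  have h83 : 0 < 8 * (3 + c2) / η := by positivity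
  obtain ⟨M, hM⟩ : ∃ M : ℝ, M = 24 / ρ + (lQ + 8) / η + 8 * (3 + c2) / η := ⟨_, rfl⟩
  have hM1 : 24 / ρ ≤ M := by linarith
  have hM24 : 24 ≤ M := by
    refine le_trans ?_ hM1
    rw [le_div_iff₀ hρ0]; linarith
  have hM0 : 0 < M := by linarith
  have hM2 : lQ + 8 ≤ η * M := by
    have h3 : (lQ + 8) / η ≤ M := by linarith
    rw [div_le_iff₀ hη] at h3; linarith
  have hM3 : 8 * (3 + c2) ≤ η * M := by
    have h3 : 8 * (3 + c2) / η ≤ M := by linarith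
    rw [div_le_iff₀ hη] at h3; linarith
  clear hM
  obtain ⟨bm, hbm⟩ : ∃ bm : ℝ, bm = (2 + 2 * lQ) * M := ⟨_, rfl⟩
  have hbm0 : 0 < bm := by rw [hbm]; positivity
  obtain ⟨X, hX⟩ : ∃ X : ℝ, X = M ^ 2 * (1 + bm) * (1 + lQ) := ⟨_, rfl⟩
  have hMsq : 1 ≤ M := by linarith
  have hM2ge : 1 ≤ M ^ 2 := one_le_pow₀ hMsq
  have hbml : 1 ≤ 1 + bm := by linarith
  have hlQl : 1 ≤ 1 + lQ := by linarith
  have hXa : M ^ 2 * (1 + lQ) ≤ X := by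
    rw [hX]
    refine mul_le_mul_of_nonneg_right ?_ (by linarith)
    exact le_mul_of_one_le_right (by positivity) hbml
  have hXb : M * (1 + bm) ≤ X := by
    rw [hX]
    calc M * (1 + bm) = M * (1 + bm) * 1 := (mul_one _).symm
      _ ≤ M ^ 2 * (1 + bm) * (1 + lQ) := by
        refine mul_le_mul ?_ hlQl (by norm_num) (by positivity)
        refine mul_le_mul_of_nonneg_right ?_ (by linarith)
        rw [sq]; exact le_mul_of_one_le_left hM0.le hMsq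
  have hXc : M ≤ X := le_trans (le_mul_of_one_le_right hM0.le hbml) hXb
  have hXd : 1 ≤ X := hMsq.trans hXc
  clear hX
  obtain ⟨e1, he1⟩ : ∃ e1 : ℝ, e1 = ρ' * η / (1000 * X) := ⟨_, rfl⟩
  have he10 : 0 < e1 := by rw [he1]; positivity
  have hprodE : e1 * X = ρ' * η / 1000 := by
    rw [he1]; field_simp
  have hρη : ρ' * η ≤ 1 := mul_le_one₀ hρ'1 hη.le hη1
  have hEX : e1 * X ≤ 1 / 1000 := by linarith
  have hE0 : e1 ≤ ρ' * η / 1000 := by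
    rw [← hprodE]; exact le_mul_of_one_le_right he10.le hXd
  have hEρ : e1 ≤ ρ' / 1000 := by
    have : ρ' * η ≤ ρ' := mul_le_of_le_one_right hρ'0.le hη1
    linarith
  have hEη : e1 ≤ η / 1000 := by
    have : ρ' * η ≤ η := mul_le_of_le_one_left hη.le hρ'1
    linarith
  clear he1
  obtain ⟨cc, hcc⟩ : ∃ cc : ℝ, cc = 400 * k + 20 / ρ + (3 + c2) * c2 + 5 + c2 := ⟨_, rfl⟩
  have h20ρ : 0 < 20 / ρ := by positivity
  have h3c2 : 0 < (3 + c2) * c2 := by positivity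
  have hcc1 : 1 ≤ cc := by linarith
  have hcc0 : 0 < cc := by linarith
  refine ⟨M, bm, e1, 1 / (4 * (lQ + 1) * M), cc, e1 / cc, hM24, hM1, hM2, hM3, hbm, hbm0, he10,
    (mul_le_mul_of_nonneg_left hXa he10.le).trans hEX, (mul_le_mul_of_nonneg_left hXb he10.le).trans hEX,
    (mul_le_mul_of_nonneg_left hXc he10.le).trans hEX, hEρ, hEη, hcc, hcc1, by positivity, ?_, ?_,
    rfl, by positivity⟩
  · rw [div_le_one hcc0]
    have : e1 ≤ e1 * X := le_mul_of_one_le_right he10.le hXd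
    linarith
  · field_simp

lemma choose_L {ρ R : ℝ} (hρ0 : 0 < ρ) (hρ1 : ρ ≤ 1) (hR : 0 ≤ R) :
    ∃ L : ℕ, ρ * L ≤ R ∧ R - 1 ≤ ρ * L ∧ (L:ℝ) ≤ R / ρ ∧ ∀ x : ℕ, (x:ℝ) ≤ R → x ≤ L := by
  refine ⟨⌊R / ρ⌋₊, ?_, ?_, Nat.floor_le (by positivity), ?_⟩
  · have := Nat.floor_le (show 0 ≤ R / ρ by positivity)
    rw [le_div_iff₀ hρ0] at this
    linarith
  · have := Nat.lt_floor_add_one (R / ρ)
    rw [div_lt_iff₀ hρ0] at this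
    linarith
  · intro x hx
    apply Nat.le_floor
    rw [le_div_iff₀ hρ0]
    have : (0:ℝ) ≤ x := Nat.cast_nonneg _
    have : x * ρ ≤ x := mul_le_of_le_one_right this hρ1
    linarith

lemma choose_b {B : ℝ} (hB : 8 ≤ B) : ∃ b : ℕ, B - 5 ≤ b ∧ (b:ℝ) ≤ B - 4 ∧ 1 ≤ b := by
  have h1 : 8 ≤ ⌊B⌋₊ := Nat.le_floor (by exact_mod_cast hB)
  have h2 := Nat.floor_le (show 0 ≤ B by linarith)
  have h3 := Nat.lt_floor_add_one B
  refine ⟨⌊B⌋₊ - 4, ?_, ?_, by omega⟩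
  · rw [Nat.cast_sub (by omega)]; push_cast; linarith
  · rw [Nat.cast_sub (by omega)]; push_cast; linarith

lemma struct_S1 {z n δ L1 : ℕ} (hz : 2 ≤ z) (h : n + L1 ≤ 2 * n + δ) :
    ∀ r ∈ cop (Qz z) n L1, n < r ∧ r ≤ 2 * n + δ ∧ ∀ p, p.Prime → p ≤ z → ¬ p ∣ r := by
  intro r hr
  rw [mem_cop, coprime_Qz hz] at hr
  exact ⟨by omega, by omega, hr.2⟩

lemma struct_Bs {z n b Lb : ℕ} (hz : 2 ≤ z) (h : 2 ^ (2 * b + 1) * Lb ≤ n) :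
    ∀ s ∈ cop (Qz z) (n / 2 ^ b) Lb, n < 2 ^ b * s ∧ (2 ^ (b + 1) - 1) * s ≤ 2 * n ∧
      ∀ p, p.Prime → p ≤ z → ¬ p ∣ s := by
  intro s hs
  rw [mem_cop, coprime_Qz hz] at hs
  obtain ⟨⟨h1, h2⟩, h3⟩ := hs
  have hb : 0 < 2 ^ b := by positivity
  refine ⟨?_, ?_, h3⟩
  · have h4 : n < 2 ^ b * (n / 2 ^ b + 1) := Nat.lt_mul_div_succ _ hb
    exact lt_of_lt_of_le h4 (Nat.mul_le_mul_left _ h1)
  · have h5 : 2 ^ (b + 1) * Lb ≤ n / 2 ^ b := by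
      rw [Nat.le_div_iff_mul_le hb]
      calc 2 ^ (b + 1) * Lb * 2 ^ b = 2 ^ (2 * b + 1) * Lb := by ring
        _ ≤ n := h
    have h6 : 2 ^ (b + 1) * (n / 2 ^ b) ≤ 2 * n := by
      have := Nat.mul_div_le n (2 ^ b)
      calc 2 ^ (b + 1) * (n / 2 ^ b) = 2 * (2 ^ b * (n / 2 ^ b)) := by ring
        _ ≤ 2 * n := by omega
    obtain ⟨c, hc⟩ : ∃ c, 2 ^ (b + 1) = c + 1 := ⟨2 ^ (b + 1) - 1, by
      have : 0 < 2 ^ (b + 1) := by positivity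
      omega⟩
    rw [hc] at h5 h6 ⊢
    simp only [Nat.add_sub_cancel]
    calc c * s ≤ c * (n / 2 ^ b + Lb) := Nat.mul_le_mul_left _ h2
      _ = c * (n / 2 ^ b) + c * Lb := by ring
      _ ≤ c * (n / 2 ^ b) + n / 2 ^ b := by
        have : c * Lb ≤ (c + 1) * Lb := Nat.mul_le_mul_right _ (by omega)
        omega
      _ = (c + 1) * (n / 2 ^ b) := by ring
      _ ≤ 2 * n := h6

lemma struct_disj {z n b L1 Lb : ℕ} (hb : 1 ≤ b) (h : 2 ^ (2 * b + 1) * Lb ≤ n) :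
    Disjoint (cop (Qz z) n L1) (cop (Qz z) (n / 2 ^ b) Lb) := by
  rw [Finset.disjoint_left]
  intro r h1 h2
  rw [mem_cop] at h1 h2
  have h3 : n / 2 ^ b ≤ n / 2 := Nat.div_le_div_left (by
    calc 2 = 2 ^ 1 := by norm_num
      _ ≤ 2 ^ b := Nat.pow_le_pow_right (by norm_num) hb) (by norm_num)
  have h4 : 2 * Lb ≤ n := by
    refine le_trans (Nat.mul_le_mul_right _ ?_) h
    calc 2 = 2 ^ 1 := by norm_num
      _ ≤ 2 ^ (2 * b + 1) := Nat.pow_le_pow_right (by norm_num) (by omega)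
  omega

lemma struct_W {z n δ a1 : ℕ} (hz : 2 ≤ z) (h : 2 * n ≤ δ * 2 ^ a1) (hδ : 2 ≤ δ) :
    ∀ w ∈ W z n a1, n < w ∧ 8 * w ≤ 9 * n ∧ a1 ≤ w.factorization 2 ∧
      (∀ p, p.Prime → 3 ≤ p → p ≤ z → ¬ p ∣ w) ∧ ∀ p, p.Prime → p ∣ w → p ≤ δ := by
  intro w hw
  rw [mem_W] at hw
  obtain ⟨⟨⟨h1, h2⟩, h3⟩, h4⟩ := hw
  have hw0 : w ≠ 0 := by omega
  refine ⟨h1, by omega, ?_, coprime_Qo.mp h3, ?_⟩
  · exact (Nat.prime_two.pow_dvd_iff_le_factorization hw0).mp h4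
  · intro p hp hpw
    by_cases h2p : p = 2
    · omega
    have h5 : 2 ^ a1 * p ∣ w := Nat.Coprime.mul_dvd_of_dvd_of_dvd
      (Nat.Coprime.pow_left a1 ((Nat.coprime_primes Nat.prime_two hp).mpr (Ne.symm h2p))) h4 hpw
    have h6 : 2 ^ a1 * p ≤ 2 * n := (Nat.le_of_dvd (by omega) h5).trans (by omega)
    have h7 : 2 ^ a1 * p ≤ 2 ^ a1 * δ := by rw [mul_comm _ δ]; exact h6.trans h
    exact Nat.le_of_mul_le_mul_left h7 (by positivity)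

end Pool.Agent.Helper602.GL
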