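import Mathlib
import Pool.Agent.Helper602.GL4

open Filter Topology Finset

namespace Pool.Agent.Helper602.GL

open Fam Sel Cop Val Helper602.Core Asym

/-- the numeric part at a given `n`. -/
lemma partG_at {z n δ : ℕ} {η ρ ρ' k lQ c2 M bm e1 e2 cc ε s Q qo : ℝ} (hz : 8 ≤ z)
    (hη : 0 < η) (hη1 : η ≤ 1)
    (hρd : rho (Qz z) = ρ) (hρ'd : rho (Qo z) = ρ') (hlQ : ∑ q ∈ Od z, Real.logb 2 q = lQ)
    (hk : (K0 z : ℝ) = k) (hQ : (Qz z : ℝ) = Q) (hqo : (Qo z : ℝ) = qo) (hc2 : c2 = 5 * k + 2)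
    (hρ0 : 0 < ρ) (hρ1 : ρ ≤ 1) (hρ'0 : 0 < ρ') (hρ'1 : ρ' ≤ 1) (hlQ0 : 0 ≤ lQ) (hk0 : 5 ≤ k)
    (hQ0 : 0 < Q) (hqo0 : 0 < qo)
    (hM24 : 24 ≤ M) (hM1 : 24 / ρ ≤ M) (hM2 : lQ + 8 ≤ η * M) (hM3 : 8 * (3 + c2) ≤ η * M)
    (hbm : bm = (2 + 2 * lQ) * M) (hbm0 : 0 < bm) (he10 : 0 < e1)
    (hE1 : e1 * (M ^ 2 * (1 + lQ)) ≤ 1 / 1000) (hE2 : e1 * (M * (1 + bm)) ≤ 1 / 1000)
    (hE3 : e1 * M ≤ 1 / 1000) (hEρ : e1 ≤ ρ' / 1000) (hEη : e1 ≤ η / 1000)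
    (hcc : cc = 400 * k + 20 / ρ + (3 + c2) * c2 + 5 + c2) (hcc1 : 1 ≤ cc)
    (hε0 : 0 < ε) (hε1 : ε ≤ 1) (hccε : cc * ε = e1) (he2 : e2 = 1 / (4 * (lQ + 1) * M)) (he20 : 0 < e2)
    -- size facts
    (hs1 : 1 ≤ s) (hs2 : s ^ 2 = Real.log n) (hn0 : 0 < n)
    (hδ1 : η * n / s ^ 2 ≤ δ) (hδ2 : (δ:ℝ) ≤ n / s ^ 2)
    (f1 : ∑ p ∈ Est.Pr δ, ((Nat.log 2 ((2 * n + δ) / p) : ℝ) + 1) ≤ ε * (n / s ^ 3))
    (f2 : (δ * (1 + Real.log (3 * n / δ)) / Real.log δ) * (1 + Real.log (3 * n / δ)) ≤ ε * (n / s ^ 3))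
    (f3 : Real.sqrt n * (1 + Real.log (3 * n)) ≤ ε * (n / s ^ 3))
    (f4 : (n:ℝ) / s ^ 3 * (1 + Real.log s) ≤ ε * δ)
    (f5 : Real.sqrt n ≤ δ)
    (hsm2 : ∀ a : ℕ, s ^ 3 ≤ (2:ℝ) ^ a → (2:ℝ) ^ a ≤ 12 * Real.sqrt ((2 * n + δ : ℕ) : ℝ) →
      (1 < 2 ^ a / 12) ∧ ((2 * n + δ) / δ < 2 ^ a / 12) ∧
      (((∑ p ∈ Sel.Up (2 * n + δ) δ, Nat.log (2 ^ a / 12) ((2 * n + δ) / p) : ℕ) : ℝ) ≤ ε * (n / 2 ^ a)) ∧
      (Real.sqrt n * Nat.primeCounting (2 ^ a) ≤ ε * n) ∧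
      192 * (qo + 1) / ρ' ≤ n / 2 ^ a)
    (hlog : ∀ q : ℕ, q.Prime → q ^ 2 ≤ 2 * n + δ →
      Nat.log q (2 * n + δ) * q ≤ 2 * (Nat.sqrt (2 * n + δ) + 1))
    (g1 : 100 ≤ s) (g2 : 4 * (qo + 2) / η ≤ s) (g3 : (3:ℝ) ^ (3 + (5 * K0 z + 2)) ≤ s)
    (g4 : (2:ℝ) ^ (2 * ⌈bm⌉₊ + 1) / ρ ≤ s) (g5 : 768 * (qo + 1) / ρ' * s ^ 3 ≤ Real.sqrt n)
    (g6 : ((z:ℝ) + 1) ^ 2 ≤ Real.sqrt n) (g7 : (2 / η) * s ^ 2 ≤ Real.sqrt n)
    (g8 : Q * M * (1 + bm) ≤ Real.sqrt n) (g9 : 2 * M * bm * (Q + 1) ≤ Real.sqrt n)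
    (g10 : 4 * (1 + Q) / ρ ≤ Real.sqrt n) (g11 : 2 * (Q + 1) * M / e2 ≤ Real.sqrt n)
    (g12 : 4 * (Q + 1) * M ≤ Real.sqrt n) (g13 : 10 ≤ Real.sqrt n)
    (t : ℕ → ℕ) (ht : ∀ q ∈ Od z, (t q : ℝ) ≤ 2 * δ) (htt2 : (t 2 : ℝ) ≤ 2 * δ)
    (ht2 : η * δ ≤ t 2) (ht3 : η * δ ≤ t 3) :
    ∃ G : Finset ℕ, (∀ r ∈ G, n < r ∧ r ≤ 2 * n + δ ∧ ∀ p, p.Prime → p ∣ r → p ≤ δ) ∧
      (∀ q, q.Prime → q ≤ z → prof G q = t q) ∧
      (∀ p, p.Prime → z < p → p ≤ δ → prof G p = E n δ p) := by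
  classical
  have hnR : (0:ℝ) < n := by exact_mod_cast hn0
  have hs0 : 0 < s := by linarith only [hs1]
  have hlogs : 0 ≤ Real.log s := Real.log_nonneg hs1
  have hp3 : 0 < s ^ 3 := by positivity
  have hp2 : 0 < s ^ 2 := by positivity
  have hM0 : 0 < M := by linarith only [hM24]
  have hsqn : 0 < Real.sqrt n := Real.sqrt_pos.mpr hnR
  have hsqn2 : Real.sqrt n * Real.sqrt n = n := Real.mul_self_sqrt hnR.le
  have hδ0 : (0:ℝ) < δ := lt_of_lt_of_le hsqn f5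
  have hδ0' : 0 < δ := by exact_mod_cast hδ0
  have hδ10 : (10:ℝ) ≤ δ := g13.trans f5
  have hδ10' : 10 ≤ δ := by exact_mod_cast hδ10
  -- δ s² ≤ n, η n ≤ δ s²
  have hδs : (δ:ℝ) * s ^ 2 ≤ n := by rwa [le_div_iff₀ hp2] at hδ2
  have hδs' : η * n ≤ δ * s ^ 2 := by rwa [div_le_iff₀ hp2] at hδ1
  have hs_le_s2 : s ≤ s ^ 2 := by rw [sq]; exact le_mul_of_one_le_left hs0.le hs1
  have hδsn : (δ:ℝ) * s ≤ n := (mul_le_mul_of_nonneg_left hs_le_s2 hδ0.le).trans hδs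
  have hδn : (δ:ℝ) ≤ n := (le_mul_of_one_le_right hδ0.le hs1).trans hδsn
  obtain ⟨m, hm⟩ : ∃ m, m = 2 * n + δ := ⟨_, rfl⟩
  have hmR : (m:ℝ) = 2 * n + δ := by rw [hm]; push_cast; ring
  have hm3 : (m:ℝ) ≤ 3 * n := by linarith only [hmR, hδn]
  have hm0 : (0:ℝ) < m := by linarith only [hmR, hδn, hδ0, hnR]
  -- τ
  obtain ⟨τ, hτ⟩ : ∃ τ : ℝ, τ = n / s ^ 3 := ⟨_, rfl⟩
  rw [← hτ] at f1 f2 f3 f4
  have hτ0 : 0 < τ := by rw [hτ]; positivity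
  have hτδ : τ ≤ ε * δ := by
    refine le_trans ?_ f4
    exact le_mul_of_one_le_right hτ0.le (by linarith only [hlogs])
  have hεδ : ε * δ ≤ δ := mul_le_of_le_one_left hδ0.le hε1
  have hτδ' : τ ≤ δ := hτδ.trans hεδ
  obtain ⟨y, hy⟩ : ∃ y : ℝ, y = ε * τ := ⟨_, rfl⟩
  rw [← hy] at f1 f2 f3
  have hy0 : 0 < y := by rw [hy]; positivity
  have hccy : cc * y = e1 * τ := by rw [hy, ← mul_assoc, hccε]
  have hyδ : y ≤ ε * δ := by rw [hy]; exact mul_le_mul_of_nonneg_left hτδ' hε0.le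
  have hccy' : cc * y ≤ e1 * δ := by rw [hccy]; exact mul_le_mul_of_nonneg_left hτδ' he10.le
  have hccδ : cc * (ε * δ) = e1 * δ := by rw [← mul_assoc, hccε]
  -- a1
  obtain ⟨a1, ha1⟩ : ∃ a1, a1 = a1f s := ⟨_, rfl⟩
  obtain ⟨A1, A2, A3⟩ := a1_facts hs1
  rw [← ha1] at A1 A2 A3
  have h2a0 : (0:ℝ) < 2 ^ a1 := by positivity
  obtain ⟨Λ, hΛ⟩ : ∃ Λ : ℝ, Λ = ((n / 8 : ℕ) : ℝ) := ⟨_, rfl⟩
  have hΛ1 : Λ ≤ n / 8 := by rw [hΛ]; exact_mod_cast @Nat.cast_div_le ℝ _ _ _ n 8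
  have hn100 : (100:ℝ) ≤ n := by
    rw [← hsqn2]
    calc (100:ℝ) = 10 * 10 := by norm_num
      _ ≤ Real.sqrt n * Real.sqrt n := mul_le_mul g13 g13 (by norm_num) hsqn.le
  have hΛ2 : (n:ℝ) / 16 ≤ Λ := by
    have h1 : n < 8 * (n / 8 + 1) := Nat.lt_mul_div_succ _ (by norm_num)
    have h2 : (n:ℝ) ≤ 8 * (Λ + 1) := by rw [hΛ]; exact_mod_cast h1.le
    linarith only [h2, hn100]
  have hΛ0 : 0 ≤ Λ := by rw [hΛ]; exact Nat.cast_nonneg _
  have hW1 : Λ / 2 ^ a1 ≤ τ / 8 := by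
    rw [hτ]
    calc Λ / 2 ^ a1 ≤ (n / 8) / s ^ 3 := div_le_div₀ (by positivity) hΛ1 hp3 A1
      _ = n / s ^ 3 / 8 := by ring
  have hW2 : τ / 64 ≤ Λ / 2 ^ a1 := by
    rw [hτ]
    calc (n:ℝ) / s ^ 3 / 64 = (n / 16) / (4 * s ^ 3) := by field_simp; ring
      _ ≤ Λ / 2 ^ a1 := div_le_div₀ hΛ0 hΛ2 h2a0 A2
  -- κ
  obtain ⟨κ, hκ⟩ : ∃ κ, κ = 2 * K0 z * (Nat.sqrt (2 * n + δ) + 1) := ⟨_, rfl⟩
  have hκR : (κ:ℝ) ≤ 6 * k * Real.sqrt n := by
    have h1 : ((Nat.sqrt (2 * n + δ) : ℕ) : ℝ) ≤ Real.sqrt m := by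
      rw [← hm]; exact Real.nat_sqrt_le_real_sqrt
    have h2 : Real.sqrt m ≤ 2 * Real.sqrt n := by
      rw [Real.sqrt_le_left (by positivity), mul_pow, sq (Real.sqrt n), hsqn2]
      linarith only [hm3, hnR]
    have h3 : (κ:ℝ) = 2 * k * (((Nat.sqrt (2 * n + δ) : ℕ) : ℝ) + 1) := by
      rw [hκ]; push_cast; rw [hk]
    rw [h3]
    calc 2 * k * (((Nat.sqrt (2 * n + δ) : ℕ) : ℝ) + 1) ≤ 2 * k * (3 * Real.sqrt n) := by
          refine mul_le_mul_of_nonneg_left ?_ (by linarith only [hk0])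
          linarith only [h1, h2, g13]
      _ = 6 * k * Real.sqrt n := by ring
  have hl3n : 0 ≤ Real.log (3 * n) := Real.log_nonneg (by linarith only [hn100])
  have hsqy : Real.sqrt n ≤ y := by
    refine le_trans ?_ f3
    exact le_mul_of_one_le_right hsqn.le (by linarith only [hl3n])
  have hκy : (κ:ℝ) ≤ 6 * k * y := hκR.trans (mul_le_mul_of_nonneg_left hsqy (by linarith only [hk0]))
  have hκδ : (κ:ℝ) ≤ δ / 100 := by
    have h1 : 6 * k * y ≤ cc * y := by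
      refine mul_le_mul_of_nonneg_right ?_ hy0.le
      have : 0 < 20 / ρ := by positivity
      have : 0 < c2 := by linarith only [hc2, hk0]
      have : 0 < (3 + c2) * c2 := by positivity
      linarith only [hcc, hk0, this, ‹0 < 20 / ρ›, ‹0 < c2›]
    have h2 : e1 * δ ≤ (1 / 1000) * δ := by
      refine mul_le_mul_of_nonneg_right ?_ hδ0.le
      linarith only [hEη, hη1]
    linarith only [hκy, h1, hccy', h2, hδ0]
  -- N0, Θ, b
  obtain ⟨N0, hN0⟩ : ∃ N0 : ℝ, N0 = δ / M := ⟨_, rfl⟩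
  have hN0p : 0 < N0 := by rw [hN0]; positivity
  have hN0M : N0 * M = δ := by rw [hN0]; field_simp
  have hN0δ : N0 ≤ δ / 24 := by
    rw [hN0]; exact div_le_div_of_nonneg_left hδ0.le (by norm_num) hM24
  obtain ⟨Θ, hΘ⟩ : ∃ Θ : ℝ, Θ = ∑ q ∈ Od z, (t q : ℝ) * Real.logb 2 q := ⟨_, rfl⟩
  have hlogb : ∀ q ∈ Od z, 0 ≤ Real.logb 2 q := fun q hq =>
    Real.logb_nonneg (by norm_num) (by exact_mod_cast (mem_Od.mp hq).1.one_lt.le)
  have hΘ0 : 0 ≤ Θ := by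
    rw [hΘ]; exact sum_nonneg fun q hq => mul_nonneg (Nat.cast_nonneg _) (hlogb q hq)
  have hΘle : Θ ≤ 2 * δ * lQ := by
    rw [hΘ, ← hlQ, mul_sum]
    exact sum_le_sum fun q hq => mul_le_mul_of_nonneg_right (ht q hq) (hlogb q hq)
  obtain ⟨B, hB⟩ : ∃ B : ℝ, B = (t 2 + Θ) / N0 := ⟨_, rfl⟩
  have hBN : B * N0 = t 2 + Θ := by rw [hB]; field_simp
  have hBlo : lQ + 8 + Θ / N0 ≤ B := by
    rw [hB, add_div]
    have h1 : lQ + 8 ≤ (t 2 : ℝ) / N0 := by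
      rw [le_div_iff₀ hN0p]
      calc (lQ + 8) * N0 ≤ (η * M) * N0 := mul_le_mul_of_nonneg_right hM2 hN0p.le
        _ = η * (N0 * M) := by ring
        _ = η * δ := by rw [hN0M]
        _ ≤ t 2 := ht2
    linarith only [h1]
  have hΘN0 : 0 ≤ Θ / N0 := by positivity
  have hBhi : B ≤ bm := by
    rw [hB, div_le_iff₀ hN0p, hbm]
    calc (t 2 : ℝ) + Θ ≤ 2 * δ + 2 * δ * lQ := add_le_add htt2 hΘle
      _ = (2 + 2 * lQ) * δ := by ring
      _ = (2 + 2 * lQ) * M * N0 := by rw [mul_assoc, mul_comm M N0, hN0M]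
  obtain ⟨b, hb1, hb2, hb3⟩ := choose_b (B := B) (by linarith only [hBlo, hlQ0, hΘN0])
  have hbbm : (b:ℝ) ≤ bm := by linarith only [hb2, hBhi]
  have hb0 : (0:ℝ) ≤ b := Nat.cast_nonneg _
  have hbM : b ≤ ⌈bm⌉₊ := by
    have : (b:ℝ) ≤ ⌈bm⌉₊ := hbbm.trans (Nat.le_ceil _)
    exact_mod_cast this
  -- Lb
  obtain ⟨Lb, hLb1, hLb2, hLb3, -⟩ := choose_L hρ0 hρ1 hN0p.le
  have hLb4 : (Lb:ℝ) ≤ δ / ρ := by
    refine hLb3.trans (div_le_div_of_nonneg_right ?_ hρ0.le)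
    linarith only [hN0δ, hδ0]
  -- L1
  obtain ⟨μw, hμw⟩ : ∃ μw : ℝ, μw = ρ' * Λ / 2 ^ a1 := ⟨_, rfl⟩
  have hμw0 : 0 ≤ μw := by rw [hμw]; positivity
  have hμwΛ : μw ≤ Λ / 2 ^ a1 := by
    rw [hμw]
    exact div_le_div_of_nonneg_right (mul_le_of_le_one_left hΛ0 hρ'1) h2a0.le
  have hμwδ : μw ≤ δ / 8 := by linarith only [hμwΛ, hW1, hτδ']
  obtain ⟨R, hR⟩ : ∃ R : ℝ, R = δ - κ - ρ * Lb - μw := ⟨_, rfl⟩
  have hRlo : (δ:ℝ) / 2 ≤ R := by
    rw [hR]; linarith only [hκδ, hLb1, hN0δ, hμwδ, hδ0]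
  have hRhi : R ≤ δ := by
    rw [hR]
    have h1 : (0:ℝ) ≤ κ := Nat.cast_nonneg _
    have h2 : 0 ≤ ρ * Lb := mul_nonneg hρ0.le (Nat.cast_nonneg _)
    linarith only [h1, h2, hμw0]
  obtain ⟨L1, hL11, hL12, hL13, hL14⟩ := choose_L hρ0 hρ1 (show 0 ≤ R by linarith only [hRlo, hδ0])
  have hL15 : (L1:ℝ) ≤ δ / ρ := hL13.trans (div_le_div_of_nonneg_right hRhi hρ0.le)
  have hL16 : δ / 2 ≤ L1 := by
    apply hL14
    have : ((δ / 2 : ℕ) : ℝ) ≤ (δ:ℝ) / 2 := by exact_mod_cast @Nat.cast_div_le ℝ _ _ _ δ 2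
    linarith only [this, hRlo]
  have hmass : mass z n a1 L1 Lb = ρ * L1 + ρ * Lb + μw := by
    rw [mass, hρd, hρ'd, hμw, hΛ]
  have hm1 : (κ:ℝ) ≤ δ - mass z n a1 L1 Lb := by rw [hmass]; linarith only [hR, hL11]
  have hm2 : δ - mass z n a1 L1 Lb ≤ (κ:ℝ) + 1 := by rw [hmass]; linarith only [hR, hL12]
  -- window sizes
  have hδρ : (δ:ℝ) / ρ * 2 ^ (2 * b + 1) ≤ n := by
    have h1 : (2:ℝ) ^ (2 * b + 1) ≤ 2 ^ (2 * ⌈bm⌉₊ + 1) := pow_le_pow_right₀ (by norm_num) (by omega)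
    calc (δ:ℝ) / ρ * 2 ^ (2 * b + 1) ≤ δ / ρ * 2 ^ (2 * ⌈bm⌉₊ + 1) := by
          refine mul_le_mul_of_nonneg_left h1 (by positivity)
      _ = δ * (2 ^ (2 * ⌈bm⌉₊ + 1) / ρ) := by ring
      _ ≤ δ * s := mul_le_mul_of_nonneg_left g4 hδ0.le
      _ ≤ n := hδsn
  have hwinb : 2 ^ (2 * b + 1) * Lb ≤ n := by
    have h1 : (2:ℝ) ^ (2 * b + 1) * Lb ≤ n := by
      calc (2:ℝ) ^ (2 * b + 1) * Lb ≤ 2 ^ (2 * b + 1) * (δ / ρ) := by
            refine mul_le_mul_of_nonneg_left hLb4 (by positivity)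
        _ = δ / ρ * 2 ^ (2 * b + 1) := by ring
        _ ≤ n := hδρ
    exact_mod_cast h1
  have hδρn : (δ:ℝ) / ρ ≤ n / 2 := by
    have h1 : (2:ℝ) ≤ 2 ^ (2 * b + 1) := by
      calc (2:ℝ) = 2 ^ 1 := by norm_num
        _ ≤ 2 ^ (2 * b + 1) := pow_le_pow_right₀ (by norm_num) (by omega)
    have h2 : (δ:ℝ) / ρ * 2 ≤ δ / ρ * 2 ^ (2 * b + 1) := mul_le_mul_of_nonneg_left h1 (by positivity)
    linarith only [h2, hδρ]
  have hL1n : n + L1 ≤ 2 * n + δ := by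
    have : (L1:ℝ) ≤ n := by linarith only [hL15, hδρn, hnR]
    have : L1 ≤ n := by exact_mod_cast this
    omega
  have hLbn : n / 2 ^ b + Lb ≤ 2 * n + δ := by
    have h1 : (Lb:ℝ) ≤ n := by linarith only [hLb4, hδρn, hnR]
    have h2 : Lb ≤ n := by exact_mod_cast h1
    have h3 : n / 2 ^ b ≤ n := Nat.div_le_self _ _
    omega
  have hδsq : 2 * n + δ < δ ^ 2 := by
    have h1 : 2 * Real.sqrt n ≤ δ := by
      have h2 : (2 / η) * s ^ 2 * (η * Real.sqrt n) ≤ Real.sqrt n * (η * Real.sqrt n) :=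
        mul_le_mul_of_nonneg_right g7 (by positivity)
      have h3 : (2 / η) * s ^ 2 * (η * Real.sqrt n) = (2 * Real.sqrt n) * s ^ 2 := by field_simp
      have h4 : Real.sqrt n * (η * Real.sqrt n) = η * n := by
        calc Real.sqrt n * (η * Real.sqrt n) = η * (Real.sqrt n * Real.sqrt n) := by ring
          _ = η * n := by rw [hsqn2]
      rw [h3, h4] at h2
      exact le_of_mul_le_mul_right (h2.trans hδs') hp2
    have h2 : (2:ℝ) * n + δ < δ * δ := by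
      have h3 : 2 * Real.sqrt n * (2 * Real.sqrt n) ≤ δ * δ := mul_le_mul h1 h1 (by positivity) hδ0.le
      have h4 : 2 * Real.sqrt n * (2 * Real.sqrt n) = 4 * n := by
        calc 2 * Real.sqrt n * (2 * Real.sqrt n) = 4 * (Real.sqrt n * Real.sqrt n) := by ring
          _ = 4 * n := by rw [hsqn2]
      have h5 : 10 * (δ:ℝ) ≤ δ * δ := mul_le_mul_of_nonneg_right hδ10 hδ0.le
      linarith only [h3, h4, h5, hδ0]
    rw [sq]
    exact_mod_cast h2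
  have hzm : (z + 1) ^ 2 ≤ 2 * n + δ := by
    have h1 : ((z:ℝ) + 1) ^ 2 ≤ n := by
      calc ((z:ℝ) + 1) ^ 2 ≤ Real.sqrt n := g6
        _ ≤ Real.sqrt n * Real.sqrt n := le_mul_of_one_le_right hsqn.le (by linarith only [g13])
        _ = n := hsqn2
    have h2 : (z + 1) ^ 2 ≤ n := by exact_mod_cast h1
    omega
  -- deficits
  obtain ⟨hnum1, hnum2⟩ := num1 (z := z) (n := n) (δ := δ) (x := n / 2 ^ b) (a1 := a1) (L1 := L1)
    (Lb := Lb) (κ := κ) (by omega) hδsq hL1n hLbn hκ hm1 hm2 hlog hzm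
  obtain ⟨V, hV⟩ : ∃ V : ℕ → ℕ, V = fun p => prof (cop (Qz z) n L1) p
    + prof (cop (Qz z) (n / 2 ^ b) Lb) p + prof (W z n a1) p := ⟨_, rfl⟩
  have hnum1' : ∀ q ∈ Md (2 * n + δ) z, ((E n δ q - V q : ℕ) : ℝ) ≤ 5 * κ / q := fun q hq => by
    rw [hV]; exact (hnum1 q hq).2
  obtain ⟨Smd, hSmd⟩ : ∃ Smd : ℕ, Smd = ∑ q ∈ Md (2 * n + δ) z, (E n δ q - V q) := ⟨_, rfl⟩
  obtain ⟨SU, hSU⟩ : ∃ SU : ℕ, SU = ∑ p ∈ Up (2 * n + δ) δ, Nat.log 2 ((2 * n + δ) / p) := ⟨_, rfl⟩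
  obtain ⟨cU, hcU⟩ : ∃ cU : ℕ, cU = (Up (2 * n + δ) δ).card := ⟨_, rfl⟩
  have hκ0 : (0:ℝ) ≤ κ := Nat.cast_nonneg _
  have hSmdR : (Smd : ℝ) ≤ 30 * k * y := by
    have h1 : (Smd : ℝ) ≤ ∑ q ∈ Md (2 * n + δ) z, 5 * (κ:ℝ) / q := by
      rw [hSmd]; push_cast
      exact sum_le_sum hnum1'
    have h2 := Md_sum (z := z) (n := n) (δ := δ) (κ := 5 * κ) (by positivity) hn0 (by omega)
    have h3 : Real.log (2 * n + δ) ≤ Real.log (3 * n) := by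
      apply Real.log_le_log (by positivity)
      linarith only [hδn]
    have h4 : (5 * (κ:ℝ)) * (1 + Real.log (2 * n + δ)) ≤ (30 * k * Real.sqrt n) * (1 + Real.log (3 * n)) := by
      have h5 : 5 * (κ:ℝ) ≤ 30 * k * Real.sqrt n := by linarith only [hκR]
      have h6 : 0 ≤ 1 + Real.log (2 * n + (δ:ℝ)) := by
        have : 0 ≤ Real.log (2 * n + (δ:ℝ)) := Real.log_nonneg (by linarith only [hn100, hδ0])
        linarith only [this]
      have h7 : 0 ≤ 30 * k * Real.sqrt n := by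
        have : 0 ≤ k := by linarith only [hk0]
        positivity
      exact mul_le_mul h5 (by linarith only [h3]) h6 h7
    have h5 : (30 * k * Real.sqrt n) * (1 + Real.log (3 * n)) = 30 * k * (Real.sqrt n * (1 + Real.log (3 * n))) := by ring
    have h6 : 30 * k * (Real.sqrt n * (1 + Real.log (3 * n))) ≤ 30 * k * y :=
      mul_le_mul_of_nonneg_left f3 (by linarith only [hk0])
    linarith only [h1, h2, h4, h5, h6]
  have hUpPr : Up (2 * n + δ) δ ⊆ Est.Pr δ := by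
    intro p hp
    obtain ⟨h1, h2, h3⟩ := mem_Up.mp hp
    exact Est.mem_Pr.mpr ⟨h1, h3⟩
  have hSUcU : (SU : ℝ) + cU ≤ y := by
    refine le_trans ?_ f1
    rw [hSU, hcU]; push_cast
    rw [← nsmul_one, ← sum_const, ← sum_add_distrib]
    exact sum_le_sum_of_subset_of_nonneg hUpPr (fun p _ _ => by positivity)
  have hSU0 : (0:ℝ) ≤ SU := Nat.cast_nonneg _
  have hcU0 : (0:ℝ) ≤ cU := Nat.cast_nonneg _
  have hSUR : (SU : ℝ) ≤ y := by linarith only [hSUcU, hcU0]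
  have hcUR : (cU : ℝ) ≤ y := by linarith only [hSUcU, hSU0]
  -- β
  obtain ⟨F, hF⟩ : ∃ F : ℝ, F = δ * (1 + Real.log (3 * n / δ)) / Real.log δ := ⟨_, rfl⟩
  have hlogδ : 0 < Real.log δ := Real.log_pos (by linarith only [hδ10])
  have hl3 : 0 ≤ Real.log (3 * n / δ) := Real.log_nonneg (by
    rw [le_div_iff₀ hδ0]; linarith only [hδn, hnR])
  have hF0 : 0 ≤ F := by rw [hF]; positivity
  rw [← hF] at f2
  have hFy : F ≤ y := by
    refine le_trans ?_ f2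
    exact le_mul_of_one_le_right hF0 (by linarith only [hl3])
  obtain ⟨β, hβ⟩ : ∃ β : ℕ, β = ⌊(4 / ρ) * F⌋₊ := ⟨_, rfl⟩
  have hβF : (β:ℝ) ≤ (4 / ρ) * F := by rw [hβ]; exact Nat.floor_le (by positivity)
  have h4ρ : 0 < 4 / ρ := by positivity
  have hβR : (β:ℝ) ≤ (4 / ρ) * y := hβF.trans (mul_le_mul_of_nonneg_left hFy h4ρ.le)
  obtain ⟨lδ, hlδ⟩ : ∃ lδ : ℕ, lδ = Nat.log 2 ((2 * n + δ) / δ) := ⟨_, rfl⟩
  have hlδR : (lδ:ℝ) ≤ 2 * (1 + Real.log (3 * n / δ)) := by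
    have h1 : 1 ≤ (2 * n + δ) / δ := (Nat.one_le_div_iff hδ0').mpr (by omega)
    have h2 : 2 ^ lδ ≤ (2 * n + δ) / δ := by rw [hlδ]; exact Nat.pow_log_le_self 2 (by omega)
    have h3 : (2:ℝ) ^ lδ ≤ 3 * n / δ := by
      calc (2:ℝ) ^ lδ ≤ (((2 * n + δ) / δ : ℕ) : ℝ) := by exact_mod_cast h2
        _ ≤ ((2 * n + δ : ℕ) : ℝ) / δ := Nat.cast_div_le
        _ ≤ 3 * n / δ := by
          refine div_le_div_of_nonneg_right ?_ hδ0.le
          rw [← hm]; exact hm3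
    have h4 := Real.log_le_log (by positivity) h3
    rw [Real.log_pow] at h4
    have hl2 : (1:ℝ) / 2 ≤ Real.log 2 := by
      have := Real.log_two_gt_d9; linarith only [this]
    have h5 : (lδ:ℝ) * (1 / 2) ≤ lδ * Real.log 2 := mul_le_mul_of_nonneg_left hl2 (Nat.cast_nonneg _)
    linarith only [h4, h5]
  have hβlδ : (β:ℝ) * lδ ≤ (8 / ρ) * y := by
    calc (β:ℝ) * lδ ≤ ((4 / ρ) * F) * (2 * (1 + Real.log (3 * n / δ))) :=
          mul_le_mul hβF hlδR (Nat.cast_nonneg _) (by positivity)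
      _ = (8 / ρ) * (F * (1 + Real.log (3 * n / δ))) := by ring
      _ ≤ (8 / ρ) * y := mul_le_mul_of_nonneg_left f2 (by positivity)
  have h8ρ : 8 / ρ = 2 * (4 / ρ) := by ring
  have h20ρ : 20 / ρ = 5 * (4 / ρ) := by ring
  rw [h8ρ] at hβlδ
  rw [h20ρ] at hcc
  obtain ⟨rr, hrr⟩ : ∃ rr : ℝ, rr = 4 / ρ := ⟨_, rfl⟩
  rw [← hrr] at hβlδ hcc hβR h4ρ
  have hβbad : ((cop (Qz z) n L1 ∪ cop (Qz z) (n / 2 ^ b) Lb).filter
      (fun r => ∃ p, p.Prime ∧ δ < p ∧ p ∣ r)).card ≤ β := by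
    rw [hβ]
    apply Nat.le_floor
    rw [hF]
    exact bad_union hρ0 hρ1 (by omega) hL15 hLb4 (Nat.div_le_self _ _)
      (by linarith only [hδρn, hδn, hnR])
  have hk00 : 0 ≤ k := by linarith only [hk0]
  have hc20 : 0 < c2 := by linarith only [hc2, hk0]
  have hky : 0 ≤ k * y := mul_nonneg hk00 hy0.le
  have hrry : 0 ≤ rr * y := mul_nonneg h4ρ.le hy0.le
  have hc2y : 0 ≤ c2 * y := mul_nonneg hc20.le hy0.le
  have h3c2y : 0 ≤ (3 + c2) * c2 * y := by positivity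
  have hccexp : cc * y = 400 * (k * y) + 5 * (rr * y) + (3 + c2) * c2 * y + 5 * y + c2 * y := by
    rw [hcc]; ring
  have hkSU : k * SU ≤ k * y := mul_le_mul_of_nonneg_left hSUR hk00
  -- class I
  have hI : ((Smd + β * lδ + K0 z * SU : ℕ) : ℝ) ≤ cc * y := by
    push_cast
    rw [hk]
    linarith only [hSmdR, hβlδ, hkSU, hccexp, hky, hrry, hc2y, h3c2y, hy0]
  -- U3
  obtain ⟨U3, hU3⟩ : ∃ U3 : ℕ, U3 = 2 * (Smd + β * lδ + K0 z * SU)
    + (3 + (5 * K0 z + 2)) * ((5 * K0 z + 2) * cU) := ⟨_, rfl⟩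
  have hU3R : (U3 : ℝ) ≤ e1 * δ := by
    refine le_trans ?_ hccy'
    rw [hU3]; push_cast
    rw [hk, ← hc2]
    have h1 : (3 + c2) * (c2 * cU) ≤ (3 + c2) * c2 * y := by
      have : (3 + c2) * c2 * cU ≤ (3 + c2) * c2 * y := mul_le_mul_of_nonneg_left hcUR (by positivity)
      linarith only [this]
    linarith only [hSmdR, hβlδ, hkSU, hccexp, hky, hrry, hc2y, h3c2y, hy0, h1]
  -- U2
  obtain ⟨SU', hSU'⟩ : ∃ SU' : ℕ, SU' = ∑ p ∈ Up (2 * n + δ) δ, Nat.log 2 (2 * n / p) := ⟨_, rfl⟩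
  have hSU'R : (SU' : ℝ) ≤ y := by
    refine le_trans ?_ hSUR
    have : SU' ≤ SU := by
      rw [hSU', hSU]
      exact sum_le_sum fun p _ => Nat.log_mono_right (Nat.div_le_div_right (by omega))
    exact_mod_cast this
  obtain ⟨U2, hU2⟩ : ∃ U2 : ℕ, U2 = prof (W z n a1) 2 + (5 * K0 z + 2) * SU' := ⟨_, rfl⟩
  have hU2R : (U2 : ℝ) ≤ e1 * δ := by
    have h1 := W_two (z := z) (n := n) (a1 := a1) (δ := δ)
    rw [← hΛ] at h1
    have h2 : ((a1:ℝ) + 1) * (Λ / 2 ^ a1) ≤ (5 / 8) * (ε * δ) := by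
      calc ((a1:ℝ) + 1) * (Λ / 2 ^ a1) ≤ (5 * (1 + Real.log s)) * (τ / 8) :=
            mul_le_mul A3 hW1 (by positivity) (by positivity)
        _ = (5 / 8) * (τ * (1 + Real.log s)) := by ring
        _ ≤ (5 / 8) * (ε * δ) := by
          refine mul_le_mul_of_nonneg_left f4 (by norm_num)
    have h3 : (Nat.log 2 (2 * n + δ) : ℝ) ≤ 2 * y := by
      have h4 : 2 ^ Nat.log 2 (2 * n + δ) ≤ 2 * n + δ := Nat.pow_log_le_self 2 (by omega)
      have h5 : (2:ℝ) ^ Nat.log 2 (2 * n + δ) ≤ 3 * n := by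
        calc (2:ℝ) ^ Nat.log 2 (2 * n + δ) ≤ ((2 * n + δ : ℕ) : ℝ) := by exact_mod_cast h4
          _ ≤ 3 * n := by rw [← hm]; exact hm3
      have h6 := Real.log_le_log (by positivity) h5
      rw [Real.log_pow] at h6
      have hl2 : (1:ℝ) / 2 ≤ Real.log 2 := by
        have := Real.log_two_gt_d9; linarith only [this]
      have h7 : (Nat.log 2 (2 * n + δ) : ℝ) * (1 / 2) ≤ Nat.log 2 (2 * n + δ) * Real.log 2 :=
        mul_le_mul_of_nonneg_left hl2 (Nat.cast_nonneg _)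
      have h8 : Real.log (3 * n) ≤ y := by
        refine le_trans ?_ f3
        have h9 : 1 + Real.log (3 * n) ≤ Real.sqrt n * (1 + Real.log (3 * n)) :=
          le_mul_of_one_le_left (by linarith only [hl3n]) (by linarith only [g13])
        linarith only [h9]
      linarith only [h6, h7, h8]
    have h4 : (U2 : ℝ) ≤ (5 / 8) * (ε * δ) + 4 * y + c2 * y := by
      rw [hU2]; push_cast
      rw [hk, ← hc2]
      have h5 : c2 * SU' ≤ c2 * y := mul_le_mul_of_nonneg_left hSU'R hc20.le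
      linarith only [h1, h2, h3, h5]
    have h5 : c2 * y ≤ c2 * (ε * δ) := mul_le_mul_of_nonneg_left hyδ hc20.le
    have h6 : (5 + c2) * (ε * δ) ≤ cc * (ε * δ) := by
      refine mul_le_mul_of_nonneg_right ?_ (by positivity)
      have : 0 < (3 + c2) * c2 := by positivity
      linarith only [hcc, hk0, this, h4ρ]
    rw [hccδ] at h6
    have h7 : 0 ≤ ε * δ := by positivity
    linarith only [h4, h5, h6, hyδ, h7]
  -- removed elements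
  obtain ⟨xX, hxX⟩ : ∃ xX : ℕ, xX = β + K0 z * cU := ⟨_, rfl⟩
  have hxXR : (xX : ℝ) ≤ e1 * δ := by
    refine le_trans ?_ hccy'
    rw [hxX]; push_cast
    rw [hk]
    have h1 : k * cU ≤ k * y := mul_le_mul_of_nonneg_left hcUR hk00
    linarith only [hβR, h1, hccexp, hky, hrry, hc2y, h3c2y, hy0]
  have hxX0 : (0:ℝ) ≤ xX := Nat.cast_nonneg _
  -- e1 δ in terms of N0
  have hδN : (δ:ℝ) = N0 * M := hN0M.symm
  have he1N : e1 * δ = (e1 * M) * N0 := by rw [hδN]; ring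
  have he1N' : e1 * δ ≤ N0 / 1000 := by
    rw [he1N]
    have := mul_le_mul_of_nonneg_right hE3 hN0p.le
    linarith only [this]
  have hfromδ : ∀ x : ℝ, x * M ≤ Real.sqrt n → x ≤ N0 := by
    intro x hx
    have : x * M ≤ N0 * M := by rw [hN0M]; exact hx.trans f5
    exact le_of_mul_le_mul_right this hM0
  have hQN : 4 * (Q + 1) ≤ N0 := hfromδ _ g12
  -- card Bs
  obtain ⟨NB, hNB⟩ : ∃ NB : ℕ, NB = (cop (Qz z) (n / 2 ^ b) Lb).card := ⟨_, rfl⟩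
  have hNB1 : N0 - 1 - Q ≤ NB ∧ (NB:ℝ) ≤ N0 + Q := by
    have h1 := cop_card (Qz_pos z) (n / 2 ^ b) Lb
    rw [← hNB, hρd, hQ, abs_le] at h1
    constructor
    · linarith only [h1.1, hLb2]
    · linarith only [h1.2, hLb1]
  obtain ⟨hNBlo, hNBhi⟩ := hNB1
  have hXlt : xX < NB := by
    have : (xX : ℝ) < NB := by linarith only [hxXR, he1N', hNBlo, hQN, hN0p]
    exact_mod_cast this
  -- product condition
  have hprod : ∏ q ∈ Od z, q ^ (t q / (NB - xX) + 1) < 2 ^ (b + 1) := by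
    apply prod_lt (by omega)
    rw [← hΘ, hlQ]
    have hD : ((NB - xX : ℕ) : ℝ) = NB - xX := Nat.cast_sub hXlt.le
    rw [hD]
    have h1 : e1 * M ≤ e2 / 2 := by
      rw [he2, div_div, le_div_iff₀ (by positivity)]
      have : e1 * M * (4 * (lQ + 1) * M * 2) = 8 * (e1 * (M ^ 2 * (1 + lQ))) := by ring
      rw [this]; linarith only [hE1]
    have h2 : Q + 1 ≤ e2 / 2 * N0 := by
      have h3 : 2 * (Q + 1) / e2 ≤ N0 := by
        apply hfromδ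
        calc 2 * (Q + 1) / e2 * M = 2 * (Q + 1) * M / e2 := by ring
          _ ≤ _ := g11
      rw [div_le_iff₀ he20] at h3
      linarith only [h3]
    have h3 : e1 * δ ≤ e2 / 2 * N0 := by rw [he1N]; exact mul_le_mul_of_nonneg_right h1 hN0p.le
    have h4 : N0 - (NB - xX) ≤ e2 * N0 := by linarith only [hNBlo, hxXR, h2, h3]
    have h5 : N0 / 2 ≤ (NB:ℝ) - xX := by linarith only [hNBlo, hxXR, he1N', hQN, hN0p]
    have hD0 : 0 < (NB:ℝ) - xX := by linarith only [h5, hN0p]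
    have h6 : Θ / (NB - xX) ≤ Θ / N0 + 1 := by
      rw [div_add_one hN0p.ne', div_le_div_iff₀ hD0 hN0p]
      have h7 : Θ * (N0 - (NB - xX)) ≤ N0 * (NB - xX) := by
        calc Θ * (N0 - (NB - xX)) ≤ Θ * (e2 * N0) := mul_le_mul_of_nonneg_left h4 hΘ0
          _ ≤ (2 * δ * lQ) * (e2 * N0) := mul_le_mul_of_nonneg_right hΘle (by positivity)
          _ = (lQ / (lQ + 1)) * (N0 / 2 * N0) := by rw [hδN, he2]; field_simp; ring
          _ ≤ 1 * (N0 / 2 * N0) := by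
            refine mul_le_mul_of_nonneg_right ?_ (by positivity)
            rw [div_le_one (by linarith only [hlQ0])]
            exact le_add_of_nonneg_right zero_le_one
          _ ≤ N0 * (NB - xX) := by
            rw [one_mul, mul_comm N0]
            exact mul_le_mul_of_nonneg_right h5 hN0p.le
      linarith only [h7]
    linarith only [h6, hBlo, hb1]
  -- t 3
  have ht3' : (3 + (5 * K0 z + 2)) * NB + U3 ≤ t 3 := by
    have h1 : (3 + c2) * NB ≤ η * δ / 4 := by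
      calc (3 + c2) * NB ≤ (3 + c2) * (2 * N0) := by
            refine mul_le_mul_of_nonneg_left ?_ (by linarith only [hc20])
            linarith only [hNBhi, hQN, hN0p]
        _ = (8 * (3 + c2)) * N0 / 4 := by ring
        _ ≤ (η * M) * N0 / 4 := by
            refine div_le_div_of_nonneg_right ?_ (by norm_num)
            exact mul_le_mul_of_nonneg_right hM3 hN0p.le
        _ = η * δ / 4 := by rw [hδN]; ring
    have h2 : e1 * δ ≤ η * δ / 1000 := by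
      have := mul_le_mul_of_nonneg_right hEη hδ0.le
      linarith only [this]
    have h3 : 0 < η * δ := by positivity
    have h4 : ((3 : ℝ) + (5 * (K0 z : ℝ) + 2)) * NB + U3 ≤ t 3 := by
      rw [hk, ← hc2]
      linarith only [h1, h2, h3, hU3R, ht3]
    exact_mod_cast h4
  -- t 2
  have hbN : (b:ℝ) * N0 ≤ t 2 + Θ - 4 * N0 := by
    have := mul_le_mul_of_nonneg_right hb2 hN0p.le
    linarith only [this, hBN]
  have hbN' : (t 2 : ℝ) + Θ - 5 * N0 ≤ b * N0 := by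
    have := mul_le_mul_of_nonneg_right hb1 hN0p.le
    linarith only [this, hBN]
  have hg8 : Q * (1 + bm) ≤ N0 := by
    apply hfromδ
    calc Q * (1 + bm) * M = Q * M * (1 + bm) := by ring
      _ ≤ _ := g8
  have hg9 : 2 * bm * (Q + 1) ≤ N0 := by
    apply hfromδ
    calc 2 * bm * (Q + 1) * M = 2 * M * bm * (Q + 1) := by ring
      _ ≤ _ := g9
  have hbQ : (b:ℝ) * Q ≤ bm * Q := mul_le_mul_of_nonneg_right hbbm hQ0.le
  have hbQ1 : (b:ℝ) * (Q + 1) ≤ bm * (Q + 1) := mul_le_mul_of_nonneg_right hbbm (by linarith only [hQ0])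
  have ht2lo : (b:ℝ) * NB + NB - Θ + 2 * U3 + U2 ≤ t 2 := by
    have h1 : (b:ℝ) * NB ≤ b * (N0 + Q) := mul_le_mul_of_nonneg_left hNBhi hb0
    linarith only [h1, hbN, hbQ, hg8, hNBhi, hU3R, hU2R, he1N', hN0p]
  have hcard2 : 6 * N0 ≤ (((cop (Qz z) n L1).filter (fun r => 2 * r ≤ 2 * n + δ)).card : ℝ) := by
    have h1 : cop (Qz z) n (δ / 2) ⊆ (cop (Qz z) n L1).filter (fun r => 2 * r ≤ 2 * n + δ) := by
      intro r hr
      rw [mem_cop] at hr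
      rw [mem_filter, mem_cop]
      exact ⟨⟨⟨hr.1.1, by omega⟩, hr.2⟩, by omega⟩
    have h2 := cop_card (Qz_pos z) n (δ / 2)
    rw [hρd, hQ, abs_le] at h2
    have h3 : (((cop (Qz z) n (δ / 2)).card : ℕ) : ℝ) ≤
        (((cop (Qz z) n L1).filter (fun r => 2 * r ≤ 2 * n + δ)).card : ℝ) := by
      exact_mod_cast card_le_card h1
    have h4 : (δ:ℝ) / 2 - 1 ≤ ((δ / 2 : ℕ) : ℝ) := by
      have h5 : δ < 2 * (δ / 2 + 1) := Nat.lt_mul_div_succ _ (by norm_num)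
      have h6 : (δ:ℝ) < 2 * (((δ / 2 : ℕ) : ℝ) + 1) := by exact_mod_cast h5
      linarith only [h6]
    have h5 : ρ * (δ / 2 - 1) ≤ ρ * ((δ / 2 : ℕ) : ℝ) := mul_le_mul_of_nonneg_left h4 hρ0.le
    have h6 : 24 * N0 ≤ ρ * δ := by
      rw [div_le_iff₀ hρ0] at hM1
      have := mul_le_mul_of_nonneg_right hM1 hN0p.le
      calc 24 * N0 ≤ M * ρ * N0 := this
        _ = ρ * δ := by rw [hδN]; ring
    have h7 : 4 * (1 + Q) ≤ ρ * δ := by
      rw [div_le_iff₀ hρ0] at g10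
      calc 4 * (1 + Q) ≤ Real.sqrt n * ρ := g10
        _ ≤ δ * ρ := mul_le_mul_of_nonneg_right f5 hρ0.le
        _ = ρ * δ := mul_comm _ _
    linarith only [h2.1, h3, h5, h6, h7, hρ1, hρ0]
  have ht2hi : (t 2 : ℝ) - b * NB + b * (xX : ℕ) + Θ + (xX : ℕ)
      ≤ (((cop (Qz z) n L1).filter (fun r => 2 * r ≤ 2 * n + δ)).card : ℝ) := by
    refine le_trans ?_ hcard2
    have h1 : (b:ℝ) * (N0 - 1 - Q) ≤ b * NB := mul_le_mul_of_nonneg_left hNBlo hb0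
    have h2 : (b:ℝ) * xX ≤ bm * (e1 * δ) :=
      mul_le_mul hbbm hxXR hxX0 hbm0.le
    have h3 : bm * (e1 * δ) + e1 * δ ≤ N0 / 1000 := by
      have : bm * (e1 * δ) + e1 * δ = (e1 * (M * (1 + bm))) * N0 := by rw [hδN]; ring
      rw [this]
      have := mul_le_mul_of_nonneg_right hE2 hN0p.le
      linarith only [this]
    linarith only [h1, h2, h3, hbN', hbQ1, hg9, hxXR, hN0p]
  -- reservoir facts
  have hs3δ : η * n * s ≤ δ * 2 ^ a1 := by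
    calc η * n * s ≤ (δ * s ^ 2) * s := mul_le_mul_of_nonneg_right hδs' hs0.le
      _ = δ * s ^ 3 := by ring
      _ ≤ δ * 2 ^ a1 := mul_le_mul_of_nonneg_left A1 hδ0.le
  have hWE2 : 4 * (n:ℝ) * (qo + 2) ≤ δ * 2 ^ a1 := by
    refine le_trans ?_ hs3δ
    rw [div_le_iff₀ hη] at g2
    calc 4 * (n:ℝ) * (qo + 2) = n * (4 * (qo + 2)) := by ring
      _ ≤ n * (s * η) := mul_le_mul_of_nonneg_left g2 hnR.le
      _ = η * n * s := by ring
  have h2nδ : 2 * n ≤ δ * 2 ^ a1 := by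
    have h1 : 2 * (n:ℝ) ≤ δ * 2 ^ a1 := by
      refine le_trans ?_ hWE2
      have : 0 ≤ (n:ℝ) * qo := by positivity
      linarith only [this, hnR]
    exact_mod_cast h1
  have hWE := W_le_E (z := z) (n := n) (δ := δ) (a1 := a1) (by omega) hzm hδsq
    (by rw [← hΛ]; linarith only [hW1, hτδ', hδ0]) (by rw [hqo]; exact hWE2)
  have h100a : (100:ℝ) ≤ 2 ^ a1 := by
    refine le_trans g1 (le_trans ?_ A1)
    calc s = s ^ 1 := (pow_one s).symm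
      _ ≤ s ^ 3 := pow_le_pow_right₀ hs1 (by norm_num)
  have h96 : 96 ≤ 2 ^ a1 := by
    have : 100 ≤ 2 ^ a1 := by exact_mod_cast h100a
    omega
  have ha12 : 2 ≤ a1 := by
    by_contra hcon
    push Not at hcon
    have : 2 ^ a1 ≤ 2 ^ 1 := Nat.pow_le_pow_right (by norm_num) (by omega)
    omega
  have hτlo : 768 * (qo + 1) / ρ' ≤ τ := by
    rw [hτ, le_div_iff₀ hp3]
    refine g5.trans ?_
    calc Real.sqrt n ≤ Real.sqrt n * Real.sqrt n := le_mul_of_one_le_right hsqn.le (by linarith only [g13])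
      _ = n := hsqn2
  have hμwlo : ρ' * (τ / 64) ≤ μw := by
    rw [hμw, mul_div_assoc]
    exact mul_le_mul_of_nonneg_left hW2 hρ'0.le
  have hgreedy := greedy_num (z := z) (n := n) (δ := δ) (a1 := a1) (β := β) (κ := κ) hz V (E n δ)
    hnum1'
    (by
      rw [← hSmd, ← hlδ, ← hSU, hρ'd, ← hΛ, ← hμw]
      refine hI.trans ?_
      rw [hccy]
      have h1 : e1 * τ ≤ ρ' / 1000 * τ := mul_le_mul_of_nonneg_right hEρ hτ0.le
      have h2 : 0 < ρ' * τ := by positivity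
      linarith only [h1, h2, hμwlo])
    (by
      rw [hqo, hρ'd, ← hΛ, ← hμw]
      rw [div_le_iff₀ hρ'0] at hτlo
      linarith only [hτlo, hμwlo])
    h96
    (by
      intro a ha haa
      have h2a : (0:ℝ) < 2 ^ a := by positivity
      obtain ⟨c1, c2', c3, c4, c5⟩ := hsm2 a (A1.trans (pow_le_pow_right₀ (by norm_num) ha.le)) haa
      rw [hρ'd, ← hΛ, hqo, hk]
      obtain ⟨ν, hν⟩ : ∃ ν : ℝ, ν = n / 2 ^ a := ⟨_, rfl⟩
      have hν0 : 0 < ν := by rw [hν]; positivity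
      have hΛν : ρ' * (ν / 16) ≤ ρ' * Λ / 2 ^ a := by
        rw [hν, mul_div_assoc]
        refine mul_le_mul_of_nonneg_left ?_ hρ'0.le
        calc (n:ℝ) / 2 ^ a / 16 = (n / 16) / 2 ^ a := by ring
          _ ≤ Λ / 2 ^ a := div_le_div_of_nonneg_right hΛ2 h2a.le
      rw [← hν] at c3 c5
      refine ⟨c1, c2', ?_, ?_⟩
      · have h1 : (Nat.primeCounting (2 ^ a) : ℝ) * (60 * κ / 2 ^ a) ≤ 360 * k * (ε * ν) := by
          calc (Nat.primeCounting (2 ^ a) : ℝ) * (60 * κ / 2 ^ a)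
              ≤ (Nat.primeCounting (2 ^ a) : ℝ) * (60 * (6 * k * Real.sqrt n) / 2 ^ a) := by
                refine mul_le_mul_of_nonneg_left ?_ (Nat.cast_nonneg _)
                refine div_le_div_of_nonneg_right ?_ h2a.le
                linarith only [hκR]
            _ = (360 * k / 2 ^ a) * (Real.sqrt n * Nat.primeCounting (2 ^ a)) := by ring
            _ ≤ (360 * k / 2 ^ a) * (ε * n) := mul_le_mul_of_nonneg_left c4 (by positivity)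
            _ = 360 * k * (ε * ν) := by rw [hν]; ring
        have h2 := mul_le_mul_of_nonneg_left c3 hk00
        have h3 : 400 * k * (ε * ν) ≤ cc * (ε * ν) := by
          refine mul_le_mul_of_nonneg_right ?_ (by positivity)
          have : 0 < (3 + c2) * c2 := by positivity
          linarith only [hcc, this, h4ρ, hc20]
        have h4 : cc * (ε * ν) = e1 * ν := by rw [← mul_assoc, hccε]
        have h5 : e1 * ν ≤ ρ' / 1000 * ν := mul_le_mul_of_nonneg_right hEρ hν0.le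
        have h6 : 0 ≤ k * (ε * ν) := by positivity
        have h7 : 0 < ρ' * ν := by positivity
        linarith only [h1, h2, h3, h4, h5, h6, h7, hΛν]
      · rw [div_le_iff₀ hρ'0] at c5
        linarith only [c5, hΛν])
  have hC2 : 3 ^ (3 + (5 * K0 z + 2)) * δ ≤ 2 * n := by
    have h1 : (3:ℝ) ^ (3 + (5 * K0 z + 2)) * δ ≤ 2 * n := by
      calc (3:ℝ) ^ (3 + (5 * K0 z + 2)) * δ ≤ s * δ := mul_le_mul_of_nonneg_right g3 hδ0.le
        _ = δ * s := mul_comm _ _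
        _ ≤ n := hδsn
        _ ≤ 2 * n := by linarith only [hnR]
    exact_mod_cast h1
  have hVdef : ∀ p, prof (cop (Qz z) n L1) p + prof (cop (Qz z) (n / 2 ^ b) Lb) p + prof (W z n a1) p = V p :=
    fun p => by rw [hV]
  refine coreG (n := n) (δ := δ) (z := z) (b := b) (C := K0 z) (C2 := 5 * K0 z + 2) (β := β)
    (U2 := U2) (U3 := U3) (a1 := a1) (cop (Qz z) n L1) (cop (Qz z) (n / 2 ^ b) Lb) (W z n a1) t (E n δ)
    (by omega) (struct_S1 (by omega) hL1n) (struct_Bs (by omega) hwinb) (struct_disj hb3 hwinb)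
    (struct_W (by omega) h2nδ (by omega)) ha12 hδsq (fun q hq => (hnum1 q hq).1)
    (fun p hp => ⟨hWE p hp, (hnum2 p hp).1, (hnum2 p hp).2⟩) hzm hC2 hβbad ?_ ?_ ?_ ?_ ?_ ?_ ?_ ?_
  · simp only [hVdef]
    exact hgreedy
  · simp only [hVdef]
    rw [← hSmd, ← hlδ, ← hSU, ← hcU, hU3]
  · rw [← hSU', hU2]
  · rw [← hcU, ← hxX, ← hNB]; exact hXlt
  · rw [← hcU, ← hxX, ← hNB]; exact hprod
  · rw [← hNB]; exact ht3'
  · rw [← hNB, ← hΘ]; exact ht2lo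
  · rw [← hNB, ← hcU, ← hxX, ← hΘ]
    exact ht2hi

end Pool.Agent.Helper602.GL
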