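import Mathlib
import Pool.Agent.Helper602.GL5

open Filter Topology Finset

namespace Pool.Agent.Helper602.GL

open Fam Sel Cop Val Helper602.Core Asym

/-- **Part G**: the smooth part of the removed set. -/
theorem partG (z : ℕ) (hz : 8 ≤ z) (η : ℝ) (hη : 0 < η) (hη1 : η ≤ 1) :
    ∀ᶠ n : ℕ in atTop, ∀ δ : ℕ, η * n / Real.log n ≤ δ → (δ:ℝ) ≤ n / Real.log n →
    ∀ t : ℕ → ℕ, (∀ q ∈ Od z, (t q : ℝ) ≤ 2 * δ) → (t 2 : ℝ) ≤ 2 * δ →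
    η * δ ≤ t 2 → η * δ ≤ t 3 →
    ∃ G : Finset ℕ, (∀ r ∈ G, n < r ∧ r ≤ 2 * n + δ ∧ ∀ p, p.Prime → p ∣ r → p ≤ δ) ∧
      (∀ q, q.Prime → q ≤ z → prof G q = t q) ∧
      (∀ p, p.Prime → z < p → p ≤ δ → prof G p = E n δ p) := by
  have hρ0 : 0 < rho (Qz z) := rho_pos (Qz_pos z)
  have hρ1 : rho (Qz z) ≤ 1 := rho_le_one (Qz_pos z)
  have hρ'0 : 0 < rho (Qo z) := rho_pos (Qo_pos z)
  have hρ'1 : rho (Qo z) ≤ 1 := rho_le_one (Qo_pos z)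
  have hlQ0 : 0 ≤ ∑ q ∈ Od z, Real.logb 2 q := sum_nonneg fun q hq =>
    Real.logb_nonneg (by norm_num) (by exact_mod_cast (mem_Od.mp hq).1.one_lt.le)
  have hk0 : (5:ℝ) ≤ (K0 z : ℝ) := by
    have : 5 ≤ K0 z := by unfold K0; omega
    exact_mod_cast this
  have hQ0 : (0:ℝ) < (Qz z : ℝ) := by exact_mod_cast Qz_pos z
  have hqo0 : (0:ℝ) < (Qo z : ℝ) := by exact_mod_cast Qo_pos z
  obtain ⟨M, bm, e1, e2, cc, ε, c1, c2, c3, c4, c5, c6, c7, c8, c9, c10, c11, c12, c13, c14, c15, c16, c17,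
    c18, c19⟩ := consts (c2 := 5 * (K0 z : ℝ) + 2) hη hη1 hρ0 hρ1 hρ'0 hρ'1 hlQ0 hk0 (by linarith)
  have hM0 : 0 < M := by linarith
  filter_upwards [small η ε hη c15, small2 η ε (192 * ((Qo z : ℝ) + 1) / rho (Qo z)) hη c15, logq_le,
    base 100, base (4 * ((Qo z : ℝ) + 2) / η), base ((3:ℝ) ^ (3 + (5 * K0 z + 2))),
    base ((2:ℝ) ^ (2 * ⌈bm⌉₊ + 1) / rho (Qz z)), base (768 * ((Qo z : ℝ) + 1) / rho (Qo z)),
    base (((z:ℝ) + 1) ^ 2), base (2 / η), base ((Qz z : ℝ) * M * (1 + bm)),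
    base (2 * M * bm * ((Qz z : ℝ) + 1)), base (4 * (1 + (Qz z : ℝ)) / rho (Qz z)),
    base (2 * ((Qz z : ℝ) + 1) * M / e2), base (4 * ((Qz z : ℝ) + 1) * M)]
    with n hsm hsm2 hlg b1 b2 b3 b4 b5 b6 b7 b8 b9 b10 b11 b12 δ hδ1 hδ2 t ht htt2 ht2 ht3
  obtain ⟨hn0, hs1, hs2, g1, -, g1'⟩ := b1
  have hpow : ∀ {K : ℝ}, 0 ≤ K → K * ss n ^ 8 ≤ Real.sqrt n → ∀ j ≤ 8, K * ss n ^ j ≤ Real.sqrt n := by
    intro K hK h j hj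
    exact (mul_le_mul_of_nonneg_left (pow_le_pow_right₀ hs1 hj) hK).trans h
  have hpow0 : ∀ {K : ℝ}, 0 ≤ K → K * ss n ^ 8 ≤ Real.sqrt n → K ≤ Real.sqrt n := by
    intro K hK h
    have := hpow hK h 0 (by norm_num)
    simpa using this
  obtain ⟨f1, f2, f3, f4, f5⟩ := hsm δ hδ1 hδ2
  have hsm2' := hsm2 δ hδ1 hδ2
  rw [← hs2] at hδ1 hδ2
  refine partG_at (c2 := 5 * (K0 z : ℝ) + 2) (s := ss n) hz hη hη1 rfl rfl rfl rfl rfl rfl rfl hρ0 hρ1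
    hρ'0 hρ'1 hlQ0 hk0 hQ0 hqo0 c1 c2 c3 c4 c5 c6 c7 c8 c9 c10 c11 c12 c13 c14 c15 c16 c17 c18 c19
    hs1 hs2 hn0 hδ1 hδ2 f1 f2 f3 f4 f5 hsm2' (hlg δ) g1 b2.2.2.2.1 b3.2.2.2.1 b4.2.2.2.1
    (hpow (by positivity) b5.2.2.2.2.2 3 (by norm_num))
    (hpow0 (by positivity) b6.2.2.2.2.2)
    (hpow (by positivity) b7.2.2.2.2.2 2 (by norm_num))
    (hpow0 (by positivity) b8.2.2.2.2.2)
    (hpow0 (by positivity) b9.2.2.2.2.2)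
    (hpow0 (by positivity) b10.2.2.2.2.2)
    (hpow0 (by positivity) b11.2.2.2.2.2)
    (hpow0 (by positivity) b12.2.2.2.2.2)
    (le_trans (by norm_num) (hpow0 (by norm_num) g1'))
    t ht htt2 ht2 ht3

end Pool.Agent.Helper602.GL
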