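import Mathlib
import Pool.Agent.Helper602.PNT

open Filter Topology

namespace Pool.Agent.Helper602.Lower

/-- the primes up to 23 -/
def Q : Finset ℕ := {2, 3, 5, 7, 11, 13, 17, 19, 23}

lemma Q_prime : ∀ q ∈ Q, q.Prime := by
  intro q hq
  simp only [Q, Finset.mem_insert, Finset.mem_singleton] at hq
  rcases hq with rfl | rfl | rfl | rfl | rfl | rfl | rfl | rfl | rfl <;> norm_num

lemma exists_Q_dvd : ∀ j ∈ Finset.Icc 2 27, ∃ q ∈ Q, q ∣ j := by
  decide

/-- primes in `(n/(k+1), 2n/(2k+1)]` -/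
def P (n k : ℕ) : Finset ℕ :=
  (Finset.range (2 * n + 1)).filter fun p => p.Prime ∧ n < (k + 1) * p ∧ (2 * k + 1) * p ≤ 2 * n

lemma mem_P {n k p : ℕ} : p ∈ P n k ↔ p.Prime ∧ n < (k + 1) * p ∧ (2 * k + 1) * p ≤ 2 * n := by
  simp only [P, Finset.mem_filter, Finset.mem_range]
  constructor
  · exact fun h => h.2
  · intro h
    refine ⟨?_, h⟩
    nlinarith [h.2.2, h.1.pos]

lemma padic_le (q : ℕ) (hq : q.Prime) (m : ℕ) : (q - 1) * padicValNat q m.factorial ≤ m := by
  have := Fact.mk hq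
  rw [sub_one_mul_padicValNat_factorial]
  omega

lemma padic_ge (q : ℕ) (hq : q.Prime) (n : ℕ) :
    n ≤ (q - 1) * padicValNat q n.factorial + (q - 1) * (Nat.log 2 n + 1) := by
  have := Fact.mk hq
  rw [sub_one_mul_padicValNat_factorial]
  have h1 : (Nat.digits q n).sum ≤ (q - 1) * (Nat.log 2 n + 1) := by
    have h2 : ∀ d ∈ Nat.digits q n, d ≤ q - 1 := by
      intro d hd
      have := Nat.digits_lt_base hq.one_lt hd
      omega
    have h3 := List.sum_le_card_nsmul _ _ h2
    rw [smul_eq_mul] at h3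
    refine h3.trans ?_
    rw [mul_comm]
    refine Nat.mul_le_mul_left _ ?_
    rcases Nat.eq_zero_or_pos n with rfl | hn
    · simp
    · rw [Nat.length_digits q n hq.one_lt hn.ne']
      have : Nat.log q n ≤ Nat.log 2 n := Nat.log_anti_left (by norm_num) hq.two_le
      omega
  omega

lemma prod_Ioc_mul_factorial (n m : ℕ) (h : n ≤ m) :
    (∏ a ∈ Finset.Ioc n m, a) * n.factorial = m.factorial := by
  rw [← Finset.prod_Ico_id_eq_factorial, ← Finset.prod_Ico_id_eq_factorial m]
  have : Finset.Ioc n m = Finset.Ico (n+1) (m+1) := by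
    ext; simp only [Finset.mem_Ioc, Finset.mem_Ico]; omega
  rw [this, mul_comm, Finset.prod_Ico_consecutive _ (by omega) (by omega)]

lemma exists_missing (n k p : ℕ) (hn : 27 * 27 ≤ n) (hk : k ∈ Finset.Icc 1 13) (hp : p ∈ P n k)
    (s : Finset ℕ) (hprod : ∏ a ∈ s, a = n.factorial) :
    ∃ j ∈ Finset.Icc (k + 1) (2 * k + 1), j * p ∉ s := by
  by_contra hcon
  push Not at hcon
  obtain ⟨hpp, h1, h2⟩ := mem_P.mp hp
  rw [Finset.mem_Icc] at hk
  have hinj : Set.InjOn (fun j => j * p) (Finset.Icc (k + 1) (2 * k + 1) : Set ℕ) := by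
    intro a _ b _ hab
    exact Nat.eq_of_mul_eq_mul_right hpp.pos hab
  have hsub : (Finset.Icc (k + 1) (2 * k + 1)).image (fun j => j * p) ⊆ s := by
    intro x hx
    rw [Finset.mem_image] at hx
    obtain ⟨j, hj, rfl⟩ := hx
    exact hcon j hj
  have hdvd : p ^ (k + 1) ∣ n.factorial := by
    rw [← hprod]
    refine Dvd.dvd.trans ?_ (Finset.prod_dvd_prod_of_subset _ _ _ hsub)
    rw [Finset.prod_image (by simpa using hinj)]
    have h3 : p ^ (k + 1) = ∏ _j ∈ Finset.Icc (k + 1) (2 * k + 1), p := by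
      rw [Finset.prod_const, Nat.card_Icc]
      congr 1
      omega
    rw [h3]
    exact Finset.prod_dvd_prod_of_dvd _ _ fun j _ => Dvd.intro_left j rfl
  have hp53 : 53 ≤ p := by
    by_contra hlt
    push Not at hlt
    have : (k + 1) * p ≤ 14 * 52 := Nat.mul_le_mul (by omega) (by omega)
    omega
  have hpn : n < p ^ 2 := by
    have : (k + 1) * p ≤ p * p := Nat.mul_le_mul_right _ (by omega)
    rw [sq]; omega
  have hlog : Nat.log p n < 2 := Nat.log_lt_of_lt_pow (by omega) hpn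
  rw [Nat.Prime.pow_dvd_factorial_iff hpp hlog] at hdvd
  have h4 : ∑ i ∈ Finset.Ico 1 2, n / p ^ i = n / p := by simp
  rw [h4] at hdvd
  have h5 : n / p < k + 1 := by
    rw [Nat.div_lt_iff_lt_mul hpp.pos]
    exact h1
  omega

/-- the combinatorial core: each prime in `(n/(k+1), 2n/(2k+1)]`, `1 ≤ k ≤ 13`, blocks one unit of
small prime factors. -/
lemma core (n m : ℕ) (hn : 27 * 27 ≤ n) (hm : 2 * n ≤ m) (s : Finset ℕ)
    (hs1 : ∀ a ∈ s, n < a) (hs2 : ∀ a ∈ s, a ≤ m) (hprod : ∏ a ∈ s, a = n.factorial) :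
    ∑ k ∈ Finset.Icc 1 13, (P n k).card + 2 * ∑ q ∈ Q, n.factorial.factorization q
      ≤ ∑ q ∈ Q, m.factorial.factorization q := by
  classical
  set R := Finset.Ioc n m \ s with hR
  have hsub : s ⊆ Finset.Ioc n m := fun a ha => Finset.mem_Ioc.mpr ⟨hs1 a ha, hs2 a ha⟩
  have hN : (∏ r ∈ R, r) * n.factorial * n.factorial = m.factorial := by
    have h1 : (∏ r ∈ R, r) * (∏ a ∈ s, a) = ∏ a ∈ Finset.Ioc n m, a := Finset.prod_sdiff hsub
    have h2 := prod_Ioc_mul_factorial n m (by omega)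
    rw [← h2, ← h1, hprod]
  have hR0 : ∀ r ∈ R, r ≠ 0 := by
    intro r hr
    rw [hR, Finset.mem_sdiff, Finset.mem_Ioc] at hr
    omega
  have hfac : ∀ q, m.factorial.factorization q
      = (∑ r ∈ R, r.factorization q) + 2 * n.factorial.factorization q := by
    intro q
    rw [← hN, Nat.factorization_mul (mul_ne_zero (Finset.prod_ne_zero_iff.mpr hR0)
      (Nat.factorial_ne_zero n)) (Nat.factorial_ne_zero n),
      Nat.factorization_mul (Finset.prod_ne_zero_iff.mpr hR0) (Nat.factorial_ne_zero n),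
      Nat.factorization_prod hR0]
    simp only [Finsupp.coe_add, Pi.add_apply, Finsupp.coe_finsetSum, Finset.sum_apply]
    ring
  simp_rw [hfac]
  rw [Finset.sum_add_distrib, ← Finset.mul_sum]
  refine Nat.add_le_add_right ?_ _
  rw [Finset.sum_comm]
  -- disjoint union
  have hdisj : ∀ k ∈ Finset.Icc 1 13, ∀ k' ∈ Finset.Icc 1 13, k ≠ k' →
      Disjoint (P n k) (P n k') := by
    intro k _ k' _ hkk
    rw [Finset.disjoint_left]
    intro p hp hp'
    obtain ⟨hpp, a1, a2⟩ := mem_P.mp hp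
    obtain ⟨_, b1, b2⟩ := mem_P.mp hp'
    have hpos := hpp.pos
    rcases lt_or_gt_of_ne hkk with h | h
    · have : (2 * k' + 1) * p < (2 * (k + 1)) * p := by nlinarith
      have := Nat.lt_of_mul_lt_mul_right this
      omega
    · have : (2 * k + 1) * p < (2 * (k' + 1)) * p := by nlinarith
      have := Nat.lt_of_mul_lt_mul_right this
      omega
  rw [← Finset.card_biUnion hdisj]
  set U := (Finset.Icc 1 13).biUnion (P n) with hU
  have hex : ∀ p ∈ U, ∃ j, j ∈ Finset.Icc 2 27 ∧ j * p ∈ R ∧ p.Prime ∧ 27 < p := by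
    intro p hp
    rw [hU, Finset.mem_biUnion] at hp
    obtain ⟨k, hk, hpk⟩ := hp
    obtain ⟨j, hj, hjs⟩ := exists_missing n k p hn hk hpk s hprod
    obtain ⟨hpp, a1, a2⟩ := mem_P.mp hpk
    rw [Finset.mem_Icc] at hk hj
    refine ⟨j, Finset.mem_Icc.mpr ⟨by omega, by omega⟩, ?_, hpp, ?_⟩
    · rw [hR, Finset.mem_sdiff, Finset.mem_Ioc]
      refine ⟨⟨?_, ?_⟩, hjs⟩
      · exact lt_of_lt_of_le a1 (Nat.mul_le_mul_right _ hj.1)
      · exact (Nat.mul_le_mul_right _ hj.2).trans (a2.trans hm)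
    · by_contra hlt
      push Not at hlt
      have : (k + 1) * p ≤ 14 * 27 := Nat.mul_le_mul (by omega) (by omega)
      omega
  choose! g hg using hex
  have hinj : Set.InjOn (fun p => g p * p) (U : Set ℕ) := by
    intro p hp p' hp' hpp
    simp only at hpp
    obtain ⟨h1, h2, h3, h4⟩ := hg p hp
    obtain ⟨h1', h2', h3', h4'⟩ := hg p' hp'
    have hd : p ∣ g p' * p' := by rw [← hpp]; exact Dvd.intro_left _ rfl
    rcases (Nat.Prime.dvd_mul h3).mp hd with hd1 | hd1
    · rw [Finset.mem_Icc] at h1'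
      have := Nat.le_of_dvd (by omega) hd1
      omega
    · exact (Nat.prime_dvd_prime_iff_eq h3 h3').mp hd1
  have hcard : U.card = (U.image (fun p => g p * p)).card := (Finset.card_image_of_injOn hinj).symm
  have hsubR : U.image (fun p => g p * p) ⊆ R := by
    intro x hx
    rw [Finset.mem_image] at hx
    obtain ⟨p, hp, rfl⟩ := hx
    exact (hg p hp).2.1
  calc U.card = ∑ r ∈ U.image (fun p => g p * p), 1 := by rw [hcard, Finset.card_eq_sum_ones]
    _ ≤ ∑ r ∈ U.image (fun p => g p * p), ∑ q ∈ Q, r.factorization q := by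
        refine Finset.sum_le_sum fun r hr => ?_
        rw [Finset.mem_image] at hr
        obtain ⟨p, hp, rfl⟩ := hr
        obtain ⟨h1, h2, h3, h4⟩ := hg p hp
        obtain ⟨q, hq, hqd⟩ := exists_Q_dvd (g p) h1
        have h5 : 1 ≤ (g p * p).factorization q := by
          refine (Nat.Prime.dvd_iff_one_le_factorization (Q_prime q hq) (hR0 _ h2)).mp ?_
          exact hqd.mul_right p
        exact h5.trans (Finset.single_le_sum (f := fun q => (g p * p).factorization q)
          (fun _ _ => Nat.zero_le _) hq)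
    _ ≤ ∑ r ∈ R, ∑ q ∈ Q, r.factorization q :=
        Finset.sum_le_sum_of_subset hsubR

/-- `π(αn) log n / n → α` -/
lemma pi_scaled {α : ℝ} (hα : 0 < α) :
    Tendsto (fun n : ℕ => (Nat.primeCounting ⌊α * n⌋₊ : ℝ) * Real.log n / n) atTop (𝓝 α) := by
  have hx : Tendsto (fun n : ℕ => α * (n:ℝ)) atTop atTop :=
    tendsto_natCast_atTop_atTop.const_mul_atTop hα
  have h1 := PNT.pi_tendsto.comp hx
  have h2 : Tendsto (fun n : ℕ => Real.log n / Real.log (α * n)) atTop (𝓝 1) := by
    have h3 : Tendsto (fun n : ℕ => Real.log α / Real.log n) atTop (𝓝 0) :=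
      Tendsto.div_atTop tendsto_const_nhds (Real.tendsto_log_atTop.comp tendsto_natCast_atTop_atTop)
    have h4 : Tendsto (fun n : ℕ => (1 + Real.log α / Real.log n)⁻¹) atTop (𝓝 1) := by
      have := (h3.const_add 1).inv₀ (by simp)
      simpa using this
    refine h4.congr' ?_
    filter_upwards [eventually_gt_atTop 1] with n hn
    have hn0 : (0:ℝ) < n := by exact_mod_cast (by omega : 0 < n)
    have hl : Real.log n ≠ 0 := (Real.log_pos (by exact_mod_cast hn)).ne'
    rw [Real.log_mul hα.ne' hn0.ne']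
    have h6 : 1 + Real.log α / Real.log n = (Real.log α + Real.log n) / Real.log n := by
      field_simp
      ring
    rw [h6, inv_div]
  have h5 := (h1.mul h2).const_mul α
  rw [mul_one, mul_one] at h5
  refine h5.congr' ?_
  filter_upwards [eventually_gt_atTop 0, hx.eventually (eventually_gt_atTop 1)] with n hn hn1
  have hn0 : (0:ℝ) < n := by exact_mod_cast hn
  have hl : Real.log (α * n) ≠ 0 := (Real.log_pos hn1).ne'
  simp only [Function.comp]
  field_simp

lemma card_P (n k : ℕ) (hk : 1 ≤ k) :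
    ((P n k).card : ℝ) = (Nat.primeCounting ⌊(2 / (2 * k + 1) : ℝ) * n⌋₊ : ℝ)
      - Nat.primeCounting ⌊(1 / (k + 1) : ℝ) * n⌋₊ := by
  have e1 : ⌊(2 / (2 * k + 1) : ℝ) * n⌋₊ = 2 * n / (2 * k + 1) := by
    rw [div_mul_eq_mul_div]
    have := Nat.floor_div_eq_div (K := ℝ) (2 * n) (2 * k + 1)
    push_cast at this
    exact this
  have e2 : ⌊(1 / (k + 1) : ℝ) * n⌋₊ = n / (k + 1) := by
    rw [div_mul_eq_mul_div, one_mul]
    have := Nat.floor_div_eq_div (K := ℝ) n (k + 1)
    push_cast at this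
    exact this
  rw [e1, e2]
  have hle : n / (k + 1) ≤ 2 * n / (2 * k + 1) := by
    rw [Nat.le_div_iff_mul_le (by omega)]
    have := Nat.div_mul_le_self n (k + 1)
    nlinarith
  have hpc : ∀ x : ℕ, Nat.primeCounting x = ((Finset.range (x + 1)).filter Nat.Prime).card := by
    intro x
    rw [Nat.primeCounting, Nat.primeCounting', Nat.count_eq_card_filter_range]
  have hP : P n k = (Finset.range (2 * n / (2 * k + 1) + 1)).filter Nat.Prime \
      (Finset.range (n / (k + 1) + 1)).filter Nat.Prime := by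
    ext p
    rw [mem_P, Finset.mem_sdiff, Finset.mem_filter, Finset.mem_filter, Finset.mem_range,
      Finset.mem_range, Nat.lt_succ_iff, Nat.lt_succ_iff, Nat.le_div_iff_mul_le (by omega)]
    constructor
    · rintro ⟨h1, h2, h3⟩
      refine ⟨⟨by rw [mul_comm]; exact h3, h1⟩, ?_⟩
      rintro ⟨h4, _⟩
      rw [Nat.le_div_iff_mul_le (by omega)] at h4
      rw [mul_comm] at h4
      omega
    · rintro ⟨⟨h1, h2⟩, h3⟩
      refine ⟨h2, ?_, by rw [mul_comm]; exact h1⟩
      by_contra h4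
      push Not at h4
      apply h3
      refine ⟨?_, h2⟩
      rw [Nat.le_div_iff_mul_le (by omega), mul_comm]
      exact h4
  have hsub : (Finset.range (n / (k + 1) + 1)).filter Nat.Prime ⊆
      (Finset.range (2 * n / (2 * k + 1) + 1)).filter Nat.Prime := by
    refine Finset.filter_subset_filter _ ?_
    exact Finset.range_subset_range.mpr (by omega)
  rw [hP, Finset.card_sdiff_of_subset hsub, hpc, hpc, Nat.cast_sub (Finset.card_le_card hsub)]

lemma card_P_tendsto (k : ℕ) (hk : 1 ≤ k) :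
    Tendsto (fun n : ℕ => ((P n k).card : ℝ) * Real.log n / n) atTop
      (𝓝 (1 / ((k + 1) * (2 * k + 1)))) := by
  have h1 := (pi_scaled (α := 2 / (2 * k + 1)) (by positivity)).sub
    (pi_scaled (α := 1 / (k + 1)) (by positivity))
  have e : (2 / (2 * k + 1) : ℝ) - 1 / (k + 1) = 1 / ((k + 1) * (2 * k + 1)) := by
    field_simp
    ring
  rw [e] at h1
  refine h1.congr fun n => ?_
  rw [card_P n k hk]
  ring

/-- capacity of the primes up to 23 -/
noncomputable def B : ℝ := ∑ q ∈ Q, 1 / ((q : ℝ) - 1)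

lemma B_eq : B = 121 / 60 + 1 / 12 + 1 / 16 + 1 / 18 + 1 / 22 := by
  unfold B Q
  norm_num

/-- the sharp constant -/
noncomputable def c : ℝ := 4029639598 / 25970038185

lemma c_mul_B : c * B = ∑ k ∈ Finset.Icc (1:ℕ) 13, (1 / (((k:ℝ) + 1) * (2 * k + 1)) : ℝ) := by
  rw [B_eq]
  unfold c
  have : Finset.Icc (1:ℕ) 13 = {1,2,3,4,5,6,7,8,9,10,11,12,13} := by decide
  rw [this]
  norm_num

lemma main_ineq (n m : ℕ) (hn : 27 * 27 ≤ n) (hm : 2 * n ≤ m) (s : Finset ℕ)
    (hs1 : ∀ a ∈ s, n < a) (hs2 : ∀ a ∈ s, a ≤ m) (hprod : ∏ a ∈ s, a = n.factorial) :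
    ∑ k ∈ Finset.Icc 1 13, ((P n k).card : ℝ) ≤ ((m:ℝ) - 2 * n) * B + 18 * (Nat.log 2 n + 1) := by
  have h := core n m hn hm s hs1 hs2 hprod
  have h' : ∑ k ∈ Finset.Icc 1 13, ((P n k).card : ℝ) + 2 * ∑ q ∈ Q, (n.factorial.factorization q : ℝ)
      ≤ ∑ q ∈ Q, (m.factorial.factorization q : ℝ) := by exact_mod_cast h
  have h1 : ∀ q ∈ Q, (m.factorial.factorization q : ℝ) ≤ (m:ℝ) * (1 / ((q:ℝ) - 1)) := by
    intro q hq
    have hqp := Q_prime q hq
    have hq1 : (1:ℝ) < q := by exact_mod_cast hqp.one_lt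
    have h2 := padic_le q hqp m
    rw [Nat.factorization_def _ hqp, mul_one_div, le_div_iff₀ (by linarith)]
    have h3 : ((q - 1 : ℕ) : ℝ) = (q:ℝ) - 1 := by
      rw [Nat.cast_sub hqp.one_lt.le, Nat.cast_one]
    rw [← h3, mul_comm]
    exact_mod_cast h2
  have h2 : ∀ q ∈ Q, (n:ℝ) * (1 / ((q:ℝ) - 1)) - (Nat.log 2 n + 1) ≤ (n.factorial.factorization q : ℝ) := by
    intro q hq
    have hqp := Q_prime q hq
    have hq1 : (1:ℝ) < q := by exact_mod_cast hqp.one_lt
    have h2 := padic_ge q hqp n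
    have h3 : ((q - 1 : ℕ) : ℝ) = (q:ℝ) - 1 := by
      rw [Nat.cast_sub hqp.one_lt.le, Nat.cast_one]
    have h4 : (n:ℝ) ≤ ((q:ℝ) - 1) * padicValNat q n.factorial + ((q:ℝ) - 1) * (Nat.log 2 n + 1) := by
      rw [← h3]
      exact_mod_cast h2
    rw [Nat.factorization_def _ hqp, mul_one_div, sub_le_iff_le_add, div_le_iff₀ (by linarith)]
    linarith
  have h3 := Finset.sum_le_sum h1
  have h4 := Finset.sum_le_sum h2
  rw [← Finset.mul_sum] at h3
  rw [Finset.sum_sub_distrib, ← Finset.mul_sum, Finset.sum_const] at h4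
  have hcard : Q.card = 9 := by decide
  rw [hcard] at h4
  have hB : ∑ q ∈ Q, 1 / ((q : ℝ) - 1) = B := rfl
  rw [hB] at h3 h4
  simp only [nsmul_eq_mul] at h4
  push_cast at h4
  linarith

/-- lower bound -/
theorem lower {ε : ℝ} (hε : 0 < ε) : ∀ᶠ n : ℕ in atTop, ∀ m : ℕ, ∀ s : Finset ℕ,
    (∀ a ∈ s, n < a) → (∀ a ∈ s, a ≤ m) → ∏ a ∈ s, a = n.factorial →
    (c - ε) ≤ ((m:ℝ) - 2 * n) * Real.log n / n := by
  have hB : 0 < B := by rw [B_eq]; norm_num
  have h1 : Tendsto (fun n : ℕ => ∑ k ∈ Finset.Icc 1 13, ((P n k).card : ℝ) * Real.log n / n) atTop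
      (𝓝 (c * B)) := by
    rw [c_mul_B]
    refine tendsto_finsetSum _ fun k hk => ?_
    exact card_P_tendsto k (Finset.mem_Icc.mp hk).1
  have h2 : Tendsto (fun n : ℕ => 18 * ((Nat.log 2 n : ℝ) + 1) * Real.log n / n) atTop (𝓝 0) := by
    have h3 : Tendsto (fun n : ℕ => (18 / Real.log 2) * (Real.log n ^ 2 / n) + 18 * (Real.log n / n))
        atTop (𝓝 0) := by
      have a1 : Tendsto (fun n : ℕ => Real.log n ^ 2 / (n:ℝ)) atTop (𝓝 0) := by
        have := (isLittleO_log_rpow_atTop (r := 1/2) (by norm_num)).tendsto_div_nhds_zero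
        have h5 := (this.comp tendsto_natCast_atTop_atTop).pow 2
        simp only [Function.comp] at h5
        rw [zero_pow (by norm_num)] at h5
        refine h5.congr fun n => ?_
        rw [div_pow, ← Real.rpow_natCast ((n:ℝ) ^ (1/2:ℝ)) 2, ← Real.rpow_mul (Nat.cast_nonneg n)]
        norm_num
      have a2 : Tendsto (fun n : ℕ => Real.log n / (n:ℝ)) atTop (𝓝 0) := by
        have := (isLittleO_log_rpow_atTop (r := 1) (by norm_num)).tendsto_div_nhds_zero
        have h5 := this.comp tendsto_natCast_atTop_atTop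
        simpa [Function.comp_def] using h5
      have := (a1.const_mul (18 / Real.log 2)).add (a2.const_mul 18)
      simpa using this
    refine squeeze_zero' ?_ ?_ h3
    · filter_upwards [eventually_ge_atTop 1] with n hn
      have : 0 ≤ Real.log n := Real.log_nonneg (by exact_mod_cast hn)
      positivity
    · filter_upwards [eventually_ge_atTop 1] with n hn
      have hl : 0 ≤ Real.log n := Real.log_nonneg (by exact_mod_cast hn)
      have hn0 : (0:ℝ) < n := by exact_mod_cast hn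
      have h5 : (Nat.log 2 n : ℝ) ≤ Real.log n / Real.log 2 := by
        rw [le_div_iff₀ (Real.log_pos (by norm_num)), ← Real.log_pow]
        apply Real.log_le_log (by positivity)
        exact_mod_cast Nat.pow_log_le_self 2 (by omega)
      calc 18 * ((Nat.log 2 n : ℝ) + 1) * Real.log n / n
          ≤ 18 * (Real.log n / Real.log 2 + 1) * Real.log n / n := by
            gcongr
        _ = _ := by ring
  have h4 : Tendsto (fun n : ℕ => ((∑ k ∈ Finset.Icc 1 13, ((P n k).card : ℝ) * Real.log n / n) -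
      18 * ((Nat.log 2 n : ℝ) + 1) * Real.log n / n) / B) atTop (𝓝 c) := by
    have := (h1.sub h2).div_const B
    rw [sub_zero, mul_div_assoc, div_self hB.ne', mul_one] at this
    exact this
  have hc : 0 < c := by unfold c; norm_num
  filter_upwards [h4.eventually (lt_mem_nhds (show c - ε < c by linarith)),
    h4.eventually (lt_mem_nhds hc), eventually_ge_atTop (27 * 27)] with n hn1 hn2 hn3
  intro m s hs1 hs2 hprod
  have hn0 : (0:ℝ) < n := by
    have : 0 < n := by omega
    exact_mod_cast this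
  have hl : 0 < Real.log n := Real.log_pos (by
    have : 1 < n := by omega
    exact_mod_cast this)
  have key : ∀ M : ℕ, 2 * n ≤ M → m ≤ M →
      ((∑ k ∈ Finset.Icc 1 13, ((P n k).card : ℝ) * Real.log n / n) -
      18 * ((Nat.log 2 n : ℝ) + 1) * Real.log n / n) / B ≤ ((M:ℝ) - 2 * n) * Real.log n / n := by
    intro M hM hmM
    have h5 := main_ineq n M hn3 hM s hs1 (fun a ha => (hs2 a ha).trans hmM) hprod
    rw [div_le_iff₀ hB]
    have h6 : (∑ k ∈ Finset.Icc 1 13, ((P n k).card : ℝ) * Real.log n / n)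
        = (∑ k ∈ Finset.Icc 1 13, ((P n k).card : ℝ)) * (Real.log n / n) := by
      rw [Finset.sum_mul]
      refine Finset.sum_congr rfl fun k _ => ?_
      ring
    rw [h6]
    have h7 := mul_le_mul_of_nonneg_right h5 (div_pos hl hn0).le
    have e1 : 18 * ((Nat.log 2 n : ℝ) + 1) * Real.log n / n
      = 18 * ((Nat.log 2 n : ℝ) + 1) * (Real.log n / n) := by ring
    have e2 : ((M:ℝ) - 2 * n) * Real.log n / n * B = ((M:ℝ) - 2 * n) * B * (Real.log n / n) := by
      ring
    rw [e1, e2]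
    linarith
  rcases le_total (2 * n) m with h | h
  · exact (hn1.le).trans (key m h le_rfl)
  · exfalso
    have h8 := key (2 * n) le_rfl h
    push_cast at h8
    rw [sub_self, zero_mul, zero_div] at h8
    linarith

end Pool.Agent.Helper602.Lower
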