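import Mathlib
import Pool.Agent.Helper602.Lower

open Finset

namespace Pool.Agent.Helper602.PL

/-- base table of prime cofactors for `15 ≤ k < 615` -/
def q0 (k : ℕ) : ℕ :=
  if k < 16 then 29 else if k < 19 then 31 else if k < 22 then 37 else if k < 26 then 43
  else if k < 31 then 47 else if k < 37 then 53 else if k < 45 then 59 else if k < 58 then 61
  else if k < 73 then 73 else if k < 94 then 97 else if k < 121 then 127 else if k < 157 then 157
  else if k < 199 then 199 else if k < 257 then 257 else if k < 331 then 331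
  else if k < 431 then 431 else if k < 557 then 557 else 617

/-- cofactor for all `k ≥ 15`: self similar with ratio `41` -/
def jj (k : ℕ) : ℕ := if k < 615 then q0 k else 41 * jj (k / 41)
  termination_by k
  decreasing_by omega

lemma q0_mem : ∀ k ∈ Ico 15 615, q0 k ∈ ({29, 31, 37, 43, 47, 53, 59, 61, 73, 97, 127, 157, 199,
    257, 331, 431, 557, 617} : Finset ℕ) := by
  decide +kernel

lemma q0_prime {k : ℕ} (h1 : 15 ≤ k) (h2 : k < 615) : (q0 k).Prime := by
  have := q0_mem k (mem_Ico.mpr ⟨h1, h2⟩)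
  simp only [mem_insert, mem_singleton] at this
  rcases this with h | h | h | h | h | h | h | h | h | h | h | h | h | h | h | h | h | h <;>
    rw [h] <;> norm_num

lemma q0_range' : ∀ k ∈ Ico 15 615, k + 1 ≤ q0 k ∧ q0 k ≤ 2 * k := by
  decide +kernel

lemma q0_range {k : ℕ} (h1 : 15 ≤ k) (h2 : k < 615) : k + 1 ≤ q0 k ∧ q0 k ≤ 2 * k :=
  q0_range' k (mem_Ico.mpr ⟨h1, h2⟩)

lemma jj_lt {k : ℕ} (h : k < 615) : jj k = q0 k := by rw [jj, if_pos h]
lemma jj_ge {k : ℕ} (h : 615 ≤ k) : jj k = 41 * jj (k / 41) := by rw [jj, if_neg (by omega)]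

lemma jj_range : ∀ k, 15 ≤ k → k + 1 ≤ jj k ∧ jj k ≤ 2 * k := by
  intro k
  induction k using Nat.strong_induction_on with
  | _ k ih =>
    intro h
    rcases Nat.lt_or_ge k 615 with h1 | h1
    · rw [jj_lt h1]; exact q0_range h h1
    · rw [jj_ge h1]
      obtain ⟨h2, h3⟩ := ih (k / 41) (by omega) (by omega)
      omega

/-- half of the telescoping weight -/
noncomputable def lp (k : ℕ) : ℝ := (1 / 2) * (1 / (k:ℝ) - 1 / ((k:ℝ) + 1))

lemma lp_nonneg {k : ℕ} (hk : 1 ≤ k) : 0 ≤ lp k := by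
  unfold lp
  have h : (1:ℝ) ≤ k := by exact_mod_cast hk
  have : 1 / ((k:ℝ) + 1) ≤ 1 / k := one_div_le_one_div_of_le (by linarith) (by linarith)
  linarith

lemma sum_lp {a b : ℕ} (hab : a ≤ b) :
    ∑ k ∈ Ico a b, lp k = (1 / 2) * (1 / (a:ℝ) - 1 / b) := by
  induction b, hab using Nat.le_induction with
  | base => simp
  | succ b hab ih =>
    rw [sum_Ico_succ_top hab, ih, lp]
    push_cast
    ring

lemma l_le_lp {k : ℕ} (hk : 1 ≤ k) : 1 / (((k:ℝ) + 1) * (2 * k + 1)) ≤ lp k := by
  have h : (1:ℝ) ≤ k := by exact_mod_cast hk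
  have e : lp k = 1 / (((k:ℝ) + 1) * (2 * k)) := by
    unfold lp
    field_simp
    ring
  rw [e]
  apply one_div_le_one_div_of_le (by positivity)
  have : 0 < (k:ℝ) + 1 := by linarith
  nlinarith

lemma sum_blocks (F : ℕ → ℝ) {a b : ℕ} (hab : a ≤ b) :
    ∑ k ∈ Ico (41 * a) (41 * b), F k = ∑ j ∈ Ico a b, ∑ k ∈ Ico (41 * j) (41 * (j + 1)), F k := by
  induction b, hab using Nat.le_induction with
  | base => simp
  | succ b hab ih =>
    rw [sum_Ico_succ_top hab, ← ih, sum_Ico_consecutive F (by omega) (by omega)]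

lemma sum_scaled (g : ℕ → ℝ) {a b : ℕ} (hab : a ≤ b) (ha : 1 ≤ a) :
    ∑ k ∈ Ico (41 * a) (41 * b), g (k / 41) * lp k = (1 / 41) * ∑ j ∈ Ico a b, g j * lp j := by
  rw [sum_blocks _ hab, mul_sum]
  refine sum_congr rfl fun j hj => ?_
  have hj1 : 1 ≤ j := by rw [mem_Ico] at hj; omega
  have h1 : ∀ k ∈ Ico (41 * j) (41 * (j + 1)), g (k / 41) * lp k = g j * lp k := by
    intro k hk
    rw [mem_Ico] at hk
    have : k / 41 = j := by omega
    rw [this]
  rw [sum_congr rfl h1, ← mul_sum, sum_lp (by omega)]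
  unfold lp
  have : (0:ℝ) < j := by exact_mod_cast hj1
  push_cast
  field_simp

/-- the loads of the base table -/
noncomputable def bq (q : ℕ) : ℝ := ∑ k ∈ Ico 15 615, (jj k).factorization q * lp k

lemma load_iter (q : ℕ) (hq : q.Prime) (i : ℕ) :
    ∑ k ∈ Ico 15 (15 * 41 ^ (i + 1)), (jj k).factorization q * lp k
      = bq q + (1 / 41) * (∑ k ∈ Ico 15 (15 * 41 ^ i), (jj k).factorization q * lp k)
        + (if q = 41 then 1 else 0) * ((1 / 41) * ∑ k ∈ Ico 15 (15 * 41 ^ i), lp k) := by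
  have h41 : 15 ≤ 15 * 41 ^ i := Nat.le_mul_of_pos_right _ (by positivity)
  have h1 : 615 ≤ 15 * 41 ^ (i + 1) := by
    rw [pow_succ]
    have : 1 ≤ 41 ^ i := Nat.one_le_pow _ _ (by norm_num)
    omega
  rw [← sum_Ico_consecutive _ (show 15 ≤ 615 by norm_num) h1]
  have e1 : 615 = 41 * 15 := by norm_num
  have e2 : 15 * 41 ^ (i + 1) = 41 * (15 * 41 ^ i) := by ring
  have h2 : ∑ k ∈ Ico 615 (15 * 41 ^ (i + 1)), (jj k).factorization q * lp k
      = ∑ k ∈ Ico (41 * 15) (41 * (15 * 41 ^ i)),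
        (fun j => ((jj j).factorization q : ℝ) + (if q = 41 then 1 else 0)) (k / 41) * lp k := by
    rw [e2]
    refine sum_congr (by rw [e1]) fun k hk => ?_
    rw [mem_Ico] at hk
    have h3 : jj (k / 41) ≠ 0 := by
      have := (jj_range (k / 41) (by omega)).1
      omega
    have h4 : (jj k).factorization q = (jj (k / 41)).factorization q + (if q = 41 then 1 else 0) := by
      rw [jj_ge (by omega), Nat.factorization_mul (by norm_num) h3,
        Nat.Prime.factorization (by norm_num : Nat.Prime 41)]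
      simp only [Finsupp.coe_add, Pi.add_apply, Finsupp.single_apply]
      rw [add_comm]
      congr 1
      by_cases h : q = 41
      · rw [if_pos h, if_pos h.symm]
      · rw [if_neg h, if_neg (Ne.symm h)]
    rw [h4]
    push_cast
    rfl
  rw [h2, sum_scaled (fun j => ((jj j).factorization q : ℝ) + (if q = 41 then 1 else 0)) h41 (by norm_num)]
  unfold bq
  have h3 : ∑ j ∈ Ico 15 (15 * 41 ^ i), (((jj j).factorization q : ℝ) + (if q = 41 then 1 else 0)) * lp j
      = ∑ k ∈ Ico 15 (15 * 41 ^ i), (jj k).factorization q * lp k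
        + (if q = 41 then 1 else 0) * ∑ k ∈ Ico 15 (15 * 41 ^ i), lp k := by
    rw [mul_sum, ← sum_add_distrib]
    refine sum_congr rfl fun j _ => ?_
    split <;> ring
  rw [h3]
  split <;> ring

lemma load_all (q : ℕ) (hq : q.Prime) {β : ℝ} (hβ0 : 0 ≤ β)
    (hβ : bq q + β / 41 + (if q = 41 then 1 / 1230 else 0) ≤ β) (K : ℕ) :
    ∑ k ∈ Ico 15 K, (jj k).factorization q * lp k ≤ β := by
  have h1 : ∀ i : ℕ, ∑ k ∈ Ico 15 (15 * 41 ^ i), (jj k).factorization q * lp k ≤ β := by
    intro i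
    induction i with
    | zero => simpa using hβ0
    | succ i ih =>
      rw [load_iter q hq i]
      refine le_trans ?_ hβ
      have h2 : ∑ k ∈ Ico 15 (15 * 41 ^ i), lp k ≤ 1 / 30 := by
        rw [sum_lp (Nat.le_mul_of_pos_right _ (by positivity))]
        have : (0:ℝ) ≤ 1 / ((15 * 41 ^ i : ℕ) : ℝ) := by positivity
        push_cast at this ⊢
        linarith
      split <;> linarith
  have h2 : K ≤ 15 * 41 ^ K := by
    have : K < 41 ^ K := Nat.lt_pow_self (by norm_num)
    omega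
  refine le_trans ?_ (h1 K)
  refine sum_le_sum_of_subset_of_nonneg (Ico_subset_Ico_right h2) ?_
  intro k hk _
  rw [mem_Ico] at hk
  exact mul_nonneg (Nat.cast_nonneg _) (lp_nonneg (by omega))


lemma fac_prime {r q : ℕ} (hr : r.Prime) : ((r.factorization q : ℕ) : ℝ) = if q = r then 1 else 0 := by
  rw [Nat.Prime.factorization hr, Finsupp.single_apply]
  by_cases h : q = r
  · rw [if_pos h.symm, if_pos h]; norm_num
  · rw [if_neg (Ne.symm h), if_neg h]; norm_num

lemma seg (q : ℕ) {a b r : ℕ} (h : ∀ k ∈ Ico a b, q0 k = r) (hr : r.Prime) (hab : a ≤ b)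
    (hb : b ≤ 615) :
    ∑ k ∈ Ico a b, ((jj k).factorization q : ℝ) * lp k
      = (if q = r then 1 else 0) * ((1 / 2) * (1 / (a:ℝ) - 1 / b)) := by
  rw [← sum_lp hab, mul_sum]
  refine sum_congr rfl fun k hk => ?_
  have hk' := mem_Ico.mp hk
  rw [jj_lt (by omega), h k hk, fac_prime hr]

lemma bq_eq (q : ℕ) : bq q = (if q = 29 then 1 else 0) * ((1 / 2) * (1 / 15 - 1 / 16)) + (if q = 31 then 1 else 0) * ((1 / 2) * (1 / 16 - 1 / 19)) + (if q = 37 then 1 else 0) * ((1 / 2) * (1 / 19 - 1 / 22)) + (if q = 43 then 1 else 0) * ((1 / 2) * (1 / 22 - 1 / 26)) + (if q = 47 then 1 else 0) * ((1 / 2) * (1 / 26 - 1 / 31)) + (if q = 53 then 1 else 0) * ((1 / 2) * (1 / 31 - 1 / 37)) + (if q = 59 then 1 else 0) * ((1 / 2) * (1 / 37 - 1 / 45)) + (if q = 61 then 1 else 0) * ((1 / 2) * (1 / 45 - 1 / 58)) + (if q = 73 then 1 else 0) * ((1 / 2) * (1 / 58 - 1 / 73)) + (if q = 97 then 1 else 0) * ((1 / 2) * (1 / 73 - 1 / 94)) + (if q = 127 then 1 else 0) * ((1 / 2) * (1 / 94 - 1 / 121)) +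 (if q = 157 then 1 else 0) * ((1 / 2) * (1 / 121 - 1 / 157)) + (if q = 199 then 1 else 0) * ((1 / 2) * (1 / 157 - 1 / 199)) + (if q = 257 then 1 else 0) * ((1 / 2) * (1 / 199 - 1 / 257)) + (if q = 331 then 1 else 0) * ((1 / 2) * (1 / 257 - 1 / 331)) + (if q = 431 then 1 else 0) * ((1 / 2) * (1 / 331 - 1 / 431)) + (if q = 557 then 1 else 0) * ((1 / 2) * (1 / 431 - 1 / 557)) + (if q = 617 then 1 else 0) * ((1 / 2) * (1 / 557 - 1 / 615)) := by
  unfold bq
  rw [← sum_Ico_consecutive _ (show 15 ≤ 16 by norm_num) (show 16 ≤ 615 by norm_num),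
    seg q (r := 29) (by decide +kernel) (by norm_num) (by norm_num) (by norm_num)]
  rw [← sum_Ico_consecutive _ (show 16 ≤ 19 by norm_num) (show 19 ≤ 615 by norm_num),
    seg q (r := 31) (by decide +kernel) (by norm_num) (by norm_num) (by norm_num)]
  rw [← sum_Ico_consecutive _ (show 19 ≤ 22 by norm_num) (show 22 ≤ 615 by norm_num),
    seg q (r := 37) (by decide +kernel) (by norm_num) (by norm_num) (by norm_num)]
  rw [← sum_Ico_consecutive _ (show 22 ≤ 26 by norm_num) (show 26 ≤ 615 by norm_num),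
    seg q (r := 43) (by decide +kernel) (by norm_num) (by norm_num) (by norm_num)]
  rw [← sum_Ico_consecutive _ (show 26 ≤ 31 by norm_num) (show 31 ≤ 615 by norm_num),
    seg q (r := 47) (by decide +kernel) (by norm_num) (by norm_num) (by norm_num)]
  rw [← sum_Ico_consecutive _ (show 31 ≤ 37 by norm_num) (show 37 ≤ 615 by norm_num),
    seg q (r := 53) (by decide +kernel) (by norm_num) (by norm_num) (by norm_num)]
  rw [← sum_Ico_consecutive _ (show 37 ≤ 45 by norm_num) (show 45 ≤ 615 by norm_num),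
    seg q (r := 59) (by decide +kernel) (by norm_num) (by norm_num) (by norm_num)]
  rw [← sum_Ico_consecutive _ (show 45 ≤ 58 by norm_num) (show 58 ≤ 615 by norm_num),
    seg q (r := 61) (by decide +kernel) (by norm_num) (by norm_num) (by norm_num)]
  rw [← sum_Ico_consecutive _ (show 58 ≤ 73 by norm_num) (show 73 ≤ 615 by norm_num),
    seg q (r := 73) (by decide +kernel) (by norm_num) (by norm_num) (by norm_num)]
  rw [← sum_Ico_consecutive _ (show 73 ≤ 94 by norm_num) (show 94 ≤ 615 by norm_num),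
    seg q (r := 97) (by decide +kernel) (by norm_num) (by norm_num) (by norm_num)]
  rw [← sum_Ico_consecutive _ (show 94 ≤ 121 by norm_num) (show 121 ≤ 615 by norm_num),
    seg q (r := 127) (by decide +kernel) (by norm_num) (by norm_num) (by norm_num)]
  rw [← sum_Ico_consecutive _ (show 121 ≤ 157 by norm_num) (show 157 ≤ 615 by norm_num),
    seg q (r := 157) (by decide +kernel) (by norm_num) (by norm_num) (by norm_num)]
  rw [← sum_Ico_consecutive _ (show 157 ≤ 199 by norm_num) (show 199 ≤ 615 by norm_num),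
    seg q (r := 199) (by decide +kernel) (by norm_num) (by norm_num) (by norm_num)]
  rw [← sum_Ico_consecutive _ (show 199 ≤ 257 by norm_num) (show 257 ≤ 615 by norm_num),
    seg q (r := 257) (by decide +kernel) (by norm_num) (by norm_num) (by norm_num)]
  rw [← sum_Ico_consecutive _ (show 257 ≤ 331 by norm_num) (show 331 ≤ 615 by norm_num),
    seg q (r := 331) (by decide +kernel) (by norm_num) (by norm_num) (by norm_num)]
  rw [← sum_Ico_consecutive _ (show 331 ≤ 431 by norm_num) (show 431 ≤ 615 by norm_num),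
    seg q (r := 431) (by decide +kernel) (by norm_num) (by norm_num) (by norm_num)]
  rw [← sum_Ico_consecutive _ (show 431 ≤ 557 by norm_num) (show 557 ≤ 615 by norm_num),
    seg q (r := 557) (by decide +kernel) (by norm_num) (by norm_num) (by norm_num)]
  rw [seg q (r := 617) (by decide +kernel) (by norm_num) (by norm_num) (by norm_num)]
  push_cast
  ring

end Pool.Agent.Helper602.PL
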