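import Mathlib
import Pool.Agent.Helper602.PL1

open Finset

namespace Pool.Agent.Helper602.PL

open Lower (c)

lemma bq_zero {q : ℕ} (h : q ∉ ({29, 31, 37, 43, 47, 53, 59, 61, 73, 97, 127, 157, 199,
    257, 331, 431, 557, 617} : Finset ℕ)) : bq q = 0 := by
  simp only [mem_insert, mem_singleton, not_or] at h
  obtain ⟨h1, h2, h3, h4, h5, h6, h7, h8, h9, h10, h11, h12, h13, h14, h15, h16, h17, h18⟩ := h
  rw [bq_eq, if_neg h1, if_neg h2, if_neg h3, if_neg h4, if_neg h5, if_neg h6, if_neg h7, if_neg h8,
    if_neg h9, if_neg h10, if_neg h11, if_neg h12, if_neg h13, if_neg h14, if_neg h15, if_neg h16,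
    if_neg h17, if_neg h18]
  ring

lemma tail_small {q : ℕ} (hq : q.Prime) (h : q < 29) (K : ℕ) :
    ∑ k ∈ Ico 15 K, ((jj k).factorization q : ℝ) * lp k ≤ 0 := by
  refine load_all q hq le_rfl ?_ K
  rw [bq_zero (by simp only [mem_insert, mem_singleton]; omega), if_neg (by omega)]
  norm_num

lemma tail_29 (K : ℕ) :
    ∑ k ∈ Ico 15 K, ((jj k).factorization 29 : ℝ) * lp k ≤ c / 28 - 1 / 435 := by
  refine load_all 29 (by norm_num) (by unfold c; norm_num) ?_ K
  rw [bq_eq]
  unfold c
  norm_num

lemma tail_big {q : ℕ} (hq : q.Prime) (h : 29 < q) (K : ℕ) :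
    ∑ k ∈ Ico 15 K, ((jj k).factorization q : ℝ) * lp k ≤ c / ((q:ℝ) - 1) := by
  have hq1 : (0:ℝ) < (q:ℝ) - 1 := by
    have : (29:ℝ) < q := by exact_mod_cast h
    linarith
  have hc : 0 < c := by unfold c; norm_num
  refine load_all q hq (by positivity) ?_ K
  by_cases h41 : q = 41
  · subst h41
    rw [bq_zero (by decide), if_pos rfl]
    unfold c
    norm_num
  rw [if_neg h41]
  by_cases hmem : q ∈ ({29, 31, 37, 43, 47, 53, 59, 61, 73, 97, 127, 157, 199,
    257, 331, 431, 557, 617} : Finset ℕ)
  · simp only [mem_insert, mem_singleton] at hmem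
    rcases hmem with h' | h' | h' | h' | h' | h' | h' | h' | h' | h' | h' | h' | h' | h' | h' | h' | h' | h'
    · omega
    all_goals
      subst h'
      rw [bq_eq]
      unfold c
      norm_num
  · rw [bq_zero hmem]
    have : 0 < c / ((q:ℝ) - 1) := by positivity
    linarith

/-- first option for the cofactor -/
def ja (k : ℕ) : ℕ :=
  if 15 ≤ k then jj k else
    ([1, 2, 3, 5, 5, 7, 13, 11, 11, 19, 17, 23, 23, 17, 29] : List ℕ).getD k 1

/-- second option for the cofactor -/
def jb (k : ℕ) : ℕ :=
  if 15 ≤ k then jj k else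
    ([1, 3, 5, 5, 7, 11, 13, 13, 17, 19, 19, 23, 23, 23, 29] : List ℕ).getD k 1

/-- fraction of the first option -/
noncomputable def lam (k : ℕ) : ℝ :=
  if k = 1 then 8059279196/8656679395 else if k = 2 then 3432239399/3462671758
  else if k = 4 then 776308275/6925343516 else if k = 5 then 60906329/150550946
  else if k = 7 then 3983969281/5194007637 else if k = 8 then 3520187831/224055231400
  else if k = 10 then 4997510629/22260032730 else if k = 13 then 117890228609/136033533350
  else 1

lemma lam_nonneg (k : ℕ) : 0 ≤ lam k := by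
  unfold lam
  repeat' split
  all_goals norm_num

lemma lam_le_one (k : ℕ) : lam k ≤ 1 := by
  unfold lam
  repeat' split
  all_goals norm_num

lemma ja_range {k : ℕ} (hk : 1 ≤ k) : k + 1 ≤ ja k ∧ ja k ≤ 2 * k + 1 := by
  unfold ja
  split
  · rename_i h
    have := jj_range k h
    omega
  · rename_i h
    have hk' : k ∈ Ico 1 15 := mem_Ico.mpr ⟨hk, by omega⟩
    have : ∀ k ∈ Ico 1 15, k + 1 ≤ ([1, 2, 3, 5, 5, 7, 13, 11, 11, 19, 17, 23, 23, 17, 29] : List ℕ).getD k 1 ∧
      ([1, 2, 3, 5, 5, 7, 13, 11, 11, 19, 17, 23, 23, 17, 29] : List ℕ).getD k 1 ≤ 2 * k + 1 := by decide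
    exact this k hk'

lemma jb_range {k : ℕ} (hk : 1 ≤ k) : k + 1 ≤ jb k ∧ jb k ≤ 2 * k + 1 := by
  unfold jb
  split
  · rename_i h
    have := jj_range k h
    omega
  · rename_i h
    have hk' : k ∈ Ico 1 15 := mem_Ico.mpr ⟨hk, by omega⟩
    have : ∀ k ∈ Ico 1 15, k + 1 ≤ ([1, 3, 5, 5, 7, 11, 13, 13, 17, 19, 19, 23, 23, 23, 29] : List ℕ).getD k 1 ∧
      ([1, 3, 5, 5, 7, 11, 13, 13, 17, 19, 19, 23, 23, 23, 29] : List ℕ).getD k 1 ≤ 2 * k + 1 := by decide
    exact this k hk'

/-- weight of `q` at `k` -/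
noncomputable def wt (q k : ℕ) : ℝ :=
  (lam k * (ja k).factorization q + (1 - lam k) * (jb k).factorization q)

lemma wt_nonneg (q k : ℕ) : 0 ≤ wt q k := by
  unfold wt
  have h1 := lam_nonneg k
  have h2 : 0 ≤ 1 - lam k := by linarith [lam_le_one k]
  positivity

lemma head_eq (q : ℕ) : ∑ k ∈ Ico 1 15, wt q k * (1 / (((k:ℝ) + 1) * (2 * k + 1))) =
    (8059279196/8656679395 * (if q = 2 then 1 else 0) + (1 - 8059279196/8656679395) * (if q = 3 then 1 else 0)) / 6
    + (3432239399/3462671758 * (if q = 3 then 1 else 0) + (1 - 3432239399/3462671758) * (if q = 5 then 1 else 0)) / 15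
    + (if q = 5 then 1 else 0) / 28
    + (776308275/6925343516 * (if q = 5 then 1 else 0) + (1 - 776308275/6925343516) * (if q = 7 then 1 else 0)) / 45
    + (60906329/150550946 * (if q = 7 then 1 else 0) + (1 - 60906329/150550946) * (if q = 11 then 1 else 0)) / 66
    + (if q = 13 then 1 else 0) / 91
    + (3983969281/5194007637 * (if q = 11 then 1 else 0) + (1 - 3983969281/5194007637) * (if q = 13 then 1 else 0)) / 120
    + (3520187831/224055231400 * (if q = 11 then 1 else 0) + (1 - 3520187831/224055231400) * (if q = 17 then 1 else 0)) / 153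
    + (if q = 19 then 1 else 0) / 190
    + (4997510629/22260032730 * (if q = 17 then 1 else 0) + (1 - 4997510629/22260032730) * (if q = 19 then 1 else 0)) / 231
    + (if q = 23 then 1 else 0) / 276
    + (if q = 23 then 1 else 0) / 325
    + (117890228609/136033533350 * (if q = 17 then 1 else 0) + (1 - 117890228609/136033533350) * (if q = 23 then 1 else 0)) / 378
    + (if q = 29 then 1 else 0) / 435 := by
  have hI : Ico 1 15 = ({1, 2, 3, 4, 5, 6, 7, 8, 9, 10, 11, 12, 13, 14} : Finset ℕ) := by decide
  rw [hI]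
  have f2 := fac_prime (q := q) (show Nat.Prime 2 by norm_num)
  have f3 := fac_prime (q := q) (show Nat.Prime 3 by norm_num)
  have f5 := fac_prime (q := q) (show Nat.Prime 5 by norm_num)
  have f7 := fac_prime (q := q) (show Nat.Prime 7 by norm_num)
  have f11 := fac_prime (q := q) (show Nat.Prime 11 by norm_num)
  have f13 := fac_prime (q := q) (show Nat.Prime 13 by norm_num)
  have f17 := fac_prime (q := q) (show Nat.Prime 17 by norm_num)
  have f19 := fac_prime (q := q) (show Nat.Prime 19 by norm_num)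
  have f23 := fac_prime (q := q) (show Nat.Prime 23 by norm_num)
  have f29 := fac_prime (q := q) (show Nat.Prime 29 by norm_num)
  have w1 : wt q 1 = 8059279196/8656679395 * (if q = 2 then 1 else 0) + (1 - 8059279196/8656679395) * (if q = 3 then 1 else 0) := by
    have a : ja 1 = 2 := rfl
    have b : jb 1 = 3 := rfl
    have l : lam 1 = 8059279196/8656679395 := by simp [lam]
    rw [wt, a, b, l, f2, f3]
  have w2 : wt q 2 = 3432239399/3462671758 * (if q = 3 then 1 else 0) + (1 - 3432239399/3462671758) * (if q = 5 then 1 else 0) := by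
    have a : ja 2 = 3 := rfl
    have b : jb 2 = 5 := rfl
    have l : lam 2 = 3432239399/3462671758 := by simp [lam]
    rw [wt, a, b, l, f3, f5]
  have w3 : wt q 3 = (if q = 5 then 1 else 0) := by
    have a : ja 3 = 5 := rfl
    have b : jb 3 = 5 := rfl
    have l : lam 3 = 1 := by simp [lam]
    rw [wt, a, b, l, f5]; ring
  have w4 : wt q 4 = 776308275/6925343516 * (if q = 5 then 1 else 0) + (1 - 776308275/6925343516) * (if q = 7 then 1 else 0) := by
    have a : ja 4 = 5 := rfl
    have b : jb 4 = 7 := rfl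
    have l : lam 4 = 776308275/6925343516 := by simp [lam]
    rw [wt, a, b, l, f5, f7]
  have w5 : wt q 5 = 60906329/150550946 * (if q = 7 then 1 else 0) + (1 - 60906329/150550946) * (if q = 11 then 1 else 0) := by
    have a : ja 5 = 7 := rfl
    have b : jb 5 = 11 := rfl
    have l : lam 5 = 60906329/150550946 := by simp [lam]
    rw [wt, a, b, l, f7, f11]
  have w6 : wt q 6 = (if q = 13 then 1 else 0) := by
    have a : ja 6 = 13 := rfl
    have b : jb 6 = 13 := rfl
    have l : lam 6 = 1 := by simp [lam]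
    rw [wt, a, b, l, f13]; ring
  have w7 : wt q 7 = 3983969281/5194007637 * (if q = 11 then 1 else 0) + (1 - 3983969281/5194007637) * (if q = 13 then 1 else 0) := by
    have a : ja 7 = 11 := rfl
    have b : jb 7 = 13 := rfl
    have l : lam 7 = 3983969281/5194007637 := by simp [lam]
    rw [wt, a, b, l, f11, f13]
  have w8 : wt q 8 = 3520187831/224055231400 * (if q = 11 then 1 else 0) + (1 - 3520187831/224055231400) * (if q = 17 then 1 else 0) := by
    have a : ja 8 = 11 := rfl
    have b : jb 8 = 17 := rfl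
    have l : lam 8 = 3520187831/224055231400 := by simp [lam]
    rw [wt, a, b, l, f11, f17]
  have w9 : wt q 9 = (if q = 19 then 1 else 0) := by
    have a : ja 9 = 19 := rfl
    have b : jb 9 = 19 := rfl
    have l : lam 9 = 1 := by simp [lam]
    rw [wt, a, b, l, f19]; ring
  have w10 : wt q 10 = 4997510629/22260032730 * (if q = 17 then 1 else 0) + (1 - 4997510629/22260032730) * (if q = 19 then 1 else 0) := by
    have a : ja 10 = 17 := rfl
    have b : jb 10 = 19 := rfl
    have l : lam 10 = 4997510629/22260032730 := by simp [lam]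
    rw [wt, a, b, l, f17, f19]
  have w11 : wt q 11 = (if q = 23 then 1 else 0) := by
    have a : ja 11 = 23 := rfl
    have b : jb 11 = 23 := rfl
    have l : lam 11 = 1 := by simp [lam]
    rw [wt, a, b, l, f23]; ring
  have w12 : wt q 12 = (if q = 23 then 1 else 0) := by
    have a : ja 12 = 23 := rfl
    have b : jb 12 = 23 := rfl
    have l : lam 12 = 1 := by simp [lam]
    rw [wt, a, b, l, f23]; ring
  have w13 : wt q 13 = 117890228609/136033533350 * (if q = 17 then 1 else 0) + (1 - 117890228609/136033533350) * (if q = 23 then 1 else 0) := by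
    have a : ja 13 = 17 := rfl
    have b : jb 13 = 23 := rfl
    have l : lam 13 = 117890228609/136033533350 := by simp [lam]
    rw [wt, a, b, l, f17, f23]
  have w14 : wt q 14 = (if q = 29 then 1 else 0) := by
    have a : ja 14 = 29 := rfl
    have b : jb 14 = 29 := rfl
    have l : lam 14 = 1 := by simp [lam]
    rw [wt, a, b, l, f29]; ring
  rw [sum_insert (by decide), sum_insert (by decide), sum_insert (by decide), sum_insert (by decide),
    sum_insert (by decide), sum_insert (by decide), sum_insert (by decide), sum_insert (by decide),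
    sum_insert (by decide), sum_insert (by decide), sum_insert (by decide), sum_insert (by decide),
    sum_insert (by decide), sum_singleton]
  rw [w1, w2, w3, w4, w5, w6, w7, w8, w9, w10, w11, w12, w13, w14]
  push_cast
  ring

lemma wt_tail {q k : ℕ} (hk : 15 ≤ k) : wt q k = (jj k).factorization q := by
  have a : ja k = jj k := by unfold ja; rw [if_pos hk]
  have b : jb k = jj k := by unfold jb; rw [if_pos hk]
  have l : lam k = 1 := by
    unfold lam
    rw [if_neg (by omega), if_neg (by omega), if_neg (by omega), if_neg (by omega), if_neg (by omega),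
      if_neg (by omega), if_neg (by omega), if_neg (by omega)]
  rw [wt, a, b, l]; ring

/-- the total load of a prime never exceeds its capacity -/
theorem load_le (q : ℕ) (hq : q.Prime) (K : ℕ) :
    ∑ k ∈ Ico 1 K, wt q k * (1 / (((k:ℝ) + 1) * (2 * k + 1))) ≤ c / ((q:ℝ) - 1) := by
  have hnn : ∀ k : ℕ, 0 ≤ wt q k * (1 / (((k:ℝ) + 1) * (2 * k + 1))) := fun k =>
    mul_nonneg (wt_nonneg q k) (by positivity)
  have h1 : ∑ k ∈ Ico 1 K, wt q k * (1 / (((k:ℝ) + 1) * (2 * k + 1)))
      ≤ ∑ k ∈ Ico 1 (15 + K), wt q k * (1 / (((k:ℝ) + 1) * (2 * k + 1))) :=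
    sum_le_sum_of_subset_of_nonneg (Ico_subset_Ico_right (by omega)) fun k _ _ => hnn k
  refine h1.trans ?_
  rw [← sum_Ico_consecutive _ (show 1 ≤ 15 by norm_num) (show 15 ≤ 15 + K by omega)]
  have h2 : ∑ k ∈ Ico 15 (15 + K), wt q k * (1 / (((k:ℝ) + 1) * (2 * k + 1)))
      ≤ ∑ k ∈ Ico 15 (15 + K), ((jj k).factorization q : ℝ) * lp k := by
    refine sum_le_sum fun k hk => ?_
    rw [mem_Ico] at hk
    rw [wt_tail hk.1]
    exact mul_le_mul_of_nonneg_left (l_le_lp (by omega)) (Nat.cast_nonneg _)
  rw [head_eq]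
  have hc : 0 < c := by unfold c; norm_num
  rcases Nat.lt_trichotomy q 29 with h | h | h
  · have h3 := tail_small hq h (15 + K)
    have hq' : q = 2 ∨ q = 3 ∨ q = 5 ∨ q = 7 ∨ q = 11 ∨ q = 13 ∨ q = 17 ∨ q = 19 ∨ q = 23 := by
      clear h1 h2 h3 hnn
      interval_cases q <;> first | (norm_num at hq; done) | simp
    rcases hq' with h' | h' | h' | h' | h' | h' | h' | h' | h' <;>
    · subst h'
      refine (add_le_add_right (h2.trans h3) _).trans ?_
      unfold c
      norm_num
  · subst h
    refine (add_le_add_right (h2.trans (tail_29 (15 + K))) _).trans ?_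
    norm_num
  · refine (add_le_add_right (h2.trans (tail_big hq h (15 + K))) _).trans ?_
    rw [if_neg (by omega), if_neg (by omega), if_neg (by omega), if_neg (by omega), if_neg (by omega),
      if_neg (by omega), if_neg (by omega), if_neg (by omega), if_neg (by omega), if_neg (by omega)]
    norm_num

end Pool.Agent.Helper602.PL
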