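import Mathlib
import Pool.Agent.Helper602.PL2
import Pool.Agent.Helper602.GL

open Finset

namespace Pool.Agent.Helper602.PL

open Fam Sel Val Lower

/-- a family `J p * p` indexed by big primes -/
lemma fam_cof {δ z : ℕ} (hzδ : z ≤ δ) (P : Finset ℕ) (J : ℕ → ℕ)
    (hP : ∀ p ∈ P, p.Prime ∧ δ < p ∧ 0 < J p ∧ (∀ q, q.Prime → q ∣ J p → q ≤ z)) :
    Set.InjOn (fun p => J p * p) P ∧
    (∀ q, q.Prime → q ≤ z → prof (P.image (fun p => J p * p)) q = ∑ p ∈ P, (J p).factorization q) ∧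
    (∀ p, p.Prime → z < p → prof (P.image (fun p => J p * p)) p = if p ∈ P then 1 else 0) := by
  have hfac : ∀ p ∈ P, ∀ q, (J p * p).factorization q = (J p).factorization q + if q = p then 1 else 0 := by
    intro p hp q
    obtain ⟨h1, h2, h3, h4⟩ := hP p hp
    rw [Nat.factorization_mul h3.ne' h1.ne_zero, Nat.Prime.factorization h1]
    simp only [Finsupp.coe_add, Pi.add_apply, Finsupp.single_apply]
    congr 1
    by_cases h : q = p
    · rw [if_pos h, if_pos h.symm]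
    · rw [if_neg h, if_neg (Ne.symm h)]
  have hinj : Set.InjOn (fun p => J p * p) P := by
    intro p hp p' hp' h
    rw [mem_coe] at hp hp'
    obtain ⟨h1, h2, h3, h4⟩ := hP p hp
    obtain ⟨h1', h2', h3', h4'⟩ := hP p' hp'
    simp only at h
    have hd : p ∣ J p' * p' := by rw [← h]; exact Dvd.intro_left _ rfl
    rcases (Nat.Prime.dvd_mul h1).mp hd with h5 | h5
    · have := h4' p h1 h5
      omega
    · exact (Nat.prime_dvd_prime_iff_eq h1 h1').mp h5
  refine ⟨hinj, ?_, ?_⟩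
  · intro q hq hqz
    rw [prof_image P _ hinj]
    refine sum_congr rfl fun p hp => ?_
    rw [hfac p hp, if_neg (by have := (hP p hp).2.1; omega), add_zero]
  · intro q hq hqz
    rw [prof_image P _ hinj]
    have : ∀ p ∈ P, (J p * p).factorization q = if q = p then 1 else 0 := by
      intro p hp
      rw [hfac p hp]
      have h0 : (J p).factorization q = 0 := by
        refine Nat.factorization_eq_zero_of_not_dvd ?_
        intro hd
        have := (hP p hp).2.2.2 q hq hd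
        omega
      rw [h0, zero_add]
    rw [sum_congr rfl this, sum_ite_eq]

lemma E_big {n δ p : ℕ} (hp : p.Prime) (hpm : 2 * n + δ < p ^ 2) :
    E n δ p = (2 * n + δ) / p - 2 * (n / p) := by
  unfold E
  have h1 : Nat.log p (2 * n + δ) < 2 := Nat.log_lt_of_lt_pow' (by norm_num) hpm
  have h2 : Nat.log p n < 2 := Nat.log_lt_of_lt_pow' (by norm_num) (by omega)
  rw [Nat.factorization_factorial hp h1, Nat.factorization_factorial hp h2]
  simp

/-- natural multiples -/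
noncomputable def T (n δ K : ℕ) : Finset ℕ := by
  classical
  exact (Ioc (2 * n) (2 * n + δ)).filter (fun t => ∃ p, p.Prime ∧ n < K * p ∧ p ∣ t)

lemma mem_T {n δ K t : ℕ} : t ∈ T n δ K ↔ (2 * n < t ∧ t ≤ 2 * n + δ) ∧ ∃ p, p.Prime ∧ n < K * p ∧ p ∣ t := by
  classical
  unfold T
  rw [mem_filter, mem_Ioc]

/-- each natural multiple is `p * j` with `j ≤ 2K`. -/
lemma T_cof {n δ K t p : ℕ} (hKδ : K * δ ≤ n) (ht : t ∈ T n δ K) (hp : p.Prime) (hpK : n < K * p)
    (hpt : p ∣ t) : t / p ≤ 2 * K := by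
  rw [mem_T] at ht
  obtain ⟨j, rfl⟩ := hpt
  rw [Nat.mul_div_cancel_left _ hp.pos]
  by_contra hcon
  push Not at hcon
  have h1 : (2 * K + 1) * n < K * (2 * n + δ) + 1 := by
    have h2 : j * n ≤ j * (K * p) := Nat.mul_le_mul_left _ hpK.le
    have h3 : (2 * K + 1) * n ≤ j * n := Nat.mul_le_mul_right _ hcon
    have h4 : j * (K * p) = K * (p * j) := by ring
    have h5 : K * (p * j) ≤ K * (2 * n + δ) := Nat.mul_le_mul_left _ ht.1.2
    omega
  have h2 : j * n < j * (K * p) := Nat.mul_lt_mul_of_pos_left hpK (by omega)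
  have h3 : (2 * K + 1) * n ≤ j * n := Nat.mul_le_mul_right _ hcon
  have h4 : j * (K * p) = K * (p * j) := by ring
  have h5 : K * (p * j) ≤ K * (2 * n + δ) := Nat.mul_le_mul_left _ ht.1.2
  have h6 : K * (2 * n + δ) = 2 * K * n + K * δ := by ring
  have h7 : (2 * K + 1) * n = 2 * K * n + n := by ring
  omega

lemma T_prof_big {n δ K p : ℕ} (hδ : 2 * n + δ < δ ^ 2)
    (hp : p.Prime) (hpδ : δ < p) :
    prof (T n δ K) p = if n < K * p then (2 * n + δ) / p - 2 * n / p else 0 := by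
  classical
  have hpm : 2 * n + δ < p ^ 2 := lt_of_lt_of_le hδ (Nat.pow_le_pow_left hpδ.le 2)
  rw [prof_eq_card (m := 2 * n + δ) hp hpm (by intro r hr; rw [mem_T] at hr; omega)]
  split
  · rename_i hK
    have h1 : (T n δ K).filter (p ∣ ·) = (Ioc (2 * n) (2 * n + δ)).filter (p ∣ ·) := by
      ext t
      rw [mem_filter, mem_filter, mem_T, mem_Ioc]
      constructor
      · rintro ⟨⟨h1, _⟩, h2⟩; exact ⟨h1, h2⟩
      · rintro ⟨h1, h2⟩; exact ⟨⟨h1, p, hp, hK, h2⟩, h2⟩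
    have h2 : (Ioc (2 * n) (2 * n + δ)).filter (p ∣ ·) = (Ioc 0 (2 * n + δ)).filter (p ∣ ·) \
        (Ioc 0 (2 * n)).filter (p ∣ ·) := by
      ext t
      simp only [mem_filter, mem_Ioc, mem_sdiff]
      constructor
      · rintro ⟨h1, h2⟩
        exact ⟨⟨by omega, h2⟩, fun h3 => by omega⟩
      · rintro ⟨⟨h1, h2⟩, h3⟩
        refine ⟨⟨?_, h1.2⟩, h2⟩
        by_contra hcon
        exact h3 ⟨by omega, h2⟩
    have h3 : (Ioc 0 (2 * n)).filter (p ∣ ·) ⊆ (Ioc 0 (2 * n + δ)).filter (p ∣ ·) := by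
      intro t ht
      rw [mem_filter, mem_Ioc] at ht ⊢
      exact ⟨by omega, ht.2⟩
    rw [h1, h2, card_sdiff_of_subset h3, Nat.Ioc_filter_dvd_card_eq_div, Nat.Ioc_filter_dvd_card_eq_div]
  · rename_i hK'
    rw [card_eq_zero, filter_eq_empty_iff]
    intro t ht hpt
    rw [mem_T] at ht
    obtain ⟨⟨h1, h2⟩, p', hp', h3, h4⟩ := ht
    have hne : p ≠ p' := by rintro rfl; exact hK' h3
    have h5 : p * p' ∣ t := Nat.Coprime.mul_dvd_of_dvd_of_dvd ((Nat.coprime_primes hp hp').mpr hne) hpt h4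
    have h6 := Nat.le_of_dvd (by omega) h5
    have h7 : p ≤ p' := by
      by_contra hcon
      push Not at hcon
      have : K * p' ≤ K * p := Nat.mul_le_mul_left _ hcon.le
      omega
    have h8 : p ^ 2 ≤ p * p' := by rw [sq]; exact Nat.mul_le_mul_left _ h7
    omega

lemma T_fac {n δ K t q : ℕ} (hKδ : K * δ ≤ n) (ht : t ∈ T n δ K) (hq : q.Prime)
    (hn : (2 * K) * (2 * K) ≤ n) : (q ≤ 2 * K → t.factorization q ≤ Nat.log 2 (2 * K)) ∧
    (2 * K < q → q ≤ δ → t.factorization q = 0) := by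
  have ht' := ht
  rw [mem_T] at ht
  obtain ⟨⟨h1, h2⟩, p, hp, h3, h4⟩ := ht
  have h5 := T_cof hKδ ht' hp h3 h4
  obtain ⟨j, rfl⟩ := h4
  rw [Nat.mul_div_cancel_left _ hp.pos] at h5
  have hj : 0 < j := by
    rcases Nat.eq_zero_or_pos j with h | h
    · rw [h, mul_zero] at h1; omega
    · exact h
  have hp2K : 2 * K < p := by
    by_contra hcon
    push Not at hcon
    have : K * p ≤ K * (2 * K) := Nat.mul_le_mul_left _ hcon
    have e : (2 * K) * (2 * K) = 2 * (K * (2 * K)) := by ring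
    omega
  have hfac : (p * j).factorization q = (if q = p then 1 else 0) + j.factorization q := by
    rw [Nat.factorization_mul hp.ne_zero hj.ne', Nat.Prime.factorization hp]
    simp only [Finsupp.coe_add, Pi.add_apply, Finsupp.single_apply]
    congr 1
    by_cases h : q = p
    · rw [if_pos h, if_pos h.symm]
    · rw [if_neg h, if_neg (Ne.symm h)]
  constructor
  · intro hqK
    rw [hfac, if_neg (by omega), zero_add]
    refine Nat.le_log_of_pow_le (by norm_num) ?_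
    calc 2 ^ j.factorization q ≤ q ^ j.factorization q := Nat.pow_le_pow_left hq.two_le _
      _ ≤ j := Nat.le_of_dvd hj (Nat.ordProj_dvd j q)
      _ ≤ 2 * K := h5
  · intro hqK hqδ
    have hne : q ≠ p := by
      rintro rfl
      have : K * q ≤ K * δ := Nat.mul_le_mul_left _ hqδ
      omega
    rw [hfac, if_neg hne, zero_add]
    refine Nat.factorization_eq_zero_of_not_dvd ?_
    intro hd
    have := Nat.le_of_dvd hj hd
    omega

/-- big primes with an element in the table range -/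
def PB (n K : ℕ) : Finset ℕ := (range K).biUnion (P n)

/-- mid primes, first kind -/
def PM1 (n K δ : ℕ) : Finset ℕ := (Est.Pr (n / K)).filter (fun p => δ < p ∧ 2 * n / p = 2 * (n / p) + 1)

/-- mid primes, second kind -/
def PM2 (n K δ : ℕ) : Finset ℕ := (Est.Pr (n / K)).filter (fun p => δ < p ∧ (2 * n + δ) / p = 2 * n / p + 1)

/-- cofactor of the first kind -/
def Jf (A : Finset ℕ) (n K p : ℕ) : ℕ :=
  if n < K * p then (if p ∈ A then ja (n / p) else jb (n / p)) else 2 ^ (Nat.log 2 (2 * n / p))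

/-- cofactor of the second kind -/
def J2 (n p : ℕ) : ℕ := 3 * 2 ^ (Nat.log 2 (2 * n / (3 * p)))

lemma P_div {n k p : ℕ} (hp : p ∈ P n k) : n / p = k ∧ 2 * n / p = 2 * k + 1 := by
  obtain ⟨h1, h2, h3⟩ := mem_P.mp hp
  have hpos := h1.pos
  have h4 : n / p = k := by
    rw [Nat.div_eq_iff hpos]
    constructor
    · nlinarith
    · have : (k + 1) * p = k * p + p := by ring
      omega
  refine ⟨h4, ?_⟩
  rw [Nat.div_eq_iff hpos]
  constructor
  · exact h3
  · have : 2 * ((k + 1) * p) = (2 * k + 1) * p + p := by ring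
    omega

lemma mem_PB {n K p : ℕ} : p ∈ PB n K ↔ p.Prime ∧ n < K * p ∧ 2 * n / p = 2 * (n / p) + 1 := by
  unfold PB
  rw [mem_biUnion]
  constructor
  · rintro ⟨k, hk, hp⟩
    rw [mem_range] at hk
    obtain ⟨h1, h2⟩ := P_div hp
    obtain ⟨h3, h4, h5⟩ := mem_P.mp hp
    refine ⟨h3, ?_, by rw [h1, h2]⟩
    exact lt_of_lt_of_le h4 (Nat.mul_le_mul_right _ hk)
  · rintro ⟨h1, h2, h3⟩
    refine ⟨n / p, ?_, mem_P.mpr ⟨h1, ?_, ?_⟩⟩
    · rw [mem_range, Nat.div_lt_iff_lt_mul h1.pos]; exact h2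
    · rw [mul_comm]; exact Nat.lt_mul_div_succ _ h1.pos
    · rw [← h3]; exact Nat.div_mul_le_self _ _

lemma div_two {n p : ℕ} (hp : 0 < p) : 2 * n / p = 2 * (n / p) ∨ 2 * n / p = 2 * (n / p) + 1 := by
  have h1 := Nat.div_add_mod n p
  have h2 := Nat.mod_lt n hp
  have h3 : 2 * n = p * (2 * (n / p)) + 2 * (n % p) := by
    calc 2 * n = 2 * (p * (n / p) + n % p) := by rw [h1]
      _ = _ := by ring
  rw [h3, Nat.mul_add_div hp]
  rcases Nat.lt_or_ge (2 * (n % p)) p with h | h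
  · left; rw [Nat.div_eq_of_lt h]; omega
  · right
    have : 2 * (n % p) / p = 1 := by
      rw [Nat.div_eq_iff hp]; omega
    omega

lemma div_add {n δ p : ℕ} (hp : δ < p) : (2 * n + δ) / p = 2 * n / p ∨ (2 * n + δ) / p = 2 * n / p + 1 := by
  have hp0 : 0 < p := by omega
  have h1 : 2 * n / p ≤ (2 * n + δ) / p := Nat.div_le_div_right (by omega)
  have h2 : (2 * n + δ) / p ≤ (2 * n + p) / p := Nat.div_le_div_right (by omega)
  rw [Nat.add_div_right _ hp0] at h2
  omega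

lemma Jf_PB {A : Finset ℕ} {n K p : ℕ} (hp : p ∈ PB n K) :
    0 < Jf A n K p ∧ Jf A n K p ≤ 2 * K ∧ n < Jf A n K p * p ∧ Jf A n K p * p ≤ 2 * n := by
  obtain ⟨h1, h2, h3⟩ := mem_PB.mp hp
  have hpos := h1.pos
  have hk : n / p < K := by rw [Nat.div_lt_iff_lt_mul hpos]; exact h2
  have h4 : n < (n / p + 1) * p := by rw [mul_comm]; exact Nat.lt_mul_div_succ _ hpos
  have h5 : (2 * (n / p) + 1) * p ≤ 2 * n := by rw [← h3]; exact Nat.div_mul_le_self _ _
  have hJ : n / p + 1 ≤ Jf A n K p ∧ Jf A n K p ≤ 2 * (n / p) + 1 := by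
    unfold Jf
    rw [if_pos h2]
    rcases Nat.eq_zero_or_pos (n / p) with h | h
    · rw [h]
      have a : ja 0 = 1 := rfl
      have b : jb 0 = 1 := rfl
      split <;> omega
    · split
      · exact ja_range h
      · exact jb_range h
  refine ⟨by omega, by omega, ?_, ?_⟩
  · exact lt_of_lt_of_le h4 (Nat.mul_le_mul_right _ hJ.1)
  · exact (Nat.mul_le_mul_right _ hJ.2).trans h5

lemma Jf_PM1 {A : Finset ℕ} {n K δ p : ℕ} (hK : 0 < K) (hp : p ∈ PM1 n K δ) :
    Jf A n K p = 2 ^ (Nat.log 2 (2 * n / p)) ∧ n < Jf A n K p * p ∧ Jf A n K p * p ≤ 2 * n := by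
  unfold PM1 at hp
  rw [mem_filter, Est.mem_Pr] at hp
  obtain ⟨⟨h1, h2⟩, h3, h4⟩ := hp
  have hKp : ¬ n < K * p := by
    rw [Nat.le_div_iff_mul_le hK] at h2
    rw [mul_comm]; omega
  have hJ : Jf A n K p = 2 ^ (Nat.log 2 (2 * n / p)) := by unfold Jf; rw [if_neg hKp]
  have hpn : p ≤ 2 * n := by
    have : n / K ≤ n := Nat.div_le_self _ _
    omega
  have h5 := scale h1.pos hpn
  rw [hJ]
  refine ⟨rfl, ?_, ?_⟩
  · rw [mul_comm]; exact h5.1
  · rw [mul_comm]; exact h5.2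

lemma J2_PM2 {n K δ p : ℕ} (hK : 3 ≤ K) (hp : p ∈ PM2 n K δ) :
    n < J2 n p * p ∧ J2 n p * p ≤ 2 * n := by
  unfold PM2 at hp
  rw [mem_filter, Est.mem_Pr] at hp
  obtain ⟨⟨h1, h2⟩, h3, h4⟩ := hp
  have hpn : 3 * p ≤ 2 * n := by
    rw [Nat.le_div_iff_mul_le (by omega)] at h2
    have : p * 3 ≤ p * K := Nat.mul_le_mul_left _ hK
    omega
  have h5 := scale (show 0 < 3 * p by have := h1.pos; omega) hpn
  unfold J2
  have e : 3 * 2 ^ (Nat.log 2 (2 * n / (3 * p))) * p = 3 * p * 2 ^ (Nat.log 2 (2 * n / (3 * p))) := by ring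
  rw [e]
  exact h5

end Pool.Agent.Helper602.PL
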