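import Mathlib
import Pool.Agent.Helper602.PL3

open Finset

namespace Pool.Agent.Helper602.PL

open Fam Sel Val Lower

lemma RL {n K δ z : ℕ} (A : Finset ℕ) (hK : 3 ≤ K) (hz : 2 * K ≤ z) (hzδ : z ≤ δ)
    (hKδ : K * δ ≤ n) (hn : (2 * K) * (2 * K) ≤ n) (hδ : 2 * n + δ < δ ^ 2) :
    ∃ R : Finset ℕ, (∀ r ∈ R, n < r ∧ r ≤ 2 * n + δ ∧ ∃ p, p.Prime ∧ δ < p ∧ p ∣ r) ∧
      (∀ p, p.Prime → δ < p → prof R p = E n δ p) ∧
      (∀ p, p.Prime → z < p → p ≤ δ → prof R p = 0) ∧
      (∀ q, q.Prime → q ≤ z → prof R q ≤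
        ∑ p ∈ PB n K, (if p ∈ A then ja (n / p) else jb (n / p)).factorization q
        + (T n δ K).card * Nat.log 2 (2 * K)
        + if q ≤ 3 then ∑ p ∈ Est.Pr (n / K), 2 * (Nat.log 2 (2 * n / p) + 1) else 0) := by
  classical
  have hPBδ : ∀ p ∈ PB n K, δ < p := by
    intro p hp
    obtain ⟨h1, h2, h3⟩ := mem_PB.mp hp
    by_contra hcon
    push Not at hcon
    have : K * p ≤ K * δ := Nat.mul_le_mul_left _ hcon
    omega
  have hmid : ∀ p ∈ Est.Pr (n / K), ¬ n < K * p := by
    intro p hp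
    have h2 := (Est.mem_Pr.mp hp).2
    rw [Nat.le_div_iff_mul_le (by omega)] at h2
    rw [mul_comm]; omega
  have hdisjPB : Disjoint (PB n K) (PM1 n K δ) := by
    rw [Finset.disjoint_left]
    intro p h1 h2
    have h3 := (mem_PB.mp h1).2.1
    have h4 := hmid p (mem_filter.mp h2).1
    exact h4 h3
  have hP1 : ∀ p ∈ PB n K ∪ PM1 n K δ, p.Prime ∧ δ < p ∧ 0 < Jf A n K p ∧
      (∀ q, q.Prime → q ∣ Jf A n K p → q ≤ z) := by
    intro p hp
    rcases mem_union.mp hp with hp | hp
    · obtain ⟨h1, h2, h3⟩ := mem_PB.mp hp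
      obtain ⟨h4, h5, h6, h7⟩ := Jf_PB (A := A) hp
      refine ⟨h1, hPBδ p hp, h4, fun q _ hqd => ?_⟩
      have := Nat.le_of_dvd h4 hqd
      omega
    · have hp' := mem_filter.mp hp
      obtain ⟨h4, h5, h6⟩ := Jf_PM1 (A := A) (by omega) hp
      refine ⟨(Est.mem_Pr.mp hp'.1).1, hp'.2.1, by rw [h4]; positivity, fun q hq hqd => ?_⟩
      rw [h4] at hqd
      have := (Nat.prime_dvd_prime_iff_eq hq Nat.prime_two).mp (hq.dvd_of_dvd_pow hqd)
      omega
  have hP2 : ∀ p ∈ PM2 n K δ, p.Prime ∧ δ < p ∧ 0 < J2 n p ∧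
      (∀ q, q.Prime → q ∣ J2 n p → q ≤ z) := by
    intro p hp
    have hp' := mem_filter.mp hp
    refine ⟨(Est.mem_Pr.mp hp'.1).1, hp'.2.1, by unfold J2; positivity, fun q hq hqd => ?_⟩
    unfold J2 at hqd
    rcases (Nat.Prime.dvd_mul hq).mp hqd with h | h
    · have := Nat.le_of_dvd (by norm_num) h
      omega
    · have := (Nat.prime_dvd_prime_iff_eq hq Nat.prime_two).mp (hq.dvd_of_dvd_pow h)
      omega
  obtain ⟨hinj1, hs1, hb1⟩ := fam_cof hzδ _ _ hP1
  obtain ⟨hinj2, hs2, hb2⟩ := fam_cof hzδ _ _ hP2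
  set F1 := (PB n K ∪ PM1 n K δ).image (fun p => Jf A n K p * p) with hF1
  set F2 := (PM2 n K δ).image (fun p => J2 n p * p) with hF2
  have hF1r : ∀ r ∈ F1, n < r ∧ r ≤ 2 * n ∧ ∃ p, p.Prime ∧ δ < p ∧ p ∣ r := by
    intro r hr
    rw [hF1, mem_image] at hr
    obtain ⟨p, hp, rfl⟩ := hr
    obtain ⟨h1, h2, h3, h4⟩ := hP1 p hp
    rcases mem_union.mp hp with hp' | hp'
    · obtain ⟨h5, h6, h7, h8⟩ := Jf_PB (A := A) hp'
      exact ⟨h7, h8, p, h1, h2, Dvd.intro_left _ rfl⟩
    · obtain ⟨h5, h6, h7⟩ := Jf_PM1 (A := A) (by omega) hp'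
      exact ⟨h6, h7, p, h1, h2, Dvd.intro_left _ rfl⟩
  have hF2r : ∀ r ∈ F2, n < r ∧ r ≤ 2 * n ∧ ∃ p, p.Prime ∧ δ < p ∧ p ∣ r := by
    intro r hr
    rw [hF2, mem_image] at hr
    obtain ⟨p, hp, rfl⟩ := hr
    obtain ⟨h1, h2, h3, h4⟩ := hP2 p hp
    obtain ⟨h5, h6⟩ := J2_PM2 hK hp
    exact ⟨h5, h6, p, h1, h2, Dvd.intro_left _ rfl⟩
  have hTr : ∀ r ∈ T n δ K, 2 * n < r ∧ r ≤ 2 * n + δ ∧ ∃ p, p.Prime ∧ δ < p ∧ p ∣ r := by
    intro r hr
    rw [mem_T] at hr
    obtain ⟨⟨h1, h2⟩, p, hp, h3, h4⟩ := hr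
    refine ⟨h1, h2, p, hp, ?_, h4⟩
    by_contra hcon
    push Not at hcon
    have : K * p ≤ K * δ := Nat.mul_le_mul_left _ hcon
    omega
  have hd12 : Disjoint F1 F2 := by
    rw [Finset.disjoint_left]
    intro r h1 h2
    rw [hF1, mem_image] at h1
    rw [hF2, mem_image] at h2
    obtain ⟨p, hp, rfl⟩ := h1
    obtain ⟨p', hp', heq⟩ := h2
    obtain ⟨a1, a2, a3, a4⟩ := hP1 p hp
    obtain ⟨b1, b2, b3, b4⟩ := hP2 p' hp'
    have hpp : p = p' := by
      have hd : p ∣ J2 n p' * p' := by rw [heq]; exact Dvd.intro_left _ rfl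
      rcases (Nat.Prime.dvd_mul a1).mp hd with h5 | h5
      · have := b4 p a1 h5
        omega
      · exact (Nat.prime_dvd_prime_iff_eq a1 b1).mp h5
    subst hpp
    have hJ : J2 n p = Jf A n K p := Nat.eq_of_mul_eq_mul_right a1.pos heq
    rcases mem_union.mp hp with h | h
    · exact hmid p (mem_filter.mp hp').1 (mem_PB.mp h).2.1
    · rw [(Jf_PM1 (A := A) (by omega) h).1] at hJ
      unfold J2 at hJ
      have h3 : 3 ∣ 2 ^ (Nat.log 2 (2 * n / p)) := by rw [← hJ]; exact Dvd.intro _ rfl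
      have := (Nat.prime_dvd_prime_iff_eq Nat.prime_three Nat.prime_two).mp
        (Nat.prime_three.dvd_of_dvd_pow h3)
      omega
  have hd3 : Disjoint (F1 ∪ F2) (T n δ K) := by
    rw [Finset.disjoint_left]
    intro r h1 h2
    have h3 := (hTr r h2).1
    rcases mem_union.mp h1 with h | h
    · have := (hF1r r h).2.1; omega
    · have := (hF2r r h).2.1; omega
  have hprof : ∀ p, prof (F1 ∪ F2 ∪ T n δ K) p = prof F1 p + prof F2 p + prof (T n δ K) p := by
    intro p
    rw [prof_union hd3, prof_union hd12]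
  refine ⟨F1 ∪ F2 ∪ T n δ K, ?_, ?_, ?_, ?_⟩
  · intro r hr
    rcases mem_union.mp hr with h | h
    · rcases mem_union.mp h with h | h
      · obtain ⟨h1, h2, h3⟩ := hF1r r h
        exact ⟨h1, by omega, h3⟩
      · obtain ⟨h1, h2, h3⟩ := hF2r r h
        exact ⟨h1, by omega, h3⟩
    · obtain ⟨h1, h2, h3⟩ := hTr r h
      exact ⟨by omega, h2, h3⟩
  · intro p hp hpδ
    have hpm : 2 * n + δ < p ^ 2 := lt_of_lt_of_le hδ (Nat.pow_le_pow_left hpδ.le 2)
    rw [hprof, hb1 p hp (by omega), hb2 p hp (by omega), T_prof_big hδ hp hpδ, E_big hp hpm]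
    have hd2 := div_two (n := n) (p := p) hp.pos
    have hda := div_add (n := n) (δ := δ) (p := p) hpδ
    rcases Nat.lt_or_ge n (K * p) with h | h
    · have hnmid : p ∉ Est.Pr (n / K) := fun h' => hmid p h' h
      have h2 : p ∉ PM2 n K δ := fun h' => hnmid (mem_filter.mp h').1
      rw [if_pos h, if_neg h2]
      by_cases h3 : 2 * n / p = 2 * (n / p) + 1
      · rw [if_pos (mem_union_left _ (mem_PB.mpr ⟨hp, h, h3⟩))]
        omega
      · have h4 : p ∉ PB n K ∪ PM1 n K δ := by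
          rw [mem_union, not_or]
          exact ⟨fun h' => h3 (mem_PB.mp h').2.2, fun h' => hnmid (mem_filter.mp h').1⟩
        rw [if_neg h4]
        omega
    · have hPr : p ∈ Est.Pr (n / K) := by
        rw [Est.mem_Pr, Nat.le_div_iff_mul_le (by omega), mul_comm]
        exact ⟨hp, h⟩
      rw [if_neg (show ¬ n < K * p by omega)]
      have hPB : p ∉ PB n K := fun h' => by
        have := (mem_PB.mp h').2.1
        omega
      have e1 : (if p ∈ PB n K ∪ PM1 n K δ then 1 else 0) = (if 2 * n / p = 2 * (n / p) + 1 then 1 else 0) := by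
        by_cases h3 : 2 * n / p = 2 * (n / p) + 1
        · have hmem : p ∈ PB n K ∪ PM1 n K δ := mem_union_right _ (mem_filter.mpr ⟨hPr, hpδ, h3⟩)
          rw [if_pos h3, if_pos hmem]
        · have hmem : p ∉ PB n K ∪ PM1 n K δ := by
            rw [mem_union, not_or]
            exact ⟨hPB, fun h' => h3 (mem_filter.mp h').2.2⟩
          rw [if_neg h3, if_neg hmem]
      have e2 : (if p ∈ PM2 n K δ then 1 else 0) = (if (2 * n + δ) / p = 2 * n / p + 1 then 1 else 0) := by
        by_cases h3 : (2 * n + δ) / p = 2 * n / p + 1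
        · have hmem : p ∈ PM2 n K δ := mem_filter.mpr ⟨hPr, hpδ, h3⟩
          rw [if_pos h3, if_pos hmem]
        · have hmem : p ∉ PM2 n K δ := fun h' => h3 (mem_filter.mp h').2.2
          rw [if_neg h3, if_neg hmem]
      rw [e1, e2]
      split <;> split <;> omega
  · intro p hp hpz hpδ
    rw [hprof, hb1 p hp hpz, hb2 p hp hpz]
    have h1 : p ∉ PB n K ∪ PM1 n K δ := fun h => by
      have := (hP1 p h).2.1
      omega
    have h2 : p ∉ PM2 n K δ := fun h => by
      have := (hP2 p h).2.1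
      omega
    have h3 : prof (T n δ K) p = 0 := by
      refine sum_eq_zero fun t ht => ?_
      exact (T_fac hKδ ht hp hn).2 (by omega) hpδ
    rw [if_neg h1, if_neg h2, h3]
  · intro q hq hqz
    rw [hprof, hs1 q hq hqz, hs2 q hq hqz, sum_union hdisjPB]
    have h1 : ∑ p ∈ PB n K, (Jf A n K p).factorization q
        = ∑ p ∈ PB n K, (if p ∈ A then ja (n / p) else jb (n / p)).factorization q := by
      refine sum_congr rfl fun p hp => ?_
      unfold Jf
      rw [if_pos (mem_PB.mp hp).2.1]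
    have h2 : prof (T n δ K) q ≤ (T n δ K).card * Nat.log 2 (2 * K) := by
      unfold prof
      calc ∑ t ∈ T n δ K, t.factorization q ≤ ∑ t ∈ T n δ K, Nat.log 2 (2 * K) := by
            refine sum_le_sum fun t ht => ?_
            obtain ⟨f1, f2⟩ := T_fac hKδ ht hq hn
            rcases le_or_gt q (2 * K) with h | h
            · exact f1 h
            · rw [f2 h (by omega)]; exact Nat.zero_le _
        _ = _ := by rw [sum_const, smul_eq_mul]
    have h3 : ∑ p ∈ PM1 n K δ, (Jf A n K p).factorization q + ∑ p ∈ PM2 n K δ, (J2 n p).factorization q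
        ≤ if q ≤ 3 then ∑ p ∈ Est.Pr (n / K), 2 * (Nat.log 2 (2 * n / p) + 1) else 0 := by
      have a1 : ∀ p ∈ PM1 n K δ, (Jf A n K p).factorization q = if q = 2 then Nat.log 2 (2 * n / p) else 0 := by
        intro p hp
        rw [(Jf_PM1 (A := A) (by omega) hp).1, Nat.Prime.factorization_pow Nat.prime_two, Finsupp.single_apply]
        by_cases h : q = 2
        · rw [if_pos h, if_pos h.symm]
        · rw [if_neg h, if_neg (Ne.symm h)]
      have a2 : ∀ p ∈ PM2 n K δ, (J2 n p).factorization q ≤ if q ≤ 3 then Nat.log 2 (2 * n / p) + 1 else 0 := by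
        intro p hp
        have hp0 : 0 < p := (hP2 p hp).1.pos
        unfold J2
        rw [Nat.factorization_mul (by norm_num) (by positivity), Nat.Prime.factorization Nat.prime_three,
          Nat.Prime.factorization_pow Nat.prime_two]
        simp only [Finsupp.coe_add, Pi.add_apply, Finsupp.single_apply]
        have h5 : Nat.log 2 (2 * n / (3 * p)) ≤ Nat.log 2 (2 * n / p) :=
          Nat.log_mono_right (Nat.div_le_div_left (by omega) hp0)
        by_cases h6 : q ≤ 3
        · rw [if_pos h6]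
          split <;> split <;> omega
        · rw [if_neg h6, if_neg (by omega), if_neg (by omega)]
          exact le_rfl
      rw [sum_congr rfl a1]
      by_cases h6 : q ≤ 3
      · rw [if_pos h6]
        have b1 : ∑ p ∈ PM1 n K δ, (if q = 2 then Nat.log 2 (2 * n / p) else 0)
            ≤ ∑ p ∈ Est.Pr (n / K), (Nat.log 2 (2 * n / p) + 1) := by
          refine (sum_le_sum (g := fun p => Nat.log 2 (2 * n / p) + 1) fun p _ => by split <;> omega).trans ?_
          exact sum_le_sum_of_subset (filter_subset _ _)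
        have b2 : ∑ p ∈ PM2 n K δ, (J2 n p).factorization q
            ≤ ∑ p ∈ Est.Pr (n / K), (Nat.log 2 (2 * n / p) + 1) := by
          refine (sum_le_sum (g := fun p => Nat.log 2 (2 * n / p) + 1) fun p hp => ?_).trans
            (sum_le_sum_of_subset (filter_subset _ _))
          have := a2 p hp
          rw [if_pos h6] at this
          exact this
        rw [← mul_sum]
        omega
      · rw [if_neg h6]
        have b1 : ∑ p ∈ PM1 n K δ, (if q = 2 then Nat.log 2 (2 * n / p) else 0) = 0 :=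
          sum_eq_zero fun p _ => if_neg (by omega)
        have b2 : ∑ p ∈ PM2 n K δ, (J2 n p).factorization q = 0 := by
          refine sum_eq_zero fun p hp => ?_
          have := a2 p hp
          rw [if_neg h6] at this
          omega
        rw [b1, b2]
    omega

end Pool.Agent.Helper602.PL
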