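import Mathlib
import Pool.Agent.Helper602.PL4

open Finset Filter Topology

namespace Pool.Agent.Helper602.PL

open Fam Sel Val Lower Asym

lemma exists_A (n K : ℕ) : ∃ A : Finset ℕ, ∀ q : ℕ,
    ((∑ p ∈ PB n K, (if p ∈ A then ja (n / p) else jb (n / p)).factorization q : ℕ) : ℝ)
      ≤ ∑ k ∈ Ico 1 K, (((P n k).card : ℝ) * wt q k + (jb k).factorization q) := by
  classical
  have hex : ∀ k, ∃ B, B ⊆ P n k ∧ B.card = ⌊lam k * (P n k).card⌋₊ := by
    intro k
    refine exists_subset_card_eq ?_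
    have h1 : lam k * ((P n k).card : ℝ) ≤ (P n k).card :=
      mul_le_of_le_one_left (Nat.cast_nonneg _) (lam_le_one k)
    exact Nat.floor_le_of_le h1
  choose B hB1 hB2 using hex
  set A := (range K).biUnion B with hA
  have hAk : ∀ k ∈ range K, ∀ p ∈ P n k, (p ∈ A ↔ p ∈ B k) := by
    intro k hk p hp
    rw [hA, mem_biUnion]
    constructor
    · rintro ⟨k', hk', hpk'⟩
      have h1 := (P_div (hB1 k' hpk')).1
      have h2 := (P_div hp).1
      have : k' = k := by omega
      rwa [this] at hpk'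
    · intro h
      exact ⟨k, hk, h⟩
  refine ⟨A, fun q => ?_⟩
  have hdisj : ∀ k ∈ range K, ∀ k' ∈ range K, k ≠ k' → Disjoint (P n k) (P n k') := by
    intro k _ k' _ hne
    rw [Finset.disjoint_left]
    intro p h1 h2
    have h3 := (P_div h1).1
    have h4 := (P_div h2).1
    omega
  have h1 : ∑ p ∈ PB n K, (if p ∈ A then ja (n / p) else jb (n / p)).factorization q
      = ∑ k ∈ range K, ∑ p ∈ P n k, (if p ∈ A then ja (n / p) else jb (n / p)).factorization q := by
    unfold PB
    rw [sum_biUnion]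
    intro k hk k' hk' hne
    exact hdisj k hk k' hk' hne
  rw [h1]
  push_cast
  have h2 : ∀ k ∈ range K, (∑ p ∈ P n k, ((if p ∈ A then ja (n / p) else jb (n / p)).factorization q : ℝ))
      ≤ ((P n k).card : ℝ) * wt q k + (jb k).factorization q := by
    intro k hk
    have h3 : ∀ p ∈ P n k, ((if p ∈ A then ja (n / p) else jb (n / p)).factorization q : ℝ)
        = if p ∈ B k then ((ja k).factorization q : ℝ) else (jb k).factorization q := by
      intro p hp
      rw [(P_div hp).1]
      by_cases h : p ∈ B k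
      · rw [if_pos ((hAk k hk p hp).mpr h), if_pos h]
      · rw [if_neg (fun h' => h ((hAk k hk p hp).mp h')), if_neg h]
    rw [sum_congr rfl h3, sum_ite]
    have h4 : (P n k).filter (· ∈ B k) = B k := by
      ext p
      rw [mem_filter]
      exact ⟨fun h => h.2, fun h => ⟨hB1 k h, h⟩⟩
    have h5 : (P n k).filter (· ∉ B k) = P n k \ B k := by
      ext p
      rw [mem_filter, Finset.mem_sdiff]
    rw [h4, h5, sum_const, sum_const, nsmul_eq_mul, nsmul_eq_mul, card_sdiff_of_subset (hB1 k),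
      Nat.cast_sub (card_le_card (hB1 k)), hB2 k]
    have h6 : ((⌊lam k * (P n k).card⌋₊ : ℕ) : ℝ) ≤ lam k * (P n k).card :=
      Nat.floor_le (mul_nonneg (lam_nonneg k) (Nat.cast_nonneg _))
    have h7 : lam k * (P n k).card - 1 ≤ ((⌊lam k * (P n k).card⌋₊ : ℕ) : ℝ) := by
      have := Nat.lt_floor_add_one (lam k * ((P n k).card : ℝ))
      linarith
    have h8 : (0:ℝ) ≤ ((ja k).factorization q : ℝ) := Nat.cast_nonneg _
    have h9 : (0:ℝ) ≤ ((jb k).factorization q : ℝ) := Nat.cast_nonneg _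
    have h10 := mul_le_mul_of_nonneg_right h6 h8
    have h11 : (((P n k).card : ℝ) - (⌊lam k * (P n k).card⌋₊ : ℕ)) * ((jb k).factorization q : ℝ)
        ≤ ((1 - lam k) * (P n k).card + 1) * ((jb k).factorization q : ℝ) := by
      refine mul_le_mul_of_nonneg_right ?_ h9
      linarith
    unfold wt
    linarith
  refine (sum_le_sum h2).trans ?_
  rcases Nat.eq_zero_or_pos K with hK | hK
  · rw [hK]; simp
  · rw [range_eq_Ico, ← sum_Ico_consecutive _ (show 0 ≤ 1 by norm_num) hK]
    have h3 : ∑ k ∈ Ico 0 1, (((P n k).card : ℝ) * wt q k + (jb k).factorization q) = 0 := by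
      have e : Ico 0 1 = ({0} : Finset ℕ) := by decide
      rw [e, sum_singleton]
      have a : ja 0 = 1 := rfl
      have b : jb 0 = 1 := rfl
      unfold wt
      rw [a, b, Nat.factorization_one]
      simp
    rw [h3, zero_add]

/-- the table loads, asymptotically -/
lemma main_load (K : ℕ) (q : ℕ) (hq : q.Prime) {ε : ℝ} (hε : 0 < ε) :
    ∀ᶠ n : ℕ in atTop, ∑ k ∈ Ico 1 K, (((P n k).card : ℝ) * wt q k + (jb k).factorization q)
      ≤ (c / ((q:ℝ) - 1) + ε) * (n / Real.log n) := by
  have h1 : Tendsto (fun n : ℕ => ∑ k ∈ Ico 1 K, ((((P n k).card : ℝ) * Real.log n / n) * wt q k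
      + (jb k).factorization q * (Real.log n / n))) atTop
      (𝓝 (∑ k ∈ Ico 1 K, (1 / (((k:ℝ) + 1) * (2 * k + 1)) * wt q k + (jb k).factorization q * 0))) := by
    refine tendsto_finsetSum _ fun k hk => ?_
    have hlog : Tendsto (fun n : ℕ => Real.log n / (n:ℝ)) atTop (𝓝 0) := by
      have := (isLittleO_log_rpow_atTop (r := 1) (by norm_num)).tendsto_div_nhds_zero
      have h5 := this.comp tendsto_natCast_atTop_atTop
      simpa [Function.comp_def] using h5
    exact ((card_P_tendsto k (mem_Ico.mp hk).1).mul_const _).add (hlog.const_mul _)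
  have h2 : ∑ k ∈ Ico 1 K, (1 / (((k:ℝ) + 1) * (2 * k + 1)) * wt q k + (jb k).factorization q * 0)
      ≤ c / ((q:ℝ) - 1) := by
    refine le_trans (le_of_eq ?_) (load_le q hq K)
    refine sum_congr rfl fun k _ => ?_
    ring
  filter_upwards [h1.eventually (gt_mem_nhds (show _ < c / ((q:ℝ) - 1) + ε by linarith)),
    eventually_gt_atTop 1] with n hn hn1
  have hn0 : (0:ℝ) < n := by
    have : 0 < n := by omega
    exact_mod_cast this
  have hl : 0 < Real.log n := Real.log_pos (by exact_mod_cast hn1)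
  have h3 : ∑ k ∈ Ico 1 K, ((((P n k).card : ℝ) * Real.log n / n) * wt q k
      + (jb k).factorization q * (Real.log n / n))
      = (∑ k ∈ Ico 1 K, (((P n k).card : ℝ) * wt q k + (jb k).factorization q)) * (Real.log n / n) := by
    rw [sum_mul]
    refine sum_congr rfl fun k _ => ?_
    ring
  rw [h3] at hn
  have h4 : (∑ k ∈ Ico 1 K, (((P n k).card : ℝ) * wt q k + (jb k).factorization q)) * (Real.log n / n)
      * (n / Real.log n) ≤ (c / ((q:ℝ) - 1) + ε) * (n / Real.log n) :=
    mul_le_mul_of_nonneg_right hn.le (by positivity)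
  have h5 : (∑ k ∈ Ico 1 K, (((P n k).card : ℝ) * wt q k + (jb k).factorization q)) * (Real.log n / n)
      * (n / Real.log n) = ∑ k ∈ Ico 1 K, (((P n k).card : ℝ) * wt q k + (jb k).factorization q) := by
    field_simp
  rw [h5] at h4
  exact h4

/-- cost of the mid primes -/
lemma mid_cost {ε : ℝ} (hε : 0 < ε) : ∃ K₀ : ℕ, ∀ K : ℕ, K₀ ≤ K → ∀ᶠ n : ℕ in atTop,
    ((∑ p ∈ Est.Pr (n / K), 2 * (Nat.log 2 (2 * n / p) + 1) : ℕ) : ℝ) ≤ ε * (n / Real.log n) := by
  obtain ⟨C, hC, hc⟩ := Est.sumlog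
  have h1 : Tendsto (fun K : ℕ => 4 * C * (1 + Real.log (4 * K)) / K) atTop (𝓝 0) := by
    have hlog : Tendsto (fun n : ℕ => Real.log n / (n:ℝ)) atTop (𝓝 0) := by
      have := (isLittleO_log_rpow_atTop (r := 1) (by norm_num)).tendsto_div_nhds_zero
      have h5 := this.comp tendsto_natCast_atTop_atTop
      simpa [Function.comp_def] using h5
    have hinv : Tendsto (fun n : ℕ => (1:ℝ) / (n:ℝ)) atTop (𝓝 0) := tendsto_one_div_atTop_nhds_zero_nat
    have h2 : Tendsto (fun K : ℕ => 4 * C * (1 + Real.log 4) * (1 / (K:ℝ)) + 4 * C * (Real.log K / K)) atTop (𝓝 0) := by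
      have := (hinv.const_mul (4 * C * (1 + Real.log 4))).add (hlog.const_mul (4 * C))
      simpa using this
    refine h2.congr' ?_
    filter_upwards [eventually_gt_atTop 0] with K hK
    have hK0 : (0:ℝ) < K := by exact_mod_cast hK
    rw [Real.log_mul (by norm_num) hK0.ne']
    ring
  obtain ⟨K₀, hK₀⟩ := eventually_atTop.mp (h1.eventually (gt_mem_nhds hε))
  refine ⟨max K₀ 1, fun K hK => ?_⟩
  have hK1 : 1 ≤ K := le_trans (le_max_right _ _) hK
  have hKε := hK₀ K (le_trans (le_max_left _ _) hK)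
  have hK0 : (0:ℝ) < K := by exact_mod_cast hK1
  filter_upwards [eventually_ge_atTop (4 * K * K + 4 * K)] with n hn
  set x := n / K with hx
  have hx2 : 2 ≤ x := by
    rw [hx, Nat.le_div_iff_mul_le (by omega)]
    nlinarith
  have hxn : x ≤ 2 * n := by have := Nat.div_le_self n K; omega
  have h2 := hc x (2 * n) hx2 hxn
  have hn1 : 1 < n := by nlinarith
  have hn0 : (0:ℝ) < n := by
    have : 0 < n := by omega
    exact_mod_cast this
  have hl : 0 < Real.log n := Real.log_pos (by exact_mod_cast hn1)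
  have hxR : (x:ℝ) ≤ n / K := Nat.cast_div_le
  have hxlo : (n:ℝ) / (2 * K) ≤ x := by
    have h3 : n < K * (x + 1) := Nat.lt_mul_div_succ _ (by omega)
    have h4 : n ≤ 2 * K * x := by nlinarith
    rw [div_le_iff₀ (by positivity)]
    have : (n:ℝ) ≤ 2 * K * x := by exact_mod_cast h4
    linarith
  have hx0 : (0:ℝ) < x := by
    have : 0 < x := by omega
    exact_mod_cast this
  have hnK : 4 * (K:ℝ) * K ≤ n := by
    have : 4 * K * K ≤ n := by omega
    exact_mod_cast this
  have hlogx : Real.log n / 2 ≤ Real.log x := by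
    have h3 : Real.sqrt n ≤ x := by
      refine le_trans ?_ hxlo
      rw [le_div_iff₀ (by positivity)]
      have h4 : 2 * (K:ℝ) ≤ Real.sqrt n := by
        apply Real.le_sqrt_of_sq_le
        calc (2 * (K:ℝ)) ^ 2 = 4 * K * K := by ring
          _ ≤ n := hnK
      calc Real.sqrt n * (2 * K) ≤ Real.sqrt n * Real.sqrt n := mul_le_mul_of_nonneg_left h4 (Real.sqrt_nonneg _)
        _ = n := Real.mul_self_sqrt hn0.le
    have h4 := Real.log_le_log (Real.sqrt_pos.mpr hn0) h3
    rw [Real.log_sqrt hn0.le] at h4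
    exact h4
  have hlogx0 : 0 < Real.log x := lt_of_lt_of_le (by positivity) hlogx
  have h3 : Real.log (((2 * n : ℕ) : ℝ) / x) ≤ Real.log (4 * K) := by
    apply Real.log_le_log (by positivity)
    rw [div_le_iff₀ hx0]
    rw [div_le_iff₀ (by positivity)] at hxlo
    push_cast
    linarith
  have h3' : 0 ≤ Real.log (((2 * n : ℕ) : ℝ) / x) := by
    apply Real.log_nonneg
    rw [le_div_iff₀ hx0, one_mul]
    exact_mod_cast hxn
  have h4 : ((∑ p ∈ Est.Pr x, 2 * (Nat.log 2 (2 * n / p) + 1) : ℕ) : ℝ)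
      = 2 * ∑ p ∈ Est.Pr x, ((Nat.log 2 (2 * n / p) : ℝ) + 1) := by
    push_cast
    rw [mul_sum]
  rw [h4]
  have h5 : (x:ℝ) / Real.log x ≤ (n / K) / (Real.log n / 2) :=
    div_le_div₀ (by positivity) hxR (by positivity) hlogx
  calc 2 * ∑ p ∈ Est.Pr x, ((Nat.log 2 (2 * n / p) : ℝ) + 1)
      ≤ 2 * (C * (x / Real.log x) * (1 + Real.log (((2 * n : ℕ) : ℝ) / x))) :=
        mul_le_mul_of_nonneg_left h2 (by norm_num)
    _ ≤ 2 * (C * ((n / K) / (Real.log n / 2)) * (1 + Real.log (4 * K))) := by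
        refine mul_le_mul_of_nonneg_left ?_ (by norm_num)
        refine mul_le_mul ?_ (by linarith) (by linarith) (by positivity)
        exact mul_le_mul_of_nonneg_left h5 hC.le
    _ = (4 * C * (1 + Real.log (4 * K)) / K) * (n / Real.log n) := by
        field_simp
        ring
    _ ≤ ε * (n / Real.log n) := mul_le_mul_of_nonneg_right hKε.le (by positivity)

end Pool.Agent.Helper602.PL
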