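import Mathlib
import Pool.Agent.Helper602.PL5
import Pool.Agent.Helper602.GL

open Finset Filter Topology

namespace Pool.Agent.Helper602.Fin1

open Fam Sel Val Lower Asym PL

lemma E_small_lo (n δ q : ℕ) (hq : q.Prime) :
    (δ:ℝ) / ((q:ℝ) - 1) - ((Nat.log 2 (2 * n + δ) : ℝ) + 1) ≤ (E n δ q : ℝ) := by
  have hq1 : (1:ℝ) < q := by exact_mod_cast hq.one_lt
  have h1 := E_add n δ q
  have h2 := padic_ge q hq (2 * n + δ)
  have h3 := padic_le q hq n
  rw [← Nat.factorization_def _ hq] at h2 h3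
  have h4 : ((q - 1 : ℕ) : ℝ) = (q:ℝ) - 1 := by
    rw [Nat.cast_sub hq.one_lt.le, Nat.cast_one]
  have h2' : (2 * (n:ℝ) + δ) ≤ ((q:ℝ) - 1) * ((2 * n + δ).factorial.factorization q : ℝ)
      + ((q:ℝ) - 1) * ((Nat.log 2 (2 * n + δ) : ℝ) + 1) := by
    rw [← h4]; exact_mod_cast h2
  have h3' : ((q:ℝ) - 1) * (n.factorial.factorization q : ℝ) ≤ n := by
    rw [← h4]; exact_mod_cast h3
  have h1' : (E n δ q : ℝ) + 2 * (n.factorial.factorization q : ℝ)
      = ((2 * n + δ).factorial.factorization q : ℝ) := by exact_mod_cast h1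
  rw [sub_le_iff_le_add, div_le_iff₀ (by linarith)]
  rw [← h1'] at h2'
  linarith [h2', h3']

lemma E_small_hi (n δ q : ℕ) (hq : q.Prime) :
    (E n δ q : ℝ) ≤ (δ:ℝ) / ((q:ℝ) - 1) + 2 * ((Nat.log 2 n : ℝ) + 1) := by
  have hq1 : (1:ℝ) < q := by exact_mod_cast hq.one_lt
  have h1 := E_add n δ q
  have h2 := padic_le q hq (2 * n + δ)
  have h3 := padic_ge q hq n
  rw [← Nat.factorization_def _ hq] at h2 h3
  have h4 : ((q - 1 : ℕ) : ℝ) = (q:ℝ) - 1 := by
    rw [Nat.cast_sub hq.one_lt.le, Nat.cast_one]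
  have h2' : ((q:ℝ) - 1) * ((2 * n + δ).factorial.factorization q : ℝ) ≤ 2 * (n:ℝ) + δ := by
    rw [← h4]; exact_mod_cast h2
  have h3' : (n:ℝ) ≤ ((q:ℝ) - 1) * (n.factorial.factorization q : ℝ)
      + ((q:ℝ) - 1) * ((Nat.log 2 n : ℝ) + 1) := by
    rw [← h4]; exact_mod_cast h3
  have h1' : (E n δ q : ℝ) + 2 * (n.factorial.factorization q : ℝ)
      = ((2 * n + δ).factorial.factorization q : ℝ) := by exact_mod_cast h1
  rw [← sub_le_iff_le_add, le_div_iff₀ (by linarith)]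
  rw [← h1'] at h2'
  linarith [h2', h3']

/-- the natural multiples are few -/
lemma T_small (K : ℕ) (hK : 1 ≤ K) {η ε : ℝ} (hη : 0 < η) (hε : 0 < ε) :
    ∀ᶠ n : ℕ in atTop, ∀ δ : ℕ, η * n / Real.log n ≤ δ → (δ:ℝ) ≤ n / Real.log n → K * δ ≤ n →
      ((T n δ K).card * Nat.log 2 (2 * K) : ℕ) ≤ ε * (n / Real.log n) := by
  set C : ℝ := (Nat.log 2 (2 * K) : ℝ) + 1 with hC
  have hC0 : 0 < C := by positivity
  filter_upwards [small η (ε / C) hη (by positivity), base 2, eventually_ge_atTop 4] with n hsm hb hn4 δ hδ1 hδ2 hKδ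
  obtain ⟨-, f2, -, -, f5⟩ := hsm δ hδ1 hδ2
  obtain ⟨hn0, hs1, hs2, g1, -, g2⟩ := hb
  have hn0' : (0:ℝ) < n := by exact_mod_cast hn0
  have hsq : (2:ℝ) ≤ Real.sqrt n := by
    apply Real.le_sqrt_of_sq_le
    have : (4:ℝ) ≤ n := by exact_mod_cast hn4
    linarith
  have hδ2' : (2:ℝ) ≤ δ := hsq.trans f5
  have hδpos : 0 < δ := by
    have : (0:ℝ) < δ := by linarith
    exact_mod_cast this
  have hδ0 : (0:ℝ) < δ := by linarith
  have hlogδ : 0 < Real.log δ := Real.log_pos (by linarith)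
  have hδn : δ ≤ n := le_trans (Nat.le_mul_of_pos_left δ (by omega)) hKδ
  have hδn' : (δ:ℝ) ≤ n := by exact_mod_cast hδn
  have hnK : δ ≤ n / K := by
    rw [Nat.le_div_iff_mul_le (by omega)]
    linarith [mul_comm K δ]
  have h1 := Est.bad_card (x := 2 * n) (h := δ) (y := n / K) hδpos hnK (T n δ K) (by
    intro s hs
    obtain ⟨⟨h1, h2⟩, p, hp, h3, h4⟩ := mem_T.mp hs
    refine ⟨h1, h2, p, hp, ?_, h4⟩
    rw [Nat.div_lt_iff_lt_mul (by omega), mul_comm]
    exact h3)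
  have h2 : Real.log δ ≤ Real.log ((n / K : ℕ) : ℝ) :=
    Real.log_le_log hδ0 (by exact_mod_cast hnK)
  have h3 : ((T n δ K).card : ℝ) * Real.log δ ≤ ((T n δ K).card : ℝ) * Real.log ((n / K : ℕ) : ℝ) :=
    mul_le_mul_of_nonneg_left h2 (Nat.cast_nonneg _)
  have h4 : Real.log ((((2 * n : ℕ) : ℝ) + δ) / δ) ≤ Real.log (3 * n / δ) := by
    apply Real.log_le_log (by positivity)
    apply div_le_div_of_nonneg_right _ hδ0.le
    push_cast
    linarith
  have h5 : 0 ≤ Real.log (3 * (n:ℝ) / δ) := by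
    apply Real.log_nonneg
    rw [le_div_iff₀ hδ0]
    linarith
  have h6 : ((T n δ K).card : ℝ) * Real.log δ ≤ δ * (1 + Real.log (3 * n / δ)) := by
    refine (h3.trans h1).trans ?_
    exact mul_le_mul_of_nonneg_left (by linarith) hδ0.le
  have h7 : ((T n δ K).card : ℝ) ≤ δ * (1 + Real.log (3 * n / δ)) / Real.log δ := by
    rw [le_div_iff₀ hlogδ]
    exact h6
  have h8 : δ * (1 + Real.log (3 * n / δ)) / Real.log δ
      ≤ δ * (1 + Real.log (3 * n / δ)) / Real.log δ * (1 + Real.log (3 * n / δ)) :=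
    le_mul_of_one_le_right (by positivity) (by linarith)
  have h9 : ((T n δ K).card : ℝ) ≤ ε / C * (n / ss n ^ 3) := (h7.trans h8).trans f2
  have h10 : (n:ℝ) / ss n ^ 3 ≤ n / Real.log n := by
    rw [← hs2]
    apply div_le_div_of_nonneg_left hn0'.le (by positivity)
    exact pow_le_pow_right₀ hs1 (by norm_num)
  have h11 : ((T n δ K).card : ℝ) ≤ ε / C * (n / Real.log n) :=
    h9.trans (mul_le_mul_of_nonneg_left h10 (by positivity))
  have hL0 : 0 ≤ (n:ℝ) / Real.log n := le_trans (Nat.cast_nonneg δ) hδ2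
  push_cast
  calc ((T n δ K).card : ℝ) * (Nat.log 2 (2 * K) : ℝ) ≤ (ε / C * (n / Real.log n)) * C := by
        refine mul_le_mul h11 (by rw [hC]; linarith) (Nat.cast_nonneg _) (by positivity)
    _ = ε * (n / Real.log n) := by field_simp

/-- a removed set with the right valuations yields the factorisation -/
lemma finish {n δ : ℕ} (R : Finset ℕ) (hR : ∀ r ∈ R, n < r ∧ r ≤ 2 * n + δ)
    (hprof : ∀ p, p.Prime → prof R p = E n δ p) :
    ∃ s : Finset ℕ, (∀ a ∈ s, n < a ∧ a ≤ 2 * n + δ) ∧ ∏ a ∈ s, a = n.factorial := by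
  have hR0 : ∀ r ∈ R, r ≠ 0 := by
    intro r hr
    have := hR r hr
    omega
  have hprod0 : ∏ r ∈ R, r ≠ 0 := Finset.prod_ne_zero_iff.mpr hR0
  have h1 : (∏ r ∈ R, r) * (n.factorial * n.factorial) = (2 * n + δ).factorial := by
    apply Nat.eq_of_factorization_eq
    · exact mul_ne_zero hprod0 (mul_ne_zero (Nat.factorial_ne_zero _) (Nat.factorial_ne_zero _))
    · exact Nat.factorial_ne_zero _
    · intro p
      by_cases hp : p.Prime
      · rw [Nat.factorization_mul hprod0 (mul_ne_zero (Nat.factorial_ne_zero _) (Nat.factorial_ne_zero _)),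
          Nat.factorization_mul (Nat.factorial_ne_zero _) (Nat.factorial_ne_zero _),
          Finsupp.add_apply, Finsupp.add_apply, Nat.factorization_prod hR0, Finsupp.finsetSum_apply]
        have h2 := hprof p hp
        have h3 := E_add n δ p
        unfold prof at h2
        omega
      · rw [Nat.factorization_eq_zero_of_not_prime _ hp, Nat.factorization_eq_zero_of_not_prime _ hp]
  have h2 := prod_Ioc_mul_factorial n (2 * n + δ) (by omega)
  have hsub : R ⊆ Ioc n (2 * n + δ) := by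
    intro r hr
    rw [mem_Ioc]
    exact hR r hr
  have h3 : (∏ a ∈ Ioc n (2 * n + δ) \ R, a) * ∏ a ∈ R, a = ∏ a ∈ Ioc n (2 * n + δ), a :=
    Finset.prod_sdiff hsub
  refine ⟨Ioc n (2 * n + δ) \ R, ?_, ?_⟩
  · intro a ha
    rw [Finset.mem_sdiff, mem_Ioc] at ha
    exact ha.1
  · rw [← h2, ← h3] at h1
    have h4 : (∏ r ∈ R, r) * n.factorial * n.factorial
        = (∏ r ∈ R, r) * n.factorial * (∏ a ∈ Ioc n (2 * n + δ) \ R, a) := by
      calc (∏ r ∈ R, r) * n.factorial * n.factorial = (∏ r ∈ R, r) * (n.factorial * n.factorial) := by ring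
        _ = (∏ a ∈ Ioc n (2 * n + δ) \ R, a) * (∏ a ∈ R, a) * n.factorial := h1
        _ = _ := by ring
    exact (Nat.eq_of_mul_eq_mul_left (Nat.pos_of_ne_zero (mul_ne_zero hprod0 (Nat.factorial_ne_zero _))) h4).symm

end Pool.Agent.Helper602.Fin1
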