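import Mathlib
import Pool.Agent.Helper602.Fin1

open Finset Filter Topology

namespace Pool.Agent.Helper602.Fin2

open Fam Sel Val Lower Asym PL

lemma log_small {ε : ℝ} (hε : 0 < ε) : ∀ᶠ n : ℕ in atTop, ∀ m : ℕ, m ≤ 4 * n →
    2 * ((Nat.log 2 m : ℝ) + 1) ≤ ε * (n / Real.log n) := by
  filter_upwards [base (10 / ε), eventually_ge_atTop 1] with n hb hn1 m hm
  obtain ⟨hn0, hs1, hs2, -, -, g2⟩ := hb
  have hn0' : (1:ℝ) ≤ n := by exact_mod_cast hn1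
  have h1 : Nat.log 2 m ≤ Nat.log 2 n + 2 := by
    refine (Nat.log_mono_right hm).trans ?_
    have : 4 * n = n * 2 * 2 := by ring
    rw [this, Nat.log_mul_base (by norm_num) (by omega), Nat.log_mul_base (by norm_num) (by omega)]
  have h2 : (Nat.log 2 n : ℝ) ≤ 2 * ss n ^ 2 := by
    have h3 : ((Nat.log 2 n : ℕ) : ℝ) * Real.log 2 ≤ Real.log n := by
      rw [← Real.log_pow]
      apply Real.log_le_log (by positivity)
      exact_mod_cast Nat.pow_log_le_self 2 (by omega)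
    rw [hs2]
    have h4 : (0.6931471803:ℝ) < Real.log 2 := Real.log_two_gt_d9
    have h5 : (0:ℝ) ≤ (Nat.log 2 n : ℝ) := Nat.cast_nonneg _
    have h6 : (Nat.log 2 n : ℝ) * (1/2) ≤ (Nat.log 2 n : ℝ) * Real.log 2 :=
      mul_le_mul_of_nonneg_left (by linarith) h5
    linarith
  have h1' : (Nat.log 2 m : ℝ) ≤ (Nat.log 2 n : ℝ) + 2 := by exact_mod_cast h1
  have hss : 1 ≤ ss n ^ 2 := one_le_pow₀ hs1
  have h3 : 2 * ((Nat.log 2 m : ℝ) + 1) ≤ 10 * ss n ^ 2 := by linarith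
  refine h3.trans ?_
  rw [← hs2, mul_div_assoc', le_div_iff₀ (by positivity)]
  have h4 : Real.sqrt n ≤ n := by
    rw [Real.sqrt_le_left (by linarith)]
    nlinarith
  have h5 : 10 / ε * ss n ^ 4 ≤ n := by
    refine le_trans ?_ (g2.trans h4)
    apply mul_le_mul_of_nonneg_left _ (by positivity)
    exact pow_le_pow_right₀ hs1 (by norm_num)
  rw [div_mul_eq_mul_div, div_le_iff₀ hε] at h5
  calc 10 * ss n ^ 2 * ss n ^ 2 = 10 * ss n ^ 4 := by ring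
    _ ≤ n * ε := h5
    _ = ε * n := mul_comm _ _

/-- size facts about `δ` -/
lemma sizes (K : ℕ) {η : ℝ} (hη : 0 < η) :
    ∀ᶠ n : ℕ in atTop, ∀ δ : ℕ, η * n / Real.log n ≤ δ → (δ:ℝ) ≤ n / Real.log n →
    K ≤ δ ∧ K * δ ≤ n ∧ K * K ≤ n ∧ 2 * n + δ < δ ^ 2 := by
  filter_upwards [small η 1 hη one_pos, base K, base (2 / η), base 1, eventually_ge_atTop (K * K)]
    with n hsm b1 b2 b3 hnK δ hδ1 hδ2
  obtain ⟨-, -, -, -, f5⟩ := hsm δ hδ1 hδ2
  obtain ⟨hn0, hs1, hs2, hsK, -, -⟩ := b1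
  obtain ⟨-, -, -, -, -, g2⟩ := b2
  have hn0' : (0:ℝ) < n := by exact_mod_cast hn0
  have hsp : 0 < ss n := by linarith
  have hss : 1 ≤ ss n ^ 2 := one_le_pow₀ hs1
  have hssn : ss n ≤ ss n ^ 2 := by nlinarith
  have hKs : (K:ℝ) ≤ ss n ^ 2 := hsK.trans hssn
  refine ⟨?_, ?_, hnK, ?_⟩
  · have h1 : (K:ℝ) ≤ Real.sqrt n := by
      apply Real.le_sqrt_of_sq_le
      have : ((K:ℝ)) ^ 2 = ((K * K : ℕ) : ℝ) := by push_cast; ring
      rw [this]
      exact_mod_cast hnK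
    exact_mod_cast h1.trans f5
  · rw [← hs2, le_div_iff₀ (by positivity)] at hδ2
    have h1 : (K:ℝ) * δ ≤ n := by
      calc (K:ℝ) * δ ≤ ss n ^ 2 * δ := mul_le_mul_of_nonneg_right hKs (Nat.cast_nonneg _)
        _ = δ * ss n ^ 2 := mul_comm _ _
        _ ≤ n := hδ2
    exact_mod_cast h1
  · have hδn : (δ:ℝ) ≤ n := by
      rw [← hs2, le_div_iff₀ (by positivity)] at hδ2
      nlinarith [Nat.cast_nonneg (α := ℝ) δ]
    rw [← hs2, div_le_iff₀ (by positivity)] at hδ1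
    have h2 : 2 * ss n ^ 8 ≤ η * Real.sqrt n := by
      rw [div_mul_eq_mul_div, div_le_iff₀ hη] at g2
      linarith
    have h3 : 2 * ss n ^ 2 ≤ η * Real.sqrt n := by
      refine le_trans ?_ h2
      exact mul_le_mul_of_nonneg_left (pow_le_pow_right₀ hs1 (by norm_num)) (by norm_num)
    have h4 : Real.sqrt n * Real.sqrt n = n := Real.mul_self_sqrt hn0'.le
    have hsq0 : 0 < Real.sqrt n := Real.sqrt_pos.mpr hn0'
    have h5 : 2 * Real.sqrt n ≤ δ := by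
      have h6 : 2 * ss n ^ 2 * Real.sqrt n ≤ δ * ss n ^ 2 := by
        calc 2 * ss n ^ 2 * Real.sqrt n ≤ η * Real.sqrt n * Real.sqrt n :=
              mul_le_mul_of_nonneg_right h3 hsq0.le
          _ = η * n := by rw [mul_assoc, h4]
          _ ≤ δ * ss n ^ 2 := hδ1
      have h7 : (2 * Real.sqrt n) * ss n ^ 2 ≤ δ * ss n ^ 2 := by linarith
      exact le_of_mul_le_mul_right h7 (by positivity)
    have h6 : 4 * (n:ℝ) ≤ (δ:ℝ) ^ 2 := by
      calc 4 * (n:ℝ) = (2 * Real.sqrt n) ^ 2 := by rw [mul_pow, Real.sq_sqrt hn0'.le]; ring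
        _ ≤ (δ:ℝ) ^ 2 := pow_le_pow_left₀ (by positivity) h5 2
    have h7 : (2 * (n:ℝ) + δ) < (δ:ℝ) ^ 2 := by linarith
    exact_mod_cast h7

end Pool.Agent.Helper602.Fin2
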