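import Mathlib
import Pool.Agent.Helper602.Fin2

open Finset Filter Topology

namespace Pool.Agent.Helper602.Fin3

open Fam Sel Val Lower Asym PL Fin1 Pool.Agent.Helper602.Fin2

lemma c_pos : (0:ℝ) < c := by unfold c; norm_num
lemma c_lt : c < (0.16:ℝ) := by unfold c; norm_num

/-- combination of the two parts -/
lemma combine {n δ z : ℕ} (hzδ : z ≤ δ) {RL G : Finset ℕ}
    (hR1 : ∀ r ∈ RL, n < r ∧ r ≤ 2 * n + δ ∧ ∃ p, p.Prime ∧ δ < p ∧ p ∣ r)
    (hR2 : ∀ p, p.Prime → δ < p → prof RL p = E n δ p)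
    (hR3 : ∀ p, p.Prime → z < p → p ≤ δ → prof RL p = 0)
    (hR4 : ∀ q, q.Prime → q ≤ z → prof RL q ≤ E n δ q)
    (hG1 : ∀ r ∈ G, n < r ∧ r ≤ 2 * n + δ ∧ ∀ p, p.Prime → p ∣ r → p ≤ δ)
    (hG2 : ∀ q, q.Prime → q ≤ z → prof G q = E n δ q - prof RL q)
    (hG3 : ∀ p, p.Prime → z < p → p ≤ δ → prof G p = E n δ p) :
    ∃ s : Finset ℕ, (∀ a ∈ s, n < a ∧ a ≤ 2 * n + δ) ∧ ∏ a ∈ s, a = n.factorial := by
  classical
  have hdisj : Disjoint RL G := by
    rw [Finset.disjoint_left]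
    intro r h1 h2
    obtain ⟨_, _, p, hp, hp2, hp3⟩ := hR1 r h1
    have := (hG1 r h2).2.2 p hp hp3
    omega
  refine finish (RL ∪ G) ?_ ?_
  · intro r hr
    rw [Finset.mem_union] at hr
    rcases hr with hr | hr
    · exact ⟨(hR1 r hr).1, (hR1 r hr).2.1⟩
    · exact ⟨(hG1 r hr).1, (hG1 r hr).2.1⟩
  · intro p hp
    rw [prof_union hdisj]
    rcases Nat.lt_or_ge δ p with h | h
    · have h0 : prof G p = 0 := by
        unfold prof
        refine Finset.sum_eq_zero fun r hr => ?_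
        apply Nat.factorization_eq_zero_of_not_dvd
        intro hd
        have := (hG1 r hr).2.2 p hp hd
        omega
      rw [h0, hR2 p hp h, add_zero]
    · rcases Nat.lt_or_ge z p with h' | h'
      · rw [hR3 p hp h' h, hG3 p hp h' h, zero_add]
      · rw [hG2 p hp h']
        have := hR4 p hp h'
        omega

/-- **Upper bound.** -/
theorem upper {ε : ℝ} (hε : 0 < ε) (hε1 : ε ≤ 1 / 2) : ∀ᶠ n : ℕ in atTop, ∃ δ : ℕ,
    ((δ:ℝ) ≤ (c + ε) * (n / Real.log n) + 1) ∧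
    ∃ s : Finset ℕ, (∀ a ∈ s, n < a ∧ a ≤ 2 * n + δ) ∧ ∏ a ∈ s, a = n.factorial := by
  obtain ⟨K₀, hK₀⟩ := mid_cost (ε := ε / 16) (by positivity)
  obtain ⟨K, hK⟩ : ∃ K, K = max K₀ 3 := ⟨_, rfl⟩
  have hKK₀ : K₀ ≤ K := by rw [hK]; exact le_max_left _ _
  have hK3 : 3 ≤ K := by rw [hK]; exact le_max_right _ _
  obtain ⟨z, hz⟩ : ∃ z, z = 2 * K + 2 := ⟨_, rfl⟩
  have hz8 : 8 ≤ z := by omega
  have hz0 : (0:ℝ) < z := by
    have : 0 < z := by omega
    exact_mod_cast this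
  have hz8' : (8:ℝ) ≤ z := by exact_mod_cast hz8
  obtain ⟨ε1, hε1'⟩ : ∃ ε1 : ℝ, ε1 = ε / (8 * z) := ⟨_, rfl⟩
  have hε10 : 0 < ε1 := by rw [hε1']; positivity
  have hε1z : ε1 * (8 * z) = ε := by rw [hε1']; field_simp
  have hη : (0:ℝ) < ε / 4 := by positivity
  have hη1 : ε / 4 ≤ 1 := by linarith
  have hc := c_pos
  have hc1 := c_lt
  have hmain : ∀ᶠ n : ℕ in atTop, ∀ q ∈ (range (z + 1)).filter Nat.Prime,
      ∑ k ∈ Ico 1 K, (((P n k).card : ℝ) * wt q k + (jb k).factorization q)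
      ≤ (c / ((q:ℝ) - 1) + ε1) * (n / Real.log n) := by
    rw [Filter.eventually_all_finset]
    intro q hq
    exact main_load K q (mem_filter.mp hq).2 hε10
  have hL : Tendsto (fun n : ℕ => (n:ℝ) / Real.log n) atTop atTop := by
    have h1 : Tendsto (fun x : ℝ => x / Real.log x) atTop atTop := by
      have h2 : Tendsto (fun x : ℝ => Real.exp x / x ^ 1) atTop atTop :=
        Real.tendsto_exp_div_pow_atTop 1
      have h3 := h2.comp Real.tendsto_log_atTop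
      refine h3.congr' ?_
      filter_upwards [eventually_gt_atTop 0] with x hx
      simp [Real.exp_log hx]
    exact h1.comp tendsto_natCast_atTop_atTop
  filter_upwards [hK₀ K hKK₀, hmain, T_small K (by omega) hη hε10, GL.partG z hz8 (ε / 4) hη hη1,
    log_small hε10, sizes (2 * K) hη, sizes z hη, hL.eventually_ge_atTop 10, eventually_ge_atTop 3]
    with n hmid hmain hT hG hlog hsz hsz' hL10 hn3
  obtain ⟨L, hLdef⟩ : ∃ L : ℝ, L = (n:ℝ) / Real.log n := ⟨_, rfl⟩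
  rw [← hLdef] at hmid hL10 hlog hmain
  have hL0 : 0 < L := by linarith
  obtain ⟨δ, hδ⟩ : ∃ δ : ℕ, δ = ⌈(c + ε) * L⌉₊ := ⟨_, rfl⟩
  have hδlo : (c + ε) * L ≤ δ := by rw [hδ]; exact Nat.le_ceil _
  have hδhi : (δ:ℝ) ≤ (c + ε) * L + 1 := by
    rw [hδ]
    exact (Nat.ceil_lt_add_one (by positivity)).le
  have hδ1 : ε / 4 * n / Real.log n ≤ δ := by
    have h1 : ε / 4 * n / Real.log n = ε / 4 * L := by rw [hLdef]; ring
    rw [h1]
    refine le_trans ?_ hδlo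
    exact mul_le_mul_of_nonneg_right (by linarith) hL0.le
  have hδ2 : (δ:ℝ) ≤ n / Real.log n := by
    rw [← hLdef]
    refine hδhi.trans ?_
    have h1 : (c + ε) * L ≤ 0.66 * L := mul_le_mul_of_nonneg_right (by linarith) hL0.le
    linarith
  obtain ⟨h2Kδ, h2Kδn, h2KKn, hδsq⟩ := hsz δ hδ1 hδ2
  obtain ⟨hzδ, -, -, -⟩ := hsz' δ hδ1 hδ2
  have hKδ : K * δ ≤ n := le_trans (by nlinarith) h2Kδn
  refine ⟨δ, by rw [← hLdef]; exact hδhi, ?_⟩
  obtain ⟨A, hA⟩ := exists_A n K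
  obtain ⟨R, hR1, hR2, hR3, hR4⟩ := RL A hK3 (show 2 * K ≤ z by omega) hzδ hKδ h2KKn hδsq
  have hδn : δ ≤ n := le_trans (Nat.le_mul_of_pos_left δ (by omega)) hKδ
  have hδL : (δ:ℝ) ≤ L := by rw [hLdef]; exact hδ2
  -- loads
  have hload : ∀ q, q.Prime → q ≤ z → (prof R q : ℝ) ≤ (c / ((q:ℝ) - 1) + ε1) * L + ε1 * L
      + (if q ≤ 3 then ε / 16 * L else 0) := by
    intro q hq hqz
    have h1 := hR4 q hq hqz
    have h2 := (hA q).trans (hmain q (by rw [mem_filter, mem_range]; exact ⟨by omega, hq⟩))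
    have h3 := hT δ hδ1 hδ2 hKδ
    rw [← hLdef] at h3
    have h4 : (prof R q : ℝ) ≤ ((∑ p ∈ PB n K, (if p ∈ A then ja (n / p) else jb (n / p)).factorization q : ℕ) : ℝ)
        + (((T n δ K).card * Nat.log 2 (2 * K) : ℕ) : ℝ)
        + ((if q ≤ 3 then ∑ p ∈ Est.Pr (n / K), 2 * (Nat.log 2 (2 * n / p) + 1) else 0 : ℕ) : ℝ) := by
      exact_mod_cast h1
    have h5 : ((if q ≤ 3 then ∑ p ∈ Est.Pr (n / K), 2 * (Nat.log 2 (2 * n / p) + 1) else 0 : ℕ) : ℝ)
        ≤ if q ≤ 3 then ε / 16 * L else 0 := by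
      split
      · exact hmid
      · simp
    linarith
  have hlog' := hlog (2 * n + δ) (by omega)
  have hlogn := hlog n (by omega)
  have hElo : ∀ q, q.Prime → q ≤ z → (c + ε) / ((q:ℝ) - 1) * L - ε1 * L ≤ (E n δ q : ℝ) := by
    intro q hq hqz
    have h1 := E_small_lo n δ q hq
    have hq1 : (0:ℝ) < (q:ℝ) - 1 := by
      have : (1:ℝ) < q := by exact_mod_cast hq.one_lt
      linarith
    have h2 : (c + ε) * L / ((q:ℝ) - 1) ≤ δ / ((q:ℝ) - 1) := div_le_div_of_nonneg_right hδlo hq1.le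
    have h3 : (c + ε) / ((q:ℝ) - 1) * L = (c + ε) * L / ((q:ℝ) - 1) := by ring
    rw [h3]
    have h4 : (0:ℝ) ≤ (Nat.log 2 (2 * n + δ) : ℝ) := Nat.cast_nonneg _
    linarith
  have hgap : ∀ q, q.Prime → q ≤ z → (prof R q : ℝ) + (if q ≤ 3 then ε / 4 * L else 0) ≤ (E n δ q : ℝ) := by
    intro q hq hqz
    have h1 := hload q hq hqz
    have h2 := hElo q hq hqz
    have hq1 : (0:ℝ) < (q:ℝ) - 1 := by
      have : (1:ℝ) < q := by exact_mod_cast hq.one_lt
      linarith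
    have h3 : (c + ε) / ((q:ℝ) - 1) * L = c / ((q:ℝ) - 1) * L + ε / ((q:ℝ) - 1) * L := by ring
    rw [h3] at h2
    have h4 : 64 * ε1 ≤ ε := by
      rw [← hε1z]
      nlinarith
    have h4' : 64 * (ε1 * L) ≤ ε * L := by
      have := mul_le_mul_of_nonneg_right h4 hL0.le
      linarith
    by_cases hq3 : q ≤ 3
    · rw [if_pos hq3] at h1 ⊢
      have h5 : ε / 2 ≤ ε / ((q:ℝ) - 1) := by
        apply div_le_div_of_nonneg_left hε.le hq1
        have : (q:ℝ) ≤ 3 := by exact_mod_cast hq3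
        linarith
      have h6 := mul_le_mul_of_nonneg_right h5 hL0.le
      linarith
    · rw [if_neg hq3] at h1 ⊢
      have h5 : ε / z ≤ ε / ((q:ℝ) - 1) := by
        apply div_le_div_of_nonneg_left hε.le hq1
        have : (q:ℝ) ≤ z := by exact_mod_cast hqz
        linarith
      have h6 := mul_le_mul_of_nonneg_right h5 hL0.le
      have h7 : ε / z = 8 * ε1 := by
        rw [hε1']; field_simp
      rw [h7] at h6
      have h8 : 0 ≤ ε1 * L := by positivity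
      linarith
  have hgap' : ∀ q, q.Prime → q ≤ z → prof R q ≤ E n δ q := by
    intro q hq hqz
    have h1 := hgap q hq hqz
    have h2 : (0:ℝ) ≤ if q ≤ 3 then ε / 4 * L else 0 := by
      split
      · positivity
      · exact le_rfl
    have h3 : (prof R q : ℝ) ≤ (E n δ q : ℝ) := by linarith
    exact_mod_cast h3
  have hEhi : ∀ q, q.Prime → (E n δ q : ℝ) ≤ 2 * δ := by
    intro q hq
    have h1 := E_small_hi n δ q hq
    have hq1 : (1:ℝ) ≤ (q:ℝ) - 1 := by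
      have : (2:ℝ) ≤ q := by exact_mod_cast hq.two_le
      linarith
    have h2 : (δ:ℝ) / ((q:ℝ) - 1) ≤ δ := div_le_self (Nat.cast_nonneg _) hq1
    have h3 : ε1 * L ≤ δ := by
      refine le_trans ?_ hδlo
      apply mul_le_mul_of_nonneg_right _ hL0.le
      nlinarith
    linarith
  have ht : ∀ q, q.Prime → ((E n δ q - prof R q : ℕ) : ℝ) ≤ 2 * δ := by
    intro q hq
    refine le_trans ?_ (hEhi q hq)
    exact_mod_cast Nat.sub_le _ _
  have ht' : ∀ q, q.Prime → q ≤ 3 → ε / 4 * δ ≤ ((E n δ q - prof R q : ℕ) : ℝ) := by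
    intro q hq hq3
    have h1 := hgap q hq (by omega)
    rw [if_pos hq3] at h1
    rw [Nat.cast_sub (hgap' q hq (by omega))]
    have h2 : ε / 4 * δ ≤ ε / 4 * L := mul_le_mul_of_nonneg_left hδL hη.le
    linarith
  obtain ⟨G, hG1, hG2, hG3⟩ := hG δ hδ1 hδ2 (fun q => E n δ q - prof R q)
    (fun q hq => ht q (mem_Od.mp hq).1) (ht 2 Nat.prime_two) (ht' 2 Nat.prime_two (by norm_num))
    (ht' 3 Nat.prime_three le_rfl)
  exact combine hzδ hR1 hR2 hR3 hgap' hG1 hG2 hG3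

end Pool.Agent.Helper602.Fin3
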